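import Pool.Agent.Work.MP_11a08a_al.Sol.RB

/-!
A subnormal series with abelian or bounded factors bounds the nonabelian simple sections.
-/

set_option autoImplicit false

namespace Pool.Agent.Work.MP_11a08a_al.Sol

lemma series_step {G : Type} [Group G] [Finite G] {d : ℕ} {N T : Subgroup G} (hN : SecBd d N)
    (hn : ∀ x ∈ T, ∀ y ∈ N, x * y * x⁻¹ ∈ N)
    (hq : (∀ x ∈ T, ∀ y ∈ T, x * y * x⁻¹ * y⁻¹ ∈ N) ∨ N.relIndex T ≤ d) : SecBd d T := by
  intro B hB A hA hs
  have hK : (N.subgroupOf B).Normal :=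
    ⟨fun y hy x => Subgroup.mem_subgroupOf.2 (hn x.1 (hB x.2) y.1 (Subgroup.mem_subgroupOf.1 hy))⟩
  have hM : ((N.subgroupOf B).map (QuotientGroup.mk' A)).Normal :=
    hK.map _ (QuotientGroup.mk'_surjective A)
  rcases hM.eq_bot_or_eq_top with h | h
  · have hle : N.subgroupOf B ≤ A := by
      rw [Subgroup.map_eq_bot_iff, QuotientGroup.ker_mk'] at h
      exact h
    rcases hq with hq | hq
    · refine Or.inl fun x y => ?_
      obtain ⟨x, rfl⟩ := QuotientGroup.mk_surjective x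
      obtain ⟨y, rfl⟩ := QuotientGroup.mk_surjective y
      have h1 : x * y * x⁻¹ * y⁻¹ ∈ A :=
        hle (Subgroup.mem_subgroupOf.2 (hq x.1 (hB x.2) y.1 (hB y.2)))
      have h2 := (QuotientGroup.eq_one_iff (N := A) _).2 h1
      rw [QuotientGroup.mk_mul, QuotientGroup.mk_mul, QuotientGroup.mk_mul, QuotientGroup.mk_inv,
        QuotientGroup.mk_inv, mul_inv_eq_one, mul_inv_eq_iff_eq_mul] at h2
      exact h2
    · refine Or.inr (le_trans ?_ hq)
      have h0 : N.relIndex T ≠ 0 := Subgroup.index_ne_zero_of_finite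
      exact (Nat.le_of_dvd (Nat.pos_of_ne_zero Subgroup.index_ne_zero_of_finite)
        (Subgroup.index_dvd_of_le hle)).trans (Subgroup.relIndex_le_of_le_right hB h0)
  · let φ : (B ⊓ N : Subgroup G) →* B ⧸ A :=
      (QuotientGroup.mk' A).comp (Subgroup.inclusion inf_le_left)
    have hφ : Function.Surjective φ := fun z => by
      have : z ∈ (N.subgroupOf B).map (QuotientGroup.mk' A) := h ▸ Subgroup.mem_top z
      obtain ⟨y, hy, rfl⟩ := this
      exact ⟨⟨y.1, y.2, Subgroup.mem_subgroupOf.1 hy⟩, rfl⟩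
    let e := QuotientGroup.quotientKerEquivOfSurjective φ hφ
    have hs' : IsSimpleGroup ((B ⊓ N : Subgroup G) ⧸ φ.ker) := e.isSimpleGroup
    rcases hN (B ⊓ N) inf_le_right φ.ker inferInstance hs' with h1 | h1
    · refine Or.inl fun x y => ?_
      obtain ⟨x, rfl⟩ := e.surjective x
      obtain ⟨y, rfl⟩ := e.surjective y
      rw [← map_mul, ← map_mul, h1]
    · exact Or.inr ((Nat.card_congr e.toEquiv).symm.le.trans h1)

lemma series_secBd {G : Type} [Group G] [Finite G] {d : ℕ} (T : ℕ → Subgroup G) (h0 : T 0 = ⊥)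
    (k : ℕ) (h : ∀ i < k, (∀ x ∈ T (i + 1), ∀ y ∈ T i, x * y * x⁻¹ ∈ T i) ∧
      ((∀ x ∈ T (i + 1), ∀ y ∈ T (i + 1), x * y * x⁻¹ * y⁻¹ ∈ T i) ∨
        (T i).relIndex (T (i + 1)) ≤ d)) : SecBd d (T k) := by
  induction k with
  | zero =>
    intro B hB A _ _
    rw [h0, le_bot_iff] at hB
    subst hB
    refine Or.inl fun x y => ?_
    obtain ⟨x, rfl⟩ := QuotientGroup.mk_surjective x
    obtain ⟨y, rfl⟩ := QuotientGroup.mk_surjective y
    rw [Subsingleton.elim x y]
  | succ k ih =>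
    exact series_step (ih fun i hi => h i (Nat.lt_succ_of_lt hi)) (h k (Nat.lt_succ_self k)).1
      (h k (Nat.lt_succ_self k)).2

end Pool.Agent.Work.MP_11a08a_al.Sol
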