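import Mathlib
import Pool.Agent.Lib.PFR.Duality

-- merged part: Pool.Agent.Work.MP_11a08a_al.Sol.Near
section
-- merged part: Pool.Agent.Work.MP_11a08a_al.MV.Defs
section
/-!
Statements used in the proof of the rank bound for abelian-by-(class two) configurations in
characteristic zero.  Matrices have entries in `ZMod M`; `sz f I J` is the order of the group
generated by the rows of the submatrix of `f` on `I × J`.
-/

set_option autoImplicit false

open Finset
open scoped commutatorElement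

namespace Pool.Agent.Work.MP_11a08a_al.MV

/-- Row `i` of `f`, cut down to the columns in `J`. -/
def row {κ : Type} [DecidableEq κ] {M : ℕ} (f : κ → κ → ZMod M) (J : Finset κ) (i : κ) :
    κ → ZMod M := fun j => if j ∈ J then f i j else 0

/-- The group generated by the rows in `I` of the submatrix on the columns `J`. -/
def rowG {κ : Type} [DecidableEq κ] {M : ℕ} (f : κ → κ → ZMod M) (I J : Finset κ) :
    AddSubgroup (κ → ZMod M) := AddSubgroup.closure (row f J '' (I : Set κ))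

/-- The order of the row group. -/
noncomputable def sz {κ : Type} [DecidableEq κ] {M : ℕ} (f : κ → κ → ZMod M) (I J : Finset κ) :
    ℕ := Nat.card (rowG f I J)

/-- Approximate duality in bounded torsion: a biased matrix has a large constant rectangle. -/
def StmtAD : Prop :=
  ∀ (m : ℕ) (α δ : ℝ), 0 < m → 0 < α → 0 < δ → ∃ c : ℝ, 0 < c ∧
    ∀ (κ : Type) [Fintype κ] [DecidableEq κ] (M : ℕ) [NeZero M] (g : κ → κ → ZMod M)
      (I J : Finset κ), (∀ i ∈ I, ∀ j ∈ J, m • g i j = 0) → I.Nonempty → J.Nonempty →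
      α * I.card * J.card ≤ ‖∑ i ∈ I, ∑ j ∈ J, ZMod.stdAddChar (g i j)‖ →
      ∃ I₁ ⊆ I, ∃ J₁ ⊆ J, ∃ z : ZMod M,
        c * I.card ≤ (sz g I J : ℝ) ^ δ * I₁.card ∧ c * J.card ≤ (sz g I J : ℝ) ^ δ * J₁.card ∧
        ∀ i ∈ I₁, ∀ j ∈ J₁, g i j = z

/-- The step for large torsion: a matrix with many zeros has a large rectangle killed by `m₁`. -/
def StmtW : Prop :=
  ∀ (m : ℕ) (η δ : ℝ), 0 < m → 0 < η → 0 < δ → ∃ (m₁ : ℕ) (c : ℝ), 0 < m₁ ∧ m ∣ m₁ ∧ 0 < c ∧
    ∀ (κ : Type) [Fintype κ] [DecidableEq κ] (M : ℕ) [NeZero M] (f : κ → κ → ZMod M)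
      (I J : Finset κ), I.Nonempty → J.Nonempty →
      η * I.card * J.card ≤ (((I ×ˢ J).filter fun x => f x.1 x.2 = 0).card : ℝ) →
      ∃ I₁ ⊆ I, ∃ J₁ ⊆ J,
        c * I.card ≤ (sz f I J : ℝ) ^ δ * I₁.card ∧ c * J.card ≤ (sz f I J : ℝ) ^ δ * J₁.card ∧
        ∀ i ∈ I₁, ∀ j ∈ J₁, m₁ • f i j = 0

open Classical in
/-- Generalised matching vector families with a bounded number of tests are small. -/
def StmtStar : Prop :=
  ∀ (C : ℕ) (δ : ℝ), 0 < δ → ∃ c B : ℝ, 0 < c ∧ 1 ≤ B ∧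
    ∀ (κ : Type) [Fintype κ] [DecidableEq κ] (M : ℕ) [NeZero M] (N w : ℕ)
      (f : Fin C → κ → κ → ZMod M) (D : Fin C → κ → κ → Prop) (d : Fin C → ZMod M)
      (p : Finset κ → ℕ), 1 ≤ N → (∀ I, p I ≤ w) →
      (∀ I I' : Finset κ, I' ⊆ I → I'.Nonempty → p I ≤ p I') →
      (∀ (t : Fin C) (I : Finset κ) (η : ℝ), 0 < η → I.Nonempty →
        η * (I.card : ℝ) ^ 2 ≤ (((I ×ˢ I).filter fun x => D t x.1 x.2).card : ℝ) →
        ∃ I' ⊆ I, η * I.card ≤ 2 * I'.card ∧ ((∀ i ∈ I', ∀ j ∈ I', D t i j) ∨ p I < p I')) →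
      (∀ (t : Fin C) (I : Finset κ), (∀ i ∈ I, ∀ j ∈ I, D t i j) → sz (f t) I I ≤ N) →
      (∀ t i, D t i i → f t i i = d t ∧ d t ≠ 0) →
      (∀ i j, i ≠ j → ∃ t, D t i j ∧ f t i j = 0) →
      (Fintype.card κ : ℝ) ≤ c * B ^ w * (N : ℝ) ^ δ

/-- The rank bound (the conjecture of the problem) in characteristic zero when the quotients of
the group elements lie in the second centre modulo an abelian normal subgroup. -/
def StmtFinal : Prop :=
  ∀ ε : ℝ, 0 < ε → ∀ q : ℕ, ∃ N : ℕ, ∀ n > N,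
    ∀ (F : Type) [Field F] [CharZero F] (G : Type) [Group G] [Finite G] (A : Subgroup G),
      A.Normal → IsMulCommutative A →
      ∀ ρ : Representation F G (Fin n → F), ρ.IsIrreducible → (Nat.card G : ℝ) ^ ε ≤ n →
      ∀ (h : Fin q → G) (α : Fin q → F),
        (∀ (l l' : Fin q) (x y : G), ⁅⁅(h l)⁻¹ * h l', x⁆, y⁆ ∈ A) → ∑ l, α l • ρ (h l) ≠ 0 →
        (n : ℝ) ^ (1 - ε) ≤ Module.finrank F (LinearMap.range (∑ l, α l • ρ (h l)))

end Pool.Agent.Work.MP_11a08a_al.MV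
end

-- merged part: Pool.Agent.Work.MP_11a08a_al.MV.Star1
section
/-!
Row groups, the potential loop and the character sum used for generalised matching vector
families.
-/

set_option autoImplicit false
set_option linter.unusedSectionVars false

open Finset

namespace Pool.Agent.Work.MP_11a08a_al.MV

variable {κ : Type} [Fintype κ] [DecidableEq κ] {M : ℕ} [NeZero M]
  {f g : κ → κ → ZMod M} {I I' J J' : Finset κ}

lemma star_row_mem (f : κ → κ → ZMod M) (J : Finset κ) {i : κ} (hi : i ∈ I) :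
    row f J i ∈ rowG f I J := AddSubgroup.subset_closure ⟨i, hi, rfl⟩

lemma star_rowG_le {A : AddSubgroup (κ → ZMod M)} (h : ∀ i ∈ I, row f J i ∈ A) :
    rowG f I J ≤ A :=
  (AddSubgroup.closure_le _).2 (by rintro _ ⟨i, hi, rfl⟩; exact h i hi)

lemma star_one_le (f : κ → κ → ZMod M) (I J : Finset κ) : 1 ≤ sz f I J := Nat.card_pos

/-- Restriction to the columns in `J`. -/
def starRes (J : Finset κ) : (κ → ZMod M) →+ (κ → ZMod M) where
  toFun r := fun j => if j ∈ J then r j else 0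
  map_zero' := by ext j; simp
  map_add' a b := by ext j; by_cases h : j ∈ J <;> simp [h]

lemma star_map_res (f : κ → κ → ZMod M) (I : Finset κ) (hJ : J' ⊆ J) :
    (rowG f I J).map (starRes J') = rowG f I J' := by
  rw [rowG, AddMonoidHom.map_closure, Set.image_image, rowG]
  congr 2
  funext i j
  by_cases h : j ∈ J'
  · simp [starRes, row, h, hJ h]
  · simp [starRes, row, h]

lemma star_mono (f : κ → κ → ZMod M) (hI : I' ⊆ I) (hJ : J' ⊆ J) : sz f I' J' ≤ sz f I J := by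
  have h1 : sz f I' J' ≤ sz f I J' :=
    AddSubgroup.card_le_of_le (star_rowG_le fun i hi => star_row_mem f J' (hI hi))
  refine h1.trans ?_
  rw [sz, ← star_map_res f I hJ]
  exact Nat.le_of_dvd Nat.card_pos (AddSubgroup.card_map_dvd _ _)

lemma star_smul (k : ℕ) (f : κ → κ → ZMod M) (I J : Finset κ) :
    sz (fun i j => k • f i j) I J ≤ sz f I J := by
  refine AddSubgroup.card_le_of_le (star_rowG_le fun i hi => ?_)
  have : row (fun i j => k • f i j) J i = k • row f J i := by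
    funext j
    by_cases h : j ∈ J <;> simp [row, h]
  rw [this]
  exact nsmul_mem (star_row_mem f J hi) k

lemma star_add (f g : κ → κ → ZMod M) (I J : Finset κ) :
    sz (fun i j => f i j + g i j) I J ≤ sz f I J * sz g I J := by
  have h1 : rowG (fun i j => f i j + g i j) I J ≤ rowG f I J ⊔ rowG g I J :=
    star_rowG_le fun i hi => by
      have : row (fun i j => f i j + g i j) J i = row f J i + row g J i := by
        funext j
        by_cases h : j ∈ J <;> simp [row, h]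
      rw [this]
      exact AddSubgroup.add_mem_sup (star_row_mem f J hi) (star_row_mem g J hi)
  refine (AddSubgroup.card_le_of_le h1).trans ?_
  rw [sz, sz, ← Nat.card_prod]
  refine Nat.card_le_card_of_surjective
    (fun x => ⟨x.1.1 + x.2.1, AddSubgroup.add_mem_sup x.1.2 x.2.2⟩) fun y => ?_
  obtain ⟨a, ha, b, hb, e⟩ := AddSubgroup.mem_sup.1 y.2
  exact ⟨(⟨a, ha⟩, ⟨b, hb⟩), Subtype.ext e⟩

lemma star_sum {ι : Type} (T : Finset ι) (F : ι → κ → κ → ZMod M) (a : ι → ℕ) (I J : Finset κ)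
    {N : ℕ} (h : ∀ t ∈ T, sz (F t) I J ≤ N) :
    sz (fun i j => ∑ t ∈ T, a t • F t i j) I J ≤ N ^ T.card := by
  classical
  induction T using Finset.induction_on with
  | empty =>
    have : rowG (fun _ _ => (0 : ZMod M)) I J ≤ ⊥ := star_rowG_le fun i _ => by
      rw [AddSubgroup.mem_bot]
      funext j
      simp [row]
    simpa [sz] using AddSubgroup.card_le_of_le this
  | insert t T ht ih =>
    simp only [sum_insert ht]
    rw [card_insert_of_notMem ht, pow_succ']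
    exact (star_add (fun i j => a t • F t i j) _ I J).trans (Nat.mul_le_mul
      ((star_smul _ _ I J).trans (h t (mem_insert_self _ _)))
      (ih fun s hs => h s (mem_insert_of_mem hs)))

lemma star_card_ker {G H : Type} [AddGroup G] [AddGroup H] (A : AddSubgroup G) (φ : G →+ H) :
    Nat.card A = Nat.card (φ.ker ⊓ A : AddSubgroup G) * Nat.card (A.map φ) := by
  rw [← AddSubgroup.relIndex_ker, ← AddSubgroup.inf_relIndex_right,
    ← AddSubgroup.relIndex_bot_left, ← AddSubgroup.relIndex_bot_left,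
    AddSubgroup.relIndex_mul_relIndex ⊥ _ A bot_le inf_le_right]

lemma star_halve {m : ℕ} (hm : 0 < m) {z : ZMod M} (hz : m • z = 0) (hI : I' ⊆ I) (hJ : J' ⊆ J)
    (h : ∀ i ∈ I', ∀ j ∈ J', f i j = z) : sz f I' J * sz f I J' ≤ m * sz f I J := by
  have e1 := star_card_ker (rowG f I J) (starRes J')
  have e2 := star_card_ker (rowG f I' J) (starRes J')
  rw [star_map_res f _ hJ] at e1 e2
  have h1 : Nat.card ((starRes J').ker ⊓ rowG f I' J : AddSubgroup (κ → ZMod M)) ≤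
      Nat.card ((starRes J').ker ⊓ rowG f I J : AddSubgroup (κ → ZMod M)) :=
    AddSubgroup.card_le_of_le
      (inf_le_inf_left _ (star_rowG_le fun i hi => star_row_mem f J (hI hi)))
  have h2 : rowG f I' J' ≤ AddSubgroup.zmultiples fun j => if j ∈ J' then z else 0 :=
    star_rowG_le fun i hi => by
      have : row f J' i = fun j => if j ∈ J' then z else 0 := by
        funext j
        by_cases hj : j ∈ J'
        · simp [row, hj, h i hi j hj]
        · simp [row, hj]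
      rw [this]
      exact AddSubgroup.mem_zmultiples _
  have h3 : Nat.card (rowG f I' J') ≤ m := by
    refine (AddSubgroup.card_le_of_le h2).trans ?_
    rw [Nat.card_zmultiples]
    refine addOrderOf_le_of_nsmul_eq_zero hm ?_
    funext j
    rw [Pi.smul_apply]
    split_ifs
    · exact hz
    · simp
  rw [sz, sz, sz, e1, e2, ← mul_assoc, mul_comm m]
  exact Nat.mul_le_mul_right _ (Nat.mul_le_mul h1 h3)

lemma star_kill (f : κ → κ → ZMod M) (hI : I.Nonempty) :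
    ∃ I' ⊆ I, I.card ≤ I'.card * sz f I I ∧ ∀ i ∈ I', ∀ j ∈ I', f i j = f j j := by
  obtain ⟨i0, -, h0⟩ := exists_max_image I
    (fun i => (I.filter fun a => row f I a = row f I i).card) hI
  refine ⟨I.filter fun a => row f I a = row f I i0, filter_subset _ _, ?_, fun i hi j hj => ?_⟩
  · refine (card_le_mul_card_image (f := row f I) I _ fun b hb => ?_).trans
      (Nat.mul_le_mul_left _ ?_)
    · obtain ⟨i, hi, rfl⟩ := mem_image.1 hb
      exact h0 i hi
    · rw [← Nat.card_eq_finsetCard]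
      refine Nat.card_mono (Set.toFinite (rowG f I I : Set (κ → ZMod M))) fun b hb => ?_
      obtain ⟨i, hi, rfl⟩ := mem_image.1 hb
      exact star_row_mem f I hi
  · have := congrFun ((mem_filter.1 hi).2.trans (mem_filter.1 hj).2.symm) j
    simpa [row, (mem_filter.1 hj).1] using this

lemma star_loop (Φ : Finset κ → ℝ) (P : Finset κ → Prop) {e : ℝ} (he : 0 ≤ e) (h0 : ∀ I, 0 ≤ Φ I)
    (I₀ : Finset κ) (hstep : ∀ I ⊆ I₀, ¬ P I → ∃ I' ⊆ I, ∃ γ : ℝ, 0 < γ ∧ Φ I' + γ ≤ Φ I ∧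
      (I.card : ℝ) ≤ I'.card * Real.exp (e * γ)) :
    ∀ I ⊆ I₀, ∃ I' ⊆ I, P I' ∧ (I.card : ℝ) ≤ I'.card * Real.exp (e * Φ I) := by
  intro I
  induction I using Finset.strongInduction with
  | H I ih =>
    intro hI
    by_cases hP : P I
    · exact ⟨I, subset_rfl, hP, le_mul_of_one_le_right (Nat.cast_nonneg _)
        (Real.one_le_exp (mul_nonneg he (h0 I)))⟩
    · obtain ⟨I₁, s1, γ, g0, g1, g2⟩ := hstep I hI hP
      have hne : I₁ ≠ I := fun h => by rw [h] at g1; linarith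
      obtain ⟨I₂, s2, p2, g3⟩ := ih I₁ (s1.ssubset_of_ne hne) (s1.trans hI)
      refine ⟨I₂, s2.trans s1, p2, g2.trans ((mul_le_mul_of_nonneg_right g3
        (Real.exp_pos _).le).trans ?_)⟩
      rw [mul_assoc, ← Real.exp_add, ← mul_add]
      exact mul_le_mul_of_nonneg_left (Real.exp_le_exp.2 (mul_le_mul_of_nonneg_left g1 he))
        (Nat.cast_nonneg _)

lemma star_gain {ι : Type} (A : Finset ι) (u v : ι → ℝ) (h : ∀ a ∈ A, u a ≤ v a) {a₀ : ι}
    (ha : a₀ ∈ A) {γ : ℝ} (hγ : u a₀ + γ ≤ v a₀) : ∑ a ∈ A, u a + γ ≤ ∑ a ∈ A, v a := by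
  classical
  rw [← add_sum_erase A u ha, ← add_sum_erase A v ha]
  have := sum_le_sum fun a (ha : a ∈ A.erase a₀) => h a (mem_of_mem_erase ha)
  linarith

open Classical in
/-- The potential of one matrix. -/
noncomputable def starPsi (g : κ → κ → ZMod M) (z : ZMod M) (L : ℝ) (I : Finset κ) : ℝ :=
  Real.log (sz g I I) + if ∀ i ∈ I, ∀ j ∈ I, g i j = z then 0 else L

lemma star_log_nonneg (g : κ → κ → ZMod M) (I J : Finset κ) : 0 ≤ Real.log (sz g I J) :=
  Real.log_nonneg (by exact_mod_cast star_one_le g I J)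

lemma star_log_le {a b : ℕ} (ha : 1 ≤ a) (h : a ≤ b) : Real.log a ≤ Real.log b :=
  Real.log_le_log (by exact_mod_cast ha) (by exact_mod_cast h)

variable {z : ZMod M} {L : ℝ}

lemma starPsi_nonneg (hL : 0 ≤ L) : 0 ≤ starPsi g z L I := by
  have := star_log_nonneg g I I
  unfold starPsi
  split_ifs <;> linarith

lemma starPsi_le (hL : 0 ≤ L) {S : ℕ} (h : sz g I I ≤ S) : starPsi g z L I ≤ Real.log S + L := by
  have := star_log_le (star_one_le g I I) h
  unfold starPsi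
  split_ifs <;> linarith only [hL, this]

lemma starPsi_mono (hL : 0 ≤ L) (h : I' ⊆ I) : starPsi g z L I' ≤ starPsi g z L I := by
  have := star_log_le (star_one_le g I' I') (star_mono g h h)
  unfold starPsi
  by_cases h1 : ∀ i ∈ I, ∀ j ∈ I, g i j = z
  · rw [if_pos h1, if_pos fun i hi j hj => h1 i (h hi) j (h hj)]
    linarith
  · rw [if_neg h1]
    split_ifs <;> linarith

lemma starPsi_step {e : ℝ} (he : 0 < e) (hL : 0 < L) {m : ℕ} (hm : 0 < m)
    (hmL : 3 * Real.log m ≤ e * L) (hI : I.Nonempty) (hz : ∀ i ∈ I, g i i = z)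
    (alive : ¬ ∀ i ∈ I, ∀ j ∈ I, g i j = z) {I₁ J₁ : Finset κ} (s1 : I₁ ⊆ I) (s2 : J₁ ⊆ I)
    {y : ZMod M} (hy : m • y = 0) (h : ∀ i ∈ I₁, ∀ j ∈ J₁, g i j = y)
    (c1 : (I.card : ℝ) ≤ I₁.card * Real.exp (e * (e * L / 3)))
    (c2 : (I.card : ℝ) ≤ J₁.card * Real.exp (e * (e * L / 3))) :
    ∃ I' ⊆ I, ∃ γ : ℝ, 0 < γ ∧ starPsi g z L I' + γ ≤ starPsi g z L I ∧
      (I.card : ℝ) ≤ I'.card * Real.exp (e * γ) := by
  have e0 : starPsi g z L I = Real.log (sz g I I) + L := by rw [starPsi, if_neg alive]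
  have p0 : ∀ I J, (0 : ℝ) < sz g I J := fun I J => by exact_mod_cast star_one_le g I J
  by_cases hl : Real.log (sz g I I) ≤ e * L
  · obtain ⟨I', s, k1, k2⟩ := star_kill g hI
    refine ⟨I', s, L, hL, ?_, ?_⟩
    · rw [e0, starPsi, if_pos fun i hi j hj => (k2 i hi j hj).trans (hz j (s hj))]
      linarith [star_log_le (star_one_le g I' I') (star_mono g s s)]
    · have : (I.card : ℝ) ≤ I'.card * sz g I I := by exact_mod_cast k1
      exact this.trans (mul_le_mul_of_nonneg_left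
        ((Real.log_le_iff_le_exp (p0 I I)).1 hl) (Nat.cast_nonneg _))
  · have h1 : sz g I₁ I₁ * sz g J₁ J₁ ≤ m * sz g I I :=
      (Nat.mul_le_mul (star_mono g subset_rfl s1) (star_mono g s2 subset_rfl)).trans
        (star_halve hm hy s1 s2 h)
    have h2 := star_log_le (Nat.mul_pos (star_one_le g _ _) (star_one_le g _ _)) h1
    have m0 : (0 : ℝ) < m := by exact_mod_cast hm
    rw [Nat.cast_mul, Nat.cast_mul, Real.log_mul (p0 _ _).ne' (p0 _ _).ne',
      Real.log_mul m0.ne' (p0 _ _).ne'] at h2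
    have h3 := starPsi_le (g := g) (z := z) (I := I₁) hL.le le_rfl
    have h4 := starPsi_le (g := g) (z := z) (I := J₁) hL.le le_rfl
    rcases le_total (Real.log (sz g I₁ I₁)) (Real.log (sz g J₁ J₁)) with h5 | h5
    · exact ⟨I₁, s1, e * L / 3, by positivity, by linarith only [hmL, e0, hl, h2, h3, h5], c1⟩
    · exact ⟨J₁, s2, e * L / 3, by positivity, by linarith only [hmL, e0, hl, h2, h4, h5], c2⟩

lemma star_geom {m : ℕ} {y : ZMod M} (hy : m • y = 0) :
    ∑ a : Fin m, ZMod.stdAddChar ((a : ℕ) • y) = if y = 0 then (m : ℂ) else 0 := by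
  split_ifs with h
  · simp [h]
  · simp only [AddChar.map_nsmul_eq_pow]
    rw [Fin.sum_univ_eq_sum_range fun a => ZMod.stdAddChar y ^ a]
    have h1 : ZMod.stdAddChar y ≠ 1 := fun h1 =>
      h (ZMod.injective_stdAddChar (h1.trans (AddChar.map_zero_eq_one _).symm))
    rw [geom_sum_eq h1, ← AddChar.map_nsmul_eq_pow, hy, AddChar.map_zero_eq_one, sub_self,
      zero_div]

lemma star_char_sum {ι : Type} (T : Finset ι) (y : ι → ZMod M) :
    ZMod.stdAddChar (∑ t ∈ T, y t) = ∏ t ∈ T, ZMod.stdAddChar (y t) := by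
  classical
  induction T using Finset.induction_on with
  | empty => simp
  | insert t T ht ih => rw [sum_insert ht, prod_insert ht, AddChar.map_add_eq_mul, ih]

lemma star_orth {C m : ℕ} (T : Finset (Fin C)) (y : Fin C → ZMod M) (hy : ∀ t ∈ T, m • y t = 0) :
    ∑ χ : Fin C → Fin m, ZMod.stdAddChar (∑ t ∈ T, (χ t : ℕ) • y t) =
      if ∀ t ∈ T, y t = 0 then (m : ℂ) ^ C else 0 := by
  have e : ∀ χ : Fin C → Fin m, ZMod.stdAddChar (∑ t ∈ T, (χ t : ℕ) • y t) =
      ∏ t : Fin C, ZMod.stdAddChar ((χ t : ℕ) • if t ∈ T then y t else 0) := fun χ => by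
    rw [← star_char_sum]
    congr 1
    simp only [smul_ite, smul_zero]
    rw [sum_ite_mem, univ_inter]
  simp only [e]
  rw [← Fintype.piFinset_univ, ← prod_univ_sum (fun _ : Fin C => (univ : Finset (Fin m)))
    fun t a => ZMod.stdAddChar ((a : ℕ) • if t ∈ T then y t else 0)]
  have e2 : ∀ t : Fin C, ∑ a : Fin m, ZMod.stdAddChar ((a : ℕ) • if t ∈ T then y t else 0) =
      if (if t ∈ T then y t else 0) = 0 then (m : ℂ) else 0 := fun t => star_geom (by
    split_ifs with h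
    · exact hy t h
    · exact smul_zero _)
  simp only [e2]
  split_ifs with h
  · rw [prod_congr rfl fun t _ => if_pos (ite_eq_right_iff.2 (h t))]
    simp
  · push Not at h
    obtain ⟨t, ht, h⟩ := h
    exact prod_eq_zero (mem_univ t) (if_neg (by rwa [if_pos ht]))

end Pool.Agent.Work.MP_11a08a_al.MV
end

-- merged part: Pool.Agent.Work.MP_11a08a_al.Sol.DefsA
section
/-!
Definitions and statements for the combinatorial layer: relations on an index type (first index a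
row, second index a column), tame tests, wild tests, coset tests.
-/

set_option autoImplicit false

open Finset

namespace Pool.Agent.Work.MP_11a08a_al.Sol

open Pool.Agent.Work.MP_11a08a_al.MV

open Classical in
/-- The number of pairs of `I × I` in the relation. -/
noncomputable def dens {κ : Type} (Z : κ → κ → Prop) (I : Finset κ) : ℕ :=
  ((I ×ˢ I).filter fun x => Z x.1 x.2).card

/-- On `I × I` the relation is contained in the zero set of a matrix of torsion `m` with constant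
nonzero diagonal and row group of order at most `N`. -/
def Tame {κ : Type} [DecidableEq κ] (M m N : ℕ) (I : Finset κ) (Z : κ → κ → Prop) : Prop :=
  ∃ (f : κ → κ → ZMod M) (d : ZMod M), d ≠ 0 ∧ (∀ i ∈ I, f i i = d) ∧
    (∀ i ∈ I, ∀ j ∈ I, m • f i j = 0) ∧ (∀ i ∈ I, ∀ j ∈ I, Z i j → f i j = 0) ∧ sz f I I ≤ N

/-- A relation with empty diagonal and a potential: where it is dense, either the potential drops
cheaply or `Conv` holds on a large subset. -/
def Wild {κ : Type} (g : ℝ → ℝ) (β : ℝ → ℝ → ℝ → ℕ) (N : ℕ) (Z : κ → κ → Prop)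
    (Conv : ℕ → Finset κ → Prop) : Prop :=
  (∀ i, ¬ Z i i) ∧ ∃ ψ : Finset κ → ℝ, (∀ I, 0 ≤ ψ I ∧ ψ I ≤ Real.log N) ∧
    (∀ I I' : Finset κ, I' ⊆ I → ψ I' ≤ ψ I) ∧
    ∀ η lam δ : ℝ, 0 < η → 0 < lam → 0 < δ → ∀ I : Finset κ, I.Nonempty →
      η * (I.card : ℝ) ^ 2 ≤ dens Z I →
      (∃ I' ⊆ I, (I.card : ℝ) ≤ g η * I'.card ∧ ψ I' + lam ≤ ψ I) ∨
      ∃ I' ⊆ I, (I.card : ℝ) ≤ β η lam δ * (N : ℝ) ^ δ * I'.card ∧ Conv (β η lam δ) I'

/-- Wild tests of level one convert to a tame test. -/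
def W1 {κ : Type} [DecidableEq κ] (g : ℝ → ℝ) (β : ℝ → ℝ → ℝ → ℕ) (M N : ℕ)
    (Z : κ → κ → Prop) : Prop :=
  Wild g β N Z fun b I => Tame M b.factorial N I Z

/-- Wild tests of level two convert to a bounded family of tests of level one. -/
def W2 {κ : Type} [DecidableEq κ] (g : ℝ → ℝ) (β β' : ℝ → ℝ → ℝ → ℕ) (M N : ℕ)
    (Z : κ → κ → Prop) : Prop :=
  Wild g β' N Z fun b I => ∃ Z' : Fin b → κ → κ → Prop, (∀ s, W1 g β M N (Z' s)) ∧
    ∀ i ∈ I, ∀ j ∈ I, Z i j → ∃ s, Z' s i j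

/-- A family covered off the diagonal by a bounded number of tests of level two is small. -/
def StmtAbs : Prop :=
  ∀ (g : ℝ → ℝ) (β β' : ℝ → ℝ → ℝ → ℕ) (n : ℕ) (δ : ℝ), 0 < δ → ∃ c : ℝ, 0 < c ∧
    ∀ (κ : Type) [Fintype κ] [DecidableEq κ] (M : ℕ) [NeZero M] (N : ℕ) (ι : Type) [Fintype ι]
      (Z : ι → κ → κ → Prop), 1 ≤ N → Fintype.card ι ≤ n → (∀ t, W2 g β β' M N (Z t)) →
      (∀ i j, i ≠ j → ∃ t, Z t i j) → (Fintype.card κ : ℝ) ≤ c * (N : ℝ) ^ δ

/-- A dense symmetric set generates a subgroup in boundedly many steps. -/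
def StmtDense : Prop :=
  ∀ (Q : Type) [Group Q] [Finite Q] (f : Q → ℕ) (T k : ℕ), 1 ≤ T → f 1 ≤ T →
    (∀ x y, f (x * y) ≤ f x * f y) → (∀ x, f x⁻¹ = f x) →
    Nat.card Q ≤ k * Nat.card {x : Q // f x ≤ T} →
    (Subgroup.closure {x : Q | f x ≤ T}).index ≤ k ∧
      ∀ x ∈ Subgroup.closure {x : Q | f x ≤ T}, f x ≤ T ^ (3 * k + 3)

/-- The trick of the largest orbit. -/
def StmtMax : Prop :=
  ∀ (Q E : Type) [Group Q] [Finite Q] [Group E] [Finite E] (φ : Q →* MulAut E) (m m' : ℕ),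
    (∀ e : E, Nat.card (Set.range fun γ : Q => φ γ e) ≤ m) →
    (∀ γ : Q, Nat.card E ≤ m' * Nat.card {e : E // φ γ e = e}) →
    ∃ (C : Subgroup E) (X : Finset E), C.index ≤ (m' + 1) ^ m ∧ X.card ≤ m ^ 2 ∧
      ∀ e ∈ C, ∀ γ : Q, φ γ e * e⁻¹ ∈ X

/-- A coset test: the element of row `i` lies in the coset attached to column `j`. -/
def CosetT {κ G : Type} [Group G] (v : κ → Prop) (w x : κ → G) (K : κ → Subgroup G)
    (i j : κ) : Prop := v j ∧ (x j)⁻¹ * w i ∈ K j

/-- Coset tests in an arbitrary finite group are wild of level one. -/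
def StmtCoset : Prop :=
  ∃ β : ℝ → ℝ → ℝ → ℕ, ∀ (g : ℝ → ℝ), (∀ η, 0 < η → 2 / η ≤ g η) →
    ∀ (κ G : Type) [Fintype κ] [DecidableEq κ] [Group G] [Finite G] (v : κ → Prop)
      (w x : κ → G) (K : κ → Subgroup G), (∀ i, ¬ CosetT v w x K i i) →
      W1 g β (2 * Nat.card G) ((2 * Nat.card G) ^ 2) (CosetT v w x K)

/-- Many normal subgroups of bounded index: on a large subfamily a subgroup of bounded index is
abelian modulo each of them. -/
def StmtBFC : Prop :=
  ∀ (T : ℕ) (δ : ℝ), 0 < δ → ∃ B : ℕ, ∀ (κ Q : Type) [Group Q] [Finite Q] (J : Finset κ)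
    (N : κ → Subgroup Q), (∀ j ∈ J, (N j).Normal ∧ (N j).index ≤ T) →
    ∃ J' ⊆ J, ∃ A : Subgroup Q, (J.card : ℝ) ≤ B * (Nat.card Q : ℝ) ^ δ * J'.card ∧
      A.index ≤ B ∧ ∀ j ∈ J', ∀ a ∈ A, ∀ b ∈ A, a * b * a⁻¹ * b⁻¹ ∈ N j

/-- An action on an abelian group with many small orbits is unipotent on a subgroup of bounded
index. -/
def StmtUni : Prop :=
  ∀ T k : ℕ, ∃ B : ℕ, ∀ (Q E : Type) [Group Q] [Finite Q] [CommGroup E] [Finite E]
    (φ : Q →* MulAut E),
    Nat.card E ≤ k * Nat.card {e : E // Nat.card (Set.range fun γ : Q => φ γ e) ≤ T} →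
    ∃ (N : Subgroup Q) (E₁ E₂ : Subgroup E), N.Normal ∧ N.index ≤ B ∧
      ∀ γ ∈ N, (∀ e, φ γ e * e⁻¹ ∈ E₂) ∧ (∀ e ∈ E₂, φ γ e * e⁻¹ ∈ E₁) ∧ ∀ e ∈ E₁, φ γ e = e

/-- The tuple `d` avoids, and every tuple in `R` meets, a list of at most `B` cosets for the
quotients of two entries. -/
def Cov {G : Type} [Group G] {q : ℕ} (B : ℕ) (d : Fin q → G) (R : (Fin q → G) → Prop) : Prop :=
  ∃ L : Finset (Fin q × Fin q × G × Subgroup G), L.card ≤ B ∧
    (∀ e ∈ L, e.2.2.1⁻¹ * ((d e.1)⁻¹ * d e.2.1) ∉ e.2.2.2) ∧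
    ∀ b, R b → ∃ e ∈ L, e.2.2.1⁻¹ * ((b e.1)⁻¹ * b e.2.1) ∈ e.2.2.2

/-- Clustering: if well separated clusters never occur, all points are close. -/
def StmtAgg : Prop :=
  ∀ (q : ℕ) (T' : ℕ → ℕ), ∃ T₀ : ℕ, ∀ (P : Finset (Fin q)) (D : Fin q → Fin q → ℕ),
    (∀ l ∈ P, D l l ≤ 1) → (∀ l ∈ P, ∀ l' ∈ P, D l l' = D l' l) →
    (∀ a ∈ P, ∀ b ∈ P, ∀ c ∈ P, D a c ≤ D a b * D b c) →
    (∀ (t : ℕ) (r : Fin q → Fin q), (∀ l ∈ P, r l ∈ P ∧ D (r l) l ≤ t) →
      (∀ l ∈ P, ∀ l' ∈ P, r l ≠ r l' → T' t < D (r l) (r l')) → ∀ l ∈ P, ∀ l' ∈ P, r l = r l') →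
    ∀ l ∈ P, ∀ l' ∈ P, D l l' ≤ T₀

/-- Nonabelian simple quotients of subgroups of `S` have order at most `d`. -/
def SecBd {G : Type} [Group G] (d : ℕ) (S : Subgroup G) : Prop :=
  ∀ B : Subgroup G, B ≤ S → ∀ A : Subgroup B, ∀ _ : A.Normal, IsSimpleGroup (B ⧸ A) →
    (∀ x y : B ⧸ A, x * y = y * x) ∨ Nat.card (B ⧸ A) ≤ d

/-- Bounded sets of ratios for vanishing sums with arguments in the `m`-th roots of unity. -/
def Ratio (F : Type) [Field F] (q m B : ℕ) : Prop :=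
  ∀ β : Fin q → F, ∑ l, β l ≠ 0 → ∃ R : Finset F, R.card ≤ B ∧ (1 : F) ∉ R ∧
    ∀ ζ : Fin q → F, (∀ l, ζ l ^ m = 1) → ∑ l, β l * ζ l = 0 →
      ∃ l l', β l ≠ 0 ∧ β l' ≠ 0 ∧ ζ l' / ζ l ∈ R

end Pool.Agent.Work.MP_11a08a_al.Sol
end

-- merged part: Pool.Agent.Work.MP_11a08a_al.MV.Star
section
/-!
Generalised matching vector families with a bounded number of tests are small.
-/

set_option autoImplicit false
set_option linter.unusedSectionVars false

open Finset

namespace Pool.Agent.Work.MP_11a08a_al.MV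

variable {κ : Type} [Fintype κ] [DecidableEq κ] {M : ℕ} [NeZero M] {C : ℕ}
  {f : Fin C → κ → κ → ZMod M} {D : Fin C → κ → κ → Prop} {d : Fin C → ZMod M}
  {p : Finset κ → ℕ}

open Classical in
lemma star_bias {m : ℕ} (hm : 0 < m) {T W : Finset (Fin C)} {I : Finset κ}
    (hd : ∀ t i, D t i i → f t i i = d t ∧ d t ≠ 0)
    (hT : ∀ t ∈ T, ∀ i ∈ I, ∀ j ∈ I, D t i j ∧ m • f t i j = 0)
    (hc : ∀ i ∈ I, ∀ j ∈ I, i ≠ j → ∃ t ∈ T ∪ W, D t i j ∧ f t i j = 0)
    (hI : 4 * m ^ C ≤ I.card)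
    (hW : ∀ t ∈ W, (((I ×ˢ I).filter fun x => D t x.1 x.2 ∧ f t x.1 x.2 = 0).card : ℝ) ≤
      1 / (4 * (C + 1) * m ^ C) * (I.card : ℝ) ^ 2) :
    ∃ χ : Fin C → Fin m,
      (¬ ∀ i ∈ I, ∀ j ∈ I, ∑ t ∈ T, (χ t : ℕ) • f t i j = ∑ t ∈ T, (χ t : ℕ) • d t) ∧
      1 / (2 * m ^ C) * (I.card : ℝ) * I.card ≤
        ‖∑ i ∈ I, ∑ j ∈ I, ZMod.stdAddChar (∑ t ∈ T, (χ t : ℕ) • f t i j)‖ := by
  by_contra hcon
  have mC : (0 : ℝ) < (m : ℝ) ^ C := by positivity
  have hI' : 4 * (m : ℝ) ^ C ≤ I.card := by exact_mod_cast hI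
  have n0 : (0 : ℝ) < I.card := by linarith only [mC, hI']
  have h11 : (0 : ℝ) < 1 / (2 * m ^ C) * (I.card : ℝ) * I.card :=
    mul_pos (mul_pos (one_div_pos.2 (mul_pos two_pos mC)) n0) n0
  obtain ⟨i₀, hi₀⟩ := card_pos.1 (Nat.cast_pos.1 n0)
  set S : (Fin C → Fin m) → ℂ := fun χ =>
    ∑ x ∈ I ×ˢ I, ZMod.stdAddChar (∑ t ∈ T, (χ t : ℕ) • (f t x.1 x.2 - d t)) with hS
  have hdead : ∀ χ : Fin C → Fin m,
      (∀ i ∈ I, ∀ j ∈ I, ∑ t ∈ T, (χ t : ℕ) • f t i j = ∑ t ∈ T, (χ t : ℕ) • d t) →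
      (S χ).re = (I.card : ℝ) * I.card := fun χ h => by
    have : S χ = ∑ x ∈ I ×ˢ I, 1 := sum_congr rfl fun x hx => by
      simp only [smul_sub, sum_sub_distrib]
      rw [h _ (mem_product.1 hx).1 _ (mem_product.1 hx).2, sub_self, AddChar.map_zero_eq_one]
    rw [this]
    simp
  have hlow : ∀ χ ∈ (univ : Finset (Fin C → Fin m)),
      -(1 / (2 * m ^ C) * (I.card : ℝ) * I.card) ≤ (S χ).re := fun χ _ => by
    by_cases h : ∀ i ∈ I, ∀ j ∈ I, ∑ t ∈ T, (χ t : ℕ) • f t i j = ∑ t ∈ T, (χ t : ℕ) • d t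
    · rw [hdead χ h]
      exact (neg_nonpos.2 h11.le).trans (mul_pos n0 n0).le
    · have h1 := not_le.1 fun h2 => hcon ⟨χ, h, h2⟩
      have h2 : S χ = (∑ i ∈ I, ∑ j ∈ I, ZMod.stdAddChar (∑ t ∈ T, (χ t : ℕ) • f t i j)) *
          ZMod.stdAddChar (-∑ t ∈ T, (χ t : ℕ) • d t) := by
        rw [← sum_product', sum_mul]
        refine sum_congr rfl fun x _ => ?_
        simp only [smul_sub, sum_sub_distrib]
        rw [sub_eq_add_neg, AddChar.map_add_eq_mul]
      have h3 := (abs_le.1 (Complex.abs_re_le_norm (S χ))).1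
      rw [h2, norm_mul, AddChar.norm_apply, mul_one, ← h2] at h3
      linarith
  have h1 := star_gain univ _ _ hlow (mem_univ fun _ => ⟨0, hm⟩)
    (γ := (I.card : ℝ) * I.card + 1 / (2 * m ^ C) * (I.card : ℝ) * I.card)
    (by rw [hdead _ (by simp)]; linarith only [])
  have h2 : ∑ χ, S χ =
      (m : ℂ) ^ C * ((I ×ˢ I).filter fun x => ∀ t ∈ T, f t x.1 x.2 - d t = 0).card := by
    rw [sum_comm, ← sum_boole, mul_sum]
    refine sum_congr rfl fun x hx => ?_
    rw [star_orth T (fun t => f t x.1 x.2 - d t) fun t ht => by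
      rw [smul_sub, (hT t ht _ (mem_product.1 hx).1 _ (mem_product.1 hx).2).2,
        ← (hd t i₀ (hT t ht _ hi₀ _ hi₀).1).1, (hT t ht _ hi₀ _ hi₀).2, sub_self]]
    split_ifs <;> simp
  have h3 : ((I ×ˢ I).filter fun x => ∀ t ∈ T, f t x.1 x.2 - d t = 0) ⊆ I.diag ∪
      W.biUnion fun t => (I ×ˢ I).filter fun x => D t x.1 x.2 ∧ f t x.1 x.2 = 0 := fun x hx => by
    obtain ⟨x1, x2⟩ := mem_filter.1 hx
    by_cases h : x.1 = x.2
    · exact mem_union_left _ (mem_diag.2 ⟨(mem_product.1 x1).1, h⟩)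
    · obtain ⟨t, ht, t1, t2⟩ := hc _ (mem_product.1 x1).1 _ (mem_product.1 x1).2 h
      rcases mem_union.1 ht with ht | ht
      · have := x2 t ht
        rw [t2, zero_sub, neg_eq_zero] at this
        exact absurd this (hd t i₀ (hT t ht _ hi₀ _ hi₀).1).2
      · exact mem_union_right _ (mem_biUnion.2 ⟨t, ht, mem_filter.2 ⟨x1, t1, t2⟩⟩)
  have h4 := (card_le_card h3).trans
    ((card_union_le _ _).trans (Nat.add_le_add_left card_biUnion_le _))
  rw [diag_card] at h4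
  have h5 := (Nat.cast_le (α := ℝ)).2 h4
  rw [Nat.cast_add, Nat.cast_sum] at h5
  have h6 := sum_le_card_nsmul W _ _ hW
  have h7 : (W.card : ℝ) ≤ C + 1 := by
    have : W.card ≤ C + 1 := (card_le_univ W).trans (by simp)
    exact_mod_cast this
  have h8 := mul_le_mul_of_nonneg_right h7
    (show (0 : ℝ) ≤ 1 / (4 * (C + 1) * m ^ C) * (I.card : ℝ) ^ 2 from
      mul_nonneg (by positivity) (sq_nonneg _))
  have h9 : (m : ℝ) ^ C * ((C + 1) * (1 / (4 * (C + 1) * m ^ C) * (I.card : ℝ) ^ 2)) =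
      I.card * I.card / 4 := by generalize (I.card : ℝ) = x; field_simp
  rw [← Complex.re_sum, h2, ← Complex.ofReal_natCast, ← Complex.ofReal_natCast,
    ← Complex.ofReal_pow, ← Complex.ofReal_mul, Complex.ofReal_re, sum_const, card_univ,
    Fintype.card_fun, Fintype.card_fin, Fintype.card_fin, nsmul_eq_mul, Nat.cast_pow] at h1
  rw [nsmul_eq_mul] at h6
  have h10 : (m : ℝ) ^ C * -(1 / (2 * m ^ C) * (I.card : ℝ) * I.card) =
      -(I.card * I.card / 2) := by generalize (I.card : ℝ) = x; field_simp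
  have h12 := mul_le_mul_of_nonneg_left (h5.trans (add_le_add le_rfl (h6.trans h8))) mC.le
  linarith only [h11, h1, h9, h10, h12, hI', n0, mul_le_mul_of_nonneg_right hI' n0.le]

open Classical in
/-- The hypotheses on the tests that do not change in the induction. -/
structure StarDat (N w : ℕ) (f : Fin C → κ → κ → ZMod M) (D : Fin C → κ → κ → Prop)
    (d : Fin C → ZMod M) (p : Finset κ → ℕ) : Prop where
  N1 : 1 ≤ N
  pw : ∀ I, p I ≤ w
  pm : ∀ I I' : Finset κ, I' ⊆ I → I'.Nonempty → p I ≤ p I'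
  hD : ∀ (t : Fin C) (I : Finset κ) (η : ℝ), 0 < η → I.Nonempty →
    η * (I.card : ℝ) ^ 2 ≤ (((I ×ˢ I).filter fun x => D t x.1 x.2).card : ℝ) →
    ∃ I' ⊆ I, η * I.card ≤ 2 * I'.card ∧ ((∀ i ∈ I', ∀ j ∈ I', D t i j) ∨ p I < p I')
  hS : ∀ (t : Fin C) (I : Finset κ), (∀ i ∈ I, ∀ j ∈ I, D t i j) → sz (f t) I I ≤ N
  hd : ∀ t i, D t i i → f t i i = d t ∧ d t ≠ 0

open Classical in
lemma star_reach {m m₁ N w : ℕ} (H : StarDat N w f D d p) (hm : 0 < m) {e L lam : ℝ} (he : 0 < e)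
    (hL : 0 < L) (hNL : Real.log N ≤ L) (hmL : 3 * Real.log m ≤ e * L) (hlam : 0 < lam)
    (hl : 2 ≤ 1 / (4 * (C + 1) * m ^ C) * Real.exp (e * lam))
    (hA : ∀ (g : κ → κ → ZMod M) (I : Finset κ), (∀ i ∈ I, ∀ j ∈ I, m • g i j = 0) → I.Nonempty →
      sz g I I ≤ N ^ (C + 1) →
      1 / (2 * m ^ C) * (I.card : ℝ) * I.card ≤ ‖∑ i ∈ I, ∑ j ∈ I, ZMod.stdAddChar (g i j)‖ →
      ∃ I₁ ⊆ I, ∃ J₁ ⊆ I, ∃ z : ZMod M, (I.card : ℝ) ≤ I₁.card * Real.exp (e * (e * L / 3)) ∧
        (I.card : ℝ) ≤ J₁.card * Real.exp (e * (e * L / 3)) ∧ ∀ i ∈ I₁, ∀ j ∈ J₁, g i j = z)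
    (hW : ∀ (g : κ → κ → ZMod M) (I : Finset κ), I.Nonempty → sz g I I ≤ N ^ (C + 1) →
      1 / (4 * (C + 1) * m ^ C) * (I.card : ℝ) * I.card ≤
        (((I ×ˢ I).filter fun x => g x.1 x.2 = 0).card : ℝ) →
      ∃ I₁ ⊆ I, ∃ J₁ ⊆ I, (I.card : ℝ) ≤ I₁.card * Real.exp (e * (e * L / 3)) ∧
        (I.card : ℝ) ≤ J₁.card * Real.exp (e * (e * L / 3)) ∧ ∀ i ∈ I₁, ∀ j ∈ J₁, m₁ • g i j = 0)
    (T W : Finset (Fin C)) (I₀ : Finset κ)
    (hT : ∀ t ∈ T, ∀ i ∈ I₀, ∀ j ∈ I₀, D t i j ∧ m • f t i j = 0)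
    (hc : ∀ i ∈ I₀, ∀ j ∈ I₀, i ≠ j → ∃ t ∈ T ∪ W, D t i j ∧ f t i j = 0) :
    ∃ I' ⊆ I₀, (I'.card < 4 * m ^ C ∨
        ∃ t ∈ W, ∀ i ∈ I', ∀ j ∈ I', D t i j ∧ m₁ • f t i j = m₁ • d t) ∧
      (I₀.card : ℝ) ≤ I'.card * Real.exp (e * ((2 * C + m ^ C * (C + 1)) * L + lam * (w + C))) := by
  have lN : 0 ≤ Real.log N := Real.log_nonneg (by exact_mod_cast H.N1)
  set η : ℝ := 1 / (4 * (C + 1) * m ^ C) with hη
  have η0 : 0 < η := by positivity
  set φ : Fin C → Finset κ → ℝ := fun t I => if ∀ i ∈ I, ∀ j ∈ I, D t i j then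
    starPsi (fun i j => m₁ • f t i j) (m₁ • d t) L I else Real.log N + L + lam with hφ
  set ψ : (Fin C → Fin m) → Finset κ → ℝ := fun χ I =>
    starPsi (fun i j => ∑ t ∈ T, (χ t : ℕ) • f t i j) (∑ t ∈ T, (χ t : ℕ) • d t) L I with hψ
  have φ1 : ∀ t I, (∀ i ∈ I, ∀ j ∈ I, D t i j) → φ t I ≤ Real.log N + L := fun t I h => by
    simp only [hφ]
    rw [if_pos h]
    exact starPsi_le hL.le ((star_smul _ _ _ _).trans (H.hS t I h))
  have φ2 : ∀ t I, φ t I ≤ Real.log N + L + lam := fun t I => by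
    by_cases h : ∀ i ∈ I, ∀ j ∈ I, D t i j
    · linarith only [hlam, φ1, h, φ1 t I h]
    · simp only [hφ]
      rw [if_neg h]
  have φm : ∀ I I' : Finset κ, I' ⊆ I → ∀ t ∈ W, φ t I' ≤ φ t I := fun I I' s t _ => by
    by_cases h : ∀ i ∈ I, ∀ j ∈ I, D t i j
    · simp only [hφ]
      rw [if_pos h, if_pos fun i hi j hj => h i (s hi) j (s hj)]
      exact starPsi_mono hL.le s
    · refine (φ2 t I').trans (le_of_eq ?_)
      simp only [hφ]
      rw [if_neg h]
  have ψm : ∀ I I' : Finset κ, I' ⊆ I → ∀ χ ∈ (univ : Finset (Fin C → Fin m)), ψ χ I' ≤ ψ χ I :=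
    fun I I' s χ _ => starPsi_mono hL.le s
  have pm : ∀ I I' : Finset κ, I.Nonempty → I' ⊆ I → ∀ {x : ℝ}, (I.card : ℝ) ≤ I'.card * x →
      lam * ((w : ℝ) - p I') ≤ lam * ((w : ℝ) - p I) := fun I I' hI s x h => by
    refine mul_le_mul_of_nonneg_left (sub_le_sub_left (Nat.cast_le.2 (H.pm I I' s ?_)) _) hlam.le
    rw [nonempty_iff_ne_empty]
    rintro rfl
    rw [card_empty, Nat.cast_zero, zero_mul] at h
    exact absurd h (not_le.2 (Nat.cast_pos.2 hI.card_pos))
  have hg : ∀ (χ : Fin C → Fin m), ∀ I ⊆ I₀,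
      sz (fun i j => ∑ t ∈ T, (χ t : ℕ) • f t i j) I I ≤ N ^ C := fun χ I s =>
    (star_sum T f (fun t => χ t) I I fun t ht => H.hS t I fun i hi j hj =>
      (hT t ht i (s hi) j (s hj)).1).trans
      (Nat.pow_le_pow_right H.N1 ((card_le_univ T).trans (by simp)))
  have main := star_loop
    (fun I => ∑ t ∈ W, φ t I + ∑ χ, ψ χ I + lam * ((w : ℝ) - p I))
    (fun I => I.card < 4 * m ^ C ∨ ∃ t ∈ W, ∀ i ∈ I, ∀ j ∈ I, D t i j ∧ m₁ • f t i j = m₁ • d t)
    he.le (fun I => ?_) I₀ (fun I s hP => ?_) I₀ subset_rfl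
  · obtain ⟨I', s, hP, hle⟩ := main
    refine ⟨I', s, hP, hle.trans (mul_le_mul_of_nonneg_left (Real.exp_le_exp.2
      (mul_le_mul_of_nonneg_left ?_ he.le)) (Nat.cast_nonneg _))⟩
    have a1 := sum_le_card_nsmul W _ _ fun t _ => φ2 t I₀
    have a2 := sum_le_card_nsmul univ (fun χ => ψ χ I₀) _ fun χ _ =>
      starPsi_le hL.le (hg χ I₀ subset_rfl)
    have a3 : (W.card : ℝ) ≤ C := by
      have : W.card ≤ C := (card_le_univ W).trans (by simp)
      exact_mod_cast this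
    rw [card_univ, Fintype.card_fun, Fintype.card_fin, Fintype.card_fin, nsmul_eq_mul,
      Nat.cast_pow, Nat.cast_pow, Real.log_pow] at a2
    rw [nsmul_eq_mul] at a1
    have a4 : (W.card : ℝ) * (Real.log N + L + lam) ≤ C * (L + L + lam) :=
      mul_le_mul a3 (by linarith only [hNL]) (by positivity) (Nat.cast_nonneg _)
    have a5 : (m : ℝ) ^ C * (C * Real.log N + L) ≤ (m : ℝ) ^ C * (C * L + L) := by gcongr
    have a6 : 0 ≤ lam * (p I₀ : ℝ) := by positivity
    linarith only [a1, a2, a4, a5, a6]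
  · refine add_nonneg (add_nonneg (sum_nonneg fun t _ => ?_)
      (sum_nonneg fun χ _ => starPsi_nonneg hL.le))
      (mul_nonneg hlam.le (sub_nonneg.2 (Nat.cast_le.2 (H.pw I))))
    simp only [hφ]
    split_ifs
    · exact starPsi_nonneg hL.le
    · positivity
  · rw [not_or, not_lt] at hP
    obtain ⟨hP1, hP2⟩ := hP
    have hI : I.Nonempty := card_pos.1 (lt_of_lt_of_le (by positivity) hP1)
    by_cases hc1 : ∃ t ∈ W, η * (I.card : ℝ) ^ 2 ≤
        (((I ×ˢ I).filter fun x => D t x.1 x.2 ∧ f t x.1 x.2 = 0).card : ℝ)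
    · obtain ⟨t, ht, h1⟩ := hc1
      by_cases hd : ∀ i ∈ I, ∀ j ∈ I, D t i j
      · obtain ⟨I₁, s1, J₁, s2, c1, c2, c3⟩ := hW (f t) I hI
          ((H.hS t I hd).trans (Nat.le_self_pow (by omega) N)) (by
            rw [mul_assoc, ← sq]
            exact h1.trans (Nat.cast_le.2 (card_le_card fun x hx =>
              mem_filter.2 ⟨(mem_filter.1 hx).1, (mem_filter.1 hx).2.2⟩)))
        obtain ⟨I', s', γ, g0, g1, g2⟩ := starPsi_step (g := fun i j => m₁ • f t i j)
          (z := m₁ • d t) he hL hm hmL hI (fun i hi => by rw [(H.hd t i (hd i hi i hi)).1])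
          (fun h => hP2 ⟨t, ht, fun i hi j hj => ⟨hd i hi j hj, h i hi j hj⟩⟩) s1 s2
          (smul_zero m) c3 c1 c2
        refine ⟨I', s', γ, g0, ?_, g2⟩
        have b1 := star_gain W _ _ (φm I I' s') ht (γ := γ) (by
          simp only [hφ]
          rwa [if_pos hd, if_pos fun i hi j hj => hd i (s' hi) j (s' hj)])
        linarith only [b1, ψm, s', pm, hI, g2, sum_le_sum (ψm I I' s'), pm I I' hI s' g2]
      · obtain ⟨I', s', c1, c2⟩ := H.hD t I η η0 hI (h1.trans (Nat.cast_le.2 (card_le_card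
          fun x hx => mem_filter.2 ⟨(mem_filter.1 hx).1, (mem_filter.1 hx).2.1⟩)))
        have g2 : (I.card : ℝ) ≤ I'.card * Real.exp (e * lam) := by
          refine le_of_mul_le_mul_left (c1.trans ?_) η0
          linarith only [hl, mul_le_mul_of_nonneg_right hl (Nat.cast_nonneg (α := ℝ) I'.card)]
        refine ⟨I', s', lam, hlam, ?_, g2⟩
        rcases c2 with c2 | c2
        · have b1 := star_gain W _ _ (φm I I' s') ht (γ := lam) (by
            refine (add_le_add (φ1 t I' c2) le_rfl).trans (le_of_eq ?_)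
            simp only [hφ]
            rw [if_neg hd])
          linarith only [b1, ψm, s', pm, hI, g2, sum_le_sum (ψm I I' s'), pm I I' hI s' g2]
        · have b1 : (p I : ℝ) + 1 ≤ p I' := by exact_mod_cast c2
          linarith only [φm, s', ψm, b1, hlam, sum_le_sum (φm I I' s'), sum_le_sum (ψm I I' s'),
            mul_le_mul_of_nonneg_left b1 hlam.le]
    · obtain ⟨χ, x1, x2⟩ := star_bias hm H.hd (fun t ht i hi j hj => hT t ht i (s hi) j (s hj))
        (fun i hi j hj => hc i (s hi) j (s hj)) hP1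
        fun t ht => (not_le.1 fun h => hc1 ⟨t, ht, h⟩).le
      have hm0 : ∀ i ∈ I, ∀ j ∈ I, m • ∑ t ∈ T, (χ t : ℕ) • f t i j = 0 := fun i hi j hj => by
        rw [smul_sum]
        exact sum_eq_zero fun t ht => by rw [smul_comm, (hT t ht i (s hi) j (s hj)).2, smul_zero]
      obtain ⟨I₁, s1, J₁, s2, z, c1, c2, c3⟩ := hA (fun i j => ∑ t ∈ T, (χ t : ℕ) • f t i j) I hm0
        hI ((hg χ I s).trans (Nat.pow_le_pow_right H.N1 (Nat.le_succ C))) x2
      have ne : ∀ J : Finset κ, (I.card : ℝ) ≤ J.card * Real.exp (e * (e * L / 3)) →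
          J.Nonempty := fun J h => by
        rw [nonempty_iff_ne_empty]
        rintro rfl
        rw [card_empty, Nat.cast_zero, zero_mul] at h
        exact absurd h (not_le.2 (Nat.cast_pos.2 hI.card_pos))
      obtain ⟨i₁, hi₁⟩ := ne I₁ c1
      obtain ⟨j₁, hj₁⟩ := ne J₁ c2
      obtain ⟨I', s', γ, g0, g1, g2⟩ := starPsi_step
        (g := fun i j => ∑ t ∈ T, (χ t : ℕ) • f t i j) (z := ∑ t ∈ T, (χ t : ℕ) • d t) he hL hm hmL
        hI (fun i hi => sum_congr rfl fun t ht => by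
          rw [(H.hd t i (hT t ht i (s hi) i (s hi)).1).1]) x1 s1 s2
        (c3 i₁ hi₁ j₁ hj₁ ▸ hm0 i₁ (s1 hi₁) j₁ (s2 hj₁)) c3 c1 c2
      refine ⟨I', s', γ, g0, ?_, g2⟩
      have b1 := star_gain univ _ _ (ψm I I' s') (mem_univ χ) (γ := γ) g1
      linarith only [b1, φm, s', pm, hI, g2, sum_le_sum (φm I I' s'), pm I I' hI s' g2]

lemma star_cost {c x y e L₀ : ℝ} {s N k : ℕ} (hc : 0 < c) (hy : 0 ≤ y) (hs : 1 ≤ s)
    (hN : s ≤ N ^ (k + 1)) (hL : -Real.log c ≤ e * (e * L₀ / 3))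
    (h : c * x ≤ (s : ℝ) ^ (e * e / (3 * (k + 1))) * y) :
    x ≤ y * Real.exp (e * (e * (Real.log N + L₀) / 3)) := by
  have h1 := star_log_le hs hN
  rw [Nat.cast_pow, Real.log_pow] at h1
  have h2 : (s : ℝ) ^ (e * e / (3 * (k + 1))) ≤ c * Real.exp (e * (e * (Real.log N + L₀) / 3)) := by
    rw [Real.rpow_def_of_pos (by exact_mod_cast hs), ← Real.exp_log hc, ← Real.exp_add,
      Real.exp_le_exp]
    have h3 := mul_le_mul_of_nonneg_right h1
      (show 0 ≤ e * e / (3 * ((k : ℝ) + 1)) from div_nonneg (mul_self_nonneg e) (by positivity))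
    have h4 : ((k + 1 : ℕ) : ℝ) * Real.log N * (e * e / (3 * (k + 1))) =
        e * (e * Real.log N / 3) := by
      push_cast
      field_simp
    linarith only [hL, h3, h4]
  refine le_of_mul_le_mul_left (h.trans ?_) hc
  linarith only [h2, hy, mul_le_mul_of_nonneg_right h2 hy]

/-- The statement proved by induction on the number of tests that are not yet tamed. -/
def StarClaim (C n : ℕ) : Prop :=
  ∀ (m : ℕ) (δ : ℝ), 0 < m → 0 < δ → ∃ c B : ℝ, 0 < c ∧ 1 ≤ B ∧
    ∀ (κ : Type) [Fintype κ] [DecidableEq κ] (M : ℕ) [NeZero M] (N w : ℕ)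
      (f : Fin C → κ → κ → ZMod M) (D : Fin C → κ → κ → Prop) (d : Fin C → ZMod M)
      (p : Finset κ → ℕ), StarDat N w f D d p → ∀ (T W : Finset (Fin C)) (I : Finset κ),
      W.card < n → (∀ t ∈ T, ∀ i ∈ I, ∀ j ∈ I, D t i j ∧ m • f t i j = 0) →
      (∀ i ∈ I, ∀ j ∈ I, i ≠ j → ∃ t ∈ T ∪ W, D t i j ∧ f t i j = 0) →
      (I.card : ℝ) ≤ c * B ^ w * (N : ℝ) ^ δ

theorem star_claim (hAD : StmtAD) (hW : StmtW) (C n : ℕ) : StarClaim C n := by
  induction n with
  | zero =>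
    exact fun m δ _ _ => ⟨1, 1, one_pos, le_rfl, fun _ _ _ _ _ _ _ _ _ _ _ _ _ _ _ h =>
      absurd h (Nat.not_lt_zero _)⟩
  | succ n ih =>
    intro m δ hm hδ
    have m1 : (1 : ℝ) ≤ (m : ℝ) ^ C := one_le_pow₀ (by exact_mod_cast hm)
    obtain ⟨K, hK⟩ : ∃ K : ℝ, K = 2 * C + m ^ C * (C + 1) := ⟨_, rfl⟩
    have K0 : 0 < K := by rw [hK]; positivity
    obtain ⟨e, he⟩ : ∃ e : ℝ, e = δ / (2 * K) := ⟨_, rfl⟩
    have e0 : 0 < e := by rw [he]; positivity
    have eK : e * K = δ / 2 := by rw [he]; field_simp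
    obtain ⟨cA, cA0, hA⟩ := hAD m (1 / (2 * m ^ C)) (e * e / (3 * (C + 1))) hm (by positivity)
      (by positivity)
    obtain ⟨m₁, cW, m0, hmm, cW0, hW'⟩ := hW m (1 / (4 * (C + 1) * m ^ C))
      (e * e / (3 * (C + 1))) hm (by positivity) (by positivity)
    obtain ⟨c', B', c0, B1, hrec⟩ := ih m₁ (δ / 2) m0 (by positivity)
    obtain ⟨L₀, L0, L1, L2, L3⟩ : ∃ L₀ : ℝ, 0 < L₀ ∧ 3 * Real.log m ≤ e * L₀ ∧
        -Real.log cA ≤ e * (e * L₀ / 3) ∧ -Real.log cW ≤ e * (e * L₀ / 3) := by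
      have t1 : Filter.Tendsto (fun x : ℝ => e * x) Filter.atTop Filter.atTop :=
        Filter.tendsto_id.const_mul_atTop e0
      have t2 : Filter.Tendsto (fun x : ℝ => e * (e * x / 3)) Filter.atTop Filter.atTop :=
        (t1.atTop_div_const (by norm_num)).const_mul_atTop e0
      exact ((Filter.eventually_gt_atTop 0).and ((t1.eventually_ge_atTop _).and
        ((t2.eventually_ge_atTop _).and (t2.eventually_ge_atTop _)))).exists
    obtain ⟨R, hR⟩ : ∃ R : ℝ, R = 8 * (C + 1) * m ^ C := ⟨_, rfl⟩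
    have R1 : 1 < R := by
      rw [hR]
      exact one_lt_mul_of_lt_of_le (by linarith only [(Nat.cast_nonneg C : (0 : ℝ) ≤ C)]) m1
    have eR : Real.exp (e * (Real.log R / e)) = R := by
      rw [mul_div_cancel₀ _ e0.ne', Real.exp_log (by linarith only [R1])]
    refine ⟨(4 * m ^ C + c') * (Real.exp (δ / 2 * L₀) * R ^ C), B' * R, by positivity,
      one_le_mul_of_one_le_of_one_le B1 R1.le, ?_⟩
    intro κ _ _ M _ N w f D d p H T W I hn hT hc
    have N1 : (1 : ℝ) ≤ N := by exact_mod_cast H.N1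
    have lN : 0 ≤ Real.log N := Real.log_nonneg N1
    obtain ⟨I', s, hP, hle⟩ := star_reach (m₁ := m₁) H hm e0 (L := Real.log N + L₀)
      (lam := Real.log R / e) (by linarith only [lN, L0]) (by linarith only [L0])
      (by linarith only [L1, mul_nonneg e0.le lN])
      (div_pos (Real.log_pos R1) e0) (by rw [eR, hR]; field_simp; norm_num)
      (fun g J h1 h2 h3 h4 => by
        obtain ⟨I₁, s1, J₁, s2, z, c1, c2, c3⟩ := hA κ M g J J h1 h2 h2 h4
        exact ⟨I₁, s1, J₁, s2, z, star_cost cA0 (Nat.cast_nonneg _) (star_one_le _ _ _) h3 L2 c1,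
          star_cost cA0 (Nat.cast_nonneg _) (star_one_le _ _ _) h3 L2 c2, c3⟩)
      (fun g J h2 h3 h4 => by
        obtain ⟨I₁, s1, J₁, s2, c1, c2, c3⟩ := hW' κ M g J J h2 h2 (by convert h4)
        exact ⟨I₁, s1, J₁, s2, star_cost cW0 (Nat.cast_nonneg _) (star_one_le _ _ _) h3 L3 c1,
          star_cost cW0 (Nat.cast_nonneg _) (star_one_le _ _ _) h3 L3 c2, c3⟩) T W I hT hc
    have x1 : 1 ≤ B' ^ w * (N : ℝ) ^ (δ / 2) :=
      one_le_mul_of_one_le_of_one_le (one_le_pow₀ B1) (Real.one_le_rpow N1 (by positivity))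
    have hI' : (I'.card : ℝ) ≤ (4 * m ^ C + c') * (B' ^ w * (N : ℝ) ^ (δ / 2)) := by
      have hT' : ∀ t ∈ T, ∀ i ∈ I', ∀ j ∈ I', D t i j ∧ m₁ • f t i j = 0 :=
        fun t ht i hi j hj => ⟨(hT t ht i (s hi) j (s hj)).1, by
          obtain ⟨k, rfl⟩ := hmm
          rw [mul_comm, mul_smul, (hT t ht i (s hi) j (s hj)).2, smul_zero]⟩
      rcases hP with h | ⟨t, ht, h⟩
      · have : (I'.card : ℝ) ≤ 4 * m ^ C := by exact_mod_cast h.le
        exact this.trans ((le_add_of_nonneg_right c0.le).trans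
          (le_mul_of_one_le_right (by positivity) x1))
      · have hcard : (W.erase t).card < n := by
          have := card_erase_lt_of_mem ht
          omega
        have : (I'.card : ℝ) ≤ c' * B' ^ w * (N : ℝ) ^ (δ / 2) := by
          by_cases hz : m₁ • d t = 0
          · refine hrec κ M N w f D d p H (insert t T) (W.erase t) I' hcard
              (fun t' ht' i hi j hj => ?_) fun i hi j hj hij => ?_
            · rcases mem_insert.1 ht' with rfl | ht'
              · exact ⟨(h i hi j hj).1, (h i hi j hj).2.trans hz⟩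
              · exact hT' t' ht' i hi j hj
            · obtain ⟨t', a1, a2⟩ := hc i (s hi) j (s hj) hij
              refine ⟨t', ?_, a2⟩
              simp only [mem_union, mem_insert, mem_erase] at a1 ⊢
              tauto
          · refine hrec κ M N w f D d p H T (W.erase t) I' hcard hT' fun i hi j hj hij => ?_
            obtain ⟨t', a1, a2⟩ := hc i (s hi) j (s hj) hij
            refine ⟨t', ?_, a2⟩
            have : t' ≠ t := by
              rintro rfl
              exact hz (by rw [← (h i hi j hj).2, a2.2, smul_zero])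
            simp only [mem_union, mem_erase] at a1 ⊢
            tauto
        rw [mul_assoc] at this
        exact this.trans (mul_le_mul_of_nonneg_right (le_add_of_nonneg_left (by positivity))
          (zero_le_one.trans x1))
    have hexp : Real.exp (e * ((2 * C + m ^ C * (C + 1)) * (Real.log N + L₀) +
        Real.log R / e * (w + C))) = (N : ℝ) ^ (δ / 2) * Real.exp (δ / 2 * L₀) * (R ^ w * R ^ C) := by
      rw [← hK, mul_add, ← mul_assoc, eK, ← mul_assoc, Real.exp_add, mul_add (δ / 2), Real.exp_add,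
        mul_comm (δ / 2) (Real.log N), ← Real.rpow_def_of_pos (by linarith only [N1]), ← Nat.cast_add,
        mul_comm _ ((w + C : ℕ) : ℝ), Real.exp_nat_mul, eR, pow_add]
    rw [hexp] at hle
    refine hle.trans ((mul_le_mul_of_nonneg_right hI' (by positivity)).trans (le_of_eq ?_))
    have : (N : ℝ) ^ δ = (N : ℝ) ^ (δ / 2) * (N : ℝ) ^ (δ / 2) := by
      rw [← Real.rpow_add (by linarith only [N1]), add_halves]
    rw [this, mul_pow]
    ring

theorem star (hAD : StmtAD) (hW : StmtW) : StmtStar := by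
  intro C δ hδ
  obtain ⟨c, B, c0, B1, h⟩ := star_claim hAD hW C (C + 1) 1 δ one_pos hδ
  refine ⟨c, B, c0, B1, fun κ _ _ M _ N w f D d p h1 h2 h3 h4 h5 h6 h7 => ?_⟩
  refine h κ M N w f D d p ⟨h1, h2, h3, h4, h5, h6⟩ ∅ univ univ (by simp) (by simp)
    fun i _ j _ hij => ?_
  obtain ⟨t, ht⟩ := h7 i j hij
  exact ⟨t, by simp, ht⟩

end Pool.Agent.Work.MP_11a08a_al.MV
end

-- merged part: Pool.Agent.Work.MP_11a08a_al.MV.AD
section
/-!
Approximate duality for matrices over `ZMod M` with entries of bounded torsion.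
-/

set_option autoImplicit false

open Finset

namespace Pool.Agent.Work.MP_11a08a_al.MV

open Classical in
theorem ad : StmtAD := by
  intro m α δ hm hα hδ
  obtain ⟨c, hc, H⟩ := Pool.Agent.Lib.PFR.approx_duality (m := 3 * m) (by omega) α δ hα hδ
  refine ⟨c, hc, fun κ _ _ M _ g I J hg hI hJ h => ?_⟩
  let _ : Fintype (rowG g I J) := Fintype.ofFinite _
  let x : κ → rowG g I J := fun i =>
    if hi : i ∈ I then ⟨row g J i, AddSubgroup.subset_closure ⟨i, hi, rfl⟩⟩ else 0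
  let ψ : κ → AddChar (rowG g I J) ℂ := fun j =>
    ZMod.stdAddChar.compAddMonoidHom
      ((Pi.evalAddMonoidHom (fun _ : κ => ZMod M) j).comp (rowG g I J).subtype)
  have hψ : ∀ i ∈ I, ∀ j ∈ J, ψ j (x i) = ZMod.stdAddChar (g i j) := by
    intro i hi j hj
    simp [ψ, x, hi, row, hj]
  have htor : ∀ r : rowG g I J, (3 * m) • r = 0 := by
    rintro ⟨r, hr⟩
    have : m • r = 0 := by
      induction hr using AddSubgroup.closure_induction with
      | mem y hy =>
        obtain ⟨i, hi, rfl⟩ := hy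
        funext j
        by_cases hj : j ∈ J
        · simpa [row, hj] using hg i hi j hj
        · simp [row, hj]
      | zero => simp
      | add a b _ _ ha hb => rw [nsmul_add, ha, hb, add_zero]
      | neg a _ ha => rw [neg_nsmul, ha, neg_zero]
    apply Subtype.ext
    rw [AddSubgroup.coe_nsmul, mul_nsmul', this, nsmul_zero]
    rfl
  obtain ⟨I₁, hI₁, J₁, hJ₁, z, h1, h2, h3⟩ := H (rowG g I J) κ κ I J x ψ htor hI hJ (by
    rwa [sum_congr rfl fun i hi => sum_congr rfl fun j hj => hψ i hi j hj])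
  have hcard : Fintype.card (rowG g I J) = sz g I J := Fintype.card_eq_nat_card
  rw [hcard] at h1 h2
  have hne : ∀ (S T : Finset κ), S.Nonempty → c * S.card ≤ (sz g I J : ℝ) ^ δ * T.card →
      T.Nonempty := by
    intro S T hS hST
    rw [nonempty_iff_ne_empty]
    rintro rfl
    have : (0 : ℝ) < S.card := by exact_mod_cast hS.card_pos
    simp only [card_empty, Nat.cast_zero, mul_zero] at hST
    linarith only [hST, hc, this, mul_pos_of_neg_of_neg (Mathlib.Tactic.Linarith.sub_neg_of_lt hc) (Mathlib.Tactic.Linarith.sub_neg_of_lt this)]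
  obtain ⟨i0, hi0⟩ := hne I I₁ hI h1
  obtain ⟨j0, hj0⟩ := hne J J₁ hJ h2
  refine ⟨I₁, hI₁, J₁, hJ₁, g i0 j0, h1, h2, fun i hi j hj => ZMod.injective_stdAddChar ?_⟩
  rw [← hψ i (hI₁ hi) j (hJ₁ hj), ← hψ i0 (hI₁ hi0) j0 (hJ₁ hj0), h3 i hi j hj, h3 i0 hi0 j0 hj0]

end Pool.Agent.Work.MP_11a08a_al.MV
end

-- merged part: Pool.Agent.Work.MP_11a08a_al.Sol.Abs
section
/-!
The abstract covering bound.  A potential loop reaches a large subset which is small or on which
some wild test converts; then induct on the numbers of tests of level two and of level one.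
-/

set_option autoImplicit false
set_option linter.unusedSectionVars false

open Finset Module
open scoped commutatorElement

namespace Pool.Agent.Work.MP_11a08a_al.Sol

open Pool.Agent.Work.MP_11a08a_al.MV

/-- The property of a wild test at fixed parameters. -/
def absWL {κ : Type} (γ η lam : ℝ) (N : ℕ) (Z : κ → κ → Prop) (Q : Finset κ → Prop) : Prop :=
  (∀ i, ¬ Z i i) ∧ ∃ ψ : Finset κ → ℝ, (∀ I, 0 ≤ ψ I ∧ ψ I ≤ Real.log N) ∧
    (∀ I I' : Finset κ, I' ⊆ I → ψ I' ≤ ψ I) ∧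
    ∀ I : Finset κ, I.Nonempty → η * (I.card : ℝ) ^ 2 ≤ dens Z I →
      (∃ I' ⊆ I, (I.card : ℝ) ≤ γ * I'.card ∧ ψ I' + lam ≤ ψ I) ∨ Q I

open Classical in
lemma abs_dens {κ : Type} (A : Finset (κ → κ → Prop)) (I : Finset κ) :
    ((I ×ˢ I).filter fun x => ∃ Z ∈ A, Z x.1 x.2).card ≤ ∑ Z ∈ A, dens Z I := by
  have : ((I ×ˢ I).filter fun x => ∃ Z ∈ A, Z x.1 x.2) ⊆
      A.biUnion fun Z => (I ×ˢ I).filter fun x => Z x.1 x.2 := fun x hx => by
    obtain ⟨x1, Z, hZ, h⟩ := mem_filter.1 hx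
    exact mem_biUnion.2 ⟨Z, hZ, mem_filter.2 ⟨x1, h⟩⟩
  exact (card_le_card this).trans card_biUnion_le

open Classical in
lemma abs_reach {κ : Type} [Fintype κ] [DecidableEq κ] {M : ℕ} [NeZero M] {C n m N : ℕ}
    (hm : 0 < m) (N1 : 1 ≤ N) {e L lam γ : ℝ} (he : 0 < e) (hL : 0 < L) (hNL : Real.log N ≤ L)
    (hmL : 3 * Real.log m ≤ e * L) (hlam : 0 < lam) (hl : γ ≤ Real.exp (e * lam))
    (hA : ∀ (g : κ → κ → ZMod M) (I : Finset κ), (∀ i ∈ I, ∀ j ∈ I, m • g i j = 0) → I.Nonempty →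
      sz g I I ≤ N ^ (C + 1) →
      1 / (2 * m ^ (C + 1)) * (I.card : ℝ) * I.card ≤
        ‖∑ i ∈ I, ∑ j ∈ I, ZMod.stdAddChar (g i j)‖ →
      ∃ I₁ ⊆ I, ∃ J₁ ⊆ I, ∃ z : ZMod M, (I.card : ℝ) ≤ I₁.card * Real.exp (e * (e * L / 3)) ∧
        (I.card : ℝ) ≤ J₁.card * Real.exp (e * (e * L / 3)) ∧ ∀ i ∈ I₁, ∀ j ∈ J₁, g i j = z)
    (I₀ : Finset κ) (T : Fin C → κ → κ → Prop) (A : Finset (κ → κ → Prop))
    (Q : (κ → κ → Prop) → Finset κ → Prop) (hn : A.card ≤ n) (hT : ∀ t, Tame M m N I₀ (T t))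
    (hW : ∀ Z ∈ A, absWL γ (1 / (4 * (C + 2) * m ^ (C + 1) * (n + 1))) lam N Z (Q Z))
    (hc : ∀ i ∈ I₀, ∀ j ∈ I₀, i ≠ j → (∃ t, T t i j) ∨ ∃ Z ∈ A, Z i j) :
    ∃ I ⊆ I₀, (I.card < 4 * m ^ (C + 1) ∨ ∃ Z ∈ A, Q Z I) ∧
      (I₀.card : ℝ) ≤ I.card * Real.exp (e * ((m ^ (C + 1) * (C + 2) + n) * L)) := by
  have lN : 0 ≤ Real.log N := Real.log_nonneg (by exact_mod_cast N1)
  choose f₀ d₀ hd0 hdiag htor hzero hsz using hT
  have hW1 : ∀ Z ∈ A, ∀ i, ¬ Z i i := fun Z hZ => (hW Z hZ).1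
  choose! ψ ψb ψm ψs using fun Z hZ => (hW Z hZ).2
  set f : Fin (C + 1) → κ → κ → ZMod M := Fin.cons (fun _ _ => 0) f₀ with hf
  set d : Fin (C + 1) → ZMod M := Fin.cons 0 d₀ with hd
  set D : Fin (C + 1) → κ → κ → Prop :=
    Fin.cons (fun i j => ∃ Z ∈ A, Z i j) (fun _ i j => i ∈ I₀ ∧ j ∈ I₀) with hD
  set Tm : Finset (Fin (C + 1)) := univ.erase 0 with hTm
  have hTs : ∀ t ∈ Tm, ∃ s, t = Fin.succ s := fun t ht =>
    (Fin.exists_succ_eq.2 (mem_erase.1 ht).1).imp fun _ h => h.symm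
  have hDd : ∀ t i, D t i i → f t i i = d t ∧ d t ≠ 0 := fun t i => by
    refine Fin.cases (fun h => ?_) (fun s h => ?_) t
    · obtain ⟨Z, hZ, h⟩ := h
      exact absurd h (hW1 Z hZ i)
    · exact ⟨hdiag s i h.1, hd0 s⟩
  have hT' : ∀ t ∈ Tm, ∀ i ∈ I₀, ∀ j ∈ I₀, D t i j ∧ m • f t i j = 0 := fun t ht i hi j hj => by
    obtain ⟨s, rfl⟩ := hTs t ht
    exact ⟨⟨hi, hj⟩, htor s i hi j hj⟩
  have hc' : ∀ i ∈ I₀, ∀ j ∈ I₀, i ≠ j → ∃ t ∈ Tm ∪ {0}, D t i j ∧ f t i j = 0 :=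
    fun i hi j hj hij => by
      rcases hc i hi j hj hij with ⟨s, h⟩ | h
      · exact ⟨s.succ, mem_union_left _ (mem_erase.2 ⟨Fin.succ_ne_zero s, mem_univ _⟩),
          ⟨hi, hj⟩, hzero s i hi j hj h⟩
      · exact ⟨0, mem_union_right _ (mem_singleton_self _), h, rfl⟩
  set φ : (Fin (C + 1) → Fin m) → Finset κ → ℝ := fun χ I =>
    starPsi (fun i j => ∑ t ∈ Tm, (χ t : ℕ) • f t i j) (∑ t ∈ Tm, (χ t : ℕ) • d t) L I with hφ
  have φm : ∀ I I' : Finset κ, I' ⊆ I →
      ∀ χ ∈ (univ : Finset (Fin (C + 1) → Fin m)), φ χ I' ≤ φ χ I :=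
    fun I I' s χ _ => starPsi_mono hL.le s
  have hg : ∀ (χ : Fin (C + 1) → Fin m), ∀ I ⊆ I₀,
      sz (fun i j => ∑ t ∈ Tm, (χ t : ℕ) • f t i j) I I ≤ N ^ (C + 1) := fun χ I s =>
    (star_sum Tm f (fun t => χ t) I I fun t ht => by
      obtain ⟨u, rfl⟩ := hTs t ht
      exact (star_mono _ s s).trans (hsz u)).trans
      (Nat.pow_le_pow_right N1 ((card_le_univ Tm).trans (by simp)))
  have main := star_loop (fun I => ∑ χ, φ χ I + ∑ Z ∈ A, ψ Z I)
    (fun I => I.card < 4 * m ^ (C + 1) ∨ ∃ Z ∈ A, Q Z I)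
    he.le (fun I => ?_) I₀ (fun I s hP => ?_) I₀ subset_rfl
  · obtain ⟨I', s, hP, hle⟩ := main
    refine ⟨I', s, hP, hle.trans (mul_le_mul_of_nonneg_left (Real.exp_le_exp.2
      (mul_le_mul_of_nonneg_left ?_ he.le)) (Nat.cast_nonneg _))⟩
    have a1 := sum_le_card_nsmul A (fun Z => ψ Z I₀) _ fun Z hZ => (ψb Z hZ I₀).2.trans hNL
    have a2 := sum_le_card_nsmul univ (fun χ => φ χ I₀) _ fun χ _ =>
      starPsi_le hL.le (hg χ I₀ subset_rfl)
    have a3 : (A.card : ℝ) ≤ n := by exact_mod_cast hn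
    rw [card_univ, Fintype.card_fun, Fintype.card_fin, Fintype.card_fin, nsmul_eq_mul,
      Nat.cast_pow, Nat.cast_pow, Real.log_pow] at a2
    rw [nsmul_eq_mul] at a1
    have a4 : (A.card : ℝ) * L ≤ n * L := mul_le_mul_of_nonneg_right a3 hL.le
    have a5 : (m : ℝ) ^ (C + 1) * (((C + 1 : ℕ) : ℝ) * Real.log N + L) ≤
        (m : ℝ) ^ (C + 1) * (((C + 1 : ℕ) : ℝ) * L + L) := by gcongr
    push_cast at a5 a2
    linarith only [a1, a4, a5, a2]
  · exact add_nonneg (sum_nonneg fun χ _ => starPsi_nonneg hL.le)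
      (sum_nonneg fun Z hZ => (ψb Z hZ I).1)
  · rw [not_or, not_lt] at hP
    obtain ⟨hP1, hP2⟩ := hP
    have hI : I.Nonempty := card_pos.1 (lt_of_lt_of_le (by positivity) hP1)
    by_cases hc1 : ∃ Z ∈ A,
        1 / (4 * (C + 2) * m ^ (C + 1) * (n + 1)) * (I.card : ℝ) ^ 2 ≤ dens Z I
    · obtain ⟨Z, hZ, h1⟩ := hc1
      rcases ψs Z hZ I hI h1 with ⟨I', s', c1, c2⟩ | h
      · refine ⟨I', s', lam, hlam, ?_, c1.trans ?_⟩
        · have b1 := star_gain A (fun Z => ψ Z I') (fun Z => ψ Z I)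
            (fun Z hZ => ψm Z hZ I I' s') hZ (γ := lam) c2
          linarith only [b1, φm, s', sum_le_sum (φm I I' s')]
        · rw [mul_comm]
          exact mul_le_mul_of_nonneg_left hl (Nat.cast_nonneg _)
      · exact absurd ⟨Z, hZ, h⟩ hP2
    · obtain ⟨χ, x1, x2⟩ := star_bias (T := Tm) (W := {0}) hm hDd
        (fun t ht i hi j hj => hT' t ht i (s hi) j (s hj))
        (fun i hi j hj => hc' i (s hi) j (s hj)) hP1 fun t ht => by
          rw [mem_singleton.1 ht]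
          have b1 : ((I ×ˢ I).filter fun x => D 0 x.1 x.2 ∧ f 0 x.1 x.2 = 0).card ≤
              ∑ Z ∈ A, dens Z I := by
            refine le_trans (card_le_card fun x hx => ?_) (abs_dens A I)
            exact mem_filter.2 ⟨(mem_filter.1 hx).1, (mem_filter.1 hx).2.1⟩
          have b2 := (Nat.cast_le (α := ℝ)).2 b1
          rw [Nat.cast_sum] at b2
          have b3 := sum_le_card_nsmul A (fun Z => (dens Z I : ℝ)) _
            fun Z hZ => (not_le.1 fun h => hc1 ⟨Z, hZ, h⟩).le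
          rw [nsmul_eq_mul] at b3
          have a3 : (A.card : ℝ) ≤ n + 1 := by exact_mod_cast hn.trans (Nat.le_succ n)
          refine b2.trans (b3.trans ((mul_le_mul_of_nonneg_right a3 (by positivity)).trans
            (le_of_eq ?_)))
          push_cast
          field_simp
          ring
      have hm0 : ∀ i ∈ I, ∀ j ∈ I, m • ∑ t ∈ Tm, (χ t : ℕ) • f t i j = 0 := fun i hi j hj => by
        rw [smul_sum]
        exact sum_eq_zero fun t ht => by rw [smul_comm, (hT' t ht i (s hi) j (s hj)).2, smul_zero]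
      obtain ⟨I₁, s1, J₁, s2, z, c1, c2, c3⟩ := hA (fun i j => ∑ t ∈ Tm, (χ t : ℕ) • f t i j) I hm0
        hI (hg χ I s) x2
      have ne : ∀ J : Finset κ, (I.card : ℝ) ≤ J.card * Real.exp (e * (e * L / 3)) →
          J.Nonempty := fun J h => by
        rw [nonempty_iff_ne_empty]
        rintro rfl
        rw [card_empty, Nat.cast_zero, zero_mul] at h
        exact absurd h (not_le.2 (Nat.cast_pos.2 hI.card_pos))
      obtain ⟨i₁, hi₁⟩ := ne I₁ c1
      obtain ⟨j₁, hj₁⟩ := ne J₁ c2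
      obtain ⟨I', s', γ, g0, g1, g2⟩ := starPsi_step
        (g := fun i j => ∑ t ∈ Tm, (χ t : ℕ) • f t i j) (z := ∑ t ∈ Tm, (χ t : ℕ) • d t) he hL hm
        hmL hI (fun i hi => sum_congr rfl fun t ht => by
          rw [(hDd t i (hT' t ht i (s hi) i (s hi)).1).1]) x1 s1 s2
        (c3 i₁ hi₁ j₁ hj₁ ▸ hm0 i₁ (s1 hi₁) j₁ (s2 hj₁)) c3 c1 c2
      refine ⟨I', s', γ, g0, ?_, g2⟩
      have b1 := star_gain univ _ _ (φm I I' s') (mem_univ χ) (γ := γ) g1
      linarith only [b1, ψm, s', sum_le_sum fun Z hZ => ψm Z hZ I I' s']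

lemma abs_loop (C n m : ℕ) (g : ℝ → ℝ) (δ : ℝ) (hm : 0 < m) (hδ : 0 < δ) :
    ∃ η lam c : ℝ, 0 < η ∧ 0 < lam ∧ 0 < c ∧
    ∀ (κ : Type) [Fintype κ] [DecidableEq κ] (M : ℕ) [NeZero M] (N : ℕ) (I₀ : Finset κ)
      (T : Fin C → κ → κ → Prop) (A : Finset (κ → κ → Prop))
      (Q : (κ → κ → Prop) → Finset κ → Prop), 1 ≤ N → A.card ≤ n → (∀ t, Tame M m N I₀ (T t)) →
      (∀ Z ∈ A, absWL (g η) η lam N Z (Q Z)) →
      (∀ i ∈ I₀, ∀ j ∈ I₀, i ≠ j → (∃ t, T t i j) ∨ ∃ Z ∈ A, Z i j) →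
      ∃ I ⊆ I₀, (I.card < 4 * m ^ (C + 1) ∨ ∃ Z ∈ A, Q Z I) ∧
        (I₀.card : ℝ) ≤ I.card * (c * (N : ℝ) ^ δ) := by
  obtain ⟨K, hK⟩ : ∃ K : ℝ, K = m ^ (C + 1) * (C + 2) + n := ⟨_, rfl⟩
  have K0 : 0 < K := by rw [hK]; positivity
  obtain ⟨e, he⟩ : ∃ e : ℝ, e = δ / K := ⟨_, rfl⟩
  have e0 : 0 < e := by rw [he]; positivity
  have eK : e * K = δ := by rw [he]; field_simp
  obtain ⟨cA, cA0, hA⟩ := ad m (1 / (2 * m ^ (C + 1))) (e * e / (3 * (C + 1))) hm (by positivity)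
    (by positivity)
  obtain ⟨L₀, L0, L1, L2⟩ : ∃ L₀ : ℝ, 0 < L₀ ∧ 3 * Real.log m ≤ e * L₀ ∧
      -Real.log cA ≤ e * (e * L₀ / 3) := by
    have t1 : Filter.Tendsto (fun x : ℝ => e * x) Filter.atTop Filter.atTop :=
      Filter.tendsto_id.const_mul_atTop e0
    have t2 : Filter.Tendsto (fun x : ℝ => e * (e * x / 3)) Filter.atTop Filter.atTop :=
      (t1.atTop_div_const (by norm_num)).const_mul_atTop e0
    exact ((Filter.eventually_gt_atTop 0).and ((t1.eventually_ge_atTop _).and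
      (t2.eventually_ge_atTop _))).exists
  obtain ⟨η, hη⟩ : ∃ η : ℝ, η = 1 / (4 * (C + 2) * m ^ (C + 1) * (n + 1)) := ⟨_, rfl⟩
  refine ⟨η, (|g η| + 1) / e, Real.exp (δ * L₀), by rw [hη]; positivity, by positivity,
    Real.exp_pos _, ?_⟩
  intro κ _ _ M _ N I₀ T A Q N1 hn hT hW hc
  have N1' : (1 : ℝ) ≤ N := by exact_mod_cast N1
  have lN : 0 ≤ Real.log N := Real.log_nonneg N1'
  obtain ⟨I, s, hP, hle⟩ := abs_reach (γ := g η) hm N1 e0 (L := Real.log N + L₀)
    (lam := (|g η| + 1) / e) (by linarith only [L0, lN]) (by linarith only [L0]) (by linarith only [L1, e0, lN, mul_nonneg_of_nonpos_of_nonpos (le_of_lt (Mathlib.Tactic.Linarith.sub_neg_of_lt e0)) (Mathlib.Tactic.Linarith.sub_nonpos_of_le lN)]) (by positivity)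
    (by
      rw [mul_div_cancel₀ _ e0.ne']
      linarith only [Real.add_one_le_exp (|g η| + 1), le_abs_self (g η)])
    (fun g J h1 h2 h3 h4 => by
      obtain ⟨I₁, s1, J₁, s2, z, c1, c2, c3⟩ := hA κ M g J J h1 h2 h2 h4
      exact ⟨I₁, s1, J₁, s2, z, star_cost cA0 (Nat.cast_nonneg _) (star_one_le _ _ _) h3 L2 c1,
        star_cost cA0 (Nat.cast_nonneg _) (star_one_le _ _ _) h3 L2 c2, c3⟩)
    I₀ T A Q hn hT (by rw [← hη]; exact hW) hc
  refine ⟨I, s, hP, hle.trans (le_of_eq ?_)⟩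
  rw [← hK, ← mul_assoc e, eK, mul_add, Real.exp_add, mul_comm δ (Real.log N),
    ← Real.rpow_def_of_pos (by linarith only [N1']), mul_comm (Real.exp _)]

lemma abs_tame {κ : Type} [Fintype κ] [DecidableEq κ] {M m m' N : ℕ} [NeZero M] {I I' : Finset κ}
    {Z : κ → κ → Prop} (h : Tame M m N I Z) (s : I' ⊆ I) (hm : m ∣ m') : Tame M m' N I' Z := by
  obtain ⟨f, d, h1, h2, h3, h4, h5⟩ := h
  obtain ⟨k, rfl⟩ := hm
  exact ⟨f, d, h1, fun i hi => h2 i (s hi),
    fun i hi j hj => by rw [mul_comm, mul_smul, h3 i (s hi) j (s hj), smul_zero],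
    fun i hi j hj => h4 i (s hi) j (s hj), (star_mono f s s).trans h5⟩

/-- The statement proved by a double induction. -/
def AbsClaim (g : ℝ → ℝ) (β β' : ℝ → ℝ → ℝ → ℕ) (n₂ n₁ : ℕ) : Prop :=
  ∀ (C m : ℕ) (δ : ℝ), 0 < m → 0 < δ → ∃ c : ℝ, 0 < c ∧
    ∀ (κ : Type) [Fintype κ] [DecidableEq κ] (M : ℕ) [NeZero M] (N : ℕ) (I : Finset κ)
      (T : Fin C → κ → κ → Prop) (A B : Finset (κ → κ → Prop)), 1 ≤ N → A.card < n₁ →
      B.card < n₂ → (∀ t, Tame M m N I (T t)) → (∀ Z ∈ A, W1 g β M N Z) →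
      (∀ Z ∈ B, W2 g β β' M N Z) →
      (∀ i ∈ I, ∀ j ∈ I, i ≠ j → (∃ t, T t i j) ∨ (∃ Z ∈ A, Z i j) ∨ ∃ Z ∈ B, Z i j) →
      (I.card : ℝ) ≤ c * (N : ℝ) ^ δ

lemma abs_step {g : ℝ → ℝ} {β β' : ℝ → ℝ → ℝ → ℕ} {n₂ n₁ : ℕ} (h1 : AbsClaim g β β' (n₂ + 1) n₁)
    (h2 : ∀ k, AbsClaim g β β' n₂ k) : AbsClaim g β β' (n₂ + 1) (n₁ + 1) := by
  classical
  intro C m δ hm hδ
  obtain ⟨η, lam, c₁, η0, lam0, c10, hL⟩ := abs_loop C (n₁ + n₂) m g (δ / 2) hm (by positivity)
  obtain ⟨c₂, c20, H1⟩ := h1 (C + 1) (m * (β η lam (δ / 4)).factorial) (δ / 4)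
    (Nat.mul_pos hm (Nat.factorial_pos _)) (by positivity)
  obtain ⟨c₃, c30, H2⟩ := h2 (n₁ + β' η lam (δ / 4) + 1) C m (δ / 4) hm (by positivity)
  refine ⟨(4 * m ^ (C + 1) + β η lam (δ / 4) * c₂ + β' η lam (δ / 4) * c₃) * c₁, by positivity, ?_⟩
  intro κ _ _ M _ N I₀ T A B N1 hA hB hT hW1 hW2 hc
  have N1' : (1 : ℝ) ≤ N := by exact_mod_cast N1
  obtain ⟨I, s, hP, hle⟩ := hL κ M N I₀ T (A ∪ B) (fun Z I =>
      (Z ∈ A ∧ ∃ I' ⊆ I, (I.card : ℝ) ≤ β η lam (δ / 4) * (N : ℝ) ^ (δ / 4) * I'.card ∧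
        Tame M (β η lam (δ / 4)).factorial N I' Z) ∨
      (Z ∈ B ∧ ∃ I' ⊆ I, (I.card : ℝ) ≤ β' η lam (δ / 4) * (N : ℝ) ^ (δ / 4) * I'.card ∧
        ∃ Z' : Fin (β' η lam (δ / 4)) → κ → κ → Prop, (∀ s, W1 g β M N (Z' s)) ∧
          ∀ i ∈ I', ∀ j ∈ I', Z i j → ∃ s, Z' s i j)) N1
    ((card_union_le _ _).trans (by omega)) hT (fun Z hZ => by
      rcases mem_union.1 hZ with hZ | hZ
      · obtain ⟨a1, ψ, a2, a3, a4⟩ := hW1 Z hZ
        exact ⟨a1, ψ, a2, a3, fun I hI h => (a4 η lam (δ / 4) η0 lam0 (by positivity) I hI h).imp_right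
          fun h => Or.inl ⟨hZ, h⟩⟩
      · obtain ⟨a1, ψ, a2, a3, a4⟩ := hW2 Z hZ
        exact ⟨a1, ψ, a2, a3, fun I hI h => (a4 η lam (δ / 4) η0 lam0 (by positivity) I hI h).imp_right
          fun h => Or.inr ⟨hZ, h⟩⟩)
    (fun i hi j hj hij => (hc i hi j hj hij).imp_right fun h => by
      rcases h with ⟨Z, hZ, h⟩ | ⟨Z, hZ, h⟩
      · exact ⟨Z, mem_union_left _ hZ, h⟩
      · exact ⟨Z, mem_union_right _ hZ, h⟩)
  have x1 : 1 ≤ (N : ℝ) ^ (δ / 2) := Real.one_le_rpow N1' (by positivity)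
  have x2 : (N : ℝ) ^ (δ / 2) = (N : ℝ) ^ (δ / 4) * (N : ℝ) ^ (δ / 4) := by
    rw [← Real.rpow_add (by linarith only [N1'])]
    congr 1
    ring
  have x3 : (N : ℝ) ^ δ = (N : ℝ) ^ (δ / 2) * (N : ℝ) ^ (δ / 2) := by
    rw [← Real.rpow_add (by linarith only [N1']), add_halves]
  have y1 : (0 : ℝ) ≤ 4 * m ^ (C + 1) * (N : ℝ) ^ (δ / 2) := by positivity
  have y2 : (0 : ℝ) ≤ β η lam (δ / 4) * c₂ * (N : ℝ) ^ (δ / 2) := by positivity
  have y3 : (0 : ℝ) ≤ β' η lam (δ / 4) * c₃ * (N : ℝ) ^ (δ / 2) := by positivity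
  have hI : (I.card : ℝ) ≤
      (4 * m ^ (C + 1) + β η lam (δ / 4) * c₂ + β' η lam (δ / 4) * c₃) * (N : ℝ) ^ (δ / 2) := by
    rw [add_mul, add_mul]
    rcases hP with h | ⟨Z, -, ⟨hZ, I', s', c1, c2⟩ | ⟨hZ, I', s', c1, Z', c2, c3⟩⟩
    · have h' : (I.card : ℝ) ≤ 4 * m ^ (C + 1) := by exact_mod_cast h.le
      have := mul_le_mul_of_nonneg_left x1 (show (0 : ℝ) ≤ 4 * m ^ (C + 1) by positivity)
      linarith only [y2, y3, h', this]
    · have hcard : (A.erase Z).card < n₁ := by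
        have := card_erase_lt_of_mem hZ
        omega
      have h3 := H1 κ M N I' (Fin.cons Z T) (A.erase Z) B N1 hcard hB
        (fun t => Fin.cases (abs_tame c2 subset_rfl (Dvd.intro_left _ rfl))
          (fun u => abs_tame (hT u) (s'.trans s) (Dvd.intro _ rfl)) t)
        (fun Z' hZ' => hW1 Z' (mem_of_mem_erase hZ')) hW2 fun i hi j hj hij => by
          rcases hc i (s (s' hi)) j (s (s' hj)) hij with ⟨t, h⟩ | ⟨Z', hZ', h⟩ | h
          · exact Or.inl ⟨t.succ, h⟩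
          · by_cases e : Z' = Z
            · exact Or.inl ⟨0, e ▸ h⟩
            · exact Or.inr (Or.inl ⟨Z', mem_erase.2 ⟨e, hZ'⟩, h⟩)
          · exact Or.inr (Or.inr h)
      have h4 := c1.trans (mul_le_mul_of_nonneg_left h3 (by positivity))
      have h5 : β η lam (δ / 4) * (N : ℝ) ^ (δ / 4) * (c₂ * (N : ℝ) ^ (δ / 4)) =
          β η lam (δ / 4) * c₂ * (N : ℝ) ^ (δ / 2) := by rw [x2]; ring
      linarith only [y1, y3, h4, h5]
    · have hcard : (B.erase Z).card < n₂ := by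
        have := card_erase_lt_of_mem hZ
        omega
      have hcard' : (A ∪ univ.image Z').card < n₁ + β' η lam (δ / 4) + 1 := by
        have a1 := card_union_le A (univ.image Z')
        have a2 := card_image_le (s := univ) (f := Z')
        rw [card_univ, Fintype.card_fin] at a2
        omega
      have h3 := H2 κ M N I' T (A ∪ univ.image Z') (B.erase Z) N1 hcard' hcard
        (fun u => abs_tame (hT u) (s'.trans s) dvd_rfl)
        (fun Y hY => by
          rcases mem_union.1 hY with hY | hY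
          · exact hW1 Y hY
          · obtain ⟨u, -, rfl⟩ := mem_image.1 hY
            exact c2 u)
        (fun Z' hZ' => hW2 Z' (mem_of_mem_erase hZ')) fun i hi j hj hij => by
          rcases hc i (s (s' hi)) j (s (s' hj)) hij with h | ⟨Y, hY, h⟩ | ⟨Y, hY, h⟩
          · exact Or.inl h
          · exact Or.inr (Or.inl ⟨Y, mem_union_left _ hY, h⟩)
          · by_cases e : Y = Z
            · obtain ⟨u, hu⟩ := c3 i hi j hj (e ▸ h)
              exact Or.inr (Or.inl ⟨Z' u, mem_union_right _ (mem_image_of_mem _ (mem_univ u)), hu⟩)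
            · exact Or.inr (Or.inr ⟨Y, mem_erase.2 ⟨e, hY⟩, h⟩)
      have h4 := c1.trans (mul_le_mul_of_nonneg_left h3 (by positivity))
      have h5 : β' η lam (δ / 4) * (N : ℝ) ^ (δ / 4) * (c₃ * (N : ℝ) ^ (δ / 4)) =
          β' η lam (δ / 4) * c₃ * (N : ℝ) ^ (δ / 2) := by rw [x2]; ring
      linarith only [y1, y2, h4, h5]
  refine hle.trans ((mul_le_mul_of_nonneg_right hI (by positivity)).trans (le_of_eq ?_))
  rw [x3]
  ring

lemma abs_claim (g : ℝ → ℝ) (β β' : ℝ → ℝ → ℝ → ℕ) (n₂ : ℕ) : ∀ n₁, AbsClaim g β β' n₂ n₁ := by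
  induction n₂ with
  | zero =>
    exact fun n₁ C m δ _ _ => ⟨1, one_pos, fun _ _ _ _ _ _ _ _ _ _ _ _ h =>
      absurd h (Nat.not_lt_zero _)⟩
  | succ n₂ ih =>
    intro n₁
    induction n₁ with
    | zero =>
      exact fun C m δ _ _ => ⟨1, one_pos, fun _ _ _ _ _ _ _ _ _ _ _ h =>
        absurd h (Nat.not_lt_zero _)⟩
    | succ n₁ ih' => exact abs_step ih' ih

theorem abs : StmtAbs := by
  classical
  intro g β β' n δ hδ
  obtain ⟨c, c0, h⟩ := abs_claim g β β' (n + 1) 1 0 1 δ one_pos hδ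
  refine ⟨c, c0, fun κ _ _ M _ N ι _ Z N1 hn hW hc => ?_⟩
  refine h κ M N univ (fun t => t.elim0) ∅ (univ.image Z) N1 (by simp)
    (Nat.lt_succ_of_le (card_image_le.trans hn)) (fun t => t.elim0) (by simp)
    (fun Y hY => ?_) fun i _ j _ hij => ?_
  · obtain ⟨t, -, rfl⟩ := mem_image.1 hY
    exact hW t
  · obtain ⟨t, ht⟩ := hc i j hij
    exact Or.inr (Or.inr ⟨Z t, mem_image_of_mem _ (mem_univ t), ht⟩)

end Pool.Agent.Work.MP_11a08a_al.Sol
end

-- merged part: Pool.Agent.Work.MP_11a08a_al.Sol.DefsB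
section
/-!
Definitions and statements for the linear layer: groups of units of `Module.End F W`.
-/

set_option autoImplicit false

open Finset Module
open scoped commutatorElement

namespace Pool.Agent.Work.MP_11a08a_al.Sol

section Defs

variable {F W : Type} [Field F] [AddCommGroup W] [Module F W]

/-- The rank of an endomorphism. -/
noncomputable def rk {V : Type} [AddCommGroup V] [Module F V] (Y : W →ₗ[F] V) : ℕ :=
  finrank F (LinearMap.range Y)

variable (F W) in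
/-- The nonzero scalars. -/
def Zs : Subgroup (End F W)ˣ where
  carrier := {u | ∃ c : F, c ≠ 0 ∧ (u : End F W) = c • (1 : End F W)}
  one_mem' := ⟨1, one_ne_zero, by simp⟩
  mul_mem' := by
    rintro a b ⟨c, hc, h⟩ ⟨c', hc', h'⟩
    exact ⟨c * c', mul_ne_zero hc hc', by rw [Units.val_mul, h, h', smul_mul_smul_comm, one_mul]⟩
  inv_mem' := by
    rintro a ⟨c, hc, h⟩
    refine ⟨c⁻¹, inv_ne_zero hc, ?_⟩
    have h1 : (a : End F W) * (c⁻¹ • (1 : End F W)) = 1 := by
      rw [h, smul_mul_smul_comm, mul_inv_cancel₀ hc, one_mul, one_smul]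
    exact Units.inv_eq_of_mul_eq_one_right h1

/-- `t` normalises `M`. -/
def Nm (t : (End F W)ˣ) (M : Subgroup (End F W)ˣ) : Prop :=
  t ∈ Subgroup.normalizer (M : Set (End F W)ˣ)

/-- Every commutative group normalised by `H` consists of scalars. -/
def Prim (H : Subgroup (End F W)ˣ) : Prop :=
  ∀ A : Subgroup (End F W)ˣ, (∀ a ∈ A, ∀ b ∈ A, a * b = b * a) → (∀ h ∈ H, Nm h A) → A ≤ Zs F W

/-- A group that is finite and abelian modulo scalars with scalar centre. -/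
structure Heis (E : Subgroup (End F W)ˣ) : Prop where
  le : Zs F W ≤ E
  fin : (Zs F W).relIndex E ≠ 0
  comm : ∀ e ∈ E, ∀ e' ∈ E, ⁅e, e'⁆ ∈ Zs F W
  nd : ∀ e ∈ E, (∀ e' ∈ E, e * e' = e' * e) → e ∈ Zs F W

/-- The twisted conjugation `Y ↦ (s e s⁻¹) Y e⁻¹`. -/
def tw (s e : (End F W)ˣ) (Y : End F W) : End F W :=
  ((s * e * s⁻¹ : (End F W)ˣ) : End F W) * Y * ((e⁻¹ : (End F W)ˣ) : End F W)

/-- Common eigenvector of the twisted conjugations. -/
def Eig (E : Subgroup (End F W)ˣ) (s : (End F W)ˣ) (Y : End F W) : Prop :=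
  ∀ e ∈ E, ∃ c : F, tw s e Y = c • Y

/-- A sum of `m` common eigenvectors. -/
def Wt (E : Subgroup (End F W)ˣ) (m : ℕ) (s : (End F W)ˣ) (Y : End F W) : Prop :=
  ∃ T : Fin m → End F W, (∀ k, Eig E s (T k)) ∧ Y = ∑ k, T k

/-- The elements of `E` fixed by `t` modulo scalars. -/
def fixE (E : Subgroup (End F W)ˣ) (t : (End F W)ˣ) : Subgroup (End F W)ˣ where
  carrier := {e | e ∈ E ∧ ⁅t, e⁆ ∈ Zs F W}
  one_mem' := ⟨E.one_mem, by simp⟩
  mul_mem' := by
    rintro a b ⟨ha, c, hc, h⟩ ⟨hb, h'⟩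
    refine ⟨E.mul_mem ha hb, ?_⟩
    have hz : ∀ z ∈ Zs F W, ∀ x : (End F W)ˣ, x * z * x⁻¹ = z := by
      rintro z ⟨c, -, h⟩ x
      have : x * z = z * x := Units.ext (by simp [h])
      rw [this, mul_inv_cancel_right]
    have e : ⁅t, a * b⁆ = ⁅t, a⁆ * (a * ⁅t, b⁆ * a⁻¹) := by
      simp only [commutatorElement_def]; group
    rw [e, hz _ h']
    exact (Zs F W).mul_mem ⟨c, hc, h⟩ h'
  inv_mem' := by
    rintro a ⟨ha, h'⟩
    refine ⟨E.inv_mem ha, ?_⟩
    have hz : ∀ z ∈ Zs F W, ∀ x : (End F W)ˣ, x * z * x⁻¹ = z := by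
      rintro z ⟨c, -, h⟩ x
      have : x * z = z * x := Units.ext (by simp [h])
      rw [this, mul_inv_cancel_right]
    have e : ⁅t, a⁻¹⁆ = a⁻¹ * ⁅t, a⁆⁻¹ * a⁻¹⁻¹ := by
      simp only [commutatorElement_def]; group
    rw [e, hz _ ((Zs F W).inv_mem h')]
    exact (Zs F W).inv_mem h'

/-- The size of the displacement of `E` modulo scalars by `t`. -/
noncomputable def sig (E : Subgroup (End F W)ˣ) (t : (End F W)ˣ) : ℕ := (fixE E t).relIndex E

/-- The linear span of a group of units. -/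
def spn (M : Subgroup (End F W)ˣ) : Submodule F (End F W) :=
  Submodule.span F ((fun u : (End F W)ˣ => (u : End F W)) '' (M : Set (End F W)ˣ))

/-- `Y` commutes with `M`. -/
def Cm (M : Subgroup (End F W)ˣ) (Y : End F W) : Prop :=
  ∀ u ∈ M, (u : End F W) * Y = Y * (u : End F W)

/-- A subspace closed under left and right multiplication by `M`. -/
def Bim (M : Subgroup (End F W)ˣ) (U : Submodule F (End F W)) : Prop :=
  ∀ u ∈ M, ∀ Y ∈ U, (u : End F W) * Y ∈ U ∧ Y * (u : End F W) ∈ U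

/-- The span of `M` is a full matrix algebra. -/
def MU (M : Subgroup (End F W)ˣ) : Prop :=
  ∃ (n : ℕ) (e : Fin (n + 1) → Fin (n + 1) → End F W), (∀ a b, e a b ∈ spn M) ∧
    (∀ a b c d, e a b * e c d = if b = c then e a d else 0) ∧ ∑ a, e a a = 1 ∧
    spn M ≤ Submodule.span F (Set.range fun p : Fin (n + 1) × Fin (n + 1) => e p.1 p.2)

/-- A finite family of commuting perfect groups of bounded order modulo scalars, all of whose
joins of subfamilies span full matrix algebras. -/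
structure Comp (d : ℕ) (C : Finset (Subgroup (End F W)ˣ)) : Prop where
  perf : ∀ L ∈ C, ⁅L, L⁆ = L
  ns : ∀ L ∈ C, ¬ L ≤ Zs F W
  fin : ∀ L ∈ C, (Zs F W).relIndex L ≠ 0 ∧ (Zs F W).relIndex L ≤ d
  cm : ∀ L ∈ C, ∀ L' ∈ C, L ≠ L' → ∀ x ∈ L, ∀ y ∈ L', x * y = y * x
  mu : ∀ S ⊆ C, MU (S.sup id)

/-- `t` permutes the family `C` by conjugation. -/
def NmC (t : (End F W)ˣ) (C : Finset (Subgroup (End F W)ˣ)) : Prop :=
  ∀ L ∈ C, L.map (MulAut.conj t).toMonoidHom ∈ C ∧ L.map (MulAut.conj t⁻¹).toMonoidHom ∈ C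

open Classical in
/-- The members of `C` that `t` does not centralise. -/
noncomputable def supp (C : Finset (Subgroup (End F W)ˣ)) (t : (End F W)ˣ) :
    Finset (Subgroup (End F W)ˣ) := C.filter fun L => ¬ ∀ y ∈ L, t * y = y * t

/-- `Y` is fixed by the twisted conjugations from all but `m` members of `C`. -/
def Loc (C : Finset (Subgroup (End F W)ˣ)) (m : ℕ) (t : (End F W)ˣ) (Y : End F W) : Prop :=
  ∃ S ⊆ C, S.card ≤ m ∧ ∀ L ∈ C, L ∉ S → ∀ y ∈ L, tw t y Y = Y

/-- The structure of a normalised subgroup `S` of a primitive group `H`. -/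
structure Str (d : ℕ) (H S E : Subgroup (End F W)ˣ) (C : Finset (Subgroup (End F W)ˣ)) : Prop where
  heis : Heis E
  comp : Comp d C
  eS : E ≤ S
  cS : ∀ L ∈ C, L ≤ S
  nE : ∀ t, t ∈ H ∨ t ∈ S → Nm t E
  nC : ∀ t, t ∈ H ∨ t ∈ S → NmC t C
  ec : ∀ e ∈ E, ∀ L ∈ C, ∀ y ∈ L, e * y = y * e
  self : ∀ s ∈ S, E ≤ fixE E s → supp C s = ∅ → s ∈ E

/-- Nonabelian simple sections of `S` modulo scalars have order at most `d`. -/
def SecZ (d : ℕ) (S : Subgroup (End F W)ˣ) : Prop :=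
  ∀ B : Subgroup (End F W)ˣ, B ≤ S → ∀ A : Subgroup B, ∀ _ : A.Normal,
    (Zs F W).subgroupOf B ≤ A → IsSimpleGroup (B ⧸ A) →
    (∀ x y : B ⧸ A, x * y = y * x) ∨ Nat.card (B ⧸ A) ≤ d

/-- The sum over `P` vanishes and no proper nonempty subsum does. -/
def MinV {A : Type} [AddCommMonoid A] {q : ℕ} (P : Finset (Fin q)) (u : Fin q → A) : Prop :=
  ∑ l ∈ P, u l = 0 ∧ ∀ P' ⊆ P, P'.Nonempty → P' ≠ P → ∑ l ∈ P', u l ≠ 0

end Defs

end Pool.Agent.Work.MP_11a08a_al.Sol
end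

-- merged part: Pool.Agent.Work.MP_11a08a_al.Sol.DefsC
section
/-!
Statements of the linear layer.
-/

set_option autoImplicit false

open Finset Module
open scoped commutatorElement

namespace Pool.Agent.Work.MP_11a08a_al.Sol

/-- Joint eigenspaces are independent, and they span for commuting operators of order prime to the
characteristic modulo scalars. -/
def StmtDiag : Prop :=
  ∀ (F V ι : Type) [Field F] [AddCommGroup V] [Module F V] (f : ι → End F V),
    (iSupIndep fun χ : ι → F => ⨅ i, (f i).eigenspace (χ i)) ∧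
    (IsAlgClosed F → FiniteDimensional F V → ∀ (W : Submodule F V) (k : ℕ), (k : F) ≠ 0 →
      (∀ i, ∀ w ∈ W, f i w ∈ W) → (∀ i j, ∀ w ∈ W, f i (f j w) = f j (f i w)) →
      (∀ i, ∃ c : F, c ≠ 0 ∧ ∀ w ∈ W, (f i ^ k) w = c • w) →
      W ≤ ⨆ χ : ι → F, W ⊓ ⨅ i, (f i).eigenspace (χ i))

/-- Duality for a group with scalar commutators and scalar centre. -/
def StmtDual : Prop :=
  ∀ (F W : Type) [Field F] [AddCommGroup W] [Module F W] [Nontrivial W]
    (E : Subgroup (End F W)ˣ), Heis E →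
    ((((Zs F W).relIndex E : ℕ) : F) ≠ 0) ∧
    (∀ χ : (End F W)ˣ → F, (∀ e ∈ E, ∀ e' ∈ E, χ (e * e') = χ e * χ e') →
      (∀ z ∈ Zs F W, χ z = 1) →
      ∃ e₁ ∈ E, ∀ e ∈ E, ((⁅e₁, e⁆ : (End F W)ˣ) : End F W) = χ e • (1 : End F W)) ∧
    ∀ E₀ N : Subgroup (End F W)ˣ, Zs F W ≤ E₀ → E₀ ≤ E → (∀ n ∈ N, E ≤ fixE E n) →
      (∀ n ∈ N, ∀ e ∈ E₀, n * e = e * n) →
      (Subgroup.centralizer (E : Set (End F W)ˣ)).relIndex N ≠ 0 ∧
      (Subgroup.centralizer (E : Set (End F W)ˣ)).relIndex N ≤ E₀.relIndex E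

/-- The number of weights of a normalising unit, and the lower bound for a twisted eigenvector. -/
def StmtWt : Prop :=
  ∀ (F W : Type) [Field F] [IsAlgClosed F] [AddCommGroup W] [Module F W] [FiniteDimensional F W]
    [Nontrivial W] (E : Subgroup (End F W)ˣ), Heis E → ∀ s t : (End F W)ˣ, Nm s E → Nm t E →
    Wt E (sig E (s⁻¹ * t)) s (t : End F W) ∧
    ∀ (m : ℕ) (Y : End F W), Y ≠ 0 → Wt E m t Y → Eig E s Y → sig E (s⁻¹ * t) ≤ m

/-- Reduction of a nonzero sum to a twisted eigenvector. -/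
def StmtPet1 : Prop :=
  ∀ q m : ℕ, ∃ K : ℕ, ∀ (F W : Type) [Field F] [AddCommGroup W] [Module F W]
    [FiniteDimensional F W] (E : Subgroup (End F W)ˣ), Heis E →
    ∀ (R : Finset (Fin q)) (s : Fin q → (End F W)ˣ) (Y : Fin q → End F W),
    (∀ r ∈ R, Nm (s r) E ∧ Wt E m (s r) (Y r)) → ∑ r ∈ R, Y r ≠ 0 →
    ∃ X : End F W, X ≠ 0 ∧ (∃ r ∈ R, Eig E (s r) X) ∧ rk X ≤ K * rk (∑ r ∈ R, Y r) ∧
      ∀ U : Submodule F (End F W), Bim E U → ∑ r ∈ R, Y r ∈ U → X ∈ U

/-- Far clusters vanish separately. -/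
def StmtPet2 : Prop :=
  ∀ q m : ℕ, ∃ T : ℕ, ∀ (F W : Type) [Field F] [IsAlgClosed F] [AddCommGroup W] [Module F W]
    [FiniteDimensional F W] [Nontrivial W] (E : Subgroup (End F W)ˣ), Heis E →
    ∀ (R : Finset (Fin q)) (s : Fin q → (End F W)ˣ) (Y : Fin q → End F W),
    (∀ r ∈ R, Nm (s r) E ∧ Wt E m (s r) (Y r)) → ∑ r ∈ R, Y r = 0 →
    (∀ r ∈ R, ∀ r' ∈ R, r ≠ r' → T < sig E ((s r)⁻¹ * s r')) → ∀ r ∈ R, Y r = 0

/-- Consequences of the existence of matrix units. -/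
def StmtMU : Prop :=
  ∀ (F W : Type) [Field F] [AddCommGroup W] [Module F W] [FiniteDimensional F W] [Nontrivial W]
    (M : Subgroup (End F W)ˣ), MU M →
    (∃ θ : End F W →ₗ[F] End F W, (∀ X, Cm M X → θ X = X) ∧
      ∀ B ∈ spn M, ∃ c : F, ∀ x, Cm M x → θ (B * x) = c • x) ∧
    (∀ Y : End F W, Y ≠ 0 → ∃ X : End F W, X ≠ 0 ∧ Cm M X ∧
      rk X ≤ finrank F (spn M) * rk Y ∧
      (∀ U : Submodule F (End F W), Bim M U → Y ∈ U → X ∈ U) ∧
      ∀ a : End F W, Cm M a → a * Y = Y * a → a * X = X * a) ∧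
    (∀ U : Submodule F W, U ≠ ⊥ → (∀ u ∈ M, ∀ w ∈ U, (u : End F W) w ∈ U) →
      ∀ z ∈ spn M, (∀ w ∈ U, z w = 0) → z = 0) ∧
    (∀ t : (End F W)ˣ, Nm t M → ∃ A : (End F W)ˣ, (A : End F W) ∈ spn M ∧
      ((A⁻¹ : (End F W)ˣ) : End F W) ∈ spn M ∧ Cm M ((A⁻¹ * t : (End F W)ˣ) : End F W)) ∧
    ∀ B ∈ spn M, ∀ x : End F W, x ≠ 0 → Cm M x → Cm M (B * x) → ∃ c : F, B = c • (1 : End F W)

/-- A commuting factor of a group normalised by a primitive group spans a matrix algebra. -/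
def StmtSimple : Prop :=
  ∀ (F W : Type) [Field F] [IsAlgClosed F] [AddCommGroup W] [Module F W] [FiniteDimensional F W]
    [Nontrivial W] (H M₁ M₂ : Subgroup (End F W)ˣ), Prim H → (∀ h ∈ H, Nm h (M₁ ⊔ M₂)) →
    (∀ x ∈ M₁, ∀ y ∈ M₂, x * y = y * x) → MU M₁

/-- Sizes of joins of subfamilies, and centralising modulo scalars. -/
def StmtJoin : Prop :=
  ∀ (F W : Type) [Field F] [AddCommGroup W] [Module F W] [FiniteDimensional F W] (d : ℕ)
    (C : Finset (Subgroup (End F W)ˣ)), Comp d C →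
    (∀ S ⊆ C, (Zs F W).relIndex (S.sup id) ≠ 0 ∧ (Zs F W).relIndex (S.sup id) ≤ d ^ S.card ∧
      finrank F (spn (S.sup id)) ≤ d ^ S.card) ∧
    (∀ L ∈ C, ∀ t : (End F W)ˣ, (∀ y ∈ L, ⁅t, y⁆ ∈ Zs F W) → ∀ y ∈ L, t * y = y * t) ∧
    (∀ t, NmC t C → Nm t (C.sup id)) ∧
    (∀ s t, NmC s C → NmC t C → NmC (s⁻¹ * t) C ∧ Loc C (supp C (s⁻¹ * t)).card s (t : End F W)) ∧
    ∀ (m : ℕ) (s t : (End F W)ˣ) (Y : End F W), NmC s C → NmC t C → Loc C m t Y →
      ∀ L ∈ C, ∀ y ∈ L, Loc C (m + 2) t (tw s y Y - Y)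

/-- The analogues of the two reductions for a family of components. -/
def StmtLoc : Prop :=
  ∀ (q m d : ℕ) (F W : Type) [Field F] [AddCommGroup W] [Module F W] [FiniteDimensional F W]
    [Nontrivial W] (C : Finset (Subgroup (End F W)ˣ)), Comp d C →
    ∀ (R : Finset (Fin q)) (s : Fin q → (End F W)ˣ) (Y : Fin q → End F W),
    (∀ r ∈ R, NmC (s r) C ∧ Loc C m (s r) (Y r)) →
    (∑ r ∈ R, Y r ≠ 0 → ∃ X : End F W, X ≠ 0 ∧ (∃ r ∈ R, Loc C (m + 2 * q) (s r) X) ∧
      rk X ≤ 2 ^ q * rk (∑ r ∈ R, Y r) ∧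
      ∀ U : Submodule F (End F W), Bim (C.sup id) U → ∑ r ∈ R, Y r ∈ U → X ∈ U) ∧
    (∑ r ∈ R, Y r = 0 →
      (∀ r ∈ R, ∀ r' ∈ R, r ≠ r' → 2 * m + 4 * q < (supp C ((s r)⁻¹ * s r')).card) →
      ∀ r ∈ R, Y r = 0)

/-- Existence of the structure. -/
def StmtStr : Prop :=
  ∀ (F W : Type) [Field F] [IsAlgClosed F] [AddCommGroup W] [Module F W] [FiniteDimensional F W]
    [Nontrivial W] (d : ℕ) (H S : Subgroup (End F W)ˣ), Prim H → Zs F W ≤ S →
    (Zs F W).relIndex S ≠ 0 → (∀ h ∈ H, Nm h S) → SecZ d S → ∃ E C, Str d H S E C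

/-- In a minimal vanishing sum all quotients are near. -/
def StmtNear : Prop :=
  ∀ q : ℕ, ∃ T : ℕ, ∀ (F W : Type) [Field F] [IsAlgClosed F] [AddCommGroup W] [Module F W]
    [FiniteDimensional F W] [Nontrivial W] (P : Finset (Fin q)) (α : Fin q → F)
    (r : Fin q → (End F W)ˣ), MinV P (fun l => α l • (r l : End F W)) →
    (∀ E : Subgroup (End F W)ˣ, Heis E → (∀ l ∈ P, Nm (r l) E) →
      ∀ l ∈ P, ∀ l' ∈ P, sig E ((r l)⁻¹ * r l') ≤ T) ∧
    ∀ (d : ℕ) (C : Finset (Subgroup (End F W)ˣ)), Comp d C → (∀ l ∈ P, NmC (r l) C) →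
      ∀ l ∈ P, ∀ l' ∈ P, (supp C ((r l)⁻¹ * r l')).card ≤ T

/-- Passing to the centraliser of a normalised matrix algebra. -/
def StmtNext : Prop :=
  ∀ (F W : Type) [Field F] [AddCommGroup W] [Module F W] [FiniteDimensional F W] [Nontrivial W]
    (d : ℕ) (H S M : Subgroup (End F W)ˣ), Zs F W ≤ S → (Zs F W).relIndex S ≠ 0 →
    (∀ h ∈ H, Nm h S ∧ Nm h M) → SecZ d S → M ≤ S → ¬ M ≤ Zs F W → (∀ s ∈ S, Nm s M) → MU M →
    ∃ S' : Subgroup (End F W)ˣ, Zs F W ≤ S' ∧ (Zs F W).relIndex S' ≠ 0 ∧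
      (Zs F W).relIndex S' < (Zs F W).relIndex S ∧ (∀ h ∈ H, Nm h S') ∧ SecZ d S' ∧
      ∀ s ∈ S, ∃ A x : (End F W)ˣ, (A : End F W) ∈ spn M ∧
        ((A⁻¹ : (End F W)ˣ) : End F W) ∈ spn M ∧ x ∈ S' ∧ Cm M (x : End F W) ∧ s = A * x

/-- The rank bound on a primitive block. -/
def StmtRank : Prop :=
  ∀ q d : ℕ, ∃ K : ℕ, ∀ (F W : Type) [Field F] [IsAlgClosed F] [AddCommGroup W] [Module F W]
    [FiniteDimensional F W] [Nontrivial W] (H S : Subgroup (End F W)ˣ), Prim H → Zs F W ≤ S →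
    (Zs F W).relIndex S ≠ 0 → (∀ h ∈ H, Nm h S) → SecZ d S →
    ∀ (P : Finset (Fin q)) (α : Fin q → F) (s : Fin q → (End F W)ˣ), (∀ l ∈ P, s l ∈ S) →
    ∑ l ∈ P, α l • (s l : End F W) ≠ 0 → finrank F W ≤ K * rk (∑ l ∈ P, α l • (s l : End F W))

/-- The lower central series of a subgroup, inside the ambient group. -/
def gam {G : Type} [Group G] (N : Subgroup G) : ℕ → Subgroup G
  | 0 => N
  | c + 1 => ⁅gam N c, N⁆

/-- A group centralising the components and unipotent on `E` is nilpotent modulo scalars. -/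
def StmtNilp : Prop :=
  ∀ (F W : Type) [Field F] [AddCommGroup W] [Module F W] (d : ℕ)
    (H S E N E₁ E₂ : Subgroup (End F W)ˣ) (C : Finset (Subgroup (End F W)ˣ)), Str d H S E C →
    N ≤ S → (∀ n ∈ N, supp C n = ∅) →
    (∀ n ∈ N, (∀ e ∈ E, ⁅n, e⁆ ∈ E₂) ∧ (∀ e ∈ E, e ∈ E₂ → ⁅n, e⁆ ∈ E₁) ∧
      ∀ e ∈ E, e ∈ E₁ → ⁅n, e⁆ ∈ Zs F W) → Zs F W ≤ E₁ → Zs F W ≤ E₂ →
    gam N 5 ≤ Zs F W ∧ ∀ n ∈ N, n ^ ((Zs F W).relIndex E) ^ 3 ∈ Zs F W

end Pool.Agent.Work.MP_11a08a_al.Sol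
end

-- merged part: Pool.Agent.Work.MP_11a08a_al.Sol.Diag
section
/-!
First part: by induction on a finite set `s` of characters show that `∑ χ ∈ s, v χ = 0` with `v χ` in the joint
eigenspace forces all `v χ = 0` (for `χ₀ ≠ χ₁` in `s` pick `i` with `χ₀ i ≠ χ₁ i` and apply `f i - χ₀ i`);
use `iSupIndep_iff_finset_sum_eq_zero_imp_eq_zero` or a similar criterion.
Second part: restrict `f i` to `W`; each restriction is killed by the separable polynomial `X ^ k - C c`, so it is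
semisimple (`Module.End.isSemisimple_of_squarefree_aeval_eq_zero`), its generalised eigenspaces are eigenspaces
(`IsFinitelySemisimple.maxGenEigenspace_eq_eigenspace`); apply
`Module.End.iSup_iInf_maxGenEigenspace_eq_top_of_iSup_maxGenEigenspace_eq_top_of_commute` and map along `W.subtype`.
-/

set_option autoImplicit false

open Finset Module
open scoped commutatorElement

namespace Pool.Agent.Work.MP_11a08a_al.Sol

lemma diag_indep {F V ι : Type} [Field F] [AddCommGroup V] [Module F V] (f : ι → End F V)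
    (s : Finset (ι → F)) : ∀ v : (ι → F) → V, (∀ χ ∈ s, ∀ i, f i (v χ) = χ i • v χ) →
      ∑ χ ∈ s, v χ = 0 → ∀ χ ∈ s, v χ = 0 := by
  classical
  induction s using Finset.induction_on with
  | empty => intro v _ _ χ h; simp at h
  | insert χ₀ s h₀ ih =>
    intro v hv hs
    have key : ∀ χ ∈ s, v χ = 0 := by
      intro χ₁ h₁
      have hne : χ₁ ≠ χ₀ := fun e => h₀ (e ▸ h₁)
      obtain ⟨i, hi⟩ := Function.ne_iff.mp hne
      have h2 := ih (fun χ => (χ i - χ₀ i) • v χ) (fun χ hχ j => by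
        rw [map_smul, hv χ (mem_insert_of_mem hχ) j, smul_comm]) (by
        rw [sum_insert h₀] at hs
        have h3 := congrArg (f i) hs
        rw [map_add, map_sum, map_zero, hv χ₀ (mem_insert_self _ _) i,
          sum_congr rfl fun χ hχ => hv χ (mem_insert_of_mem hχ) i] at h3
        have h4 := congrArg (fun x => χ₀ i • x) hs
        simp only [smul_add, smul_zero, smul_sum] at h4
        simp only [sub_smul, sum_sub_distrib]
        rw [sub_eq_zero]
        exact add_left_cancel (h3.trans h4.symm)) χ₁ h₁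
      exact (smul_eq_zero.mp h2).resolve_left (sub_ne_zero.mpr hi)
    rw [sum_insert h₀, sum_eq_zero key, add_zero] at hs
    intro χ hχ
    rcases mem_insert.mp hχ with rfl | hχ
    · exact hs
    · exact key χ hχ

theorem diag : StmtDiag := by
  intro F V ι _ _ _ f
  refine ⟨?_, ?_⟩
  · rw [iSupIndep_iff_finsetSum_eq_zero_imp_eq_zero]
    intro s v hv hs
    refine diag_indep f s v (fun χ hχ i => ?_) hs
    exact End.mem_eigenspace_iff.mp ((Submodule.mem_iInf _).mp (hv χ hχ) i)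
  · intro hF hV W k hk hW hc hp
    let g : ι → End F W := fun i => (f i).restrict (hW i)
    have hg : ∀ i (w : W), ((g i w : W) : V) = f i w := fun i w => rfl
    have hgp : ∀ i (n : ℕ) (w : W), (((g i ^ n) w : W) : V) = (f i ^ n) w := by
      intro i n
      induction n with
      | zero => intro w; simp
      | succ n ih =>
        intro w
        rw [pow_succ, pow_succ, End.mul_apply, End.mul_apply, ih, hg]
    have hss : ∀ i, (g i).IsSemisimple := by
      intro i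
      obtain ⟨c, hc0, hc⟩ := hp i
      refine End.isSemisimple_of_squarefree_aeval_eq_zero
        (Polynomial.separable_X_pow_sub_C c hk hc0).squarefree ?_
      ext w
      simp only [map_sub, map_pow, Polynomial.aeval_X, Polynomial.aeval_C, LinearMap.sub_apply,
        algebraMap_end_apply, LinearMap.zero_apply, Submodule.coe_sub, Submodule.coe_zero]
      rw [hgp, hc w w.2]
      simp
    have htop := End.iSup_iInf_maxGenEigenspace_eq_top_of_iSup_maxGenEigenspace_eq_top_of_commute g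
      (fun i j _ => by
        ext w
        simp only [End.mul_apply, hg]
        exact hc i j w w.2) (fun i => End.iSup_maxGenEigenspace_eq_top (g i))
    have hmap := congrArg (Submodule.map W.subtype) htop
    rw [Submodule.map_top, Submodule.range_subtype, Submodule.map_iSup] at hmap
    refine hmap.ge.trans (iSup_mono fun χ => ?_)
    rintro _ ⟨w, hw, rfl⟩
    refine ⟨w.2, (Submodule.mem_iInf _).mpr fun i => ?_⟩
    have h1 := (Submodule.mem_iInf _).mp hw i
    rw [(End.isFinitelySemisimple_iff_isSemisimple.mpr (hss i)).maxGenEigenspace_eq_eigenspace,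
      End.mem_eigenspace_iff] at h1
    rw [End.mem_eigenspace_iff]
    exact congrArg Subtype.val h1

end Pool.Agent.Work.MP_11a08a_al.Sol
end

-- merged part: Pool.Agent.Work.MP_11a08a_al.Sol.Loc
section
/-!
Induct on `card R ≤ n` for all `m` (statement with `2 * n` and `2 ^ n` in place of `2 * q`, `2 ^ q`; `Loc` is monotone in `m`).
First part: pick `r₀ ∈ R` with exceptional set `S₀`.  If the total `Y` is fixed by all `tw (s r₀) y`, `y ∈ L ∉ S₀`, take
`X = Y`.  Otherwise `Y' = tw (s r₀) y Y - Y ≠ 0` is the sum over `R.erase r₀` of the `tw (s r₀) y (Y r) - Y r`, which are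
`Loc (m + 2)` by `hJ`; `rk Y' ≤ 2 rk Y`; `s r₀ y (s r₀)⁻¹ ∈ C.sup id`.
Second part: for all `y ∈ L ∉ S₀` the induction hypothesis gives `tw (s r₀) y (Y r) = Y r`.  For `r ≠ r₀` with exceptional
set `S` pick `L ∈ supp C ((s r₀)⁻¹ * s r)` outside `S₀ ∪ S` and `y₀ ∈ L` not commuting.  For `y ∈ L`:
`(s r₀ y (s r₀)⁻¹) * Y r = Y r * y = (s r y (s r)⁻¹) * Y r`.  So `range (Y r)` is invariant under
`L' = L.map (conj (s r₀))`, `L'' = L.map (conj (s r))`, hence under `M = ({L', L''} : Finset _).sup id`, and the nonzero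
`z = s r₀ y₀ (s r₀)⁻¹ - s r y₀ (s r)⁻¹ ∈ spn M` kills it; part (iii) of `hM` with `mu` gives `Y r = 0`.
-/

set_option autoImplicit false

open Finset Module
open scoped commutatorElement

namespace Pool.Agent.Work.MP_11a08a_al.Sol

section Aux

variable {F W : Type} [Field F] [AddCommGroup W] [Module F W]

theorem loc_rk_mul [FiniteDimensional F W] (A Y B : End F W) : rk (A * Y * B) ≤ rk Y := by
  have h : LinearMap.range (A * Y * B) ≤ (LinearMap.range Y).map A := by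
    rintro _ ⟨w, rfl⟩
    exact ⟨Y (B w), ⟨B w, rfl⟩, rfl⟩
  exact (Submodule.finrank_mono h).trans (Submodule.finrank_map_le _ _)

theorem loc_rk_sub [FiniteDimensional F W] (X Y : End F W) : rk (X - Y) ≤ rk X + rk Y := by
  have h : LinearMap.range (X - Y) ≤ LinearMap.range X ⊔ LinearMap.range Y := by
    rintro _ ⟨w, rfl⟩
    exact Submodule.sub_mem _ (Submodule.mem_sup_left ⟨w, rfl⟩) (Submodule.mem_sup_right ⟨w, rfl⟩)
  exact (Submodule.finrank_mono h).trans (Submodule.finrank_add_le_finrank_add_finrank _ _)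

theorem loc_tw_sum {ι : Type} (R : Finset ι) (s y : (End F W)ˣ) (Y : ι → End F W) :
    tw s y (∑ r ∈ R, Y r) = ∑ r ∈ R, tw s y (Y r) := by
  simp only [tw, Finset.mul_sum, Finset.sum_mul]

theorem loc_sum_erase {ι : Type} [DecidableEq ι] (R : Finset ι) (s y : (End F W)ˣ)
    (Y : ι → End F W) {r₀ : ι} (h : tw s y (Y r₀) = Y r₀) :
    ∑ r ∈ R.erase r₀, (tw s y (Y r) - Y r) = tw s y (∑ r ∈ R, Y r) - ∑ r ∈ R, Y r := by
  rw [loc_tw_sum, ← Finset.sum_sub_distrib]
  exact Finset.sum_erase R (by rw [h, sub_self])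

theorem loc_conj_mem {L : Subgroup (End F W)ˣ} (s : (End F W)ˣ) {y : (End F W)ˣ} (hy : y ∈ L) :
    s * y * s⁻¹ ∈ L.map (MulAut.conj s).toMonoidHom := ⟨y, hy, rfl⟩

theorem loc_tw_eq {s y : (End F W)ˣ} {Y : End F W} (h : tw s y Y = Y) :
    ((s * y * s⁻¹ : (End F W)ˣ) : End F W) * Y = Y * (y : End F W) := by
  conv_rhs => rw [← h]
  rw [tw, mul_assoc _ _ (y : End F W), Units.inv_mul, mul_one]

/-- The units that stabilise a subspace. -/
def loc_stab (U : Submodule F W) : Subgroup (End F W)ˣ where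
  carrier := {u | ∀ w ∈ U, (u : End F W) w ∈ U ∧ ((u⁻¹ : (End F W)ˣ) : End F W) w ∈ U}
  one_mem' := fun w hw => by simpa using hw
  mul_mem' := by
    intro a b ha hb w hw
    refine ⟨(ha _ (hb w hw).1).1, ?_⟩
    rw [mul_inv_rev]
    exact (hb _ (ha w hw).2).2
  inv_mem' := by
    intro a ha w hw
    rw [inv_inv]
    exact ⟨(ha w hw).2, (ha w hw).1⟩

theorem loc_le_stab {L : Subgroup (End F W)ˣ} {s : (End F W)ˣ} {Y : End F W}
    (h : ∀ y ∈ L, tw s y Y = Y) :
    L.map (MulAut.conj s).toMonoidHom ≤ loc_stab (LinearMap.range Y) := by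
  have key : ∀ y ∈ L, ∀ w ∈ LinearMap.range Y,
      ((s * y * s⁻¹ : (End F W)ˣ) : End F W) w ∈ LinearMap.range Y := by
    rintro y hy _ ⟨w, rfl⟩
    exact ⟨(y : End F W) w, (LinearMap.congr_fun (loc_tw_eq (h y hy)) w).symm⟩
  rintro _ ⟨y, hy, rfl⟩ w hw
  refine ⟨key y hy w hw, ?_⟩
  have e : ((MulAut.conj s).toMonoidHom y)⁻¹ = s * y⁻¹ * s⁻¹ := by
    change (s * y * s⁻¹)⁻¹ = _
    group
  rw [e]
  exact key _ (L.inv_mem hy) w hw

theorem loc_one (hJ : StmtJoin) [FiniteDimensional F W] {d : ℕ}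
    {C : Finset (Subgroup (End F W)ˣ)} (hC : Comp d C) {q : ℕ} (s : Fin q → (End F W)ˣ) (n : ℕ) :
    ∀ (m : ℕ) (R : Finset (Fin q)) (Y : Fin q → End F W), R.card ≤ n →
    (∀ r ∈ R, NmC (s r) C ∧ Loc C m (s r) (Y r)) → ∑ r ∈ R, Y r ≠ 0 →
    ∃ X : End F W, X ≠ 0 ∧ (∃ r ∈ R, Loc C (m + 2 * n) (s r) X) ∧
      rk X ≤ 2 ^ n * rk (∑ r ∈ R, Y r) ∧
      ∀ U : Submodule F (End F W), Bim (C.sup id) U → ∑ r ∈ R, Y r ∈ U → X ∈ U := by
  induction n with
  | zero =>
    intro m R Y hR _ h0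
    rw [Nat.le_zero, Finset.card_eq_zero] at hR
    subst hR
    exact absurd Finset.sum_empty h0
  | succ n ih =>
    intro m R Y hR hY h0
    obtain ⟨r₀, hr₀⟩ : R.Nonempty := Finset.nonempty_of_sum_ne_zero h0
    obtain ⟨hn₀, S₀, hS₀, hc₀, hf₀⟩ := hY r₀ hr₀
    by_cases hall : ∀ L ∈ C, L ∉ S₀ → ∀ y ∈ L, tw (s r₀) y (∑ r ∈ R, Y r) = ∑ r ∈ R, Y r
    · refine ⟨∑ r ∈ R, Y r, h0, ⟨r₀, hr₀, S₀, hS₀, by omega, hall⟩, ?_, fun U _ hU => hU⟩
      exact Nat.le_mul_of_pos_left _ (by positivity)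
    · simp only [not_forall] at hall
      obtain ⟨L, hL, hLS, y, hy, hne⟩ := hall
      have e := loc_sum_erase R (s r₀) y Y (hf₀ L hL hLS y hy)
      obtain ⟨X, hX, ⟨r, hr, hl⟩, hrk, hU⟩ := ih (m + 2) (R.erase r₀)
        (fun r => tw (s r₀) y (Y r) - Y r) (by rw [Finset.card_erase_of_mem hr₀]; omega)
        (fun r hr => ⟨(hY r (Finset.mem_of_mem_erase hr)).1,
          (hJ F W d C hC).2.2.2.2 m (s r₀) (s r) (Y r) hn₀ (hY r (Finset.mem_of_mem_erase hr)).1
            (hY r (Finset.mem_of_mem_erase hr)).2 L hL y hy⟩)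
        (by rw [e]; exact sub_ne_zero.2 hne)
      rw [e] at hrk hU
      refine ⟨X, hX, ⟨r, Finset.mem_of_mem_erase hr, ?_⟩, hrk.trans ?_, fun U hB hY' => hU U hB ?_⟩
      · have e2 : m + 2 * (n + 1) = m + 2 + 2 * n := by ring
        rw [e2]
        exact hl
      · rw [pow_succ, mul_assoc]
        refine Nat.mul_le_mul_left _ ((loc_rk_sub _ _).trans ?_)
        have := loc_rk_mul ((s r₀ * y * (s r₀)⁻¹ : (End F W)ˣ) : End F W) (∑ r ∈ R, Y r)
          ((y⁻¹ : (End F W)ˣ) : End F W)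
        rw [tw]
        omega
      · refine U.sub_mem ?_ hY'
        have h1 : s r₀ * y * (s r₀)⁻¹ ∈ C.sup id :=
          (Finset.le_sup (f := id) (hn₀ L hL).1 :
            L.map (MulAut.conj (s r₀)).toMonoidHom ≤ C.sup id) (loc_conj_mem _ hy)
        have h2 : y⁻¹ ∈ C.sup id := (Finset.le_sup (f := id) hL : L ≤ C.sup id) (L.inv_mem hy)
        exact (hB _ h2 _ (hB _ h1 _ hY').1).2

theorem loc_two (hJ : StmtJoin) (hM : StmtMU) [FiniteDimensional F W] [Nontrivial W] {d : ℕ}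
    {C : Finset (Subgroup (End F W)ˣ)} (hC : Comp d C) {q : ℕ} (s : Fin q → (End F W)ˣ) (n : ℕ) :
    ∀ (m : ℕ) (R : Finset (Fin q)) (Y : Fin q → End F W), R.card ≤ n →
    (∀ r ∈ R, NmC (s r) C ∧ Loc C m (s r) (Y r)) → ∑ r ∈ R, Y r = 0 →
    (∀ r ∈ R, ∀ r' ∈ R, r ≠ r' → 2 * m + 4 * n < (supp C ((s r)⁻¹ * s r')).card) →
    ∀ r ∈ R, Y r = 0 := by
  classical
  induction n with
  | zero =>
    intro m R Y hR _ _ _ r hr
    rw [Nat.le_zero, Finset.card_eq_zero] at hR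
    subst hR
    exact absurd hr (Finset.notMem_empty r)
  | succ n ih =>
    intro m R Y hR hY h0 hfar r₀ hr₀
    obtain ⟨hn₀, S₀, hS₀, hc₀, hf₀⟩ := hY r₀ hr₀
    have h1 : ∀ L ∈ C, L ∉ S₀ → ∀ y ∈ L, ∀ r ∈ R.erase r₀, tw (s r₀) y (Y r) = Y r := by
      intro L hL hLS y hy r hr
      refine sub_eq_zero.1 (ih (m + 2) (R.erase r₀) (fun r => tw (s r₀) y (Y r) - Y r)
        (by rw [Finset.card_erase_of_mem hr₀]; omega)
        (fun r hr => ⟨(hY r (Finset.mem_of_mem_erase hr)).1,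
          (hJ F W d C hC).2.2.2.2 m (s r₀) (s r) (Y r) hn₀ (hY r (Finset.mem_of_mem_erase hr)).1
            (hY r (Finset.mem_of_mem_erase hr)).2 L hL y hy⟩) ?_ ?_ r hr)
      · rw [loc_sum_erase R (s r₀) y Y (hf₀ L hL hLS y hy), h0, tw, mul_zero, zero_mul, sub_zero]
      · intro a ha b hb hab
        have := hfar a (Finset.mem_of_mem_erase ha) b (Finset.mem_of_mem_erase hb) hab
        omega
    have h2 : ∀ r ∈ R.erase r₀, Y r = 0 := by
      intro r hr
      have hrR := Finset.mem_of_mem_erase hr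
      obtain ⟨hn, S, hS, hc, hf⟩ := hY r hrR
      have hlt : (S₀ ∪ S).card < (supp C ((s r₀)⁻¹ * s r)).card := by
        have := hfar r₀ hr₀ r hrR (Finset.ne_of_mem_erase hr).symm
        have := Finset.card_union_le S₀ S
        omega
      obtain ⟨L, hL, hLS⟩ := Finset.exists_mem_notMem_of_card_lt_card hlt
      rw [supp, Finset.mem_filter] at hL
      obtain ⟨hL, hne⟩ := hL
      rw [Finset.mem_union, not_or] at hLS
      by_contra hY0
      refine hne fun y hy => ?_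
      have ha : ∀ y ∈ L, tw (s r₀) y (Y r) = Y r := fun y hy => h1 L hL hLS.1 y hy r hr
      have hb : ∀ y ∈ L, tw (s r) y (Y r) = Y r := hf L hL hLS.2
      set L₁ := L.map (MulAut.conj (s r₀)).toMonoidHom with hL₁
      set L₂ := L.map (MulAut.conj (s r)).toMonoidHom with hL₂
      have hsub : ({L₁, L₂} : Finset (Subgroup (End F W)ˣ)) ⊆ C := by
        intro K hK
        rcases Finset.mem_insert.1 hK with rfl | hK
        · exact (hn₀ L hL).1
        · rw [Finset.mem_singleton.1 hK]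
          exact (hn L hL).1
      have hmu := hC.mu _ hsub
      rw [Finset.sup_insert, Finset.sup_singleton, id, id] at hmu
      have hst : L₁ ⊔ L₂ ≤ loc_stab (LinearMap.range (Y r)) :=
        sup_le (loc_le_stab ha) (loc_le_stab hb)
      have hz := (hM F W _ hmu).2.2.1 (LinearMap.range (Y r))
        (fun h => hY0 (LinearMap.range_eq_bot.1 h)) (fun u hu w hw => (hst hu w hw).1)
        (((s r₀ * y * (s r₀)⁻¹ : (End F W)ˣ) : End F W) -
          ((s r * y * (s r)⁻¹ : (End F W)ˣ) : End F W))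
        (Submodule.sub_mem _
          (Submodule.subset_span ⟨_, Subgroup.mem_sup_left (loc_conj_mem _ hy), rfl⟩)
          (Submodule.subset_span ⟨_, Subgroup.mem_sup_right (loc_conj_mem _ hy), rfl⟩))
        (by
          rintro _ ⟨w, rfl⟩
          have e1 := LinearMap.congr_fun (loc_tw_eq (ha y hy)) w
          have e2 := LinearMap.congr_fun (loc_tw_eq (hb y hy)) w
          rw [LinearMap.sub_apply, sub_eq_zero]
          exact e1.trans e2.symm)
      have hz' : s r₀ * y * (s r₀)⁻¹ = s r * y * (s r)⁻¹ := Units.ext (sub_eq_zero.1 hz)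
      calc (s r₀)⁻¹ * s r * y = (s r₀)⁻¹ * (s r * y * (s r)⁻¹) * s r := by group
        _ = y * ((s r₀)⁻¹ * s r) := by rw [← hz']; group
    rw [← Finset.add_sum_erase R Y hr₀, Finset.sum_eq_zero h2, add_zero] at h0
    exact h0

end Aux

theorem loc (hJ : StmtJoin) (hM : StmtMU) : StmtLoc := by
  intro q m d F W _ _ _ _ _ C hC R s Y hY
  have hR : R.card ≤ q := card_finset_fin_le R
  exact ⟨loc_one hJ hC s q m R Y hR hY, loc_two hJ hM hC s q m R Y hR hY⟩

end Pool.Agent.Work.MP_11a08a_al.Sol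
end

-- merged part: Pool.Agent.Work.MP_11a08a_al.Sol.Near
section
/-!
First part: apply `hA` with `D l l' = sig E ((r l)⁻¹ * r l')`, `T' t` the constant of `hP` for `(q, q * t)`.
`fixE E 1 = E`, `fixE E t⁻¹ = fixE E t`, `fixE E a ⊓ fixE E b ≤ fixE E (a * b)`, `Zs ≤ fixE E t` (so the indices are
nonzero, `Subgroup.relIndex_le_of_le_left`, `Subgroup.relIndex_inf_le`).  Given representatives `ρ` (called `r` in
`StmtAgg`) put `R = P.image ρ`, `Y a = ∑ l ∈ P.filter (ρ · = a), α l • r l`; each term is `Wt t (r a)` by `hW` and padding, so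
`Y a` is `Wt (q * t)`; the sum over `R` is `0`; `hP` gives `Y a = 0`, and `MinV` forces the fibre to be `P`.
(Prove the small closure lemmas for `Wt` here: monotone, sums, scalars.)
Second part: the same with `D l l' = card (supp C ((r l)⁻¹ * r l')) + 1`, `T' t = 2 (q t) + 4 q + 1`, `hJ` (fourth part),
`Loc` closed under scalars and sums (union of exceptional sets), `hL` (second part).  Take the maximum of the two constants.
-/

set_option autoImplicit false

open Finset Module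
open scoped commutatorElement

namespace Pool.Agent.Work.MP_11a08a_al.Sol

theorem near_gen {q : ℕ} {A : Type} [AddCommMonoid A] {P : Finset (Fin q)} {u : Fin q → A}
    (hM : MinV P u) (Q : ℕ → Fin q → A → Prop) (h0 : ∀ a, Q 0 a 0)
    (hadd : ∀ m m' a x y, Q m a x → Q m' a y → Q (m + m') a (x + y))
    (hmono : ∀ m m' a x, m ≤ m' → Q m a x → Q m' a x) (t : ℕ) (ρ : Fin q → Fin q)
    (hρ : ∀ l ∈ P, Q t (ρ l) (u l))
    (hz : ∀ Y : Fin q → A, (∀ a ∈ P.image ρ, Q (q * t) a (Y a)) → ∑ a ∈ P.image ρ, Y a = 0 →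
      ∀ a ∈ P.image ρ, Y a = 0) : ∀ l ∈ P, ∀ l' ∈ P, ρ l = ρ l' := by
  have key : ∀ a, ∀ S : Finset (Fin q), (∀ l ∈ S, Q t a (u l)) →
      Q (S.card * t) a (∑ l ∈ S, u l) := by
    intro a S
    induction S using Finset.induction_on with
    | empty => intro _; simpa using h0 a
    | insert x S hx ih =>
      intro h
      rw [sum_insert hx, card_insert_of_notMem hx, add_mul, one_mul, add_comm]
      exact hadd _ _ _ _ _ (h x (mem_insert_self _ _)) (ih fun l hl => h l (mem_insert_of_mem hl))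
  have := hz (fun a => ∑ l ∈ P.filter fun l => ρ l = a, u l) (fun a _ => hmono _ _ _ _
    (Nat.mul_le_mul_right _ ((card_le_univ _).trans_eq (Fintype.card_fin q)))
    (key a _ fun l hl => (mem_filter.1 hl).2 ▸ hρ l (mem_filter.1 hl).1))
    ((sum_fiberwise_of_maps_to (fun l hl => mem_image_of_mem ρ hl) u).trans hM.1)
  intro l hl l' hl'
  by_contra c
  refine hM.2 (P.filter fun l => ρ l = ρ l') (filter_subset _ _) ⟨l', mem_filter.2 ⟨hl', rfl⟩⟩
    (fun e => c ?_) (this _ (mem_image_of_mem ρ hl'))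
  rw [← e] at hl
  exact (mem_filter.1 hl).2

section

variable {F W : Type} [Field F] [AddCommGroup W] [Module F W]

theorem near_cen {z : (End F W)ˣ} (hz : z ∈ Zs F W) (x : (End F W)ˣ) : x * z * x⁻¹ = z := by
  obtain ⟨c, -, h⟩ := hz
  have : x * z = z * x := Units.ext (by simp [h])
  rw [this, mul_inv_cancel_right]

theorem near_sig_one (E : Subgroup (End F W)ˣ) : sig E 1 = 1 :=
  Subgroup.relIndex_eq_one.2 fun e he => ⟨he, by simp⟩

theorem near_fix_inv (E : Subgroup (End F W)ˣ) (t : (End F W)ˣ) : fixE E t ≤ fixE E t⁻¹ := by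
  rintro e ⟨h1, h2⟩
  refine ⟨h1, ?_⟩
  have : ⁅t⁻¹, e⁆ = t⁻¹ * ⁅t, e⁆⁻¹ * t⁻¹⁻¹ := by
    simp only [commutatorElement_def]; group
  rw [this, near_cen ((Zs F W).inv_mem h2)]
  exact (Zs F W).inv_mem h2

theorem near_sig_inv (E : Subgroup (End F W)ˣ) (t : (End F W)ˣ) : sig E t⁻¹ = sig E t := by
  rw [sig, sig, le_antisymm (near_fix_inv E t) (by simpa using near_fix_inv E t⁻¹)]

theorem near_sig_mul {E : Subgroup (End F W)ˣ} (hE : Heis E) (a b : (End F W)ˣ) :
    sig E (a * b) ≤ sig E a * sig E b := by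
  have hz : ∀ t, Zs F W ≤ fixE E t := fun t z hz => ⟨hE.le hz, by
    rw [commutatorElement_def, near_cen hz, mul_inv_cancel]
    exact (Zs F W).one_mem⟩
  refine (Subgroup.relIndex_le_of_le_left (H := fixE E a ⊓ fixE E b) ?_ fun h => hE.fin
    (Subgroup.relIndex_eq_zero_of_le_left (le_inf (hz a) (hz b)) h)).trans Subgroup.relIndex_inf_le
  rintro e ⟨⟨h1, h2⟩, -, h3⟩
  refine ⟨h1, ?_⟩
  have : ⁅a * b, e⁆ = a * ⁅b, e⁆ * a⁻¹ * ⁅a, e⁆ := by
    simp only [commutatorElement_def]; group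
  rw [this, near_cen h3]
  exact (Zs F W).mul_mem h3 h2

theorem near_wt_add {E : Subgroup (End F W)ˣ} {m m' : ℕ} {s : (End F W)ˣ} {x y : End F W}
    (h : Wt E m s x) (h' : Wt E m' s y) : Wt E (m + m') s (x + y) := by
  obtain ⟨T, h1, rfl⟩ := h
  obtain ⟨T', h2, rfl⟩ := h'
  refine ⟨Fin.append T T', fun k => ?_, by simp [Fin.sum_univ_add]⟩
  refine Fin.addCases (fun k => ?_) (fun k => ?_) k
  · rw [Fin.append_left]; exact h1 k
  · rw [Fin.append_right]; exact h2 k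

theorem near_wt_zero (E : Subgroup (End F W)ˣ) (m : ℕ) (s : (End F W)ˣ) : Wt E m s 0 :=
  ⟨fun _ => 0, fun _ _ _ => ⟨0, by simp [tw]⟩, by simp⟩

theorem near_wt_mono {E : Subgroup (End F W)ˣ} {m m' : ℕ} {s : (End F W)ˣ} {x : End F W}
    (hm : m ≤ m') (h : Wt E m s x) : Wt E m' s x := by
  obtain ⟨k, rfl⟩ := Nat.exists_eq_add_of_le hm
  simpa using near_wt_add h (near_wt_zero E k s)

theorem near_tw_smul (s e : (End F W)ˣ) (c : F) (x : End F W) : tw s e (c • x) = c • tw s e x := by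
  simp [tw]

theorem near_wt_smul {E : Subgroup (End F W)ˣ} {m : ℕ} {s : (End F W)ˣ} {x : End F W} (c : F)
    (h : Wt E m s x) : Wt E m s (c • x) := by
  obtain ⟨T, h1, rfl⟩ := h
  refine ⟨fun k => c • T k, fun k e he => ?_, smul_sum⟩
  obtain ⟨c', h⟩ := h1 k e he
  exact ⟨c', by rw [near_tw_smul, h, smul_comm]⟩

theorem near_supp_inv (C : Finset (Subgroup (End F W)ˣ)) (t : (End F W)ˣ) :
    supp C t⁻¹ = supp C t := by
  classical
  ext L
  simp only [supp, mem_filter]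
  exact and_congr_right' (not_congr (forall₂_congr fun y _ => Commute.inv_left_iff))

theorem near_supp_mul (C : Finset (Subgroup (End F W)ˣ)) (a b : (End F W)ˣ) :
    (supp C (a * b)).card ≤ (supp C a).card + (supp C b).card := by
  classical
  refine (card_le_card fun L hL => ?_).trans (card_union_le _ _)
  simp only [supp, mem_filter, mem_union] at hL ⊢
  by_contra c
  simp only [hL.1, true_and, not_or, not_not] at c
  exact hL.2 fun y hy => Commute.mul_left (c.1 y hy) (c.2 y hy)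

end

theorem near (hA : StmtAgg) (hW : StmtWt) (hP : StmtPet2) (hJ : StmtJoin) (hL : StmtLoc) :
    StmtNear := by
  intro q
  choose T' hT' using fun t => hP q (q * t)
  obtain ⟨T₁, h1⟩ := hA q T'
  obtain ⟨T₂, h2⟩ := hA q fun t => 2 * (q * t) + 4 * q + 1
  refine ⟨max T₁ T₂, fun F W _ _ _ _ _ _ P α r hM => ⟨fun E hE hN l hl l' hl' => ?_,
    fun d C hC hN l hl l' hl' => ?_⟩⟩
  · refine (h1 P (fun l l' => sig E ((r l)⁻¹ * r l')) (fun l _ => by simp [near_sig_one])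
      (fun l _ l' _ => by rw [← near_sig_inv]; simp) (fun a _ b _ c _ => ?_)
      (fun t ρ a1 a2 => ?_) l hl l' hl').trans (le_max_left _ _)
    · simpa [mul_assoc] using near_sig_mul hE ((r a)⁻¹ * r b) ((r b)⁻¹ * r c)
    · refine near_gen hM (fun m a x => Wt E m (r a) x) (fun a => near_wt_zero _ _ _)
        (fun _ _ _ _ _ => near_wt_add) (fun _ _ _ _ => near_wt_mono) t ρ
        (fun l hl => near_wt_smul _ (near_wt_mono (a1 l hl).2
          (hW F W E hE _ _ (hN _ (a1 l hl).1) (hN l hl)).1)) fun Y b1 b2 =>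
        hT' t F W E hE _ r Y (fun a ha => ⟨?_, b1 a ha⟩) b2 fun a ha a' ha' hne => ?_
      · obtain ⟨l, hl, rfl⟩ := mem_image.1 ha
        exact hN _ (a1 l hl).1
      · obtain ⟨l, hl, rfl⟩ := mem_image.1 ha
        obtain ⟨l', hl', rfl⟩ := mem_image.1 ha'
        exact a2 l hl l' hl' hne
  · classical
    refine (Nat.le_succ _).trans ((h2 P (fun l l' => (supp C ((r l)⁻¹ * r l')).card + 1)
      (fun l _ => by simp [supp]) (fun l _ l' _ => by rw [← near_supp_inv]; simp)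
      (fun a _ b _ c _ => ?_) (fun t ρ a1 a2 => ?_) l hl l' hl').trans (le_max_right _ _))
    · have := near_supp_mul C ((r a)⁻¹ * r b) ((r b)⁻¹ * r c)
      rw [mul_assoc, mul_inv_cancel_left] at this
      linarith only [this, Nat.zero_le ((supp C ((r a)⁻¹ * r b)).card * (supp C ((r b)⁻¹ * r c)).card)]
    · refine near_gen hM (fun m a x => Loc C m (r a) x)
        (fun a => ⟨∅, empty_subset _, le_rfl, fun _ _ _ _ _ => by simp [tw]⟩) ?_
        (fun _ _ _ _ hm ⟨S, s1, s2, s3⟩ => ⟨S, s1, s2.trans hm, s3⟩) t ρ (fun l hl => ?_)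
        fun Y b1 b2 => (hL q (q * t) d F W C hC _ r Y fun a ha => ⟨?_, b1 a ha⟩).2 b2
          fun a ha a' ha' hne => ?_
      · rintro m m' a x y ⟨S, s1, s2, s3⟩ ⟨S', s4, s5, s6⟩
        refine ⟨S ∪ S', union_subset s1 s4, (card_union_le _ _).trans (Nat.add_le_add s2 s5),
          fun L hL hn z hz => ?_⟩
        rw [mem_union, not_or] at hn
        have e1 := s3 L hL hn.1 z hz
        have e2 := s6 L hL hn.2 z hz
        rw [tw] at e1 e2 ⊢
        rw [mul_add, add_mul, e1, e2]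
      · obtain ⟨S, s1, s2, s3⟩ := ((hJ F W d C hC).2.2.2.1 _ _ (hN _ (a1 l hl).1) (hN l hl)).2
        exact ⟨S, s1, s2.trans ((Nat.le_succ _).trans (a1 l hl).2), fun L hL hn z hz => by
          rw [near_tw_smul, s3 L hL hn z hz]⟩
      · obtain ⟨l, hl, rfl⟩ := mem_image.1 ha
        exact hN _ (a1 l hl).1
      · obtain ⟨l, hl, rfl⟩ := mem_image.1 ha
        obtain ⟨l', hl', rfl⟩ := mem_image.1 ha'
        exact Nat.lt_of_succ_lt_succ (a2 l hl l' hl' hne)

end Pool.Agent.Work.MP_11a08a_al.Sol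
end
end

-- merged part: Pool.Agent.Work.MP_11a08a_al.Sol.RB
section
-- merged part: Pool.Agent.Work.MP_11a08a_al.Sol.DefsD
section
/-!
Definitions and statements for the representation layer.
-/

set_option autoImplicit false

open Finset Module
open scoped commutatorElement

namespace Pool.Agent.Work.MP_11a08a_al.Sol

section Defs

variable {F G V : Type} [Field F] [Group G] [AddCommGroup V] [Module F V]

/-- The stabiliser of a subspace. -/
def stab (ρ : Representation F G V) (W : Submodule F V) : Subgroup G where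
  carrier := {g | (∀ w ∈ W, ρ g w ∈ W) ∧ ∀ w ∈ W, ρ g⁻¹ w ∈ W}
  one_mem' := ⟨fun w hw => by simpa using hw, fun w hw => by simpa using hw⟩
  mul_mem' := by
    rintro a b ⟨a1, a2⟩ ⟨b1, b2⟩
    refine ⟨fun w hw => ?_, fun w hw => ?_⟩
    · rw [map_mul]; exact a1 _ (b1 w hw)
    · rw [mul_inv_rev, map_mul]; exact b2 _ (a2 w hw)
  inv_mem' := by
    rintro a ⟨a1, a2⟩
    exact ⟨a2, by rwa [inv_inv]⟩

/-- The action of the stabiliser on the subspace. -/
def resU (ρ : Representation F G V) (W : Submodule F V) : stab ρ W →* (End F W)ˣ :=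
  MonoidHom.toHomUnits
    { toFun := fun g => (ρ g.1).restrict g.2.1
      map_one' := by ext w; simp
      map_mul' := fun a b => by ext w; simp }

theorem resU_apply (ρ : Representation F G V) (W : Submodule F V) (g : stab ρ W) (w : W) :
    (((resU ρ W g : End F W) w : W) : V) = ρ g.1 w := rfl

/-- `g` acts on `W` as a scalar. -/
def Sc (ρ : Representation F G V) (W : Submodule F V) (g : G) : Prop :=
  ∃ c : F, ∀ w ∈ W, ρ g w = c • w

/-- The sum over `P` vanishes on `W`. -/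
def Van {q : ℕ} (ρ : Representation F G V) (α : Fin q → F) (P : Finset (Fin q)) (b : Fin q → G)
    (W : Submodule F V) : Prop := ∀ w ∈ W, ∑ l ∈ P, α l • ρ (b l) w = 0

/-- The sum over `P` vanishes on `W` and no proper nonempty subsum does. -/
def MinVan {q : ℕ} (ρ : Representation F G V) (α : Fin q → F) (P : Finset (Fin q))
    (b : Fin q → G) (W : Submodule F V) : Prop :=
  Van ρ α P b W ∧ ∀ P' ⊆ P, P'.Nonempty → P' ≠ P → ¬ Van ρ α P' b W

/-- All quotients of entries indexed by `P` lie in `K`. -/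
def Rat {q : ℕ} (P : Finset (Fin q)) (b : Fin q → G) (K : Subgroup G) : Prop :=
  ∀ l ∈ P, ∀ l' ∈ P, (b l)⁻¹ * b l' ∈ K

/-- The quotients of `b` agree with those of `d` modulo `N`. -/
def Pat {q : ℕ} (P : Finset (Fin q)) (d b : Fin q → G) (N : Subgroup G) : Prop :=
  ∀ l ∈ P, ∀ l' ∈ P, ((d l)⁻¹ * d l')⁻¹ * ((b l)⁻¹ * b l') ∈ N

/-- The distinct translates of `W` are independent. -/
def Blk (ρ : Representation F G V) (W : Submodule F V) : Prop :=
  iSupIndep fun x : {x : Submodule F V // ∃ g, x = W.map (ρ g)} => x.1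

/-- Roots of unity whose order divides the order of an element of `S` are `m`-th roots. -/
def Ord (F : Type) [Field F] (S : Subgroup G) (m : ℕ) : Prop :=
  ∀ s ∈ S, ∀ z : F, z ^ orderOf s = 1 → z ^ m = 1

/-- The image of `S` in the units of `W`, enlarged by the scalars. -/
def imS (ρ : Representation F G V) (W : Submodule F V) (S : Subgroup G) : Subgroup (End F W)ˣ :=
  (S.subgroupOf (stab ρ W)).map (resU ρ W) ⊔ Zs F W

end Defs

/-- Properties of the image of a normal subgroup. -/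
def StmtSec : Prop :=
  ∀ (F G V : Type) [Field F] [Group G] [Finite G] [AddCommGroup V] [Module F V]
    (ρ : Representation F G V) (W : Submodule F V) (S : Subgroup G),
    (∀ u, u ∈ imS ρ W S ↔ ∃ (s : stab ρ W) (z : (End F W)ˣ), s.1 ∈ S ∧ z ∈ Zs F W ∧
      u = resU ρ W s * z) ∧ (Zs F W).relIndex (imS ρ W S) ≠ 0 ∧
    (∀ g : stab ρ W, g.1 ∈ Subgroup.normalizer (S : Set G) → Nm (resU ρ W g) (imS ρ W S)) ∧
    (∀ g : stab ρ W, W ≠ ⊥ → (Sc ρ W g.1 ↔ resU ρ W g ∈ Zs F W)) ∧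
    ∀ d, SecBd d S → SecZ d (imS ρ W S)

/-- Rows fixing many points: a popular point with a large orbit, or many small orbits. -/
def StmtGA : Prop :=
  ∀ (Q X κ : Type) [Group Q] [Finite Q] [Finite X] (φ : Q →* Equiv.Perm X) (I : Finset κ)
    (row : κ → Set Q) (t T : ℕ),
    (∀ i ∈ I, Nat.card X ≤ t * Nat.card {x : X // ∀ γ ∈ row i, φ γ x = x}) → I.Nonempty →
    (∃ (K : Subgroup Q) (I' : Finset κ), I' ⊆ I ∧ T < K.index ∧ I.card ≤ 2 * t * I'.card ∧
      ∀ i ∈ I', row i ⊆ K) ∨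
    Nat.card X ≤ 2 * t * Nat.card {x : X // Nat.card (Set.range fun γ : Q => φ γ x) ≤ T}

open Classical in
/-- Rows lying in all but a few members of a family of subgroups. -/
def StmtGC : Prop :=
  ∀ (Q ι κ : Type) [Group Q] [Finite Q] (C : Finset ι) (cen : ι → Subgroup Q) (I : Finset κ)
    (row : κ → Set Q) (t T : ℕ),
    (∀ i ∈ I, (C.filter fun L => ¬ row i ⊆ cen L).card ≤ t) → I.Nonempty →
    (∃ (K : Subgroup Q) (I' : Finset κ), I' ⊆ I ∧ T < K.index ∧ I.card ≤ 2 * I'.card ∧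
      ∀ i ∈ I', row i ⊆ K) ∨
    ∃ S₀ ⊆ C, S₀.card ≤ 2 * t * (T + 1) ∧ (⨅ L ∈ C \ S₀, cen L).index ≤ T

/-- A group permuting the components and centralising most of them. -/
def StmtCen : Prop :=
  ∀ d s T : ℕ, ∃ B : ℕ, ∀ (F W Q : Type) [Field F] [AddCommGroup W] [Module F W]
    [FiniteDimensional F W] [Group Q] [Finite Q] (π : Q →* (End F W)ˣ)
    (C S₀ : Finset (Subgroup (End F W)ˣ)) (N₁ : Subgroup Q), Comp d C → (∀ γ, NmC (π γ) C) →
    S₀ ⊆ C → S₀.card ≤ s → N₁.index ≤ T →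
    (∀ γ ∈ N₁, ∀ L ∈ C, L ∉ S₀ → ∀ y ∈ L, π γ * y = y * π γ) →
    ∃ N : Subgroup Q, N.Normal ∧ N.index ≤ B ∧ ∀ γ ∈ N, supp C (π γ) = ∅

/-- Elementary facts on coverings, minimal subsums and independent families. -/
def StmtBasic : Prop :=
  (∀ (G : Type) [Group G] (q : ℕ) (d : Fin q → G),
    (∀ (B B' : ℕ) (R R' : (Fin q → G) → Prop), B ≤ B' → (∀ b, R' b → R b) → Cov B d R →
      Cov B' d R') ∧
    (∀ (ι : Type) (s : Finset ι) (B : ℕ) (R : ι → (Fin q → G) → Prop), (∀ t ∈ s, Cov B d (R t)) →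
      Cov (s.card * B) d fun b => ∃ t ∈ s, R t b) ∧
    (∀ (B B' : ℕ) (R R' : (Fin q → G) → Prop), Cov B d R → Cov B' d R' →
      Cov (B + B') d fun b => R b ∨ R' b) ∧
    (∀ (P : Finset (Fin q)) (K : Subgroup G), ¬ Rat P d K → Cov 1 d fun b => Rat P b K) ∧
    ∀ (P : Finset (Fin q)) (K N : Subgroup G) (T : ℕ), N.relIndex K ≠ 0 → N.relIndex K ≤ T →
      Cov (q * q * T) d fun b => Pat P d b K ∧ ¬ Pat P d b N) ∧
  (∀ (F A ι : Type) [Field F] [AddCommGroup A] [Module F A] (q : ℕ) (X : ι → Submodule F A)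
    (P : Finset (Fin q)) (u : Fin q → A) (t : Fin q → ι), iSupIndep X → (∀ l ∈ P, u l ∈ X (t l)) →
    MinV P u → ∀ l ∈ P, ∀ l' ∈ P, t l = t l') ∧
  (∀ (G : Type) [Group G] (N : Subgroup G) (c : ℕ), gam N c ≤ N ∧
    Subgroup.normalizer (N : Set G) ≤ Subgroup.normalizer (gam N c : Set G) ∧
    (∀ N' ≤ N, gam N' c ≤ gam N c) ∧
    ∀ (G' : Type) [Group G'] (f : G →* G'), (gam N c).map f = gam (N.map f) c) ∧
  ∀ (F G V : Type) [Field F] [Group G] [AddCommGroup V] [Module F V] (ρ : Representation F G V)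
    (q : ℕ) (α : Fin q → F) (W : Submodule F V),
    (∀ (P : Finset (Fin q)) (b d : Fin q → G), Van ρ α P b W → ¬ Van ρ α P d W →
      ∃ P' ⊆ P, MinVan ρ α P' b W ∧ ¬ Van ρ α P' d W) ∧
    (∀ (P : Finset (Fin q)) (b : Fin q → G) (g : G),
      (Van ρ α P (fun l => g * b l) W ↔ Van ρ α P b W) ∧
      (MinVan ρ α P (fun l => g * b l) W ↔ MinVan ρ α P b W)) ∧
    (∀ (ι : Type) (X : ι → Submodule F V) (P : Finset (Fin q)) (b : Fin q → G) (t : Fin q → ι),
      iSupIndep X → (∀ l ∈ P, ∀ w ∈ W, ρ (b l) w ∈ X (t l)) → MinVan ρ α P b W →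
      ∀ l ∈ P, ∀ l' ∈ P, t l = t l') ∧
    (∀ (P : Finset (Fin q)) (b : Fin q → G), Blk ρ W → MinVan ρ α P b W →
      Rat P b (stab ρ W)) ∧
    ∀ (P : Finset (Fin q)) (b : Fin q → G) (r : Fin q → stab ρ W) (g : G),
      (∀ l ∈ P, (r l).1 = g⁻¹ * b l) →
      (Van ρ α P b W ↔ ∑ l ∈ P, α l • (resU ρ W (r l) : End F W) = 0) ∧
      (MinVan ρ α P b W ↔ MinV P fun l => α l • (resU ρ W (r l) : End F W))

/-- The covering statement for a group of class at most `c` modulo scalars. -/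
def NilC (q c B₀ B : ℕ) : Prop :=
  ∀ (F G V : Type) [Field F] [IsAlgClosed F] [Group G] [Finite G] [AddCommGroup V] [Module F V]
    [FiniteDimensional F V] (ρ : Representation F G V) (α : Fin q → F) (m k : ℕ)
    (P : Finset (Fin q)) (d : Fin q → G) (W : Submodule F V) (N : Subgroup G),
    Ratio F q m B₀ → Ord F N m → (k : F) ≠ 0 → (∀ n ∈ N, Sc ρ W (n ^ k)) → N ≤ stab ρ W →
    Rat P d (stab ρ W) → Rat P d (Subgroup.normalizer (N : Set G)) →
    (∀ g ∈ gam N c, Sc ρ W g) → ¬ Van ρ α P d W →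
    Cov B d fun b => Pat P d b N ∧ Van ρ α P b W

def StmtNil0 : Prop := ∀ q B₀ : ℕ, ∃ B, NilC q 0 B₀ B

def StmtNilS : Prop := ∀ q c B₀ B : ℕ, NilC q c B₀ B → ∃ B', NilC q (c + 1) B₀ B'

/-- The second half of the inductive step: a normalised subgroup `A` of `N` with scalar
commutators and scalar centre, and its centraliser. -/
def StmtNilB : Prop :=
  ∀ q : ℕ, ∃ B : ℕ, ∀ (F G V : Type) [Field F] [IsAlgClosed F] [Group G] [Finite G]
    [AddCommGroup V] [Module F V] [FiniteDimensional F V] (ρ : Representation F G V)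
    (α : Fin q → F) (P : Finset (Fin q)) (d : Fin q → G) (W : Submodule F V)
    (N A C : Subgroup G), W ≠ ⊥ → N ≤ stab ρ W → A ≤ N → Rat P d (stab ρ W) →
    Rat P d (Subgroup.normalizer (A : Set G)) → Rat P d (Subgroup.normalizer (N : Set G)) →
    (∀ n ∈ N, ∀ a ∈ A, n * a * n⁻¹ ∈ A ∧ Sc ρ W ⁅n, a⁆) →
    (∀ a ∈ A, (∀ a' ∈ A, ∀ w ∈ W, ρ (a * a') w = ρ (a' * a) w) → Sc ρ W a) →
    (∀ n, n ∈ C ↔ n ∈ N ∧ ∀ a ∈ A, ∀ w ∈ W, ρ (n * a) w = ρ (a * n) w) →
    Cov B d fun b => Pat P d b N ∧ MinVan ρ α P b W ∧ ¬ Pat P d b C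

/-- One column: the rows concentrate in a subgroup of large index, or a subgroup of bounded index
is nilpotent modulo scalars. -/
def StmtGain : Prop :=
  ∀ q d : ℕ, ∃ T₁ : ℕ, ∀ T : ℕ, ∃ B : ℕ, ∀ (F G V κ : Type) [Field F] [IsAlgClosed F] [Group G]
    [Finite G] [AddCommGroup V] [Module F V] [FiniteDimensional F V] (ρ : Representation F G V)
    (α : Fin q → F) (P : Finset (Fin q)) (W : Submodule F V) (S Γ : Subgroup G) (I : Finset κ)
    (b : κ → Fin q → G), S.Normal → SecBd d S → W ≠ ⊥ → Prim (resU ρ W).range → Γ ≤ S →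
    Γ ≤ stab ρ W → I.Nonempty → (∀ i ∈ I, Rat P (b i) Γ ∧ MinVan ρ α P (b i) W) →
    (∃ (K : Subgroup G) (I' : Finset κ), I' ⊆ I ∧ T < K.relIndex Γ ∧ I.card ≤ T₁ * I'.card ∧
      ∀ i ∈ I', Rat P (b i) K) ∨
    ∃ (N : Subgroup G) (k : ℕ), N ≤ Γ ∧ Γ ≤ Subgroup.normalizer (N : Set G) ∧
      N.relIndex Γ ≤ B ∧ (k : F) ≠ 0 ∧ (∀ n ∈ N, Sc ρ W (n ^ k)) ∧ ∀ g ∈ gam N 5, Sc ρ W g

/-- The tests attached to a family of primitive blocks are wild of level two. -/
def StmtW2 : Prop :=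
  ∀ q d B₀ : ℕ, ∃ (g : ℝ → ℝ) (β β' : ℝ → ℝ → ℝ → ℕ), ∀ (F G V κ : Type) [Field F]
    [IsAlgClosed F] [Group G] [Finite G] [AddCommGroup V] [Module F V] [FiniteDimensional F V]
    [Fintype κ] [DecidableEq κ] (ρ : Representation F G V) (α : Fin q → F) (m : ℕ)
    (P : Finset (Fin q)) (S : Subgroup G) (a : κ → Fin q → G) (x : κ → Submodule F V),
    Ratio F q m B₀ → Ord F S m → S.Normal → SecBd d S → (∀ i l, a i l ∈ S) →
    (∀ j, Blk ρ (x j) ∧ Prim (resU ρ (x j)).range) →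
    W2 g β β' (2 * Nat.card G) ((2 * Nat.card G) ^ 2)
      fun i j => ¬ Van ρ α P (a j) (x j) ∧ MinVan ρ α P (a i) (x j)

/-- Existence of primitive blocks, and transport to translates. -/
def StmtBlock : Prop :=
  ∀ (F G V : Type) [Field F] [IsAlgClosed F] [Group G] [AddCommGroup V] [Module F V]
    [FiniteDimensional F V] [Nontrivial V] (ρ : Representation F G V), ∃ W : Submodule F V, W ≠ ⊥ ∧
      ∀ g, Blk ρ (W.map (ρ g)) ∧ Prim (resU ρ (W.map (ρ g))).range

/-- The rank of the sum in terms of the blocks on which it does not vanish. -/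
def StmtRB : Prop :=
  ∀ (F G V : Type) [Field F] [Group G] [AddCommGroup V] [Module F V] [FiniteDimensional F V]
    (ρ : Representation F G V) (q K r : ℕ) (α : Fin q → F) (h : Fin q → G) (W : Submodule F V)
    (Y : Finset (Submodule F V)), Blk ρ W → (∀ y ∈ Y, (∃ g, y = W.map (ρ g)) ∧
      ¬ Van ρ α univ h y ∧ ∀ P : Finset (Fin q), Rat P h (stab ρ y) → ¬ Van ρ α P h y →
        r ≤ K * rk ((∑ l ∈ P, α l • ρ (h l)).domRestrict y)) →
    Y.card * r ≤ (2 * q + 1) * K * rk (∑ l, α l • ρ (h l))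

/-- The bound for irreducible representations over algebraically closed fields. -/
def StmtCore : Prop :=
  ∀ (q d B₀ : ℕ) (δ : ℝ), 0 < δ → ∃ c : ℝ, 0 < c ∧ ∀ (F G V : Type) [Field F] [IsAlgClosed F]
    [Group G] [Finite G] [AddCommGroup V] [Module F V] [FiniteDimensional F V]
    (ρ : Representation F G V) (α : Fin q → F) (h : Fin q → G) (m : ℕ) (S : Subgroup G),
    (∀ U : Submodule F V, (∀ g, ∀ v ∈ U, ρ g v ∈ U) → U = ⊥ ∨ U = ⊤) →
    Ratio F q m B₀ → Ord F S m → S.Normal → SecBd d S → (∀ l, h l ∈ S) →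
    ∑ l, α l • ρ (h l) ≠ 0 →
    (finrank F V : ℝ) ≤ c * (Nat.card G : ℝ) ^ δ * rk (∑ l, α l • ρ (h l))

/-- From irreducible representations to those where the sum generates the unit ideal. -/
def StmtIdeal : Prop :=
  ∀ (F G : Type) [Field F] [Group G] [Fintype G] (q : ℕ) (α : Fin q → F) (h : Fin q → G) (K : ℝ),
    (∀ (V : Type) [AddCommGroup V] [Module F V] [FiniteDimensional F V]
      (ρ : Representation F G V),
      (∀ U : Submodule F V, (∀ g, ∀ v ∈ U, ρ g v ∈ U) → U = ⊥ ∨ U = ⊤) →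
      ∑ l, α l • ρ (h l) ≠ 0 → (finrank F V : ℝ) ≤ K * rk (∑ l, α l • ρ (h l))) → 0 ≤ K →
    ∀ (V : Type) [AddCommGroup V] [Module F V] [FiniteDimensional F V]
      (ρ : Representation F G V) (c : G → G → F),
      ∑ g, ∑ g', c g g' • (ρ g * (∑ l, α l • ρ (h l)) * ρ g') = 1 →
      (finrank F V : ℝ) ≤ K * rk (∑ l, α l • ρ (h l))

/-- In an irreducible representation a nonzero sum generates the unit ideal; change of fields. -/
def StmtChange : Prop :=
  ∀ (F G : Type) [Field F] [Group G] [Fintype G] (q n : ℕ) (ρ : Representation F G (Fin n → F))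
    (α : Fin q → F) (h : Fin q → G), ρ.IsIrreducible → ∑ l, α l • ρ (h l) ≠ 0 →
    ∀ (L : Type) [Field L], (Nonempty (F →+* L) ∨ (CharZero F ∧ CharZero L ∧ IsAlgClosed L)) →
    ∃ (σ : Representation L G (Fin n → L)) (β : Fin q → L) (c : G → G → L),
      ∑ g, ∑ g', c g g' • (σ g * (∑ l, β l • σ (h l)) * σ g') = 1 ∧
      rk (∑ l, β l • σ (h l)) ≤ rk (∑ l, α l • ρ (h l))

/-- The ratio property over the complex numbers and for bounded exponent. -/
def StmtRatio : Prop :=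
  ∀ q : ℕ, (∃ B, ∀ m, 0 < m → Ratio ℂ q m B) ∧
    ∀ (F : Type) [Field F] (m : ℕ), 0 < m → Ratio F q m m

/-- The final statement. -/
def StmtFinal : Prop :=
  ∀ ε : ℝ, 0 < ε → ∀ q d e : ℕ, 0 < e → ∃ N : ℕ, ∀ n > N,
    ∀ (F : Type) [Field F] (G : Type) [Group G] [Finite G] (S : Subgroup G), S.Normal →
      SecBd d S → (CharZero F ∨ ∀ s ∈ S, ∃ k : ℕ, s ^ (e * ringChar F ^ k) = 1) →
      ∀ ρ : Representation F G (Fin n → F), ρ.IsIrreducible → (Nat.card G : ℝ) ^ ε ≤ n →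
      ∀ (h : Fin q → G) (α : Fin q → F), (∀ l l', (h l)⁻¹ * h l' ∈ S) →
        ∑ l, α l • ρ (h l) ≠ 0 →
        (n : ℝ) ^ (1 - ε) ≤ finrank F (LinearMap.range (∑ l, α l • ρ (h l)))

end Pool.Agent.Work.MP_11a08a_al.Sol
end

-- merged part: Pool.Agent.Work.MP_11a08a_al.Sol.Agg
section
/-!
`agg`: prove by induction on `c`: for all `t` there is `T₀` such that any `r` as in the last hypothesis
(`r l ∈ P`, `D (r l) l ≤ t`) with `card (P.image r) ≤ c` gives the bound.  If all distinct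
representatives are far, `r` is constant on `P` and `D l l' ≤ t * t`.  Otherwise `a = r l ≠ b = r l'` with
`D a b ≤ T' t`; put `r' x = if r x = b then a else r x`, radius `max t (T' t * t)`, one representative fewer.
Start with `r = id`, `t = 1`, `c = q`.
`ga`: double count pairs `(i, x)` with `x` fixed by `row i`; if fewer than `card X / (2 t)` points have small
orbit, some point `x` with large orbit is fixed by `card I / (2 t)` rows; `K = {γ | φ γ x = x}` has index the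
size of the orbit.
`gc`: `bad L = {i ∈ I | ¬ row i ⊆ cen L}`, `S₀ = {L ∈ C | card I ≤ 2 (T + 1) card (bad L)}`; the sum of
`card (bad L)` is at most `t card I`.  If the index of the intersection over `C \ S₀` exceeds `T`, build
`S₁ ⊆ C \ S₀` with `card S₁ ≤ T + 1` and index `> T` (induction on `n`: there is `S₁` with `card ≤ n` whose
intersection has index `≥ n` or equals the full intersection); at most half of the rows are bad for a member of `S₁`.
-/

set_option autoImplicit false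

open Finset Module
open scoped commutatorElement

namespace Pool.Agent.Work.MP_11a08a_al.Sol

theorem agg_aux (q : ℕ) (T' : ℕ → ℕ) (c : ℕ) : ∀ t : ℕ, ∃ T₀ : ℕ,
    ∀ (P : Finset (Fin q)) (D : Fin q → Fin q → ℕ), (∀ l ∈ P, ∀ l' ∈ P, D l l' = D l' l) →
    (∀ a ∈ P, ∀ b ∈ P, ∀ c ∈ P, D a c ≤ D a b * D b c) →
    (∀ (t : ℕ) (r : Fin q → Fin q), (∀ l ∈ P, r l ∈ P ∧ D (r l) l ≤ t) →
      (∀ l ∈ P, ∀ l' ∈ P, r l ≠ r l' → T' t < D (r l) (r l')) → ∀ l ∈ P, ∀ l' ∈ P, r l = r l') →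
    ∀ r : Fin q → Fin q, (∀ l ∈ P, r l ∈ P ∧ D (r l) l ≤ t) → (P.image r).card ≤ c →
    ∀ l ∈ P, ∀ l' ∈ P, D l l' ≤ T₀ := by
  induction c with
  | zero =>
    intro t
    refine ⟨0, fun P D _ _ _ r _ hc l hl => ?_⟩
    have := card_pos.2 ⟨r l, mem_image_of_mem r hl⟩
    omega
  | succ c ih =>
    intro t
    obtain ⟨T₁, h₁⟩ := ih (max t (T' t * t))
    refine ⟨max (t * t) T₁, fun P D hs ht hf r hr hc l hl l' hl' => ?_⟩
    by_cases far : ∀ l ∈ P, ∀ l' ∈ P, r l ≠ r l' → T' t < D (r l) (r l')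
    · refine le_max_of_le_left ((ht l hl (r l) (hr l hl).1 l' hl').trans (Nat.mul_le_mul ?_ ?_))
      · rw [hs l hl _ (hr l hl).1]
        exact (hr l hl).2
      · rw [hf t r hr far l hl l' hl']
        exact (hr l' hl').2
    · push Not at far
      obtain ⟨a, ha, b, hb, hab, hD⟩ := far
      refine le_max_of_le_right (h₁ P D hs ht hf (fun x => if r x = r b then r a else r x)
        (fun x hx => ?_) ?_ l hl l' hl')
      · by_cases e : r x = r b
        · simp only [if_pos e]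
          refine ⟨(hr a ha).1, le_max_of_le_right
            ((ht _ (hr a ha).1 _ (hr b hb).1 x hx).trans (Nat.mul_le_mul hD ?_))⟩
          rw [← e]
          exact (hr x hx).2
        · simp only [if_neg e]
          exact ⟨(hr x hx).1, le_max_of_le_left (hr x hx).2⟩
      · have h2 : (P.image fun x => if r x = r b then r a else r x) ⊆ (P.image r).erase (r b) := by
          intro y hy
          obtain ⟨x, hx, rfl⟩ := mem_image.1 hy
          by_cases e : r x = r b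
          · simp only [if_pos e]
            exact mem_erase.2 ⟨hab, mem_image_of_mem r ha⟩
          · simp only [if_neg e]
            exact mem_erase.2 ⟨e, mem_image_of_mem r hx⟩
        have h3 := card_le_card h2
        rw [card_erase_of_mem (mem_image_of_mem r hb)] at h3
        omega

theorem agg : StmtAgg := by
  intro q T'
  obtain ⟨T₀, h⟩ := agg_aux q T' q 1
  refine ⟨T₀, fun P D h1 hs ht hf => h P D hs ht hf id (fun l hl => ⟨hl, h1 l hl⟩) ?_⟩
  simpa using card_le_univ P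

theorem ga : StmtGA := by
  intro Q X κ _ _ _ φ I row t T h hI
  classical
  have := Fintype.ofFinite X
  by_contra hc
  rw [not_or, not_le, Nat.card_eq_fintype_card, Nat.card_eq_fintype_card, Fintype.card_subtype] at hc
  obtain ⟨h1, h2⟩ := hc
  let _ : MulAction Q X := MulAction.compHom X φ
  let J : X → Finset κ := fun x => I.filter fun i => ∀ γ ∈ row i, φ γ x = x
  have hJ : ∀ x, ¬ Nat.card (Set.range fun γ : Q => φ γ x) ≤ T → 2 * t * (J x).card ≤ I.card := by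
    intro x hx
    by_contra h3
    refine h1 ⟨MulAction.stabilizer Q x, J x, filter_subset _ _, ?_, (not_le.1 h3).le,
      fun i hi γ hγ => (mem_filter.1 hi).2 γ hγ⟩
    rw [MulAction.index_stabilizer, ← Nat.card_coe_set_eq]
    exact not_le.1 hx
  have hd : ∑ i ∈ I, (univ.filter fun x => ∀ γ ∈ row i, φ γ x = x).card = ∑ x, (J x).card :=
    sum_card_bipartiteAbove_eq_sum_card_bipartiteBelow fun i x => ∀ γ ∈ row i, φ γ x = x
  have h4 : I.card * Fintype.card X ≤ t * ∑ x, (J x).card := by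
    rw [← hd, mul_sum, ← smul_eq_mul]
    refine card_nsmul_le_sum _ _ _ fun i hi => ?_
    have h5 := h i hi
    rwa [Nat.card_eq_fintype_card, Nat.card_eq_fintype_card, Fintype.card_subtype] at h5
  set Sm := univ.filter fun x => Nat.card (Set.range fun γ : Q => φ γ x) ≤ T with hSm
  have h6 : ∑ x ∈ Sm, (J x).card ≤ Sm.card * I.card := by
    rw [← smul_eq_mul]
    exact sum_le_card_nsmul _ _ _ fun x _ => card_le_card (filter_subset _ _)
  have h7 : 2 * t * ∑ x ∈ Smᶜ, (J x).card ≤ Fintype.card X * I.card := by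
    rw [mul_sum]
    refine (sum_le_card_nsmul _ _ I.card fun x hx => hJ x fun h8 => ?_).trans ?_
    · exact mem_compl.1 hx (mem_filter.2 ⟨mem_univ _, h8⟩)
    · rw [smul_eq_mul]
      exact Nat.mul_le_mul_right _ (card_le_univ _)
  rw [← sum_add_sum_compl Sm] at h4
  have h9 := Nat.mul_lt_mul_of_pos_right h2 (card_pos.2 hI)
  have h10 := Nat.mul_le_mul_left (2 * t) h6
  linarith only [h4, h7, h9, h10]

theorem agg_chain {Q ι : Type} [Group Q] [Finite Q] (D : Finset ι) (cen : ι → Subgroup Q) (n : ℕ) :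
    ∃ S ⊆ D, S.card ≤ n ∧ (n ≤ (⨅ L ∈ S, cen L).index ∨ (⨅ L ∈ S, cen L) = ⨅ L ∈ D, cen L) := by
  classical
  induction n with
  | zero => exact ⟨∅, empty_subset _, le_rfl, Or.inl (Nat.zero_le _)⟩
  | succ n ih =>
    obtain ⟨S, hS, hc, h⟩ := ih
    by_cases e : (⨅ L ∈ S, cen L) = ⨅ L ∈ D, cen L
    · exact ⟨S, hS, by omega, Or.inr e⟩
    have h1 := h.resolve_right e
    obtain ⟨L, hL, h2⟩ : ∃ L ∈ D, ¬ (⨅ L ∈ S, cen L) ≤ cen L := by
      by_contra h3
      push Not at h3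
      exact e (le_antisymm (le_iInf₂ h3) (le_iInf₂ fun L hL => iInf₂_le L (hS hL)))
    refine ⟨insert L S, insert_subset hL hS, (card_insert_le _ _).trans (by omega), Or.inl ?_⟩
    refine lt_of_le_of_lt h1 (Subgroup.index_strictAnti (lt_of_le_of_ne
      (le_iInf₂ fun L hL => iInf₂_le L (mem_insert_of_mem hL)) fun h4 => h2 ?_))
    rw [← h4]
    exact iInf₂_le L (mem_insert_self _ _)

theorem gc : StmtGC := by
  intro Q ι κ _ _ C cen I row t T h hI
  classical
  let bad : ι → Finset κ := fun L => I.filter fun i => ¬ row i ⊆ cen L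
  let S₀ := C.filter fun L => I.card ≤ 2 * (T + 1) * (bad L).card
  have hd : ∑ i ∈ I, (C.filter fun L => ¬ row i ⊆ cen L).card = ∑ L ∈ C, (bad L).card :=
    sum_card_bipartiteAbove_eq_sum_card_bipartiteBelow fun i L => ¬ row i ⊆ cen L
  have h1 : ∑ L ∈ C, (bad L).card ≤ I.card * t := by
    rw [← hd, ← smul_eq_mul]
    exact sum_le_card_nsmul _ _ _ fun i hi => by convert h i hi
  have h2 : S₀.card * I.card ≤ 2 * (T + 1) * ∑ L ∈ S₀, (bad L).card := by
    rw [mul_sum, ← smul_eq_mul]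
    exact card_nsmul_le_sum _ _ _ fun L hL => (mem_filter.1 hL).2
  have h3 : ∑ L ∈ S₀, (bad L).card ≤ ∑ L ∈ C, (bad L).card :=
    sum_le_sum_of_subset (filter_subset _ _)
  have h4 : S₀.card ≤ 2 * t * (T + 1) := by
    refine Nat.le_of_mul_le_mul_right (h2.trans ?_) (card_pos.2 hI)
    calc _ ≤ 2 * (T + 1) * (I.card * t) := Nat.mul_le_mul_left _ (h3.trans h1)
      _ = _ := by ring
  by_cases h5 : (⨅ L ∈ C \ S₀, cen L).index ≤ T
  · refine Or.inr ⟨S₀, filter_subset _ _, h4, ?_⟩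
    convert h5
  obtain ⟨S, hS, hc, h6⟩ := agg_chain (C \ S₀) cen (T + 1)
  refine Or.inl ⟨⨅ L ∈ S, cen L, I.filter fun i => ∀ L ∈ S, row i ⊆ cen L, filter_subset _ _, ?_, ?_,
    fun i hi γ hγ => ?_⟩
  · rcases h6 with h6 | h6
    · exact h6
    · rw [h6]
      exact not_le.1 h5
  · have h7 : (I.filter fun i => ¬ ∀ L ∈ S, row i ⊆ cen L) ⊆ S.biUnion bad := by
      intro i hi
      obtain ⟨hi1, hi2⟩ := mem_filter.1 hi
      push Not at hi2
      obtain ⟨L, hL, h8⟩ := hi2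
      exact mem_biUnion.2 ⟨L, hL, mem_filter.2 ⟨hi1, h8⟩⟩
    have h8 := (card_le_card h7).trans card_biUnion_le
    have h9 : 2 * (T + 1) * ∑ L ∈ S, (bad L).card ≤ (T + 1) * I.card := by
      rw [mul_sum]
      refine (sum_le_card_nsmul _ _ I.card fun L hL => ?_).trans ?_
      · obtain ⟨a1, a2⟩ := mem_sdiff.1 (hS hL)
        exact (not_le.1 fun a3 => a2 (mem_filter.2 ⟨a1, a3⟩)).le
      · rw [smul_eq_mul]
        exact Nat.mul_le_mul_right _ hc
    have h10 : 2 * ∑ L ∈ S, (bad L).card ≤ I.card := by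
      refine Nat.le_of_mul_le_mul_left ?_ (Nat.succ_pos T)
      rw [Nat.succ_eq_add_one]
      linarith only [h9]
    have h11 := card_filter_add_card_filter_not (s := I) fun i => ∀ L ∈ S, row i ⊆ cen L
    omega
  · simp only [SetLike.mem_coe, Subgroup.mem_iInf]
    exact fun L hL => (mem_filter.1 hi).2 L hL hγ

end Pool.Agent.Work.MP_11a08a_al.Sol
end

-- merged part: Pool.Agent.Work.MP_11a08a_al.Sol.Wt
section
/-!
Put `r = s⁻¹ * t`.  First part: `tw s e (s * Y) = s * (e Y e⁻¹)`.  `U = span {e r e⁻¹ | e ∈ E}` has dimension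
`≤ sig E r` (`e r e⁻¹ = ⁅e, r⁆ r` changes by a scalar when `e` is multiplied on the right by an element of
`fixE E r`; span representatives of the cosets).  The operators `f e : Y ↦ e Y e⁻¹` (`e : E`) on `End F W` commute
(`comm`), preserve `U`, and `f e ^ n = 1` for `n = Zs.relIndex E` (`e ^ n ∈ Zs`), `(n : F) ≠ 0` by `hDu`.  By `hDi`
`r` is a finite sum of joint eigenvectors in `U` with distinct characters; the nonzero ones are independent, so
there are at most `finrank U` of them; enumerate and pad with `0`.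
Second part: `tw s e Y = d e * tw t e Y` with `d e = (s e s⁻¹) (t e t⁻¹)⁻¹ ∈ E`, and `tw s e Y = μ e • Y`, `μ e ≠ 0`.
So `(d e)⁻¹ * Y` lies in the span of the `m` summands.  `x * Y` (`x ∈ E`) is a nonzero joint eigenvector of the
`tw s e'` with character `e' ↦ ω(s e' s⁻¹, x) μ e'`; by `nd` these characters differ unless the `x` agree modulo
`Zs`, and `d e`, `d e'` agree modulo `Zs` exactly when `e⁻¹ e' ∈ fixE E r` (use that `E` is commutative modulo `Zs`).
Independence (`hDi`, first part) gives `sig ≤ m`.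
-/

set_option autoImplicit false

open Finset Module
open scoped commutatorElement

namespace Pool.Agent.Work.MP_11a08a_al.Sol

theorem wt_card {F V ι κ β : Type} [Field F] [AddCommGroup V] [Module F V] [Fintype κ] [Fintype β]
    {p : ι → Submodule F V} (hp : iSupIndep p) {χ : κ → ι} (hχ : Function.Injective χ)
    {v : κ → V} (h1 : ∀ k, v k ∈ p (χ k)) (h2 : ∀ k, v k ≠ 0) {b : β → V}
    (h3 : ∀ k, v k ∈ Submodule.span F (Set.range b)) : Fintype.card κ ≤ Fintype.card β := by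
  have a1 : LinearIndependent F v := (hp.comp hχ).linearIndependent _ h1 h2
  have : Module.Finite F (Submodule.span F (Set.range b)) :=
    Module.Finite.span_of_finite F (Set.finite_range b)
  have a2 : LinearIndependent F fun k => (⟨v k, h3 k⟩ : Submodule.span F (Set.range b)) :=
    LinearIndependent.of_comp (Submodule.subtype _) a1
  exact a2.fintype_card_le_finrank.trans (finrank_range_le_card b)

section

variable {F W : Type} [Field F] [AddCommGroup W] [Module F W]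

theorem wt_cen {z : (End F W)ˣ} (hz : z ∈ Zs F W) (x : (End F W)ˣ) : x * z = z * x := by
  obtain ⟨c, -, h⟩ := hz
  exact Units.ext (by simp [h])

theorem wt_normal : (Zs F W).Normal :=
  ⟨fun z hz x => by rwa [wt_cen hz, mul_inv_cancel_right]⟩

/-- the twisted conjugation as a linear map -/
def wt_L (s e : (End F W)ˣ) : End F (End F W) :=
  LinearMap.mulRight F ((e⁻¹ : (End F W)ˣ) : End F W) ∘ₗ
    LinearMap.mulLeft F ((s * e * s⁻¹ : (End F W)ˣ) : End F W)

theorem wt_L_apply (s e : (End F W)ˣ) (Y : End F W) : wt_L s e Y = tw s e Y := rfl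

theorem wt_mul (s e e' : (End F W)ˣ) (Y : End F W) :
    wt_L s (e * e') Y = wt_L s e (wt_L s e' Y) := by
  simp only [wt_L_apply, tw]
  rw [show s * (e * e') * s⁻¹ = s * e * s⁻¹ * (s * e' * s⁻¹) by group, mul_inv_rev]
  simp only [Units.val_mul, mul_assoc]

theorem wt_z (s : (End F W)ˣ) {z : (End F W)ˣ} (hz : z ∈ Zs F W) (Y : End F W) :
    wt_L s z Y = Y := by
  simp only [wt_L_apply, tw]
  rw [wt_cen hz, mul_inv_cancel_right]
  have h1 := z.mul_inv
  obtain ⟨c, -, h⟩ := hz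
  rw [h] at h1 ⊢
  rw [smul_mul_assoc, one_mul] at h1
  rw [smul_mul_assoc, one_mul, smul_mul_assoc, ← mul_smul_comm, h1, mul_one]

theorem wt_pow (s e : (End F W)ˣ) (n : ℕ) (Y : End F W) :
    (wt_L s e ^ n) Y = wt_L s (e ^ n) Y := by
  induction n with
  | zero => rw [pow_zero, pow_zero, wt_z s (Zs F W).one_mem]; rfl
  | succ n ih => rw [pow_succ', pow_succ', wt_mul, ← ih]; rfl

theorem wt_fix {E : Subgroup (End F W)ˣ} {s t g : (End F W)ˣ} (hg : g ∈ fixE E (s⁻¹ * t)) :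
    ∃ c : F, wt_L s g t = c • (t : End F W) := by
  obtain ⟨c, -, h⟩ := wt_normal.conj_mem _ ((Zs F W).inv_mem hg.2) s
  refine ⟨c, ?_⟩
  rw [wt_L_apply, tw, ← Units.val_mul, ← Units.val_mul,
    show s * g * s⁻¹ * t * g⁻¹ = s * ⁅s⁻¹ * t, g⁆⁻¹ * s⁻¹ * t by
      simp only [commutatorElement_def]; group, Units.val_mul, h, smul_mul_assoc, one_mul]

theorem wt_fin {E : Subgroup (End F W)ˣ} (hE : Heis E) (r : (End F W)ˣ) :
    Finite (E ⧸ (fixE E r).subgroupOf E) := by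
  refine Nat.finite_of_card_ne_zero fun h => hE.fin ?_
  refine Subgroup.relIndex_eq_zero_of_le_left (K := fixE E r) (fun z hz => ⟨hE.le hz, ?_⟩) h
  rw [commutatorElement_def, wt_cen hz, mul_inv_cancel_right, mul_inv_cancel]
  exact (Zs F W).one_mem

end

theorem wt (hDi : StmtDiag) (hDu : StmtDual) : StmtWt := by
  intro F W _ _ _ _ _ _ E hE s t hs ht
  classical
  obtain ⟨hI, hS⟩ := hDi F (End F W) E fun e => wt_L s e
  have := wt_fin hE (s⁻¹ * t)
  have := Fintype.ofFinite (E ⧸ (fixE E (s⁻¹ * t)).subgroupOf E)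
  have hsig : sig E (s⁻¹ * t) = Fintype.card (E ⧸ (fixE E (s⁻¹ * t)).subgroupOf E) :=
    Nat.card_eq_fintype_card
  have := wt_normal (F := F) (W := W)
  constructor
  · obtain ⟨b, hb⟩ : ∃ b : E ⧸ (fixE E (s⁻¹ * t)).subgroupOf E → End F W,
      ∀ q, b q = wt_L s (q.out : E) t := ⟨_, fun _ => rfl⟩
    have a1 : ∀ e ∈ E, wt_L s e t ∈ Submodule.span F (Set.range b) := by
      intro e he
      obtain ⟨g, hg⟩ := QuotientGroup.mk_out_eq_mul ((fixE E (s⁻¹ * t)).subgroupOf E) ⟨e, he⟩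
      obtain ⟨c, hc⟩ := wt_fix (Subgroup.mem_subgroupOf.1 (g⁻¹).2)
      have e1 : e = ((QuotientGroup.mk ⟨e, he⟩ : E ⧸ (fixE E (s⁻¹ * t)).subgroupOf E).out : E) *
          (((g⁻¹ : (fixE E (s⁻¹ * t)).subgroupOf E) : E) : (End F W)ˣ) := by
        rw [hg]
        simp
      rw [e1, wt_mul, hc, map_smul, ← hb]
      exact Submodule.smul_mem _ _ (Submodule.subset_span ⟨_, rfl⟩)
    have a2 := hS inferInstance inferInstance (Submodule.span F (Set.range b)) _
      (hDu F W E hE).1 (fun e w hw => by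
        refine Submodule.span_induction (fun x hx => ?_) (by simp) (fun x y _ _ h1 h2 => ?_)
          (fun c x _ h1 => ?_) hw
        · obtain ⟨q, rfl⟩ := hx
          rw [hb, ← wt_mul]
          exact a1 _ (E.mul_mem e.2 q.out.2)
        · rw [map_add]
          exact Submodule.add_mem _ h1 h2
        · rw [map_smul]
          exact Submodule.smul_mem _ _ h1)
      (fun e e' w _ => by
        rw [← wt_mul, ← wt_mul, show (e : (End F W)ˣ) * e' = ⁅(e : (End F W)ˣ), (e' : (End F W)ˣ)⁆ *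
          (e' * e) by simp only [commutatorElement_def]; group, wt_mul s ⁅_, _⁆,
          wt_z s (hE.comm _ e.2 _ e'.2)])
      (fun e => ⟨1, one_ne_zero, fun w _ => by
        rw [wt_pow, wt_z s ((Zs F W).pow_relIndex_mem e.2), one_smul]⟩)
    have a3 := a1 1 E.one_mem
    rw [wt_z s (Zs F W).one_mem] at a3
    obtain ⟨f, f1, f2⟩ := (Submodule.mem_iSup_iff_exists_finsupp _ _).1 (a2 a3)
    have a4 : Fintype.card f.support ≤ Fintype.card (Fin (sig E (s⁻¹ * t))) := by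
      rw [Fintype.card_fin, hsig]
      exact wt_card hI Subtype.val_injective (v := fun k : f.support => f k) (fun k => (f1 k).2)
        (fun k => Finsupp.mem_support_iff.1 k.2) fun k => (f1 k).1
    obtain ⟨j⟩ := Function.Embedding.nonempty_of_card_le a4
    refine ⟨Function.extend j (fun k => f k) 0, fun k e he => ?_, ?_⟩
    · by_cases hk : ∃ a, j a = k
      · obtain ⟨a, rfl⟩ := hk
        rw [j.injective.extend_apply]
        exact ⟨_, End.mem_eigenspace_iff.1 ((Submodule.mem_iInf _).1 (f1 a).2 ⟨e, he⟩)⟩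
      · rw [Function.extend_apply' _ _ _ hk]
        exact ⟨0, by simp [tw]⟩
    · rw [← f2, Finsupp.sum, ← sum_coe_sort]
      exact Fintype.sum_of_injective j j.injective _ _
        (fun k hk => Function.extend_apply' _ _ _ hk) fun a => by
          rw [j.injective.extend_apply]
  · rintro m Y hY ⟨T, hT, rfl⟩ hEig
    have hs' := Subgroup.mem_normalizer_iff.1 hs
    have ht' := Subgroup.mem_normalizer_iff.1 ht
    obtain ⟨x, hx⟩ : ∃ x : E → E, ∀ e, (x e : (End F W)ˣ) = t * e * t⁻¹ * (s * e * s⁻¹)⁻¹ :=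
      ⟨fun e => ⟨_, E.mul_mem ((ht' _).1 e.2) (E.inv_mem ((hs' _).1 e.2))⟩, fun _ => rfl⟩
    choose μ hμ using fun e : E => hEig e e.2
    have m0 : ∀ e, μ e ≠ 0 := fun e h => hY (by
      have := wt_mul s (e : (End F W)ˣ)⁻¹ e (∑ k, T k)
      rw [inv_mul_cancel, wt_z s (Zs F W).one_mem, wt_L_apply s e, hμ, h, zero_smul,
        map_zero] at this
      exact this)
    choose ω ω0 hω using fun e y : E => hE.comm _ ((hs' _).1 e.2) _ y.2
    have b1 : ∀ e y : E, wt_L s e (((y : (End F W)ˣ) : End F W) * ∑ k, T k) =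
        (ω e y * μ e) • (((y : (End F W)ˣ) : End F W) * ∑ k, T k) := by
      intro e y
      have e1 : ((s * e * s⁻¹ : (End F W)ˣ) : End F W) * ((y : (End F W)ˣ) : End F W) =
          ω e y • (((y : (End F W)ˣ) : End F W) * ((s * e * s⁻¹ : (End F W)ˣ) : End F W)) := by
        rw [← Units.val_mul, ← Units.val_mul, ← smul_one_mul, ← hω, ← Units.val_mul]
        congr 1
        simp only [commutatorElement_def]
        group
      have e2 := hμ e
      rw [tw] at e2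
      rw [wt_L_apply, tw, ← mul_assoc, e1, smul_mul_assoc, smul_mul_assoc, mul_assoc, mul_assoc,
        ← mul_assoc _ (∑ k, T k), e2, mul_smul_comm, smul_smul]
    rw [hsig, ← Fintype.card_fin m]
    refine wt_card hI (χ := fun q e => ω e (x q.out) * μ e) (fun q q' h => ?_)
      (v := fun q => ((x q.out : (End F W)ˣ) : End F W) * ∑ k, T k)
      (fun q => (Submodule.mem_iInf _).2 fun e => End.mem_eigenspace_iff.2 (b1 e _))
      (fun q h => hY ((Units.mul_right_eq_zero _).1 h)) (b := T) fun q => ?_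
    · have c1 : ((x q.out)⁻¹ * x q'.out : E).1 ∈ Zs F W := by
        refine hE.nd _ ((x q.out)⁻¹ * x q'.out).2 fun a ha => ?_
        have ha' : s⁻¹ * a⁻¹ * s ∈ E := (Subgroup.mem_normalizer_iff''.1 hs _).1 (E.inv_mem ha)
        have c2 := mul_right_cancel₀ (m0 _) (congrFun h ⟨_, ha'⟩)
        have c3 := (hω ⟨_, ha'⟩ (x q.out)).trans (c2 ▸ (hω ⟨_, ha'⟩ (x q'.out)).symm)
        have c4 := Units.ext c3
        simp only [commutatorElement_def] at c4
        rw [Subgroup.coe_mul, Subgroup.coe_inv]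
        generalize ((x q.out : E) : (End F W)ˣ) = u at c4
        generalize ((x q'.out : E) : (End F W)ˣ) = u' at c4
        calc u⁻¹ * u' * a = u⁻¹ * a * (s * (s⁻¹ * a⁻¹ * s) * s⁻¹ * u' *
              (s * (s⁻¹ * a⁻¹ * s) * s⁻¹)⁻¹ * u'⁻¹) * u' := by group
          _ = a * (u⁻¹ * u') := by rw [← c4]; group
      rw [← q.out_eq', ← q'.out_eq', QuotientGroup.eq, Subgroup.mem_subgroupOf]
      refine ⟨(q.out⁻¹ * q'.out).2, ?_⟩
      have c5 := wt_normal.conj_mem _ c1 (s * q.out)⁻¹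
      rw [Subgroup.coe_mul, Subgroup.coe_inv, hx, hx] at c5
      rw [Subgroup.coe_mul, Subgroup.coe_inv, commutatorElement_def]
      convert c5 using 1
      group
    · have c1 : μ q.out • (((x q.out : (End F W)ˣ) : End F W) * ∑ k, T k) =
          ∑ k, wt_L t q.out (T k) := by
        rw [← map_sum, ← mul_smul_comm, ← hμ, wt_L_apply, tw, tw, ← mul_assoc, ← mul_assoc,
          ← Units.val_mul, hx, inv_mul_cancel_right]
      refine (Submodule.smul_mem_iff _ (m0 q.out)).1 ?_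
      rw [c1]
      refine Submodule.sum_mem _ fun k _ => ?_
      obtain ⟨c, hc⟩ := hT k q.out q.out.2
      rw [wt_L_apply, hc]
      exact Submodule.smul_mem _ _ (Submodule.subset_span ⟨k, rfl⟩)

end Pool.Agent.Work.MP_11a08a_al.Sol
end

-- merged part: Pool.Agent.Work.MP_11a08a_al.Sol.Pet
section
/-!
Basic facts: `Wt` is monotone in `m` (pad with `0`), `Wt m Y → Wt m' Y' → Wt (m + m') (Y + Y')`, closed under scalars;
for `x ∈ E`, `Eig E s T → Eig E s (x * T)` (commutators are scalars, `Nm s E`); for `s₀, s` normalising `E` and `e ∈ E`,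
`tw s₀ e Y = d * tw s e Y` with `d = (s₀ e s₀⁻¹)(s e s⁻¹)⁻¹ ∈ E`, so `Wt m s Y → Wt (2 m) s (tw s₀ e Y - c • Y)`; and if
`Y₀ = T₀ + rest` is `Wt (a + 1) s₀` with `tw s₀ e T₀ = c • T₀` then `tw s₀ e Y₀ - c • Y₀` is `Wt a s₀`.
`rk (tw s e Y - c • Y) ≤ 2 rk Y`.
Both theorems: prove by induction on `n`, inside on `a`, for all `m`, the statement for a distinguished index
`r₀ ∉ R`, `card R ≤ n`, `Y₀` with `Wt a s₀`, the others `Wt m`, total `Y₀ + ∑ r ∈ R, Y r`.  For `a = 0` move an element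
of `R` to the distinguished place (`a := m`).  For `a + 1` let `μ e` be the eigenvalue of `T₀`.
`pet1`: if the total is `Eig E s₀` stop; otherwise some `e` has `tw s₀ e Y - μ e • Y ≠ 0`, use the case `(a, 2 m)`.
`pet2`: for every `e ∈ E` the case `(a, 2 m)` gives `tw s₀ e (Y r) = μ e • Y r`; so `Y r` is `Eig E s₀`, and
`hW` (second part) with `m ≤ T` forces `Y r = 0`; then `Y₀ = 0`.  Keep `m ≤ T` by taking maxima.
-/

set_option autoImplicit false

open Finset Module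
open scoped commutatorElement

namespace Pool.Agent.Work.MP_11a08a_al.Sol

section aux

variable {F W : Type} [Field F] [AddCommGroup W] [Module F W] {E : Subgroup (End F W)ˣ}
  {s s₀ e x : (End F W)ˣ} {T Y Y' : End F W} {m m' a : ℕ}

theorem pet_conj (hs : Nm s E) (he : e ∈ E) : s * e * s⁻¹ ∈ E :=
  (Subgroup.mem_normalizer_iff.1 hs e).1 he

/-- The twisted conjugation minus a scalar. -/
def petD (s e : (End F W)ˣ) (c : F) : End F W →+ End F W where
  toFun Y := tw s e Y - c • Y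
  map_zero' := by simp [tw]
  map_add' Y Y' := by
    simp only [tw, mul_add, add_mul, smul_add]
    abel

theorem pet_D (s e : (End F W)ˣ) (c : F) (Y : End F W) : petD s e c Y = tw s e Y - c • Y := rfl

theorem pet_eig_smul (h : Eig E s T) (c : F) : Eig E s (c • T) := fun e he => by
  obtain ⟨d, hd⟩ := h e he
  refine ⟨d, ?_⟩
  rw [smul_comm, ← hd]
  simp only [tw, mul_smul_comm, smul_mul_assoc]

theorem pet_eig_mul (hE : Heis E) (hs : Nm s E) (hx : x ∈ E) (h : Eig E s T) :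
    Eig E s ((x : End F W) * T) := fun e he => by
  obtain ⟨d, hd⟩ := h e he
  obtain ⟨c, -, hc⟩ := hE.comm _ (pet_conj hs he) x hx
  have h1 : s * e * s⁻¹ * x = ⁅s * e * s⁻¹, x⁆ * (x * (s * e * s⁻¹)) := by
    simp only [commutatorElement_def]; group
  have h2 := congrArg (fun u : (End F W)ˣ => (u : End F W)) h1
  simp only [Units.val_mul (s * e * s⁻¹) x, Units.val_mul ⁅s * e * s⁻¹, x⁆, hc,
    Units.val_mul x] at h2
  refine ⟨c * d, ?_⟩
  rw [tw, ← mul_assoc, h2, mul_smul, ← mul_smul_comm d, ← hd, tw]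
  simp only [smul_mul_assoc, one_mul, mul_assoc]

theorem pet_eig_tw (hE : Heis E) (hs : Nm s E) (hs₀ : Nm s₀ E) (he : e ∈ E) (h : Eig E s T) :
    Eig E s (tw s₀ e T) := by
  obtain ⟨d, hd⟩ := h e he
  have h1 : tw s₀ e T = ((s₀ * e * s₀⁻¹ * (s * e * s⁻¹)⁻¹ : (End F W)ˣ) : End F W) * tw s e T := by
    rw [tw, tw, ← mul_assoc, ← mul_assoc, ← Units.val_mul, inv_mul_cancel_right]
  rw [h1, hd]
  exact pet_eig_mul hE hs (E.mul_mem (pet_conj hs₀ he) (E.inv_mem (pet_conj hs he)))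
    (pet_eig_smul h d)

theorem pet_eig_D (he : e ∈ E) (c : F) (h : Eig E s T) : Eig E s (petD s e c T) := by
  obtain ⟨d, hd⟩ := h e he
  rw [pet_D, hd, ← sub_smul]
  exact pet_eig_smul h _

theorem pet_wt_map (φ : End F W →+ End F W) (hφ : ∀ T, Eig E s T → Eig E s (φ T))
    (h : Wt E m s Y) : Wt E m s (φ Y) := by
  obtain ⟨T, h1, rfl⟩ := h
  exact ⟨fun k => φ (T k), fun k => hφ _ (h1 k), map_sum φ _ _⟩

theorem pet_wt_add (h : Wt E m s Y) (h' : Wt E m' s Y') : Wt E (m + m') s (Y + Y') := by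
  obtain ⟨T, h1, rfl⟩ := h
  obtain ⟨T', h2, rfl⟩ := h'
  refine ⟨Fin.append T T', fun k => ?_, by simp [Fin.sum_univ_add]⟩
  induction k using Fin.addCases with
  | left k => simpa using h1 k
  | right k => simpa using h2 k

theorem pet_wt_D (hE : Heis E) (hs : Nm s E) (hs₀ : Nm s₀ E) (he : e ∈ E) (c : F)
    (h : Wt E m s Y) : Wt E (m + m) s (petD s₀ e c Y) := by
  have h1 := pet_wt_map (petD s₀ e 0) (fun T hT => by
    rw [pet_D, zero_smul, sub_zero]; exact pet_eig_tw hE hs hs₀ he hT) h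
  have h2 : Wt E m s ((-c) • Y) := by
    obtain ⟨T, h2, rfl⟩ := h
    exact ⟨fun k => (-c) • T k, fun k => pet_eig_smul (h2 k) _, smul_sum⟩
  have h3 : petD s₀ e c Y = petD s₀ e 0 Y + (-c) • Y := by
    rw [pet_D, pet_D, zero_smul, sub_zero, neg_smul, sub_eq_add_neg]
  rw [h3]
  exact pet_wt_add h1 h2

theorem pet_wt_succ (he : e ∈ E) (h : Wt E (a + 1) s Y) : ∃ c, Wt E a s (petD s e c Y) := by
  obtain ⟨T, h1, rfl⟩ := h
  obtain ⟨c, hc⟩ := h1 0 e he
  refine ⟨c, ?_⟩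
  rw [Fin.sum_univ_succ, map_add, pet_D, hc, sub_self, zero_add]
  exact pet_wt_map _ (fun T => pet_eig_D he c) ⟨_, fun k => h1 _, rfl⟩

theorem pet_step {q : ℕ} {R : Finset (Fin q)} {s : Fin q → (End F W)ˣ} {Y : Fin q → End F W}
    {r₀ : Fin q} (hE : Heis E) (he : e ∈ E) (h0 : r₀ ∈ R)
    (h : ∀ r ∈ R, Nm (s r) E ∧ Wt E (if r = r₀ then a + 1 else m) (s r) (Y r)) :
    ∃ c, ∀ r ∈ R, Nm (s r) E ∧
      Wt E (if r = r₀ then a else m + m) (s r) (petD (s r₀) e c (Y r)) := by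
  obtain ⟨h1, h2⟩ := h r₀ h0
  rw [if_pos rfl] at h2
  obtain ⟨c, hc⟩ := pet_wt_succ he h2
  refine ⟨c, fun r hr => ⟨(h r hr).1, ?_⟩⟩
  have h3 := (h r hr).2
  split_ifs at h3 ⊢ with h4
  · rwa [h4]
  · exact pet_wt_D hE (h r hr).1 h1 he c h3

theorem pet_zero {q : ℕ} {R : Finset (Fin q)} {s : Fin q → (End F W)ˣ} {Y : Fin q → End F W}
    {r₀ : Fin q} (h0 : r₀ ∈ R)
    (h : ∀ r ∈ R, Nm (s r) E ∧ Wt E (if r = r₀ then 0 else m) (s r) (Y r)) (r₁ : Fin q) :
    Y r₀ = 0 ∧ ∀ r ∈ R.erase r₀, Nm (s r) E ∧ Wt E (if r = r₁ then m else m) (s r) (Y r) := by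
  refine ⟨?_, fun r hr => ?_⟩
  · have h1 := (h r₀ h0).2
    rw [if_pos rfl] at h1
    obtain ⟨T, -, h2⟩ := h1
    simpa using h2
  · have h1 := h r (mem_of_mem_erase hr)
    rwa [if_neg (ne_of_mem_erase hr), ← ite_self (c := r = r₁) m] at h1

theorem pet_rk_mul [FiniteDimensional F W] (A Y B : End F W) : rk (A * Y * B) ≤ rk Y := by
  refine le_trans (Submodule.finrank_mono ?_) (Submodule.finrank_map_le A (LinearMap.range Y))
  rintro _ ⟨w, rfl⟩
  exact ⟨_, ⟨B w, rfl⟩, rfl⟩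

theorem pet_rk_D [FiniteDimensional F W] (s e : (End F W)ˣ) (c : F) (Y : End F W) :
    rk (petD s e c Y) ≤ 2 * rk Y := by
  have h1 : LinearMap.range (petD s e c Y) ≤ LinearMap.range (tw s e Y) ⊔ LinearMap.range Y := by
    rintro _ ⟨w, rfl⟩
    exact Submodule.sub_mem _ (Submodule.mem_sup_left ⟨w, rfl⟩)
      (Submodule.mem_sup_right (Submodule.smul_mem _ c ⟨w, rfl⟩))
  have h2 := (Submodule.finrank_mono h1).trans (Submodule.finrank_add_le_finrank_add_finrank _ _)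
  have h3 : rk (tw s e Y) ≤ rk Y := pet_rk_mul _ _ _
  unfold rk at h3 ⊢
  omega

theorem pet_bim {U : Submodule F (End F W)} (hU : Bim E U) (hs : Nm s E) (he : e ∈ E) (c : F)
    (h : Y ∈ U) : petD s e c Y ∈ U :=
  U.sub_mem (hU _ (E.inv_mem he) _ (hU _ (pet_conj hs he) _ h).1).2 (U.smul_mem c h)

end aux

theorem pet_one (q n : ℕ) : ∀ a m : ℕ, ∃ K : ℕ, ∀ (F W : Type) [Field F] [AddCommGroup W]
    [Module F W] [FiniteDimensional F W] (E : Subgroup (End F W)ˣ), Heis E →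
    ∀ (R : Finset (Fin q)) (s : Fin q → (End F W)ˣ) (Y : Fin q → End F W) (r₀ : Fin q),
    R.card ≤ n → r₀ ∈ R → (∀ r ∈ R, Nm (s r) E ∧ Wt E (if r = r₀ then a else m) (s r) (Y r)) →
    ∑ r ∈ R, Y r ≠ 0 →
    ∃ X : End F W, X ≠ 0 ∧ (∃ r ∈ R, Eig E (s r) X) ∧ rk X ≤ K * rk (∑ r ∈ R, Y r) ∧
      ∀ U : Submodule F (End F W), Bim E U → ∑ r ∈ R, Y r ∈ U → X ∈ U := by
  induction n with
  | zero =>
    refine fun a m => ⟨0, fun F W _ _ _ _ E _ R s Y r₀ hR h0 => ?_⟩
    exact absurd (card_pos.2 ⟨r₀, h0⟩) (by omega)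
  | succ n ih =>
    intro a
    induction a with
    | zero =>
      intro m
      obtain ⟨K, hK⟩ := ih m m
      refine ⟨K, fun F W _ _ _ _ E hE R s Y r₀ hR h0 h hne => ?_⟩
      rw [← sum_erase R (pet_zero h0 h r₀).1] at hne ⊢
      obtain ⟨r₁, h1⟩ := nonempty_of_sum_ne_zero hne
      obtain ⟨X, x1, ⟨r, hr, x2⟩, x3⟩ := hK F W E hE _ s Y r₁
        (by rw [card_erase_of_mem h0]; omega) h1 (pet_zero h0 h r₁).2 hne
      exact ⟨X, x1, ⟨r, mem_of_mem_erase hr, x2⟩, x3⟩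
    | succ a iha =>
      intro m
      obtain ⟨K, hK⟩ := iha (m + m)
      refine ⟨2 * K + 1, fun F W _ _ _ _ E hE R s Y r₀ hR h0 h hne => ?_⟩
      by_cases hY : Eig E (s r₀) (∑ r ∈ R, Y r)
      · exact ⟨_, hne, ⟨r₀, h0, hY⟩, Nat.le_mul_of_pos_left _ (Nat.succ_pos _), fun U _ hU => hU⟩
      · simp only [Eig, not_forall, not_exists] at hY
        obtain ⟨e, he, hY⟩ := hY
        obtain ⟨c, hc⟩ := pet_step hE he h0 h
        obtain ⟨X, x1, x2, x3, x4⟩ := hK F W E hE R s _ r₀ hR h0 hc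
          (by rw [← map_sum]; exact sub_ne_zero.2 (hY c))
        rw [← map_sum] at x3 x4
        refine ⟨X, x1, x2, x3.trans ?_, fun U hU h1 => x4 U hU (pet_bim hU (h r₀ h0).1 he c h1)⟩
        refine (Nat.mul_le_mul_left _ (pet_rk_D _ _ _ _)).trans ?_
        rw [← mul_assoc]
        exact Nat.mul_le_mul_right _ (by omega)

theorem pet_two (hW : StmtWt) (q n : ℕ) : ∀ a m : ℕ, ∃ T : ℕ, ∀ (F W : Type) [Field F]
    [IsAlgClosed F] [AddCommGroup W] [Module F W] [FiniteDimensional F W] [Nontrivial W]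
    (E : Subgroup (End F W)ˣ), Heis E →
    ∀ (R : Finset (Fin q)) (s : Fin q → (End F W)ˣ) (Y : Fin q → End F W) (r₀ : Fin q),
    R.card ≤ n → r₀ ∈ R → (∀ r ∈ R, Nm (s r) E ∧ Wt E (if r = r₀ then a else m) (s r) (Y r)) →
    ∑ r ∈ R, Y r = 0 → (∀ r ∈ R, ∀ r' ∈ R, r ≠ r' → T < sig E ((s r)⁻¹ * s r')) →
    ∀ r ∈ R, Y r = 0 := by
  induction n with
  | zero =>
    refine fun a m => ⟨0, fun F W _ _ _ _ _ _ E _ R s Y r₀ hR h0 => ?_⟩
    exact absurd (card_pos.2 ⟨r₀, h0⟩) (by omega)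
  | succ n ih =>
    intro a
    induction a with
    | zero =>
      intro m
      obtain ⟨T, hT⟩ := ih m m
      refine ⟨T, fun F W _ _ _ _ _ _ E hE R s Y r₀ hR h0 h hz hf r hr => ?_⟩
      by_cases h1 : r = r₀
      · rw [h1]
        exact (pet_zero h0 h r₀).1
      · rw [← sum_erase R (pet_zero h0 h r₀).1] at hz
        have h2 := mem_erase.2 ⟨h1, hr⟩
        exact hT F W E hE _ s Y r (by rw [card_erase_of_mem h0]; omega) h2 (pet_zero h0 h r).2 hz
          (fun u hu v hv => hf u (mem_of_mem_erase hu) v (mem_of_mem_erase hv)) r h2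
    | succ a iha =>
      intro m
      obtain ⟨T, hT⟩ := iha (m + m)
      refine ⟨max T m, fun F W _ _ _ _ _ _ E hE R s Y r₀ hR h0 h hz hf => ?_⟩
      have h1 : ∀ r ∈ R, r ≠ r₀ → Y r = 0 := fun r hr hne => by
        by_contra hY
        have h2 := (h r hr).2
        rw [if_neg hne] at h2
        have h3 := (hW F W E hE (s r₀) (s r) (h r₀ h0).1 (h r hr).1).2 m _ hY h2 fun e he => by
          obtain ⟨c, hc⟩ := pet_step hE he h0 h
          exact ⟨c, sub_eq_zero.1 (hT F W E hE R s _ r₀ hR h0 hc (by rw [← map_sum, hz, map_zero])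
            (fun u hu v hv huv => (le_max_left _ _).trans_lt (hf u hu v hv huv)) r hr)⟩
        exact absurd ((le_max_right _ _).trans_lt (hf r₀ h0 r hr hne.symm)) h3.not_gt
      intro r hr
      by_cases h2 : r = r₀
      · rwa [sum_eq_single_of_mem r₀ h0 h1, ← h2] at hz
      · exact h1 r hr h2

theorem pet1 : StmtPet1 := by
  intro q m
  obtain ⟨K, hK⟩ := pet_one q q m m
  refine ⟨K, fun F W _ _ _ _ E hE R s Y h hne => ?_⟩
  obtain ⟨r₀, h0⟩ := nonempty_of_sum_ne_zero hne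
  exact hK F W E hE R s Y r₀ (by simpa using card_le_univ R) h0 (by simpa using h) hne

theorem pet2 (hW : StmtWt) : StmtPet2 := by
  intro q m
  obtain ⟨T, hT⟩ := pet_two hW q q m m
  exact ⟨T, fun F W _ _ _ _ _ _ E hE R s Y h hz hf r hr =>
    hT F W E hE R s Y r (by simpa using card_le_univ R) hr (by simpa using h) hz hf r hr⟩

end Pool.Agent.Work.MP_11a08a_al.Sol
end

-- merged part: Pool.Agent.Work.MP_11a08a_al.Sol.Basic
section
/-!
Elementary.  `Cov`: take unions of the lists (`Finset.biUnion`, choice).  Last `Cov` item: choose a finset `Y ⊆ K` of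
representatives of the cosets of `N.subgroupOf K` (at most `T`), list the entries `(l, l', (d l)⁻¹ d l' * y, N)` for
`y ∈ Y`, `y ∉ N`.  Independent families: for `l₀ ∈ P` the subsum over `{l ∈ P | t l = t l₀}` lies in `X (t l₀)` and its
negative lies in the join of the others, so it vanishes, and minimality makes it all of `P`.  `gam`: induction on `c`
(`Subgroup.map_commutator`, `commutator_mono`; an element normalises a subgroup iff conjugation maps it onto itself).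
Minimal subsums: strong induction on `P` (if `P''` vanishes for `b` so does `P \ P''`, and `d` fails on one of them).
For `Blk` use `t l = ⟨W.map (ρ (b l)), _⟩`.
-/

set_option autoImplicit false

open Finset Module
open scoped commutatorElement

namespace Pool.Agent.Work.MP_11a08a_al.Sol

section Cov

variable {G : Type} [Group G] {q : ℕ} {d : Fin q → G}

theorem basic_mono (B B' : ℕ) (R R' : (Fin q → G) → Prop) (hB : B ≤ B') (hR : ∀ b, R' b → R b)
    (h : Cov B d R) : Cov B' d R' := by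
  obtain ⟨L, h1, h2, h3⟩ := h
  exact ⟨L, h1.trans hB, h2, fun b hb => h3 b (hR b hb)⟩

theorem basic_union (ι : Type) (s : Finset ι) (B : ℕ) (R : ι → (Fin q → G) → Prop)
    (h : ∀ t ∈ s, Cov B d (R t)) : Cov (s.card * B) d fun b => ∃ t ∈ s, R t b := by
  classical
  choose! L h1 h2 h3 using h
  refine ⟨s.biUnion L, Finset.card_biUnion_le_card_mul s L B h1, fun e he => ?_, ?_⟩
  · obtain ⟨t, ht, het⟩ := Finset.mem_biUnion.1 he
    exact h2 t ht e het
  · rintro b ⟨t, ht, hb⟩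
    obtain ⟨e, he, h4⟩ := h3 t ht b hb
    exact ⟨e, Finset.mem_biUnion.2 ⟨t, ht, he⟩, h4⟩

theorem basic_or (B B' : ℕ) (R R' : (Fin q → G) → Prop) (h : Cov B d R) (h' : Cov B' d R') :
    Cov (B + B') d fun b => R b ∨ R' b := by
  classical
  obtain ⟨L, h1, h2, h3⟩ := h
  obtain ⟨L', h1', h2', h3'⟩ := h'
  refine ⟨L ∪ L', (Finset.card_union_le _ _).trans (add_le_add h1 h1'), fun e he => ?_, ?_⟩
  · rcases Finset.mem_union.1 he with he | he
    · exact h2 e he
    · exact h2' e he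
  · rintro b (hb | hb)
    · obtain ⟨e, he, h4⟩ := h3 b hb
      exact ⟨e, Finset.mem_union_left _ he, h4⟩
    · obtain ⟨e, he, h4⟩ := h3' b hb
      exact ⟨e, Finset.mem_union_right _ he, h4⟩

theorem basic_rat (P : Finset (Fin q)) (K : Subgroup G) (h : ¬ Rat P d K) :
    Cov 1 d fun b => Rat P b K := by
  unfold Rat at h
  push Not at h
  obtain ⟨l, hl, l', hl', h⟩ := h
  refine ⟨{(l, l', 1, K)}, by simp, fun e he => ?_, fun b hb => ⟨_, Finset.mem_singleton_self _, ?_⟩⟩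
  · rw [Finset.mem_singleton.1 he]
    simpa using h
  · simpa using hb l hl l' hl'

theorem basic_pat (P : Finset (Fin q)) (K N : Subgroup G) (T : ℕ) (h0 : N.relIndex K ≠ 0)
    (hT : N.relIndex K ≤ T) :
    Cov (q * q * T) d fun b => Pat P d b K ∧ ¬ Pat P d b N := by
  classical
  have : Finite (K ⧸ N.subgroupOf K) := Nat.finite_of_card_ne_zero h0
  let _ := Fintype.ofFinite (K ⧸ N.subgroupOf K)
  let Y : Finset (K ⧸ N.subgroupOf K) := Finset.univ.filter fun c => (c.out : G) ∉ N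
  have hY : Y.card ≤ T := by
    refine (Finset.card_le_univ _).trans ?_
    rw [← Nat.card_eq_fintype_card]
    exact hT
  refine ⟨((Finset.univ : Finset (Fin q × Fin q)) ×ˢ Y).image
    fun x => (x.1.1, x.1.2, (d x.1.1)⁻¹ * d x.1.2 * (x.2.out : G), N), ?_, fun e he => ?_, ?_⟩
  · refine Finset.card_image_le.trans ?_
    rw [Finset.card_product, Finset.card_univ, Fintype.card_prod, Fintype.card_fin]
    exact Nat.mul_le_mul_left _ hY
  · obtain ⟨x, hx, rfl⟩ := Finset.mem_image.1 he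
    have h1 := (Finset.mem_filter.1 (Finset.mem_product.1 hx).2).2
    intro h2
    apply h1
    have h3 := N.inv_mem h2
    simpa [mul_assoc] using h3
  · rintro b ⟨hK, hN⟩
    unfold Pat at hN
    push Not at hN
    obtain ⟨l, hl, l', hl', h⟩ := hN
    obtain ⟨k, hk⟩ : ∃ k : K, (k : G) = ((d l)⁻¹ * d l')⁻¹ * ((b l)⁻¹ * b l') :=
      ⟨⟨_, hK l hl l' hl'⟩, rfl⟩
    have h1 : ((QuotientGroup.mk k : K ⧸ N.subgroupOf K).out)⁻¹ * k ∈ N.subgroupOf K :=
      QuotientGroup.eq.1 (QuotientGroup.out_eq' _)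
    rw [Subgroup.mem_subgroupOf, Subgroup.coe_mul, Subgroup.coe_inv] at h1
    refine ⟨_, Finset.mem_image.2 ⟨((l, l'), QuotientGroup.mk k), Finset.mem_product.2
      ⟨Finset.mem_univ _, Finset.mem_filter.2 ⟨Finset.mem_univ _, fun h2 => h ?_⟩⟩, rfl⟩, ?_⟩
    · have h3 := N.mul_mem h2 h1
      rw [mul_inv_cancel_left, hk] at h3
      exact h3
    · rw [hk] at h1
      simpa [mul_assoc] using h1

end Cov

theorem basic_sub {F A ι : Type} [Field F] [AddCommGroup A] [Module F A] {q : ℕ}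
    {X : ι → Submodule F A} {P : Finset (Fin q)} {u : Fin q → A} {t : Fin q → ι} [DecidableEq ι]
    (hX : iSupIndep X) (hu : ∀ l ∈ P, u l ∈ X (t l)) (h : ∑ l ∈ P, u l = 0) (i : ι) :
    ∑ l ∈ P.filter (fun l => t l = i), u l = 0 := by
  have h1 : ∑ l ∈ P.filter (fun l => t l = i), u l ∈ X i :=
    Submodule.sum_mem _ fun l hl => (Finset.mem_filter.1 hl).2 ▸ hu l (Finset.mem_filter.1 hl).1
  have h2 : ∑ l ∈ P.filter (fun l => ¬ t l = i), u l ∈ ⨆ (j) (_ : j ≠ i), X j :=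
    Submodule.sum_mem _ fun l hl =>
      Submodule.mem_iSup_of_mem (t l) (Submodule.mem_iSup_of_mem (Finset.mem_filter.1 hl).2
        (hu l (Finset.mem_filter.1 hl).1))
  rw [← Finset.sum_filter_add_sum_filter_not P (fun l => t l = i)] at h
  have h3 := Submodule.neg_mem _ h2
  rw [← eq_neg_of_add_eq_zero_left h] at h3
  exact Submodule.disjoint_def.1 (hX i) _ h1 h3

theorem basic_all {ι : Type} {q : ℕ} {P : Finset (Fin q)} {t : Fin q → ι} [DecidableEq ι]
    (Q : Finset (Fin q) → Prop) (h1 : ∀ i, Q (P.filter fun l => t l = i))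
    (h2 : ∀ P' ⊆ P, P'.Nonempty → P' ≠ P → ¬ Q P') : ∀ l ∈ P, ∀ l' ∈ P, t l = t l' := by
  intro l hl l' hl'
  by_contra hne
  refine h2 (P.filter fun l => t l = t l') (Finset.filter_subset _ _)
    ⟨l', Finset.mem_filter.2 ⟨hl', rfl⟩⟩ (fun e => hne ?_) (h1 (t l'))
  rw [← e] at hl
  exact (Finset.mem_filter.1 hl).2

theorem basic_gam_map {G : Type} [Group G] (N : Subgroup G) (c : ℕ) (G' : Type) [Group G']
    (f : G →* G') : (gam N c).map f = gam (N.map f) c := by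
  induction c with
  | zero => rfl
  | succ c ih => rw [gam, gam, Subgroup.map_commutator, ih]

theorem basic_gam {G : Type} [Group G] (N : Subgroup G) (c : ℕ) : gam N c ≤ N ∧
    Subgroup.normalizer (N : Set G) ≤ Subgroup.normalizer (gam N c : Set G) ∧
    (∀ N' ≤ N, gam N' c ≤ gam N c) ∧
    ∀ (G' : Type) [Group G'] (f : G →* G'), (gam N c).map f = gam (N.map f) c := by
  refine ⟨?_, fun g hg => ?_, fun N' h => ?_, fun G' _ f => basic_gam_map N c G' f⟩
  · induction c with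
    | zero => exact le_rfl
    | succ c ih =>
      rw [gam, Subgroup.commutator_le]
      intro a ha b hb
      rw [commutatorElement_def]
      exact N.mul_mem (N.mul_mem (N.mul_mem (ih ha) hb) (N.inv_mem (ih ha))) (N.inv_mem hb)
  · rw [Subgroup.mem_normalizer_iff_map_conj_eq] at hg ⊢
    rw [basic_gam_map, hg]
  · induction c with
    | zero => exact h
    | succ c ih => exact Subgroup.commutator_mono ih h

section Rep

variable {F G V : Type} [Field F] [Group G] [AddCommGroup V] [Module F V]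
  {ρ : Representation F G V} {q : ℕ} {α : Fin q → F} {W : Submodule F V}

theorem basic_min (P : Finset (Fin q)) (b d : Fin q → G) (hb : Van ρ α P b W)
    (hd : ¬ Van ρ α P d W) : ∃ P' ⊆ P, MinVan ρ α P' b W ∧ ¬ Van ρ α P' d W := by
  induction P using Finset.strongInduction with
  | H P ih =>
    by_cases hm : MinVan ρ α P b W
    · exact ⟨P, Finset.Subset.refl _, hm, hd⟩
    have h1 : ∃ P' ⊆ P, P'.Nonempty ∧ P' ≠ P ∧ Van ρ α P' b W := by
      by_contra h
      exact hm ⟨hb, fun P' h1 h2 h3 h4 => h ⟨P', h1, h2, h3, h4⟩⟩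
    obtain ⟨P', h1, h2, h3, h4⟩ := h1
    by_cases h5 : Van ρ α P' d W
    · have h6 : Van ρ α (P \ P') b W := fun w hw => by
        have := Finset.sum_sdiff (f := fun l => α l • ρ (b l) w) h1
        rw [h4 w hw, hb w hw, add_zero] at this
        exact this
      have h7 : ¬ Van ρ α (P \ P') d W := fun h => hd fun w hw => by
        have := Finset.sum_sdiff (f := fun l => α l • ρ (d l) w) h1
        rw [h w hw, h5 w hw, add_zero] at this
        exact this.symm
      obtain ⟨P'', h8, h9⟩ := ih _ (Finset.sdiff_ssubset h1 h2) h6 h7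
      exact ⟨P'', h8.trans Finset.sdiff_subset, h9⟩
    · obtain ⟨P'', h8, h9⟩ := ih _ (Finset.ssubset_iff_subset_ne.2 ⟨h1, h3⟩) h4 h5
      exact ⟨P'', h8.trans h1, h9⟩

theorem basic_van_mul (P : Finset (Fin q)) (b : Fin q → G) (g : G) (h : Van ρ α P b W) :
    Van ρ α P (fun l => g * b l) W := fun w hw => by
  have h1 := congrArg (ρ g) (h w hw)
  rw [map_sum, map_zero] at h1
  rw [← h1]
  refine Finset.sum_congr rfl fun l _ => ?_
  rw [map_smul, map_mul, Module.End.mul_apply]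

theorem basic_van_iff (P : Finset (Fin q)) (b : Fin q → G) (g : G) :
    Van ρ α P (fun l => g * b l) W ↔ Van ρ α P b W := by
  refine ⟨fun h => ?_, basic_van_mul P b g⟩
  have h1 := basic_van_mul P _ g⁻¹ h
  simpa only [inv_mul_cancel_left] using h1

theorem basic_ind (ι : Type) (X : ι → Submodule F V) (P : Finset (Fin q)) (b : Fin q → G)
    (t : Fin q → ι) (hX : iSupIndep X) (hu : ∀ l ∈ P, ∀ w ∈ W, ρ (b l) w ∈ X (t l))
    (h : MinVan ρ α P b W) : ∀ l ∈ P, ∀ l' ∈ P, t l = t l' := by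
  classical
  exact basic_all (fun P' => Van ρ α P' b W) (fun i w hw =>
    basic_sub (u := fun l => α l • ρ (b l) w) hX
      (fun l hl => Submodule.smul_mem _ _ (hu l hl w hw)) (h.1 w hw) i) h.2

theorem basic_blk (P : Finset (Fin q)) (b : Fin q → G) (hB : Blk ρ W) (h : MinVan ρ α P b W) :
    Rat P b (stab ρ W) := by
  have h1 := basic_ind _ _ P b (fun l => ⟨W.map (ρ (b l)), b l, rfl⟩) hB
    (fun l _ w hw => Submodule.mem_map_of_mem hw) h
  have h2 : ∀ l ∈ P, ∀ l' ∈ P, ∀ w ∈ W, ρ ((b l)⁻¹ * b l') w ∈ W := by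
    intro l hl l' hl' w hw
    have h3 : W.map (ρ (b l')) = W.map (ρ (b l)) := congrArg Subtype.val (h1 l' hl' l hl)
    have h4 : ρ (b l') w ∈ W.map (ρ (b l)) := h3 ▸ Submodule.mem_map_of_mem hw
    obtain ⟨w', hw', e⟩ := Submodule.mem_map.1 h4
    rw [map_mul, Module.End.mul_apply, ← e, ← Module.End.mul_apply, ← map_mul, inv_mul_cancel,
      map_one]
    exact hw'
  intro l hl l' hl'
  refine ⟨h2 l hl l' hl', ?_⟩
  rw [mul_inv_rev, inv_inv]
  exact h2 l' hl' l hl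

theorem basic_res (P : Finset (Fin q)) (b : Fin q → G) (r : Fin q → stab ρ W) (g : G)
    (h : ∀ l ∈ P, (r l).1 = g⁻¹ * b l) :
    Van ρ α P b W ↔ ∑ l ∈ P, α l • (resU ρ W (r l) : End F W) = 0 := by
  rw [← basic_van_iff P b g⁻¹]
  have key : ∀ w : W, (((∑ l ∈ P, α l • (resU ρ W (r l) : End F W)) w : W) : V) =
      ∑ l ∈ P, α l • ρ (g⁻¹ * b l) w := fun w => by
    rw [LinearMap.sum_apply, Submodule.coe_sum]
    refine Finset.sum_congr rfl fun l hl => ?_
    rw [LinearMap.smul_apply, Submodule.coe_smul, resU_apply, h l hl]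
  constructor
  · intro h1
    ext w
    rw [key]
    exact h1 w w.2
  · intro h1 w hw
    have h2 := key ⟨w, hw⟩
    rw [h1] at h2
    exact h2.symm

end Rep

theorem basic : StmtBasic := by
  refine ⟨fun G _ q d => ⟨basic_mono, basic_union, basic_or, basic_rat, basic_pat⟩, ?_,
    fun G _ N c => basic_gam N c, fun F G V _ _ _ _ ρ q α W => ⟨basic_min, fun P b g =>
      ⟨basic_van_iff P b g, ?_⟩, basic_ind, basic_blk, fun P b r g h => ⟨basic_res P b r g h, ?_⟩⟩⟩
  · intro F A ι _ _ _ q X P u t hX hu h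
    classical
    exact basic_all (fun P' => ∑ l ∈ P', u l = 0) (basic_sub hX hu h.1) h.2
  · simp only [MinVan, basic_van_iff]
  · refine and_congr (basic_res P b r g h) (forall_congr' fun P' => forall_congr' fun h1 => ?_)
    rw [basic_res P' b r g fun l hl => h l (h1 hl)]

end Pool.Agent.Work.MP_11a08a_al.Sol
end

-- merged part: Pool.Agent.Work.MP_11a08a_al.Sol.RB
section
/-!
For `y ∈ Y` group the indices by the translate `y.map (ρ (h l))`; some class `P y` has `¬ Van`, its quotients lie in `stab ρ y`,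
call its target `t y`.  A digraph on `Y` with out-degree `≤ q` (`y → y'` if `y' ≠ y` and `t y = y'.map (ρ (h l))` for some `l`) has a subset
`Y'` without edges with `card Y ≤ (2 q + 1) card Y'` (induction: some vertex has in-degree `≤ q`).  Let `D` be the full sum, `D y` the
sum over `P y` restricted to `y`.  Show `∑ y ∈ Y', rk (D y) ≤ rk D`: with `V₀` the join of all translates and linear maps
`pr x : V → V` that are the identity on the translate `x` and vanish on the other translates (from `Blk`; extend a projection),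
`pr (t y) (D w) = D y w` for `w ∈ y` and `0` for `w ∈ y' ≠ y` in `Y'`; so `u ↦ (pr (t y) u)_y` maps `D (⨆ y ∈ Y', y)` onto the product of the
ranges of the `D y` (or build a linearly independent family).
-/

set_option autoImplicit false

open Finset Module
open scoped commutatorElement

namespace Pool.Agent.Work.MP_11a08a_al.Sol

theorem rb_free {α : Type} [DecidableEq α] {q : ℕ} (n : α → Fin q → α) (Y : Finset α) :
    ∃ Y' ⊆ Y, (∀ y ∈ Y', ∀ l, n y l ∈ Y' → n y l = y) ∧ Y.card ≤ (2 * q + 1) * Y'.card := by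
  induction Y using Finset.strongInduction with
  | H Y ih =>
    rcases Y.eq_empty_or_nonempty with rfl | hY
    · exact ⟨∅, subset_rfl, by simp, by simp⟩
    obtain ⟨v, hv, hd⟩ : ∃ v ∈ Y, (Y.filter fun y => v ∈ univ.image (n y)).card ≤ q := by
      refine exists_le_of_sum_le hY ?_
      refine (sum_card_bipartiteAbove_eq_sum_card_bipartiteBelow
        (s := Y) (t := Y) fun v y => v ∈ univ.image (n y)).le.trans (sum_le_sum fun y _ => ?_)
      refine (card_le_card (t := univ.image (n y)) fun v hv => (mem_filter.1 hv).2).trans ?_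
      simpa using card_image_le (s := univ) (f := n y)
    obtain ⟨R, hR⟩ : ∃ R, R = insert v ((Y.filter fun y => v ∈ univ.image (n y)) ∪
      univ.image (n v)) := ⟨_, rfl⟩
    have hvR : v ∈ R := hR ▸ mem_insert_self _ _
    have hc : R.card ≤ 2 * q + 1 := by
      have h1 := card_union_le (Y.filter fun y => v ∈ univ.image (n y)) (univ.image (n v))
      have h2 : (univ.image (n v)).card ≤ q := by simpa using card_image_le (s := univ) (f := n v)
      have h3 := card_insert_le v ((Y.filter fun y => v ∈ univ.image (n y)) ∪ univ.image (n v))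
      rw [← hR] at h3
      omega
    obtain ⟨Z, z1, z2, z3⟩ := ih (Y \ R)
      ⟨sdiff_subset, fun h => (mem_sdiff.1 (h hv)).2 hvR⟩
    have hvZ : v ∉ Z := fun h => (mem_sdiff.1 (z1 h)).2 hvR
    refine ⟨insert v Z, insert_subset hv (z1.trans sdiff_subset), fun y hy l hl => ?_, ?_⟩
    · rcases mem_insert.1 hy with rfl | hy
      · refine (mem_insert.1 hl).resolve_right fun h => (mem_sdiff.1 (z1 h)).2 ?_
        rw [hR]
        exact mem_insert_of_mem (mem_union_right _ (mem_image_of_mem _ (mem_univ l)))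
      · rcases mem_insert.1 hl with h | h
        · refine absurd ?_ (mem_sdiff.1 (z1 hy)).2
          rw [hR]
          exact mem_insert_of_mem (mem_union_left _ (mem_filter.2 ⟨(mem_sdiff.1 (z1 hy)).1,
            h ▸ mem_image_of_mem _ (mem_univ l)⟩))
        · exact z2 y hy l h
    · have := le_card_sdiff R Y
      rw [card_insert_of_notMem hvZ, mul_add]
      omega

theorem rb_proj {F V ι : Type} [Field F] [AddCommGroup V] [Module F V] {X : ι → Submodule F V}
    (h : iSupIndep X) (i : ι) : ∃ pr : V →ₗ[F] V, (∀ w ∈ X i, pr w = w) ∧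
      ∀ j, j ≠ i → ∀ w ∈ X j, pr w = 0 := by
  obtain ⟨a, ha, hc⟩ := (h i).symm.exists_isCompl
  exact ⟨(X i).projection a hc.symm, fun w hw => Submodule.projection_apply_of_mem_left _ hw,
    fun j hj w hw => (Submodule.projection_apply_eq_zero_iff _).2
      (ha (Submodule.mem_iSup_of_mem j (Submodule.mem_iSup_of_mem hj hw)))⟩

theorem rb_rank {F V ι : Type} [Field F] [AddCommGroup V] [Module F V] [FiniteDimensional F V]
    [Fintype ι] (D : V →ₗ[F] V) (y : ι → Submodule F V) (E : ∀ i, y i →ₗ[F] V)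
    (pr : ι → V →ₗ[F] V) (h1 : ∀ i (w : y i), pr i (D w) = E i w)
    (h2 : ∀ i j, j ≠ i → ∀ w ∈ y j, pr i (D w) = 0) : ∑ i, rk (E i) ≤ rk D := by
  classical
  obtain ⟨Ψ, hΨ⟩ : ∃ Ψ : (∀ i, LinearMap.range (E i)) →ₗ[F] ι → V, ∀ u i, Ψ u i = u i :=
    ⟨LinearMap.pi fun i => (LinearMap.range (E i)).subtype ∘ₗ LinearMap.proj i, fun _ _ => rfl⟩
  have a1 : Function.Injective Ψ := fun u u' h => funext fun i =>
    Subtype.ext (by rw [← hΨ, h, hΨ])
  have a2 : LinearMap.range Ψ ≤ (LinearMap.range D).map (LinearMap.pi pr) := by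
    rintro _ ⟨u, rfl⟩
    choose w hw using fun i => (u i).2
    refine ⟨_, ⟨∑ i, (w i : V), rfl⟩, funext fun i => ?_⟩
    rw [LinearMap.pi_apply, map_sum, map_sum, sum_eq_single i (fun j _ hj => h2 i j hj _ (w j).2)
      (by simp), h1, hw, hΨ]
  have a3 := (Submodule.finrank_mono a2).trans (Submodule.finrank_map_le _ _)
  rwa [LinearMap.finrank_range_of_inj a1, finrank_pi_fintype] at a3

theorem rb : StmtRB := by
  intro F G V _ _ _ _ _ ρ q K r α h W Y hB hY
  classical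
  have inv : ∀ (g : G) (w : V), ρ g⁻¹ (ρ g w) = w := fun g w => by
    rw [← End.mul_apply, ← map_mul, inv_mul_cancel, map_one, End.one_apply]
  have a1 : ∀ y ∈ Y, ∃ x : Submodule F V, (∃ g, x = W.map (ρ g)) ∧
      ¬ Van ρ α (univ.filter fun l => y.map (ρ (h l)) = x) h y := by
    intro y hy
    obtain ⟨⟨g, hg⟩, h2, -⟩ := hY y hy
    by_contra hc
    push Not at hc
    refine h2 fun w hw => ?_
    rw [← sum_fiberwise_of_maps_to (t := univ.image fun l => y.map (ρ (h l)))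
      (g := fun l => y.map (ρ (h l))) fun l hl => mem_image_of_mem _ hl]
    refine sum_eq_zero fun x hx => hc x ?_ w hw
    obtain ⟨l, -, rfl⟩ := mem_image.1 hx
    exact ⟨h l * g, by rw [hg, ← Submodule.map_comp, map_mul, End.mul_eq_comp]⟩
  choose! t t1 t2 using a1
  have a2 : ∀ y ∈ Y, r ≤ K * rk ((∑ l ∈ univ.filter fun l => y.map (ρ (h l)) = t y,
      α l • ρ (h l)).domRestrict y) := by
    intro y hy
    have k : ∀ l l', y.map (ρ (h l)) = y.map (ρ (h l')) → ∀ w ∈ y, ρ ((h l)⁻¹ * h l') w ∈ y := by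
      intro l l' e w hw
      obtain ⟨w', h1, h2⟩ : ρ (h l') w ∈ y.map (ρ (h l)) := e ▸ Submodule.mem_map_of_mem hw
      rwa [map_mul, End.mul_apply, ← h2, inv]
    refine (hY y hy).2.2 _ (fun l hl l' hl' => ?_) (t2 y hy)
    have e := (mem_filter.1 hl).2.trans (mem_filter.1 hl').2.symm
    refine ⟨k l l' e, ?_⟩
    rw [mul_inv_rev, inv_inv]
    exact k l' l e.symm
  obtain ⟨Z, z1, z2, z3⟩ := rb_free (fun y l => (t y).map (ρ (h l)⁻¹)) Y
  choose pr p1 p2 using fun y : Z => rb_proj hB ⟨t y, t1 y (z1 y.2)⟩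
  have a3 : ∀ (i : Z), ∀ y ∈ Y, ∀ w ∈ y, pr i ((∑ l, α l • ρ (h l)) w) =
      (∑ l ∈ univ.filter fun l => y.map (ρ (h l)) = t i, α l • ρ (h l)) w := by
    intro i y hy w hw
    obtain ⟨g, hg⟩ := (hY y hy).1
    rw [LinearMap.sum_apply, LinearMap.sum_apply, map_sum, sum_filter]
    refine sum_congr rfl fun l _ => ?_
    rw [LinearMap.smul_apply, map_smul]
    split_ifs with e
    · rw [p1 i _ (show ρ (h l) w ∈ t i from e ▸ Submodule.mem_map_of_mem hw)]
    · rw [p2 i ⟨y.map (ρ (h l)), h l * g, by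
        rw [hg, ← Submodule.map_comp, map_mul, End.mul_eq_comp]⟩
        (fun e' => e (congrArg Subtype.val e')) _ (Submodule.mem_map_of_mem hw), smul_zero]
  have a4 := rb_rank (∑ l, α l • ρ (h l)) (fun y : Z => y.1)
    (fun y => (∑ l ∈ univ.filter fun l => y.1.map (ρ (h l)) = t y, α l • ρ (h l)).domRestrict y.1)
    pr (fun i w => a3 i i (z1 i.2) w w.2) fun i j hj w hw => by
      rw [a3 i j (z1 j.2) w hw, filter_false_of_mem, sum_empty, LinearMap.zero_apply]
      intro l _ e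
      have e' : (t i).map (ρ (h l)⁻¹) = j := by
        rw [← e, ← Submodule.map_comp, ← End.mul_eq_comp, ← map_mul, inv_mul_cancel, map_one,
          End.one_eq_id, Submodule.map_id]
      exact hj (Subtype.ext (e' ▸ z2 i i.2 l (e' ▸ j.2)))
  have a5 : Z.card * r ≤ K * rk (∑ l, α l • ρ (h l)) := by
    refine le_trans ?_ (Nat.mul_le_mul_left K a4)
    rw [mul_sum, ← Fintype.card_coe, ← smul_eq_mul]
    exact card_nsmul_le_sum _ _ _ fun y _ => a2 y (z1 y.2)
  calc Y.card * r ≤ (2 * q + 1) * Z.card * r := Nat.mul_le_mul_right _ z3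
    _ ≤ _ := by
      rw [mul_assoc, mul_assoc]
      exact Nat.mul_le_mul_left _ a5

end Pool.Agent.Work.MP_11a08a_al.Sol
end
end
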