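import Mathlib
import Pool.Agent.Work.MP_11a08a_al.Local
import Pool.Agent.Work.MP_11a08a_al.Sol.RB

-- merged part: Pool.Agent.Work.MP_11a08a_al.Branch
section
/-!
A branching argument along chains of subgroups.
-/

set_option autoImplicit false

open Finset ArithmeticFunction

namespace Pool.Agent.Work.MP_11a08a_al

theorem cardFactors_index_lt {Γ : Type*} [Group Γ] [Finite Γ] {L L' : Subgroup Γ} (h : L ≤ L')
    (hne : ¬ L' ≤ L) : cardFactors L'.index < cardFactors L.index := by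
  have h1 := Subgroup.relIndex_mul_index h
  have h2 : L.index ≠ 0 := Subgroup.index_ne_zero_of_finite
  have h3 : L'.index ≠ 0 := Subgroup.index_ne_zero_of_finite
  have h4 : L.relIndex L' ≠ 0 := by
    intro h0
    rw [h0, zero_mul] at h1
    exact h2 h1.symm
  have h5 : L.relIndex L' ≠ 1 := fun h1 => hne (Subgroup.relIndex_eq_one.mp h1)
  rw [← h1, cardFactors_mul h4 h3]
  have : 0 < cardFactors (L.relIndex L') := cardFactors_pos_iff_one_lt.mpr (by omega)
  omega

open Classical in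
theorem branch {Γ ξ : Type*} [Group Γ] [Finite Γ] (X : Finset ξ) (K : ξ → Subgroup Γ) (y C : ℕ)
    (h : ∀ x0 ∈ X, ∃ (T : Finset Γ) (Y : Finset ξ), T.card ≤ C ∧ Y.card ≤ y ∧
      (∀ t ∈ T, t ∉ K x0) ∧ ∀ x ∈ X, x ∉ Y → ∃ t ∈ T, t ∈ K x) :
    ∀ (j : ℕ) (L : Subgroup Γ), cardFactors L.index ≤ j →
      (X.filter (fun x => L ≤ K x)).card ≤ y * (C + 1) ^ j := by
  have step : ∀ (L : Subgroup Γ) (B : ℕ),
      (∀ L' : Subgroup Γ, cardFactors L'.index < cardFactors L.index →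
        (X.filter (fun x => L' ≤ K x)).card ≤ B) →
      (X.filter (fun x => L ≤ K x)).card ≤ y + C * B := by
    intro L B hB
    rcases (X.filter (fun x => L ≤ K x)).eq_empty_or_nonempty with he | ⟨x0, hx0⟩
    · rw [he]; simp
    rw [mem_filter] at hx0
    obtain ⟨T, Y, hT, hY, h1, h2⟩ := h x0 hx0.1
    have hsub : X.filter (fun x => L ≤ K x) ⊆
        Y ∪ T.biUnion (fun t => X.filter (fun x => L ⊔ Subgroup.zpowers t ≤ K x)) := by
      intro x hx
      rw [mem_filter] at hx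
      rw [mem_union]
      by_cases hxY : x ∈ Y
      · exact Or.inl hxY
      · right
        obtain ⟨t, ht, htx⟩ := h2 x hx.1 hxY
        rw [mem_biUnion]
        refine ⟨t, ht, mem_filter.mpr ⟨hx.1, sup_le hx.2 ?_⟩⟩
        exact (Subgroup.zpowers_le_of_mem htx)
    refine (card_le_card hsub).trans ((card_union_le _ _).trans (add_le_add hY ?_))
    refine (card_biUnion_le_card_mul _ _ B fun t ht => hB _ ?_).trans (Nat.mul_le_mul_right _ hT)
    refine cardFactors_index_lt le_sup_left fun hle => h1 t ht (hx0.2 (hle ?_))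
    exact (le_sup_right : Subgroup.zpowers t ≤ _) (Subgroup.mem_zpowers t)
  intro j
  induction j with
  | zero =>
    intro L hL
    simpa using step L 0 fun L' hL' => by omega
  | succ j ih =>
    intro L hL
    refine (step L (y * (C + 1) ^ j) fun L' hL' => ih L' (by omega)).trans ?_
    have : 1 ≤ (C + 1) ^ j := Nat.one_le_pow _ _ (by omega)
    calc y + C * (y * (C + 1) ^ j) ≤ y * (C + 1) ^ j + C * (y * (C + 1) ^ j) :=
          add_le_add (Nat.le_mul_of_pos_right _ this) le_rfl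
      _ = y * (C + 1) ^ (j + 1) := by ring

theorem branch_card {Γ ξ : Type*} [Group Γ] [Finite Γ] (X : Finset ξ) (K : ξ → Subgroup Γ)
    (y C : ℕ)
    (h : ∀ x0 ∈ X, ∃ (T : Finset Γ) (Y : Finset ξ), T.card ≤ C ∧ Y.card ≤ y ∧
      (∀ t ∈ T, t ∉ K x0) ∧ ∀ x ∈ X, x ∉ Y → ∃ t ∈ T, t ∈ K x) :
    X.card ≤ y * (C + 1) ^ cardFactors (Nat.card Γ) := by
  classical
  have := branch X K y C h (cardFactors (Nat.card Γ)) ⊥ (by rw [Subgroup.index_bot])
  simpa using this

end Pool.Agent.Work.MP_11a08a_al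
end

-- merged part: Pool.Agent.Work.MP_11a08a_al.Main
section
/-!
The rank bound for unitary representations.
-/

set_option autoImplicit false

open Finset Module ArithmeticFunction
open scoped InnerProductSpace

namespace Pool.Agent.Work.MP_11a08a_al

variable {G E : Type} [Group G] [NormedAddCommGroup E] [InnerProductSpace ℂ E]
  [FiniteDimensional ℂ E]

theorem rank_lemma {ι : Type*} [Fintype ι] (e f : ι → E) (he : Orthonormal ℂ e)
    (R : Submodule ℂ E) (hf : ∀ i, f i ∈ R) (c : ℝ) (hc : ∀ i, ‖f i‖ ≤ c) :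
    ‖∑ i, ⟪e i, f i⟫_ℂ‖ ^ 2 ≤ finrank ℂ R * (Fintype.card ι * c ^ 2) := by
  set r := stdOrthonormalBasis ℂ R with hr
  have hro : Orthonormal ℂ (fun k => (r k : E)) := by
    have := r.orthonormal
    rw [orthonormal_iff_ite] at this ⊢
    intro i j
    rw [← Submodule.coe_inner]
    exact this i j
  have e1 : ∀ i, ⟪e i, f i⟫_ℂ = ∑ k, ⟪(r k : E), f i⟫_ℂ * ⟪e i, (r k : E)⟫_ℂ := by
    intro i
    have := congrArg (fun v : R => (v : E)) (r.sum_repr' ⟨f i, hf i⟩)
    simp only [Submodule.coe_sum, Submodule.coe_smul, Submodule.coe_inner] at this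
    conv_lhs => rw [← this]
    rw [inner_sum]
    simp_rw [inner_smul_right]
  have e2 : ‖∑ i, ⟪e i, f i⟫_ℂ‖ ≤ ∑ p : ι × Fin (finrank ℂ R),
      ‖⟪(r p.2 : E), f p.1⟫_ℂ‖ * ‖⟪e p.1, (r p.2 : E)⟫_ℂ‖ := by
    simp_rw [e1, Fintype.sum_prod_type, ← norm_mul]
    exact (norm_sum_le _ _).trans (sum_le_sum fun i _ => norm_sum_le _ _)
  have e3 : ∑ p : ι × Fin (finrank ℂ R), ‖⟪(r p.2 : E), f p.1⟫_ℂ‖ ^ 2 ≤
      Fintype.card ι * c ^ 2 := by
    rw [Fintype.sum_prod_type, ← card_univ, ← nsmul_eq_mul, ← sum_const]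
    refine sum_le_sum fun i _ => (hro.sum_inner_products_le (f i)).trans ?_
    exact pow_le_pow_left₀ (norm_nonneg _) (hc i) 2
  have e4 : ∑ p : ι × Fin (finrank ℂ R), ‖⟪e p.1, (r p.2 : E)⟫_ℂ‖ ^ 2 ≤ finrank ℂ R := by
    rw [Fintype.sum_prod_type_right]
    calc ∑ k : Fin (finrank ℂ R), ∑ i, ‖⟪e i, (r k : E)⟫_ℂ‖ ^ 2
        ≤ ∑ _k : Fin (finrank ℂ R), (1 : ℝ) := by
          refine sum_le_sum fun k _ => (he.sum_inner_products_le (r k : E)).trans ?_
          rw [hro.1 k, one_pow]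
      _ = finrank ℂ R := by simp
  calc ‖∑ i, ⟪e i, f i⟫_ℂ‖ ^ 2 ≤ (∑ p : ι × Fin (finrank ℂ R),
        ‖⟪(r p.2 : E), f p.1⟫_ℂ‖ * ‖⟪e p.1, (r p.2 : E)⟫_ℂ‖) ^ 2 :=
        pow_le_pow_left₀ (norm_nonneg _) e2 2
    _ ≤ _ := sum_mul_sq_le_sq_mul_sq _ _ _
    _ ≤ (Fintype.card ι * c ^ 2) * finrank ℂ R :=
        mul_le_mul e3 e4 (by positivity) (by positivity)
    _ = _ := mul_comm _ _

theorem finrank_sup_le {ξ : Type*} (s : Finset ξ) (V : ξ → Submodule ℂ E) :
    finrank ℂ (s.sup V : Submodule ℂ E) ≤ ∑ x ∈ s, finrank ℂ (V x) := by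
  classical
  induction s using Finset.induction_on with
  | empty => simp
  | insert a s ha ih =>
    rw [sup_insert, sum_insert ha]
    exact (Submodule.finrank_add_le_finrank_add_finrank _ _).trans (add_le_add le_rfl ih)

/-- The combination as a linear map. -/
noncomputable def comb {q : ℕ} (ρ : Representation ℂ G E) (α : Fin q → ℂ) (h : Fin q → G) :
    E →ₗ[ℂ] E := ∑ i, α i • ρ (h i)

omit [FiniteDimensional ℂ E] in
theorem comb_apply {q : ℕ} (ρ : Representation ℂ G E) (α : Fin q → ℂ) (h : Fin q → G) (w : E) :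
    comb ρ α h w = ∑ i, α i • ρ (h i) w := by
  simp [comb, LinearMap.sum_apply]

theorem rank_of_blocks {q : ℕ} (hq : 0 < q) {ρ : Representation ℂ G E} (hρ : IsUni ρ) {P : ℕ}
    (hP : 4 * q ^ 2 ≤ P) (α : Fin q → ℂ) (h : Fin q → G) (Y : Finset (Submodule ℂ E)) (d : ℕ)
    (hYd : ∀ x ∈ Y, finrank ℂ x = d)
    (hY0 : ∀ x ∈ Y, ∃ w ∈ x, ∑ i, α i • ρ (h i) w ≠ 0)
    (hd : ∀ x ∈ Y, ∀ t, (∃ ζ, Sc ρ x t ζ) ∨ ‖tau ρ x t‖ ^ 2 * P ≤ (finrank ℂ x : ℝ) ^ 2)
    (horth : ∀ x ∈ Y, ∀ x' ∈ Y, x ≠ x' → ∀ v ∈ x, ∀ w ∈ x', ⟪v, w⟫_ℂ = 0)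
    (R : Submodule ℂ E) (hR : ∀ x ∈ Y, ∀ w ∈ x, ∑ i, α i • ρ (h i) w ∈ R) :
    Y.card * d ≤ 4 * q ^ 3 * finrank ℂ R := by
  classical
  have hex : ∀ x : Submodule ℂ E, ∃ l : Fin q, x ∈ Y →
      (∀ w ∈ x, ‖∑ i, α i • ρ (h i) w‖ ≤ q * ‖beta ρ x α h l‖ * ‖w‖) ∧
      ‖∑ k, ⟪ρ (h l) (stdOrthonormalBasis ℂ x k : E),
          ∑ i, α i • ρ (h i) (stdOrthonormalBasis ℂ x k : E)⟫_ℂ -
          beta ρ x α h l * finrank ℂ x‖ ≤ ‖beta ρ x α h l‖ * finrank ℂ x / 2 := by
    intro x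
    by_cases hx : x ∈ Y
    · have hne : x ≠ ⊥ := by
        rintro rfl
        obtain ⟨w, hw, h0⟩ := hY0 _ hx
        rw [Submodule.mem_bot] at hw
        simp [hw] at h0
      obtain ⟨l, h1, h2, -⟩ := local_est hq hρ hne hP (hd x hx) α h
      exact ⟨l, fun _ => ⟨h1, h2⟩⟩
    · exact ⟨⟨0, hq⟩, fun h => absurd h hx⟩
  choose lf hlf using hex
  have hβ : ∀ x ∈ Y, beta ρ x α h (lf x) ≠ 0 := by
    intro x hx h0
    obtain ⟨w, hw, hne⟩ := hY0 x hx
    have := (hlf x hx).1 w hw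
    rw [h0, norm_zero, mul_zero, zero_mul] at this
    exact hne (norm_le_zero_iff.mp this)
  have key : ∀ l, (Y.filter (fun x => lf x = l)).card * d ≤ 4 * q ^ 2 * finrank ℂ R := by
    intro l
    set Z := Y.filter (fun x => lf x = l) with hZ
    have hZY : ∀ x : Z, x.1 ∈ Y := fun x => (mem_filter.mp x.2).1
    have hZl : ∀ x : Z, lf x.1 = l := fun x => (mem_filter.mp x.2).2
    let ι := (x : Z) × Fin (finrank ℂ x.1)
    let e : ι → E := fun p => ρ (h l) (stdOrthonormalBasis ℂ p.1.1 p.2 : E)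
    let f : ι → E := fun p => (beta ρ p.1.1 α h l)⁻¹ •
      ∑ i, α i • ρ (h i) (stdOrthonormalBasis ℂ p.1.1 p.2 : E)
    have he : Orthonormal ℂ e := by
      refine ⟨fun p => ?_, ?_⟩
      · simp only [e]
        rw [hρ.norm, ← Submodule.coe_norm, (stdOrthonormalBasis ℂ p.1.1).orthonormal.1]
      · rintro ⟨x, k⟩ ⟨x', k'⟩ hne
        simp only [e]
        rw [hρ]
        by_cases hxx : x = x'
        · subst hxx
          rw [← Submodule.coe_inner]
          exact (stdOrthonormalBasis ℂ x.1).orthonormal.2 fun hk => hne (by rw [hk])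
        · exact horth _ (hZY x) _ (hZY x') (fun hh => hxx (Subtype.ext hh)) _
            (Submodule.coe_mem _) _ (Submodule.coe_mem _)
    have hf : ∀ p, f p ∈ R := fun p => R.smul_mem _ (hR _ (hZY p.1) _ (Submodule.coe_mem _))
    have hfn : ∀ p, ‖f p‖ ≤ q := by
      intro p
      have h1 := (hlf _ (hZY p.1)).1 _ (Submodule.coe_mem (stdOrthonormalBasis ℂ p.1.1 p.2))
      have h2 := hβ _ (hZY p.1)
      rw [hZl p.1] at h1 h2
      rw [← Submodule.coe_norm, (stdOrthonormalBasis ℂ p.1.1).orthonormal.1, mul_one] at h1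
      simp only [f]
      rw [norm_smul, norm_inv, inv_mul_le_iff₀ (norm_pos_iff.mpr h2), mul_comm]
      exact h1
    have hcard : Fintype.card ι = Z.card * d := by
      simp only [ι]
      rw [Fintype.card_sigma]
      simp only [Fintype.card_fin]
      rw [sum_congr rfl fun (x : Z) _ => hYd _ (hZY x)]
      simp
    have h1 := rank_lemma e f he R hf q hfn
    have h2 : ‖∑ p, ⟪e p, f p⟫_ℂ - (Z.card * d : ℕ)‖ ≤ (Z.card * d : ℕ) / 2 := by
      have : ∑ p, ⟪e p, f p⟫_ℂ - (Z.card * d : ℕ) =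
          ∑ x : Z, (∑ k, ⟪e ⟨x, k⟩, f ⟨x, k⟩⟫_ℂ - d) := by
        rw [sum_sub_distrib, Fintype.sum_sigma]
        simp
      rw [this]
      refine (norm_sum_le _ _).trans ?_
      have hb : ∀ x : Z, ‖∑ k, ⟪e ⟨x, k⟩, f ⟨x, k⟩⟫_ℂ - d‖ ≤ d / 2 := by
        intro x
        have h3 := (hlf _ (hZY x)).2
        have h4 := hβ _ (hZY x)
        rw [hZl x] at h3 h4
        have h5 : ∑ k, ⟪e ⟨x, k⟩, f ⟨x, k⟩⟫_ℂ - d = (beta ρ x.1 α h l)⁻¹ *
            (∑ k, ⟪ρ (h l) (stdOrthonormalBasis ℂ x.1 k : E),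
              ∑ i, α i • ρ (h i) (stdOrthonormalBasis ℂ x.1 k : E)⟫_ℂ -
              beta ρ x.1 α h l * finrank ℂ x.1) := by
          simp only [e, f, inner_smul_right]
          rw [mul_sub, mul_sum, inv_mul_cancel_left₀ h4, ← hYd _ (hZY x)]
        rw [h5, norm_mul, norm_inv, inv_mul_le_iff₀ (norm_pos_iff.mpr h4), ← hYd _ (hZY x),
          ← mul_div_assoc]
        exact h3
      refine (sum_le_sum fun x _ => hb x).trans (le_of_eq ?_)
      simp [mul_div_assoc]
    rw [hcard] at h1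
    set n : ℕ := Z.card * d with hn
    have h3 : (n : ℝ) / 2 ≤ ‖∑ p, ⟪e p, f p⟫_ℂ‖ := by
      have := norm_sub_norm_le (n : ℂ) (∑ p, ⟪e p, f p⟫_ℂ)
      rw [norm_sub_rev, Complex.norm_natCast] at this
      linarith
    rcases Nat.eq_zero_or_pos n with h0 | hpos
    · rw [h0]; exact Nat.zero_le _
    have hpos' : (0 : ℝ) < n := by exact_mod_cast hpos
    have h4 : ((n : ℝ) / 2) ^ 2 ≤ finrank ℂ R * (n * (q : ℝ) ^ 2) :=
      (pow_le_pow_left₀ (by positivity) h3 2).trans h1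
    have h5 : (n : ℝ) * n ≤ n * (4 * q ^ 2 * finrank ℂ R) := by nlinarith
    exact_mod_cast le_of_mul_le_mul_left h5 hpos'
  calc Y.card * d = ∑ l : Fin q, (Y.filter (fun x => lf x = l)).card * d := by
        rw [← sum_mul, ← card_eq_sum_card_fiberwise (f := lf) fun x _ => mem_univ _]
    _ ≤ ∑ _l : Fin q, 4 * q ^ 2 * finrank ℂ R := sum_le_sum fun l _ => key l
    _ = 4 * q ^ 3 * finrank ℂ R := by
        rw [sum_const, card_univ, Fintype.card_fin, smul_eq_mul]; ring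

/-- The elements of `G × μ` acting trivially on a block. -/
def fixK (ρ : Representation ℂ G E) (m : ℕ) (x : Submodule ℂ E) :
    Subgroup (G × rootsOfUnity m ℂ) where
  carrier := {p | Sc ρ x p.1 ((p.2 : ℂˣ) : ℂ)}
  mul_mem' := fun ha hb => by simpa using Sc.mul ha hb
  one_mem' := by simpa using Sc.one ρ x
  inv_mem' := fun ha => by simpa using Sc.inv ha

theorem card_orbit_le [Fintype G] [DecidableEq (Submodule ℂ E)] {q : ℕ} (hq : 0 < q)
    {ρ : Representation ℂ G E} (hρ : IsUni ρ) {P : ℕ}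
    (hP : 4 * q ^ 2 ≤ P) (hG : Cls G P) (α : Fin q → ℂ) (h : Fin q → G) {W : Submodule ℂ E}
    (hW : MinGood ρ W) (Y : Finset (Submodule ℂ E))
    (hY : ∀ g, (∃ w ∈ W.map (ρ g), ∑ i, α i • ρ (h i) w ≠ 0) → W.map (ρ g) ∈ Y)
    (h0 : ∃ g, ∃ w ∈ W.map (ρ g), ∑ i, α i • ρ (h i) w ≠ 0) :
    (univ.image fun g => W.map (ρ g)).card ≤
      Y.card * (q * (q * ratioBound q) + 1) ^ (2 * cardFactors (Nat.card G)) := by
  classical
  have hm : 0 < Nat.card G := Nat.card_pos
  have : NeZero (Nat.card G) := ⟨hm.ne'⟩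
  obtain ⟨R, hRc, hR⟩ := vanish q (Nat.card G) hm α
  have hcard : cardFactors (Nat.card (G × rootsOfUnity (Nat.card G) ℂ)) =
      2 * cardFactors (Nat.card G) := by
    rw [Nat.card_prod, Complex.card_rootsOfUnity, cardFactors_mul hm.ne' hm.ne', two_mul]
  rw [← hcard]
  refine branch_card _ (fixK ρ (Nat.card G)) _ _ ?_
  intro x0 hx0
  obtain ⟨g0, -, rfl⟩ := mem_image.mp hx0
  obtain ⟨g1, w1, hw1, hne⟩ := h0
  set t := g0 * g1⁻¹ with ht
  set h' : Fin q → G := fun i => h i * t⁻¹ with hh'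
  have hD : ∀ w, ∑ i, α i • ρ (h' i) w = ∑ i, α i • ρ (h i) (ρ t⁻¹ w) := by
    intro w
    simp only [hh', rep_apply_apply]
  let F : Fin q × Fin q × ℂ → G × rootsOfUnity (Nat.card G) ℂ := fun p =>
    ((h' p.2.1)⁻¹ * h' p.1,
      if hz : p.2.2 ^ Nat.card G = 1 then rootsOfUnity.mkOfPowEq p.2.2 hz else 1)
  refine ⟨((univ ×ˢ univ ×ˢ R).image F).filter (fun p => p ∉ fixK ρ _ (W.map (ρ g0))),
    Y.image (Submodule.map (ρ t)), ?_, card_image_le, fun p hp => (mem_filter.mp hp).2, ?_⟩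
  · refine (card_filter_le _ _).trans (card_image_le.trans ?_)
    rw [card_product, card_product, card_univ, Fintype.card_fin]
    gcongr
  intro x hx hxY
  obtain ⟨g, -, rfl⟩ := mem_image.mp hx
  have hkill : ∀ w ∈ W.map (ρ g), ∑ i, α i • ρ (h' i) w = 0 := by
    intro w hw
    by_contra hc
    apply hxY
    refine mem_image.mpr ⟨W.map (ρ (t⁻¹ * g)), hY _ ⟨ρ t⁻¹ w, ?_, ?_⟩, ?_⟩
    · rw [← map_map_rep]
      exact ⟨w, hw, rfl⟩
    · rwa [hD] at hc
    · rw [map_map_rep, mul_inv_cancel_left]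
  have hmin := hW.map hρ g
  obtain ⟨i, j, ζ, hζ, h1, h2⟩ := exists_test ρ α R hR h' (x0 := W.map (ρ g0)) hmin.1.1
    (beta_eq_zero hq hρ hmin.1.1 hP (hmin.dichotomy hρ hG) α h' hkill)
    ⟨ρ t w1, by
      have : W.map (ρ g0) = (W.map (ρ g1)).map (ρ t) := by
        rw [map_map_rep, ht, inv_mul_cancel_right]
      rw [this]
      exact ⟨w1, hw1, rfl⟩, by
      rw [hD, rep_apply_apply, inv_mul_cancel, map_one]
      exact hne⟩
  have hz : ζ ^ Nat.card G = 1 := h1.pow_card hmin.1.1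
  have hF : ∀ x, F (i, j, ζ) ∈ fixK ρ _ x ↔ Sc ρ x ((h' j)⁻¹ * h' i) ζ := by
    intro x
    simp only [F, dif_pos hz]
    rfl
  refine ⟨F (i, j, ζ), mem_filter.mpr ⟨mem_image_of_mem _ (by simp [hζ]), ?_⟩, ?_⟩
  · rw [hF]; exact h2
  · rw [hF]; exact h1

theorem unitary_bound [Fintype G] {q : ℕ} (hq : 0 < q)
    {ρ : Representation ℂ G E} (hρ : IsUni ρ) {P : ℕ}
    (hP : 4 * q ^ 2 ≤ P) (hG : Cls G P) (α : Fin q → ℂ) (h : Fin q → G) (n : ℕ) :
    ∀ U : Submodule ℂ E, finrank ℂ U = n → (∀ g, ∀ v ∈ U, ρ g v ∈ U) →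
      (∀ v ∈ U, v ≠ 0 → ∃ g, comb ρ α h (ρ g v) ≠ 0) →
      n ≤ (q * (q * ratioBound q) + 1) ^ (2 * cardFactors (Nat.card G)) * (4 * q ^ 3) *
        finrank ℂ (U.map (comb ρ α h)) := by
  classical
  induction n using Nat.strong_induction_on with
  | _ n ih =>
  intro U hUn hinv hnz
  set B := (q * (q * ratioBound q) + 1) ^ (2 * cardFactors (Nat.card G)) with hB
  by_cases hU : U = ⊥
  · rw [← hUn, hU]; simp
  obtain ⟨W, hWU, hW⟩ := exists_minGood ρ U hU hinv
  set X : Finset (Submodule ℂ E) := univ.image fun g => W.map (ρ g) with hX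
  set U' : Submodule ℂ E := X.sup id with hU'
  have hle : ∀ g, W.map (ρ g) ≤ U' := fun g =>
    le_sup (f := id) (mem_image_of_mem (fun g => W.map (ρ g)) (mem_univ g))
  have hU'U : U' ≤ U := by
    refine Finset.sup_le fun x hx => ?_
    obtain ⟨g, -, rfl⟩ := mem_image.mp hx
    rintro _ ⟨w, hw, rfl⟩
    exact hinv g w (hWU hw)
  have hinv' : ∀ g, ∀ v ∈ U', ρ g v ∈ U' := by
    intro g
    have : U' ≤ U'.comap (ρ g) := by
      refine Finset.sup_le fun x hx => ?_
      obtain ⟨g', -, rfl⟩ := mem_image.mp hx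
      rw [← Submodule.map_le_iff_le_comap, id, map_map_rep]
      exact hle _
    exact fun v hv => this hv
  have hdim : ∀ x ∈ X, finrank ℂ x = finrank ℂ W := by
    intro x hx
    obtain ⟨g, -, rfl⟩ := mem_image.mp hx
    exact (Submodule.equivMapOfInjective _ (rep_inj ρ g) W).finrank_eq.symm
  set Y := X.filter (fun x => ∃ w ∈ x, ∑ i, α i • ρ (h i) w ≠ 0) with hY
  have h1 : X.card ≤ Y.card * B := by
    refine card_orbit_le hq hρ hP hG α h hW Y (fun g hg => mem_filter.mpr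
      ⟨mem_image_of_mem (fun g => W.map (ρ g)) (mem_univ g), hg⟩) ?_
    obtain ⟨w, hw, hw0⟩ := (Submodule.ne_bot_iff W).mp hW.1.1
    obtain ⟨g, hg⟩ := hnz w (hWU hw) hw0
    exact ⟨g, ρ g w, ⟨w, hw, rfl⟩, by rwa [comb_apply] at hg⟩
  have h2 : Y.card * finrank ℂ W ≤ 4 * q ^ 3 * finrank ℂ (U'.map (comb ρ α h)) := by
    refine rank_of_blocks hq hρ hP α h Y _ (fun x hx => hdim x (mem_filter.mp hx).1)
      (fun x hx => (mem_filter.mp hx).2) ?_ ?_ _ ?_
    · intro x hx
      obtain ⟨g, -, rfl⟩ := mem_image.mp (mem_filter.mp hx).1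
      exact (hW.map hρ g).dichotomy hρ hG
    · intro x hx x' hx' hne
      obtain ⟨g, -, rfl⟩ := mem_image.mp (mem_filter.mp hx).1
      obtain ⟨g', -, rfl⟩ := mem_image.mp (mem_filter.mp hx').1
      rintro _ ⟨v, hv, rfl⟩ _ ⟨w, hw, rfl⟩
      rw [hρ.adj]
      refine (hW.1.2 (g⁻¹ * g')).resolve_left (fun he => hne ?_) v hv w hw
      conv_lhs => rw [← he, map_map_rep, mul_inv_cancel_left]
    · intro x hx w hw
      obtain ⟨g, -, rfl⟩ := mem_image.mp (mem_filter.mp hx).1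
      exact ⟨w, hle g hw, comb_apply ρ α h w⟩
  have h3 : finrank ℂ U' ≤ X.card * finrank ℂ W := by
    refine (finrank_sup_le X id).trans (le_of_eq ?_)
    rw [← smul_eq_mul, ← sum_const]
    exact sum_congr rfl hdim
  have h4 : finrank ℂ U' ≤ B * (4 * q ^ 3) * finrank ℂ (U'.map (comb ρ α h)) :=
    calc finrank ℂ U' ≤ Y.card * B * finrank ℂ W := h3.trans (Nat.mul_le_mul_right _ h1)
      _ = B * (Y.card * finrank ℂ W) := by ring
      _ ≤ B * (4 * q ^ 3 * finrank ℂ (U'.map (comb ρ α h))) := Nat.mul_le_mul_left _ h2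
      _ = _ := by ring
  have hpos : 1 ≤ finrank ℂ U' := by
    refine Submodule.one_le_finrank_iff.mpr fun h0 => hW.1.1 ?_
    have := hle 1
    rwa [map_one_rep, h0, le_bot_iff] at this
  have hsum := Submodule.finrank_add_inf_finrank_orthogonal hU'U
  have hinvo : ∀ g, ∀ v ∈ U'ᗮ, ρ g v ∈ U'ᗮ := by
    intro g v hv u hu
    have e : u = ρ g (ρ g⁻¹ u) := by rw [rep_apply_apply, mul_inv_cancel, map_one]; rfl
    rw [e, hρ]
    exact hv _ (hinv' _ u hu)
  have h5 := ih (finrank ℂ (U'ᗮ ⊓ U : Submodule ℂ E)) (by omega) (U'ᗮ ⊓ U) rfl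
    (fun g v hv => ⟨hinvo g v hv.1, hinv g v hv.2⟩) (fun v hv => hnz v hv.2)
  have hmap : ∀ V : Submodule ℂ E, (∀ g, ∀ v ∈ V, ρ g v ∈ V) → V.map (comb ρ α h) ≤ V := by
    rintro V hV _ ⟨v, hv, rfl⟩
    rw [comb_apply]
    exact V.sum_mem fun i _ => V.smul_mem _ (hV _ v hv)
  have h6 : finrank ℂ (U'.map (comb ρ α h)) + finrank ℂ ((U'ᗮ ⊓ U).map (comb ρ α h)) ≤
      finrank ℂ (U.map (comb ρ α h)) := by
    rw [← Submodule.finrank_sup_add_finrank_inf_eq]
    have e1 : U'.map (comb ρ α h) ⊓ (U'ᗮ ⊓ U).map (comb ρ α h) = ⊥ := by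
      rw [eq_bot_iff, ← U'.inf_orthogonal_eq_bot]
      exact inf_le_inf (hmap U' hinv')
        ((Submodule.map_mono inf_le_left).trans (hmap U'ᗮ hinvo))
    rw [e1, finrank_bot, add_zero]
    exact Submodule.finrank_mono
      (sup_le (Submodule.map_mono hU'U) (Submodule.map_mono inf_le_right))
  calc n = finrank ℂ U' + finrank ℂ (U'ᗮ ⊓ U : Submodule ℂ E) := by omega
    _ ≤ B * (4 * q ^ 3) * finrank ℂ (U'.map (comb ρ α h)) +
        B * (4 * q ^ 3) * finrank ℂ ((U'ᗮ ⊓ U).map (comb ρ α h)) := add_le_add h4 h5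
    _ ≤ _ := by rw [← mul_add]; exact Nat.mul_le_mul_left _ h6

end Pool.Agent.Work.MP_11a08a_al
end

-- merged part: Pool.Agent.Work.MP_11a08a_al.Transfer
section
/-!
Transfer of the rank bound to arbitrary complex representations and to fields of
characteristic zero.
-/

set_option autoImplicit false

open Finset Module
open scoped InnerProductSpace Matrix

namespace Pool.Agent.Work.MP_11a08a_al

variable {G : Type} [Group G] [Fintype G]

/-- A multiple of the left regular representation. -/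
noncomputable def regRep (G : Type) [Group G] [Fintype G] (n : ℕ) :
    Representation ℂ G (EuclideanSpace ℂ (G × Fin n)) where
  toFun h :=
    { toFun := fun f => WithLp.toLp 2 fun p => f (h⁻¹ * p.1, p.2)
      map_add' := fun _ _ => rfl
      map_smul' := fun _ _ => rfl }
  map_one' := by ext f p; simp
  map_mul' a b := by ext f p; simp [mul_assoc]

theorem regRep_uni (n : ℕ) : IsUni (regRep G n) := by
  intro g v w
  rw [PiLp.inner_apply, PiLp.inner_apply]
  exact Fintype.sum_equiv ((Equiv.mulLeft g⁻¹).prodCongr (Equiv.refl _)) _ _ fun _ => rfl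

theorem complex_bound {q : ℕ} (hq : 0 < q) {P : ℕ} (hP : 4 * q ^ 2 ≤ P) (hG : Cls G P) {n : ℕ}
    (ρ : Representation ℂ G (Fin n → ℂ)) (α : Fin q → ℂ) (h : Fin q → G)
    (hnz : ∀ v, v ≠ 0 → ∃ g, (∑ i, α i • ρ (h i)) (ρ g v) ≠ 0) :
    n ≤ (q * (q * ratioBound q) + 1) ^ (2 * ArithmeticFunction.cardFactors (Nat.card G)) * (4 * q ^ 3) *
      finrank ℂ (LinearMap.range (∑ i, α i • ρ (h i))) := by
  let ι : (Fin n → ℂ) →ₗ[ℂ] EuclideanSpace ℂ (G × Fin n) :=
    { toFun := fun v => WithLp.toLp 2 fun p => ρ p.1⁻¹ v p.2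
      map_add' := fun v w => by ext p; simp
      map_smul' := fun c v => by ext p; simp }
  have hinj : Function.Injective ι := by
    rw [injective_iff_map_eq_zero]
    intro v hv
    ext i
    have := congrArg (fun f : EuclideanSpace ℂ (G × Fin n) => f (1, i)) hv
    simpa [ι] using this
  have heq : ∀ g v, regRep G n g (ι v) = ι (ρ g v) := by
    intro g v
    ext p
    simp [ι, regRep]
  have hD : ∀ v, comb (regRep G n) α h (ι v) = ι ((∑ i, α i • ρ (h i)) v) := by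
    intro v
    rw [comb_apply, LinearMap.sum_apply, map_sum]
    simp only [heq, LinearMap.smul_apply, map_smul]
  have := unitary_bound hq (regRep_uni n) hP hG α h n (LinearMap.range ι)
    (by rw [LinearMap.finrank_range_of_inj hinj, finrank_fin_fun])
    (by rintro g _ ⟨v, rfl⟩; exact ⟨_, (heq g v).symm⟩)
    (by
      rintro _ ⟨v, rfl⟩ hv
      obtain ⟨g, hg⟩ := hnz v (fun h0 => hv (by rw [h0, map_zero]))
      refine ⟨g, fun h0 => hg (hinj ?_)⟩
      rw [← hD, ← heq, h0, map_zero])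
  have e : (LinearMap.range ι).map (comb (regRep G n) α h) =
      (LinearMap.range (∑ i, α i • ρ (h i))).map ι := by
    rw [← LinearMap.range_comp, ← LinearMap.range_comp]
    congr 1
    exact LinearMap.ext hD
  rw [e, ← (Submodule.equivMapOfInjective _ hinj _).finrank_eq] at this
  exact this

private theorem hom_of_ft (A : Type) [CommRing A] [Nontrivial A] [Algebra ℚ A]
    [Algebra.FiniteType ℚ A] : Nonempty (A →+* ℂ) := by
  obtain ⟨m, hm⟩ := Ideal.exists_maximal A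
  let : Field (A ⧸ m) := Ideal.Quotient.field m
  have : Module.Finite ℚ (A ⧸ m) := finite_of_finite_type_of_isJacobsonRing ℚ (A ⧸ m)
  let φ : (A ⧸ m) →ₐ[ℚ] ℂ := IsAlgClosed.lift
  exact ⟨φ.toRingHom.comp (Ideal.Quotient.mk m)⟩

theorem exists_specialization {F : Type} [Field F] [CharZero F] (s : Set F) (hs : s.Finite) :
    ∃ (S : Subring F) (_ : S →+* ℂ), s ⊆ S := by
  have : Algebra.FiniteType ℚ (Algebra.adjoin ℚ s) := Algebra.FiniteType.adjoin_of_finite hs
  obtain ⟨φ⟩ := hom_of_ft (Algebra.adjoin ℚ s)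
  exact ⟨(Algebra.adjoin ℚ s).toSubring, φ, Algebra.subset_adjoin⟩

theorem matrix_bound {q : ℕ} (hq : 0 < q) {P : ℕ} (hP : 4 * q ^ 2 ≤ P) (hG : Cls G P) {n r : ℕ}
    (M B : G → Matrix (Fin n) (Fin n) ℂ) (X : Matrix (Fin n) (Fin r) ℂ)
    (Y : Matrix (Fin r) (Fin n) ℂ) (α : Fin q → ℂ) (h : Fin q → G) (h1 : M 1 = 1)
    (h2 : ∀ a b, M (a * b) = M a * M b) (h3 : ∑ i, α i • M (h i) = X * Y)
    (h4 : ∑ g, B g * (X * Y) * M g = 1) :
    n ≤ (q * (q * ratioBound q) + 1) ^ (2 * ArithmeticFunction.cardFactors (Nat.card G)) * (4 * q ^ 3) * r := by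
  let ρ : Representation ℂ G (Fin n → ℂ) :=
    { toFun := fun g => Matrix.toLin' (M g)
      map_one' := by rw [h1, Matrix.toLin'_one]; rfl
      map_mul' := fun a b => by rw [h2, Matrix.toLin'_mul]; rfl }
  have hD : ∑ i, α i • ρ (h i) = Matrix.toLin' (X * Y) := by
    rw [← h3, map_sum]
    simp only [map_smul]
    rfl
  refine (complex_bound hq hP hG ρ α h fun v hv => ?_).trans (Nat.mul_le_mul_left _ ?_)
  · by_contra hc
    push Not at hc
    apply hv
    rw [← Matrix.one_mulVec v, ← h4, Matrix.sum_mulVec]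
    refine sum_eq_zero fun g _ => ?_
    have := hc g
    rw [hD] at this
    change (X * Y) *ᵥ (M g *ᵥ v) = 0 at this
    rw [← Matrix.mulVec_mulVec, ← Matrix.mulVec_mulVec, this, Matrix.mulVec_zero]
  · rw [hD, Matrix.toLin'_mul]
    refine (Submodule.finrank_mono (LinearMap.range_comp_le_range _ _)).trans ?_
    exact (LinearMap.finrank_range_le _).trans (by rw [finrank_fin_fun])

theorem matrix_bound' {F : Type} [Field F] [CharZero F] {q : ℕ} (hq : 0 < q) {P : ℕ}
    (hP : 4 * q ^ 2 ≤ P) (hG : Cls G P) {n r : ℕ}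
    (M B : G → Matrix (Fin n) (Fin n) F) (X : Matrix (Fin n) (Fin r) F)
    (Y : Matrix (Fin r) (Fin n) F) (α : Fin q → F) (h : Fin q → G) (h1 : M 1 = 1)
    (h2 : ∀ a b, M (a * b) = M a * M b) (h3 : ∑ i, α i • M (h i) = X * Y)
    (h4 : ∑ g, B g * (X * Y) * M g = 1) :
    n ≤ (q * (q * ratioBound q) + 1) ^ (2 * ArithmeticFunction.cardFactors (Nat.card G)) * (4 * q ^ 3) * r := by
  obtain ⟨S, φ, hS⟩ := exists_specialization
    (Set.range (fun p : G × Fin n × Fin n => M p.1 p.2.1 p.2.2) ∪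
      (Set.range (fun p : G × Fin n × Fin n => B p.1 p.2.1 p.2.2) ∪
      (Set.range (fun p : Fin n × Fin r => X p.1 p.2) ∪
      (Set.range (fun p : Fin r × Fin n => Y p.1 p.2) ∪ Set.range α))))
    ((Set.finite_range _).union ((Set.finite_range _).union ((Set.finite_range _).union
      ((Set.finite_range _).union (Set.finite_range _)))))
  let M' : G → Matrix (Fin n) (Fin n) S := fun g => Matrix.of fun i j =>
    ⟨M g i j, hS (Or.inl ⟨(g, i, j), rfl⟩)⟩
  let B' : G → Matrix (Fin n) (Fin n) S := fun g => Matrix.of fun i j =>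
    ⟨B g i j, hS (Or.inr (Or.inl ⟨(g, i, j), rfl⟩))⟩
  let X' : Matrix (Fin n) (Fin r) S := Matrix.of fun i j =>
    ⟨X i j, hS (Or.inr (Or.inr (Or.inl ⟨(i, j), rfl⟩)))⟩
  let Y' : Matrix (Fin r) (Fin n) S := Matrix.of fun i j =>
    ⟨Y i j, hS (Or.inr (Or.inr (Or.inr (Or.inl ⟨(i, j), rfl⟩))))⟩
  let α' : Fin q → S := fun i => ⟨α i, hS (Or.inr (Or.inr (Or.inr (Or.inr ⟨i, rfl⟩))))⟩
  have hM : ∀ g, (M' g).map S.subtype = M g := fun _ => rfl
  have hB : ∀ g, (B' g).map S.subtype = B g := fun _ => rfl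
  have hX : X'.map S.subtype = X := rfl
  have hY : Y'.map S.subtype = Y := rfl
  have hinj : Function.Injective
      (fun A : Matrix (Fin n) (Fin n) S => A.map S.subtype) :=
    Matrix.map_injective S.subtype_injective
  have hsum1 : ∀ {K : Type} [CommRing K] (f : S →+* K),
      (∑ i, α' i • M' (h i)).map f = ∑ i, f (α' i) • (M' (h i)).map f := by
    intro K _ f
    ext i j
    simp [Matrix.sum_apply]
  have hsum2 : ∀ {K : Type} [CommRing K] (f : S →+* K),
      (∑ g, B' g * (X' * Y') * M' g).map f =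
        ∑ g, (B' g).map f * (X'.map f * Y'.map f) * (M' g).map f := by
    intro K _ f
    simp_rw [← Matrix.map_mul]
    ext i j
    simp only [Matrix.sum_apply, Matrix.map_apply, map_sum]
  have h1' : M' 1 = 1 := hinj (by
    simp only [hM, h1]
    rw [Matrix.map_one _ (map_zero _) (map_one _)])
  have h2' : ∀ a b, M' (a * b) = M' a * M' b := fun a b => hinj (by
    simp only [Matrix.map_mul, hM, h2])
  have h3' : ∑ i, α' i • M' (h i) = X' * Y' := hinj (by
    simp only [hsum1, Matrix.map_mul, hM, hX, hY]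
    exact h3)
  have h4' : ∑ g, B' g * (X' * Y') * M' g = 1 := hinj (by
    simp only [hsum2, hM, hB, hX, hY, h4]
    rw [Matrix.map_one _ (map_zero _) (map_one _)])
  refine matrix_bound hq hP hG (fun g => (M' g).map φ) (fun g => (B' g).map φ) (X'.map φ)
    (Y'.map φ) (fun i => φ (α' i)) h ?_ (fun a b => ?_) ?_ ?_
  · rw [h1', Matrix.map_one _ (map_zero _) (map_one _)]
  · rw [h2', Matrix.map_mul]
  · rw [← hsum1, h3', Matrix.map_mul]
  · rw [← hsum2, h4', Matrix.map_one _ (map_zero _) (map_one _)]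

theorem field_bound {F : Type} [Field F] [CharZero F] {q : ℕ} {P : ℕ}
    (hP : 4 * q ^ 2 ≤ P) (hG : Cls G P) {n : ℕ} (ρ : Representation F G (Fin n → F))
    (hirr : ρ.IsIrreducible) (α : Fin q → F) (h : Fin q → G) (hne : ∑ i, α i • ρ (h i) ≠ 0) :
    n ≤ (q * (q * ratioBound q) + 1) ^ (2 * ArithmeticFunction.cardFactors (Nat.card G)) * (4 * q ^ 3) *
      finrank F (LinearMap.range (∑ i, α i • ρ (h i))) := by
  classical
  have hq : 0 < q := by
    rcases Nat.eq_zero_or_pos q with rfl | hq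
    · simp at hne
    · exact hq
  set D := ∑ i, α i • ρ (h i) with hD
  let Φ : (Fin n → F) →ₗ[F] (G → Fin n → F) := LinearMap.pi fun g => D ∘ₗ ρ g
  have hker : LinearMap.ker Φ = ⊥ := by
    let Z : Subrepresentation ρ :=
      { toSubmodule := LinearMap.ker Φ
        apply_mem_toSubmodule := fun g v hv => by
          rw [LinearMap.mem_ker] at hv ⊢
          ext1 g'
          have := congrFun hv (g' * g)
          simpa [Φ] using this }
    rcases hirr.eq_bot_or_eq_top Z with h0 | h0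
    · exact congrArg Subrepresentation.toSubmodule h0
    · exfalso
      apply hne
      have h1 : LinearMap.ker Φ = ⊤ := congrArg Subrepresentation.toSubmodule h0
      rw [LinearMap.ker_eq_top] at h1
      have : ∀ w, D w = 0 := fun w => by
        have := congrFun (LinearMap.congr_fun h1 w) 1
        simpa [Φ] using this
      exact LinearMap.ext this
  obtain ⟨Ψ, hΨ⟩ := Φ.exists_leftInverse_of_injective hker
  let b := Module.finBasis F (LinearMap.range D)
  refine matrix_bound' hq hP hG (fun g => LinearMap.toMatrix' (ρ g))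
    (fun g => LinearMap.toMatrix' (Ψ ∘ₗ LinearMap.single F (fun _ : G => Fin n → F) g))
    (LinearMap.toMatrix' ((LinearMap.range D).subtype ∘ₗ b.equivFun.symm.toLinearMap))
    (LinearMap.toMatrix' (b.equivFun.toLinearMap ∘ₗ D.rangeRestrict)) α h ?_ (fun a b => ?_) ?_ ?_
  · rw [map_one, Module.End.one_eq_id, LinearMap.toMatrix'_id]
  · rw [map_mul, LinearMap.toMatrix'_mul]
  · rw [← LinearMap.toMatrix'_comp]
    simp_rw [← map_smul]
    rw [← map_sum, ← hD]
    congr 1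
    refine LinearMap.ext fun v => ?_
    simp
  · simp_rw [← LinearMap.toMatrix'_comp]
    rw [← map_sum, ← LinearMap.toMatrix'_id, ← hΨ]
    congr 1
    refine LinearMap.ext fun v => ?_
    rw [LinearMap.sum_apply, LinearMap.comp_apply]
    simp only [LinearMap.comp_apply, ← map_sum]
    congr 1
    ext1 g
    simp [Φ, Finset.sum_apply]

end Pool.Agent.Work.MP_11a08a_al
end

-- merged part: Pool.Agent.Work.MP_11a08a_al.Final
section
/-!
Final numerical forms of the rank bound.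
-/

set_option autoImplicit false

open Finset Module

namespace Pool.Agent.Work.MP_11a08a_al

theorem quant (q : ℕ) : ∃ C P : ℕ, 2 ≤ C ∧ ∀ (F : Type) [Field F] [CharZero F] (G : Type) [Group G]
    [Finite G], Cls G P → ∀ (n : ℕ) (ρ : Representation F G (Fin n → F)), ρ.IsIrreducible →
      ∀ (h : Fin q → G) (α : Fin q → F), ∑ l, α l • ρ (h l) ≠ 0 →
        n ≤ C ^ (ArithmeticFunction.cardFactors (Nat.card G) + 1) *
          finrank F (LinearMap.range (∑ l, α l • ρ (h l))) := by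
  refine ⟨(q * (q * ratioBound q) + 1) ^ 2 + 4 * q ^ 3 + 2, 4 * q ^ 2, by omega, ?_⟩
  intro F _ _ G _ _ hG n ρ hirr h α hne
  have := Fintype.ofFinite G
  refine (field_bound le_rfl hG ρ hirr α h hne).trans (Nat.mul_le_mul_right _ ?_)
  rw [pow_mul, pow_succ]
  exact Nat.mul_le_mul (Nat.pow_le_pow_left (by omega) _) (by omega)

theorem numeric (ε : ℝ) (hε : 0 < ε) (C : ℕ) (hC : 2 ≤ C) : ∃ (N : ℕ) (η : ℝ), 0 < η ∧
    ∀ n > N, ∀ g w r : ℕ, 0 < g → (w : ℝ) ≤ η * Real.log g → (g : ℝ) ^ ε ≤ n →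
      n ≤ C ^ (w + 1) * r → (n : ℝ) ^ (1 - ε) ≤ r := by
  have hC' : (1 : ℝ) < C := by exact_mod_cast hC
  have hlog : 0 < Real.log C := Real.log_pos hC'
  refine ⟨⌈(C : ℝ) ^ (2 / ε)⌉₊, ε ^ 2 / (2 * Real.log C), by positivity, ?_⟩
  intro n hn g w r hg hw hgn hr
  have hn0 : (0 : ℝ) < n := by exact_mod_cast (lt_of_le_of_lt (Nat.zero_le _) hn)
  have hg0 : (0 : ℝ) < g := by exact_mod_cast hg
  have h1 : (C : ℝ) ≤ (n : ℝ) ^ (ε / 2) := by
    have e : (C : ℝ) = ((C : ℝ) ^ (2 / ε)) ^ (ε / 2) := by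
      rw [← Real.rpow_mul (by positivity)]
      have : 2 / ε * (ε / 2) = 1 := by field_simp
      rw [this, Real.rpow_one]
    rw [e]
    refine Real.rpow_le_rpow (by positivity) ?_ (by positivity)
    exact (Nat.le_ceil _).trans (by exact_mod_cast hn.le)
  have h2 : (C : ℝ) ^ w ≤ (n : ℝ) ^ (ε / 2) := by
    calc (C : ℝ) ^ w = Real.exp (w * Real.log C) := by
          rw [Real.exp_nat_mul, Real.exp_log (by positivity)]
      _ ≤ Real.exp (Real.log g * (ε * (ε / 2))) := by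
          refine Real.exp_le_exp.mpr ?_
          calc w * Real.log C ≤ ε ^ 2 / (2 * Real.log C) * Real.log g * Real.log C :=
                mul_le_mul_of_nonneg_right hw hlog.le
            _ = _ := by field_simp
      _ = ((g : ℝ) ^ ε) ^ (ε / 2) := by
          rw [← Real.rpow_def_of_pos hg0, Real.rpow_mul hg0.le]
      _ ≤ _ := Real.rpow_le_rpow (by positivity) hgn (by positivity)
  have h3 : (n : ℝ) ≤ (n : ℝ) ^ ε * r := by
    calc (n : ℝ) ≤ (C : ℝ) ^ w * C * r := by exact_mod_cast (pow_succ C w ▸ hr)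
      _ ≤ (n : ℝ) ^ (ε / 2) * (n : ℝ) ^ (ε / 2) * r := by gcongr
      _ = _ := by rw [← Real.rpow_add hn0, add_halves]
  rw [Real.rpow_sub hn0, Real.rpow_one, div_le_iff₀ (by positivity), mul_comm]
  exact h3

theorem pow_cardFactors_le (P g : ℕ) (hg : 0 < g) (h : ∀ p : ℕ, p.Prime → p ∣ g → P < p) :
    P ^ ArithmeticFunction.cardFactors g ≤ g := by
  rw [ArithmeticFunction.cardFactors_apply]
  conv_rhs => rw [← Nat.prod_primeFactorsList hg.ne']
  exact List.pow_card_le_prod _ _ fun p hp =>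
    (h p (Nat.prime_of_mem_primeFactorsList hp) (Nat.dvd_of_mem_primeFactorsList hp)).le

theorem cardFactors_le_log (η : ℝ) (hη : 0 < η) (g : ℕ) (hg : 0 < g)
    (h : ∀ p : ℕ, p.Prime → p ∣ g → ⌈Real.exp (1 / η)⌉₊ < p) :
    (ArithmeticFunction.cardFactors g : ℝ) ≤ η * Real.log g := by
  have h1 : ((⌈Real.exp (1 / η)⌉₊ : ℕ) : ℝ) ^ ArithmeticFunction.cardFactors g ≤ g := by
    exact_mod_cast pow_cardFactors_le _ g hg h
  have h2 : Real.exp (1 / η) ^ ArithmeticFunction.cardFactors g ≤ g :=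
    (pow_le_pow_left₀ (by positivity) (Nat.le_ceil _) _).trans h1
  have h3 := Real.log_le_log (by positivity) h2
  rw [Real.log_pow, Real.log_exp, mul_one_div, div_le_iff₀ hη, mul_comm] at h3
  exact h3

end Pool.Agent.Work.MP_11a08a_al
end

-- merged part: Pool.Agent.Work.MP_11a08a_al.MV.RepA
section
/-!
Group theory, discrete logarithms and counting lemmas for the representation step.
-/

set_option autoImplicit false

open Finset Module
open scoped InnerProductSpace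

namespace Pool.Agent.Work.MP_11a08a_al.MV

section Grp
variable {G : Type} [Group G]

/-- The preimage of the centre of `G / A`. -/
def up (A : Subgroup G) (hA : A.Normal) : Subgroup G where
  carrier := {g | ∀ x, g * x * g⁻¹ * x⁻¹ ∈ A}
  one_mem' := fun x => by simpa using A.one_mem
  mul_mem' := by
    intro a b ha hb x
    have e : a * b * x * (a * b)⁻¹ * x⁻¹
        = (a * (b * x * b⁻¹ * x⁻¹) * a⁻¹) * (a * x * a⁻¹ * x⁻¹) := by group
    rw [e]
    exact A.mul_mem (hA.conj_mem _ (hb x) a) (ha x)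
  inv_mem' := by
    intro a ha x
    have e : a⁻¹ * x * a⁻¹⁻¹ * x⁻¹ = a⁻¹ * (a * x * a⁻¹ * x⁻¹)⁻¹ * a⁻¹⁻¹ := by group
    rw [e]
    exact hA.conj_mem _ (A.inv_mem (ha x)) a⁻¹

theorem up_normal (A : Subgroup G) (hA : A.Normal) : (up A hA).Normal := by
  refine ⟨fun g hg k x => ?_⟩
  have e : k * g * k⁻¹ * x * (k * g * k⁻¹)⁻¹ * x⁻¹
      = k * (g * (k⁻¹ * x * k) * g⁻¹ * (k⁻¹ * x * k)⁻¹) * k⁻¹ := by group
  rw [e]
  exact hA.conj_mem _ (hg _) k

/-- The preimage of the second centre of `G / A`. -/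
def up2 (A : Subgroup G) (hA : A.Normal) : Subgroup G := up (up A hA) (up_normal A hA)

theorem up2_normal (A : Subgroup G) (hA : A.Normal) : (up2 A hA).Normal := up_normal _ _

/-- The commutator cocycle of `b`. -/
def th (b y : G) : G := y⁻¹ * b * y * b⁻¹

theorem th_mem {A : Subgroup G} {hA : A.Normal} {b : G} (hb : b ∈ up2 A hA) (y : G) :
    th b y ∈ up A hA := by
  have h1 : b * y⁻¹ * b⁻¹ * y⁻¹⁻¹ ∈ up A hA := hb y⁻¹
  have e : th b y = (b * y⁻¹ * b⁻¹ * y⁻¹⁻¹)⁻¹ := by unfold th; group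
  rw [e]
  exact (up A hA).inv_mem h1

theorem th_mul {A : Subgroup G} {hA : A.Normal} {b : G} (hb : b ∈ up2 A hA) (y y' : G) :
    ∃ a ∈ A, th b (y * y') = a * th b y * th b y' := by
  have h1 : th b y * y'⁻¹ * (th b y)⁻¹ * y'⁻¹⁻¹ ∈ A := th_mem hb y y'⁻¹
  refine ⟨_, A.inv_mem h1, ?_⟩
  unfold th
  group

/-- The elements whose commutator cocycle lies in `S`. -/
def cls {A : Subgroup G} {hA : A.Normal} {b : G} (hb : b ∈ up2 A hA) (S : Subgroup G)
    (hS : A ≤ S) : Subgroup G where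
  carrier := {y | th b y ∈ S}
  one_mem' := by
    change th b 1 ∈ S
    have e : th b 1 = 1 := by unfold th; group
    rw [e]
    exact S.one_mem
  mul_mem' := by
    intro y y' hy hy'
    obtain ⟨a, ha, e⟩ := th_mul hb y y'
    change th b (y * y') ∈ S
    rw [e]
    exact S.mul_mem (S.mul_mem (hS ha) hy) hy'
  inv_mem' := by
    intro y hy
    obtain ⟨a, ha, e⟩ := th_mul hb y y⁻¹
    change th b y⁻¹ ∈ S
    have e1 : th b (y * y⁻¹) = 1 := by unfold th; group
    have e2 : th b y⁻¹ = (a * th b y)⁻¹ := by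
      rw [e1] at e
      exact eq_inv_of_mul_eq_one_right e.symm
    rw [e2]
    exact S.inv_mem (S.mul_mem (hS ha) hy)

theorem cls_of_two {A : Subgroup G} {hA : A.Normal} {b : G} (hb : b ∈ up2 A hA) (S : Subgroup G)
    (hS : A ≤ S) {y y' : G} (h1 : y⁻¹ * b * y ∈ S) (h2 : y'⁻¹ * b * y' ∈ S) :
    y⁻¹ * y' ∈ cls hb S hS := by
  change th b (y⁻¹ * y') ∈ S
  obtain ⟨a, ha, e⟩ := th_mul hb y (y⁻¹ * y')
  rw [mul_inv_cancel_left] at e
  have h3 : th b y' * (th b y)⁻¹ ∈ S := by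
    have e1 : th b y' * (th b y)⁻¹ = (y'⁻¹ * b * y') * (y⁻¹ * b * y)⁻¹ := by unfold th; group
    rw [e1]
    exact S.mul_mem h2 (S.inv_mem h1)
  have h4 : th b y * th b (y⁻¹ * y') * (th b y)⁻¹ * (th b (y⁻¹ * y'))⁻¹ ∈ A :=
    th_mem hb y _
  have e2 : th b (y⁻¹ * y') = (th b y * th b (y⁻¹ * y') * (th b y)⁻¹ * (th b (y⁻¹ * y'))⁻¹)⁻¹ *
      a⁻¹ * (th b y' * (th b y)⁻¹) := by
    rw [e]
    group
  rw [e2]
  exact S.mul_mem (S.mul_mem (S.inv_mem (hS h4)) (S.inv_mem (hS ha))) h3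

theorem cls_iff {A : Subgroup G} {hA : A.Normal} {b : G} (hb : b ∈ up2 A hA) (S : Subgroup G)
    (hS : A ≤ S) {y : G} (hy : y ∈ cls hb S hS) : y⁻¹ * b * y ∈ S ↔ b ∈ S := by
  have e : y⁻¹ * b * y = th b y * b := by unfold th; group
  rw [e]
  exact S.mul_mem_cancel_left hy

/-- A maximal packing in a finite group. -/
theorem pack [Fintype G] [DecidableEq G] (S : Finset G) (h1 : (1 : G) ∈ S) :
    ∃ κ : Finset G, (∀ i ∈ κ, ∀ j ∈ κ, i ≠ j → i⁻¹ * j ∉ S) ∧
      Fintype.card G ≤ κ.card * (2 * S.card) := by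
  classical
  obtain ⟨κ, hκ, hmax⟩ := exists_max_image
    ((univ : Finset (Finset G)).filter fun κ => ∀ i ∈ κ, ∀ j ∈ κ, i ≠ j → i⁻¹ * j ∉ S)
    Finset.card ⟨∅, by simp⟩
  have hκ' := (mem_filter.mp hκ).2
  refine ⟨κ, hκ', ?_⟩
  have hsub : (univ : Finset G) ⊆
      κ.biUnion fun k => S.image (fun s => k * s) ∪ S.image (fun s => k * s⁻¹) := by
    intro g _
    by_contra hg
    have hg' : ∀ k ∈ κ, k⁻¹ * g ∉ S ∧ g⁻¹ * k ∉ S := by
      intro k hk
      constructor
      · intro hs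
        exact hg (mem_biUnion.mpr ⟨k, hk, mem_union_left _ (mem_image.mpr ⟨_, hs, by group⟩)⟩)
      · intro hs
        exact hg (mem_biUnion.mpr ⟨k, hk, mem_union_right _ (mem_image.mpr ⟨_, hs, by group⟩)⟩)
    have hgκ : g ∉ κ := fun h => (hg' g h).1 (by rw [inv_mul_cancel]; exact h1)
    have := hmax (insert g κ) (mem_filter.mpr ⟨mem_univ _, by
      intro i hi j hj hij
      rcases mem_insert.mp hi with rfl | hi' <;> rcases mem_insert.mp hj with rfl | hj'
      · exact absurd rfl hij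
      · exact (hg' j hj').2
      · exact (hg' i hi').1
      · exact hκ' i hi' j hj' hij⟩)
    rw [card_insert_of_notMem hgκ] at this
    omega
  calc Fintype.card G = (univ : Finset G).card := card_univ.symm
    _ ≤ _ := card_le_card hsub
    _ ≤ ∑ k ∈ κ, (S.image (fun s => k * s) ∪ S.image (fun s => k * s⁻¹)).card := card_biUnion_le
    _ ≤ ∑ _k ∈ κ, 2 * S.card := sum_le_sum fun k _ =>
        (card_union_le _ _).trans (by
          have a1 : (S.image (fun s => k * s)).card ≤ S.card := card_image_le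
          have a2 : (S.image (fun s => k * s⁻¹)).card ≤ S.card := card_image_le
          omega)
    _ = _ := by rw [sum_const, smul_eq_mul]

/-- Fibres of an equivariant map have equal size. -/
theorem fib [Fintype G] {β : Type} [DecidableEq β] (φ : G → β)
    (hφ : ∀ c a b, φ a = φ b → φ (c * a) = φ (c * b)) (Y : Finset β) (hY : Y ⊆ univ.image φ) :
    (univ.filter fun g => φ g ∈ Y).card = Y.card * (univ.filter fun g => φ g = φ 1).card := by
  classical
  have hm : Set.MapsTo φ (univ.filter fun g => φ g ∈ Y : Finset G) Y :=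
    fun g hg => (mem_filter.mp (mem_coe.mp hg)).2
  rw [card_eq_sum_card_fiberwise hm, ← smul_eq_mul, ← sum_const]
  refine sum_congr rfl fun y hy => ?_
  obtain ⟨g0, -, rfl⟩ := mem_image.mp (hY hy)
  refine card_bij (fun g _ => g0⁻¹ * g) ?_ ?_ ?_
  · intro g hg
    have := hφ g0⁻¹ _ _ (mem_filter.mp hg).2
    rw [inv_mul_cancel] at this
    exact mem_filter.mpr ⟨mem_univ _, this⟩
  · intro a _ b _ hab
    exact mul_left_cancel hab
  · intro g hg
    have := hφ g0 _ _ (mem_filter.mp hg).2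
    rw [mul_one] at this
    refine ⟨g0 * g, mem_filter.mpr ⟨mem_filter.mpr ⟨mem_univ _, ?_⟩, this⟩, by group⟩
    rw [this]
    exact hy

end Grp

theorem exists_enum {β : Type} [Nonempty β] (s : Finset β) (C : ℕ) (h : s.card ≤ C) :
    ∃ τ : Fin C → β, ∀ x ∈ s, ∃ t, τ t = x := by
  classical
  refine ⟨fun t => if ht : t.1 < s.card then (s.equivFin.symm ⟨t.1, ht⟩).1 else Classical.arbitrary β,
    fun x hx => ⟨⟨(s.equivFin ⟨x, hx⟩).1, lt_of_lt_of_le (s.equivFin ⟨x, hx⟩).2 h⟩, ?_⟩⟩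
  simp only [dif_pos (s.equivFin ⟨x, hx⟩).2, Fin.eta, Equiv.symm_apply_apply]

open Classical in
/-- The discrete logarithm of a root of unity. -/
noncomputable def dlg (M : ℕ) [NeZero M] (z : ℂ) : ZMod M :=
  if h : ∃ a : ZMod M, ZMod.stdAddChar a = z then h.choose else 0

theorem dlg_spec {M : ℕ} [NeZero M] {z : ℂ} (hz : z ^ M = 1) : ZMod.stdAddChar (dlg M z) = z := by
  have h : ∃ a : ZMod M, ZMod.stdAddChar a = z := by
    obtain ⟨i, -, hi⟩ := (Complex.isPrimitiveRoot_exp M (NeZero.ne M)).eq_pow_of_pow_eq_one hz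
    refine ⟨((i : ℤ) : ZMod M), ?_⟩
    rw [ZMod.stdAddChar_coe, ← hi, ← Complex.exp_nat_mul]
    congr 1
    push_cast
    ring
  rw [dlg, dif_pos h]
  exact h.choose_spec

theorem dlg_mul {M : ℕ} [NeZero M] {z z' : ℂ} (hz : z ^ M = 1) (hz' : z' ^ M = 1) :
    dlg M (z * z') = dlg M z + dlg M z' := by
  apply ZMod.injective_stdAddChar
  rw [AddChar.map_add_eq_mul, dlg_spec hz, dlg_spec hz', dlg_spec]
  rw [mul_pow, hz, hz', one_mul]

theorem dlg_inj {M : ℕ} [NeZero M] {z z' : ℂ} (hz : z ^ M = 1) (hz' : z' ^ M = 1)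
    (h : dlg M z = dlg M z') : z = z' := by
  rw [← dlg_spec hz, h, dlg_spec hz']

section Rep
variable {G E : Type} [Group G] [NormedAddCommGroup E] [InnerProductSpace ℂ E]

/-- The elements acting as scalars on `W`. -/
def scal (ρ : Representation ℂ G E) (W : Submodule ℂ E) : Subgroup G where
  carrier := {u | ∃ z, Sc ρ W u z}
  one_mem' := ⟨1, Sc.one ρ W⟩
  mul_mem' := fun ⟨_, h1⟩ ⟨_, h2⟩ => ⟨_, h1.mul h2⟩
  inv_mem' := fun ⟨_, h⟩ => ⟨_, h.inv⟩

theorem sc_map (ρ : Representation ℂ G E) (W : Submodule ℂ E) (g t : G) (z : ℂ) :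
    Sc ρ (W.map (ρ g)) t z ↔ Sc ρ W (g⁻¹ * t * g) z := by
  constructor
  · intro h w hw
    have := h (ρ g w) ⟨w, hw, rfl⟩
    rw [mul_assoc, ← rep_apply_apply, ← rep_apply_apply, this, map_smul, rep_apply_apply,
      inv_mul_cancel, map_one]
    rfl
  · rintro h _ ⟨w, hw, rfl⟩
    rw [← map_smul, ← h w hw, rep_apply_apply, rep_apply_apply]
    congr 2
    group

theorem phi_mul {ρ : Representation ℂ G E} {W : Submodule ℂ E} (hW : W ≠ ⊥) {s t : G}
    (hs : s ∈ scal ρ W) (ht : t ∈ scal ρ W) : phi ρ W (s * t) = phi ρ W s * phi ρ W t :=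
  (phi_spec ((scal ρ W).mul_mem hs ht)).unique hW ((phi_spec hs).mul (phi_spec ht))

theorem phi_pow {ρ : Representation ℂ G E} {W : Submodule ℂ E} (hW : W ≠ ⊥) {s : G}
    (hs : s ∈ scal ρ W) : phi ρ W s ^ Nat.card G = 1 := (phi_spec hs).pow_card hW

variable [FiniteDimensional ℂ E]

theorem scalar_step [Finite G] {ρ : Representation ℂ G E} (hρ : IsUni ρ) {W : Submodule ℂ E}
    (hW : MinGood ρ W) {t : G} (ht : t ∈ stab ρ W)
    (h : ∀ s ∈ stab ρ W, t * s * t⁻¹ * s⁻¹ ∈ scal ρ W) : t ∈ scal ρ W := by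
  refine hW.scalar hρ {u | u ∈ stab ρ W ∧ ∃ z : ℂ, ∀ w ∈ W, ρ u w = z • ρ t w}
    (fun a ha => ha.1) ?_ ?_ t ⟨ht, 1, fun w _ => (one_smul _ _).symm⟩
  · rintro u ⟨hu, z, hz⟩ k hk
    obtain ⟨z', hz'⟩ := (scal ρ W).inv_mem (h k hk)
    refine ⟨mul_mem (mul_mem hk hu) (inv_mem hk), z * z', fun w hw => ?_⟩
    have e1 : ρ (k * u * k⁻¹) w = ρ k (ρ u (ρ k⁻¹ w)) := by
      rw [rep_apply_apply, rep_apply_apply]
    rw [e1, hz _ (stab_mem (inv_mem hk) hw), map_smul, mul_smul, ← hz' _ (stab_mem ht hw),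
      rep_apply_apply, rep_apply_apply, rep_apply_apply]
    congr 3
    group
  · rintro u ⟨hu, z, hz⟩ u' ⟨hu', z', hz'⟩ w hw
    rw [hz' w hw, hz w hw, map_smul, map_smul, hz _ (stab_mem ht hw), hz' _ (stab_mem ht hw),
      smul_comm]

theorem dich [Finite G] {ρ : Representation ℂ G E} (hρ : IsUni ρ) {W : Submodule ℂ E}
    (hW : MinGood ρ W) {A : Subgroup G} (hA : A.Normal) (hAW : A ≤ scal ρ W) (P : ℕ) {t : G}
    (ht : t ∈ up2 A hA) :
    (∃ ζ, Sc ρ W t ζ) ∨ ‖tau ρ W t‖ ^ 2 * P ≤ (finrank ℂ W : ℝ) ^ 2 := by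
  rcases hW.1.2 t with h | h
  · left
    have h' : t ∈ stab ρ W := h
    refine scalar_step hρ hW h' fun s hs => ?_
    exact scalar_step hρ hW (mul_mem (mul_mem (mul_mem h' hs) (inv_mem h')) (inv_mem hs))
      fun s' _ => hAW (ht s s')
  · right
    rw [tau, sum_eq_zero fun i _ => h _ (Submodule.coe_mem _) _ (Submodule.coe_mem _)]
    simp

omit [FiniteDimensional ℂ E] in
theorem scal_map {ρ : Representation ℂ G E} {W : Submodule ℂ E} {A : Subgroup G} (hA : A.Normal)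
    (hAW : A ≤ scal ρ W) (g : G) : A ≤ scal ρ (W.map (ρ g)) := by
  intro a ha
  have : g⁻¹ * a * g⁻¹⁻¹ ∈ A := hA.conj_mem a ha g⁻¹
  rw [inv_inv] at this
  obtain ⟨z, hz⟩ := hAW this
  exact ⟨z, (sc_map ρ W g a z).mpr hz⟩

theorem exists_block [Finite G] {ρ : Representation ℂ G E} (hρ : IsUni ρ) {A : Subgroup G}
    (hA : A.Normal) (hc : ∀ a ∈ A, ∀ b ∈ A, a * b = b * a) (U : Submodule ℂ E) (hU : U ≠ ⊥)
    (hinv : ∀ g, ∀ v ∈ U, ρ g v ∈ U) : ∃ W ≤ U, MinGood ρ W ∧ A ≤ scal ρ W := by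
  have hS := Set.toFinite (A : Set G)
  obtain ⟨χ, w0, hw0, hne, hχ⟩ := exists_common_eigen ρ U hU hS.toFinset
    (fun a _ w hw => hinv a w hw)
    (fun a ha b hb w _ => by
      rw [rep_apply_apply, rep_apply_apply,
        hc a (hS.mem_toFinset.mp ha) b (hS.mem_toFinset.mp hb)])
  let V : Submodule ℂ E :=
    { carrier := {v | v ∈ U ∧ ∀ b ∈ A, ρ b v = χ b • v}
      add_mem' := fun {x y} hx hy => ⟨add_mem hx.1 hy.1, fun b hb => by
        rw [map_add, hx.2 b hb, hy.2 b hb, smul_add]⟩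
      zero_mem' := ⟨zero_mem _, by simp⟩
      smul_mem' := fun c x hx => ⟨U.smul_mem c hx.1, fun b hb => by
        rw [map_smul, hx.2 b hb, smul_comm]⟩ }
  have hconj : ∀ g, ∀ a ∈ A, ∀ w ∈ V, ρ a (ρ g w) = χ (g⁻¹ * a * g) • ρ g w := by
    intro g a ha w hw
    have := hA.conj_mem a ha g⁻¹
    rw [inv_inv] at this
    rw [← map_smul, ← hw.2 _ this, rep_apply_apply, rep_apply_apply]
    congr 2
    group
  have hgood : Good ρ V := by
    refine ⟨(Submodule.ne_bot_iff V).mpr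
      ⟨w0, ⟨hw0, fun b hb => hχ b (hS.mem_toFinset.mpr hb)⟩, hne⟩, fun g => ?_⟩
    by_cases hcc : ∀ a ∈ A, χ (g⁻¹ * a * g) = χ a
    · left
      refine le_antisymm ?_ fun v hv => ?_
      · rintro _ ⟨w, hw, rfl⟩
        exact ⟨hinv g w hw.1, fun a ha => by rw [hconj g a ha w hw, hcc a ha]⟩
      · refine ⟨ρ g⁻¹ v, ⟨hinv _ v hv.1, fun a ha => ?_⟩,
          by rw [rep_apply_apply, mul_inv_cancel, map_one]; rfl⟩
        rw [hconj g⁻¹ a ha v hv, inv_inv, ← hcc _ (hA.conj_mem a ha g)]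
        congr 2
        group
    · right
      push Not at hcc
      obtain ⟨a, ha, hcc⟩ := hcc
      intro v hv w hw
      exact inner_eq_zero_of_eigen hρ a _ _ _ _ (hv.2 a ha) (hconj g a ha w hw) hcc.symm
  obtain ⟨W, hW, hmin⟩ := (wellFounded_lt (α := Submodule ℂ E)).has_min
    {W | W ≤ V ∧ Good ρ W} ⟨V, le_rfl, hgood⟩
  refine ⟨W, fun v hv => (hW.1 hv).1, ⟨hW.2, fun W' h1 h2 => ?_⟩,
    fun a ha => ⟨χ a, fun w hw => (hW.1 hw).2 a ha⟩⟩
  by_contra hne'
  exact hmin W' ⟨h1.trans hW.1, h2⟩ (lt_of_le_of_ne h1 hne')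

end Rep

end Pool.Agent.Work.MP_11a08a_al.MV
end

-- merged part: Pool.Agent.Work.MP_11a08a_al.Sol.Coset
section
/-!
`Γ I = closure {(w i)⁻¹ * w i' | i i' ∈ I}`, `ψ I = log (card (Γ I))`.  Given `η lam δ` put `T = ⌈exp lam⌉₊`,
`T₁ = T!`, `B` from `hB T₁ δ`.  `J = {j ∈ I | η card I ≤ 2 card {i ∈ I | Z i j}}` has `η card I ≤ 2 card J`.
If some `j ∈ J` has `T < (K j).relIndex (Γ I)` restrict to `I' = {i ∈ I | Z i j}`: `Γ I' ≤ K j ⊓ Γ I`, gain.
Otherwise in `Q = Γ I` put `N j = ((K j).subgroupOf Q).normalCore` (index `≤ T!`), get `J', A` from `hB`.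
Fix `i₀ ∈ I`, `a i = (w i₀)⁻¹ * w i ∈ Q`; pigeonhole `i ∈ J'` by the left coset `a i A` (`≤ B` values):
`a i = a₀ * y i`, `y i ∈ A` for `i ∈ I₂`.  `M = 2 card G`.  For `j ∈ I₂` find `χ j : A → ZMod M` additive
(`χ (a b) = χ a + χ b`) and `z j` with `(T₁ + 2)! • χ j a = 0`, `(T₁ + 2)! • z j = 0`, `χ j (y j) ≠ z j`, and
`χ j (y i) = z j` when `Z i j`: if no `i ∈ I₂` has `Z i j` take `χ = 0`, `z = card G`; otherwise with a member
`i₁`, `K' = {a ∈ A | a ∈ K j}` contains all commutators, `A ⧸ K'` is a finite commutative group,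
`(y i₁)⁻¹ y j ∉ K'`, take a complex character nontrivial there
(`CommGroup.exists_apply_ne_one_of_hasEnoughRootsOfUnity`) and `MV.dlg M`; `a ^ (index N j) ∈ N j` gives the
torsion; `z j = χ j (y i₁)`.  `f i j = χ j (y i) - z j`; pigeonhole the diagonal value among the elements
killed by `(T₁ + 2)!` (at most `(T₁ + 2)!` of them in `ZMod M`, or bound them through `stdAddChar`).
`rowG f` lies in the image of `A × ZMod M`-type data: it is contained in the range of the additive map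
`(a, n) ↦ (j ↦ if j ∈ I₃ then χ j a - n * z j else 0)`, so `sz ≤ card A * M ≤ N`.  Take `β η lam δ` to be a
natural number `b ≥ T₁ + 2` and `≥ (2 / η) B B (T₁ + 2)!`; `(T₁ + 2)! ∣ b!`, `card Q ^ δ ≤ N ^ δ`.
-/

set_option autoImplicit false

open Finset Module
open scoped commutatorElement

namespace Pool.Agent.Work.MP_11a08a_al.Sol

open Pool.Agent.Work.MP_11a08a_al.MV

/-- An additive character killing a subgroup above the commutators and missing a given element. -/
theorem coset_char {A : Type} [Group A] [Finite A] (K : Subgroup A)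
    (hK : ∀ a b : A, a * b * a⁻¹ * b⁻¹ ∈ K) {c : A} (hc : c ∉ K) (M : ℕ) [NeZero M]
    (hM : Nat.card A ∣ M) :
    ∃ χ : A → ZMod M, (∀ a b, χ (a * b) = χ a + χ b) ∧ (∀ a ∈ K, χ a = 0) ∧ χ c ≠ 0 := by
  have hle : commutator A ≤ K := by
    rw [commutator_def, Subgroup.commutator_le]
    exact fun a _ b _ => hK a b
  have hfin : Finite (Abelianization A) :=
    Finite.of_surjective (Abelianization.of (G := A)) (QuotientGroup.mk'_surjective _)
  have hnot : Abelianization.of c ∉ K.map Abelianization.of := by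
    rintro ⟨k, hk, e⟩
    have h1 : k⁻¹ * c ∈ (Abelianization.of (G := A)).ker := by
      rw [MonoidHom.mem_ker, map_mul, map_inv, e, inv_mul_cancel]
    rw [Abelianization.ker_of] at h1
    exact hc (by simpa using K.mul_mem hk (hle h1))
  rw [← CommGroup.forall_monoidHom_apply_eq_one_iff (M := ℂ)] at hnot
  push Not at hnot
  obtain ⟨φ, h1, h2⟩ := hnot
  have hp : ∀ a : A, ((φ (Abelianization.of a) : ℂˣ) : ℂ) ^ M = 1 := fun a => by
    obtain ⟨k, rfl⟩ := hM
    rw [← Units.val_pow_eq_pow_val, ← map_pow, ← map_pow, pow_mul, pow_card_eq_one', one_pow,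
      map_one, map_one, Units.val_one]
  have hmul : ∀ a b : A, dlg M ((φ (Abelianization.of (a * b)) : ℂˣ) : ℂ)
      = dlg M ((φ (Abelianization.of a) : ℂˣ) : ℂ) + dlg M ((φ (Abelianization.of b) : ℂˣ) : ℂ) :=
    fun a b => by rw [map_mul, map_mul, Units.val_mul, dlg_mul (hp a) (hp b)]
  have hone : dlg M (1 : ℂ) = 0 := by
    have h := dlg_mul (M := M) (z := 1) (z' := 1) (one_pow M) (one_pow M)
    rw [mul_one] at h
    exact left_eq_add.1 h
  refine ⟨fun a => dlg M ((φ (Abelianization.of a) : ℂˣ) : ℂ), hmul, fun a ha => ?_, fun h => ?_⟩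
  · beta_reduce
    rw [h1 _ ⟨a, ha, rfl⟩, Units.val_one, hone]
  · refine h2 (Units.ext (dlg_inj (hp c) ?_ ?_))
    · rw [Units.val_one, one_pow]
    · rw [Units.val_one, hone]
      exact h

/-- The pigeonhole principle. -/
theorem coset_pigeon {κ β : Type} (I : Finset κ) (hI : I.Nonempty) (F : κ → β) (S : Finset β)
    (hF : ∀ i ∈ I, F i ∈ S) :
    ∃ I' ⊆ I, ∃ i₁ ∈ I', I.card ≤ S.card * I'.card ∧ ∀ i ∈ I', F i = F i₁ := by
  classical
  obtain ⟨i₁, h1, h2⟩ := exists_max_image I (fun i => (I.filter fun i' => F i' = F i).card) hI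
  refine ⟨I.filter fun i' => F i' = F i₁, filter_subset _ _, i₁, mem_filter.2 ⟨h1, rfl⟩, ?_,
    fun i hi => (mem_filter.1 hi).2⟩
  have h3 := card_le_mul_card_image (f := F) I (I.filter fun i' => F i' = F i₁).card fun b hb => by
    obtain ⟨i, hi, rfl⟩ := mem_image.1 hb
    exact h2 i hi
  rw [mul_comm]
  refine h3.trans (Nat.mul_le_mul_left _ (card_le_card fun b hb => ?_))
  obtain ⟨i, hi, rfl⟩ := mem_image.1 hb
  exact hF i hi

/-- The tame test attached to cosets of subgroups with abelian quotients of bounded exponent. -/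
theorem coset_tame {κ A : Type} [Fintype κ] [DecidableEq κ] [Group A] [Finite A] (M : ℕ) [NeZero M]
    (hM : Nat.card A ∣ M) (m : ℕ) (hm : 0 < m) (e : ZMod M) (he : e ≠ 0) (hme : m • e = 0)
    (I : Finset κ) (hI : I.Nonempty) (Z : κ → κ → Prop) (y : κ → A) (K : κ → Subgroup A)
    (hK : ∀ j ∈ I, ∀ a b : A, a * b * a⁻¹ * b⁻¹ ∈ K j) (hp : ∀ j ∈ I, ∀ a : A, a ^ m ∈ K j)
    (h1 : ∀ i ∈ I, ∀ i' ∈ I, ∀ j ∈ I, Z i j → Z i' j → (y i)⁻¹ * y i' ∈ K j)
    (h2 : ∀ i ∈ I, ∀ j ∈ I, Z i j → (y i)⁻¹ * y j ∉ K j) :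
    ∃ I' ⊆ I, I.card ≤ m * I'.card ∧ Tame M m (Nat.card A * M) I' Z := by
  classical
  have key : ∀ j, ∃ (χ : A → ZMod M) (z : ZMod M), (∀ a b, χ (a * b) = χ a + χ b) ∧
      (j ∈ I → (∀ a, m • χ a = 0) ∧ m • z = 0 ∧ χ (y j) - z ≠ 0 ∧
        ∀ i ∈ I, Z i j → χ (y i) - z = 0) := by
    intro j
    by_cases h : j ∈ I ∧ ∃ i ∈ I, Z i j
    · obtain ⟨hj, i₁, hi₁, hz⟩ := h
      obtain ⟨χ, c1, c2, c3⟩ := coset_char (K j) (hK j hj) (h2 i₁ hi₁ j hj hz) M hM
      have c4 : ∀ (n : ℕ) a, χ (a ^ n) = n • χ a := fun n a => by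
        induction n with
        | zero => rw [pow_zero, zero_smul]; exact c2 1 (K j).one_mem
        | succ n ih => rw [pow_succ, c1, ih, succ_nsmul]
      have c5 : ∀ a, m • χ a = 0 := fun a => by rw [← c4]; exact c2 _ (hp j hj a)
      have c6 : ∀ a b, χ b - χ a = χ (a⁻¹ * b) := fun a b => by
        have := c1 a (a⁻¹ * b)
        rw [mul_inv_cancel_left] at this
        rw [this, add_sub_cancel_left]
      refine ⟨χ, χ (y i₁), c1, fun _ => ⟨c5, c5 _, by rw [c6]; exact c3, fun i hi hz' => ?_⟩⟩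
      rw [c6]
      exact c2 _ (h1 i₁ hi₁ i hi j hj hz hz')
    · refine ⟨fun _ => 0, e, fun _ _ => (add_zero _).symm, fun hj => ⟨fun _ => smul_zero _, hme, ?_,
        fun i hi hz => absurd ⟨hj, i, hi, hz⟩ h⟩⟩
      rw [zero_sub, neg_ne_zero]
      exact he
  choose χ z c1 c2 using key
  have tor : ∀ i, ∀ j ∈ I, m • (χ j (y i) - z j) = 0 := fun i j hj => by
    rw [smul_sub, (c2 j hj).1, (c2 j hj).2.1, sub_zero]
  obtain ⟨I', hs, i₁, hi₁, hc, hd⟩ := coset_pigeon I hI (fun j => χ j (y j) - z j)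
    (univ.filter fun t : ZMod M => m • t = 0) fun j hj => mem_filter.2 ⟨mem_univ _, tor j j hj⟩
  refine ⟨I', hs, hc.trans (Nat.mul_le_mul_right _ (IsAddCyclic.card_nsmul_eq_zero_le hm)),
    fun i j => χ j (y i) - z j, χ i₁ (y i₁) - z i₁, (c2 i₁ (hs hi₁)).2.2.1, hd,
    fun i _ j hj => tor i j (hs hj), fun i hi j hj hz => (c2 j (hs hj)).2.2.2 i (hs hi) hz, ?_⟩
  let Φ : Additive A × ZMod M →+ (κ → ZMod M) := AddMonoidHom.mk'
    (fun p j => if j ∈ I' then χ j p.1.toMul - p.2 * z j else 0) fun p q => by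
      funext j
      by_cases h : j ∈ I'
      · simp only [Pi.add_apply, if_pos h, Prod.fst_add, Prod.snd_add, toMul_add, c1]
        ring
      · simp only [Pi.add_apply, if_neg h, add_zero]
  have hle : rowG (fun i j => χ j (y i) - z j) I' I' ≤ Φ.range := star_rowG_le fun i _ =>
    ⟨(Additive.ofMul (y i), 1), by
      funext j
      change (if j ∈ I' then χ j (y i) - 1 * z j else 0) = if j ∈ I' then χ j (y i) - z j else 0
      rw [one_mul]⟩
  have hfin : Finite Φ.range := Finite.of_surjective _ Φ.rangeRestrict_surjective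
  refine (AddSubgroup.card_le_of_le hle).trans
    ((Nat.card_le_card_of_surjective _ Φ.rangeRestrict_surjective).trans ?_)
  rw [Nat.card_prod, Nat.card_zmod]
  exact le_rfl

open Classical in
/-- Popular columns. -/
theorem coset_pop {κ : Type} (Z : κ → κ → Prop) (I : Finset κ) (hI : I.Nonempty) (η : ℝ)
    (hη : 0 < η) (h : η * (I.card : ℝ) ^ 2 ≤ dens Z I) :
    η * I.card ≤
      2 * ((I.filter fun j => η * I.card ≤ 2 * ((I.filter fun i => Z i j).card : ℝ)).card : ℝ) := by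
  set J := I.filter fun j => η * I.card ≤ 2 * ((I.filter fun i => Z i j).card : ℝ) with hJ
  have hpos : (0 : ℝ) < I.card := by exact_mod_cast hI.card_pos
  have e : (dens Z I : ℝ) = ∑ j ∈ I, ((I.filter fun i => Z i j).card : ℝ) := by
    unfold dens
    rw [card_filter, sum_product_right]
    push_cast
    refine sum_congr rfl fun j _ => ?_
    rw [card_filter]
    push_cast
    rfl
  have b : ∀ j ∈ I, ((I.filter fun i => Z i j).card : ℝ)
      ≤ (if j ∈ J then (I.card : ℝ) else 0) + η * I.card / 2 := fun j hj => by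
    by_cases k : j ∈ J
    · rw [if_pos k]
      have : ((I.filter fun i => Z i j).card : ℝ) ≤ I.card := by
        exact_mod_cast card_filter_le _ _
      have : 0 ≤ η * I.card / 2 := by positivity
      linarith
    · rw [if_neg k]
      have : ¬ η * I.card ≤ 2 * ((I.filter fun i => Z i j).card : ℝ) :=
        fun k' => k (mem_filter.2 ⟨hj, k'⟩)
      linarith [not_le.1 this]
  have s := sum_le_sum b
  rw [← e, sum_add_distrib, sum_ite_mem, inter_eq_right.2 (filter_subset _ _), sum_const, sum_const,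
    nsmul_eq_mul, nsmul_eq_mul] at s
  have t : η * I.card * I.card ≤ 2 * J.card * I.card := by nlinarith
  exact le_of_mul_le_mul_right t hpos

/-- The group generated by the quotients. -/
def coset_G {κ G : Type} [Group G] (w : κ → G) (I : Finset κ) : Subgroup G :=
  Subgroup.closure {a | ∃ i ∈ I, ∃ i' ∈ I, a = (w i)⁻¹ * w i'}

theorem coset_G_mem {κ G : Type} [Group G] (w : κ → G) {I : Finset κ} {i i' : κ} (hi : i ∈ I)
    (hi' : i' ∈ I) : (w i)⁻¹ * w i' ∈ coset_G w I :=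
  Subgroup.subset_closure ⟨i, hi, i', hi', rfl⟩

theorem coset_G_le {κ G : Type} [Group G] (w : κ → G) {I : Finset κ} {H : Subgroup G}
    (h : ∀ i ∈ I, ∀ i' ∈ I, (w i)⁻¹ * w i' ∈ H) : coset_G w I ≤ H :=
  (Subgroup.closure_le _).2 (by rintro _ ⟨i, hi, i', hi', rfl⟩; exact h i hi i' hi')

theorem coset_two {κ G : Type} [Group G] {v : κ → Prop} {w x : κ → G} {K : κ → Subgroup G}
    {i i' j : κ} (h : CosetT v w x K i j) (h' : CosetT v w x K i' j) : (w i)⁻¹ * w i' ∈ K j := by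
  have e : (w i)⁻¹ * w i' = ((x j)⁻¹ * w i)⁻¹ * ((x j)⁻¹ * w i') := by group
  rw [e]
  exact (K j).mul_mem ((K j).inv_mem h.2) h'.2

theorem coset_diag {κ G : Type} [Group G] {v : κ → Prop} {w x : κ → G} {K : κ → Subgroup G}
    {i j : κ} (h : CosetT v w x K i j) (h' : (w i)⁻¹ * w j ∈ K j) : CosetT v w x K j j := by
  refine ⟨h.1, ?_⟩
  have e : (x j)⁻¹ * w j = ((x j)⁻¹ * w i) * ((w i)⁻¹ * w j) := by group
  rw [e]
  exact (K j).mul_mem h.2 h'

theorem coset_gain {G : Type} [Group G] [Finite G] {H K Q : Subgroup G} (h1 : H ≤ K) (h2 : H ≤ Q)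
    {lam : ℝ} (h : ⌈Real.exp lam⌉₊ < K.relIndex Q) :
    Real.log (Nat.card H) + lam ≤ Real.log (Nat.card Q) := by
  have a1 : K.relIndex Q ≤ H.relIndex Q :=
    Subgroup.relIndex_le_of_le_left h1 Subgroup.index_ne_zero_of_finite
  have a2 : Nat.card H * H.relIndex Q = Nat.card Q := by
    rw [← Nat.card_congr (Subgroup.subgroupOfEquivOfLe h2).toEquiv]
    exact Subgroup.card_mul_index _
  have p1 : (0 : ℝ) < Nat.card H := by exact_mod_cast Nat.card_pos
  have p2 : (0 : ℝ) < Nat.card Q := by exact_mod_cast Nat.card_pos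
  have a3 : Real.exp lam ≤ H.relIndex Q :=
    (Nat.le_ceil _).trans (by exact_mod_cast h.le.trans a1)
  rw [Real.le_log_iff_exp_le p2, Real.exp_add, Real.exp_log p1, ← a2]
  push_cast
  exact mul_le_mul_of_nonneg_left a3 p1.le

theorem coset_core {Q : Type} [Group Q] [Finite Q] (H : Subgroup Q) {T : ℕ} (h : H.index ≤ T) :
    H.normalCore.index ≤ T.factorial := by
  have h1 : H.normalCore.index ∣ H.index.factorial := by
    rw [Subgroup.normalCore_eq_ker, Subgroup.index_ker, Subgroup.index_eq_card, ← Nat.card_perm]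
    exact Subgroup.card_subgroup_dvd_card (MulAction.toPermHom Q (Q ⧸ H)).range
  exact (Nat.le_of_dvd (Nat.factorial_pos _) h1).trans (Nat.factorial_le h)

theorem coset_mono {κ : Type} [DecidableEq κ] {M m m' N N' : ℕ} {I : Finset κ} {Z : κ → κ → Prop}
    (h : Tame M m N I Z) (hm : m ∣ m') (hN : N ≤ N') : Tame M m' N' I Z := by
  obtain ⟨f, d, h1, h2, h3, h4, h5⟩ := h
  obtain ⟨k, rfl⟩ := hm
  exact ⟨f, d, h1, h2, fun i hi j hj => by rw [mul_comm, mul_smul, h3 i hi j hj, smul_zero], h4,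
    h5.trans hN⟩

/-- The case where all the popular subgroups have bounded index. -/
theorem coset_conv {κ G : Type} [Fintype κ] [DecidableEq κ] [Group G] [Finite G] {v : κ → Prop}
    {w x : κ → G} {K : κ → Subgroup G} (hd : ∀ i, ¬ CosetT v w x K i i) (Q : Subgroup G) (A : Subgroup Q)
    (J : Finset κ) (hJ : J.Nonempty) (hQ : ∀ i ∈ J, ∀ i' ∈ J, (w i)⁻¹ * w i' ∈ Q) (T : ℕ)
    (hT : ∀ j ∈ J, ((K j).subgroupOf Q).normalCore.index ≤ T)
    (hA : ∀ j ∈ J, ∀ a ∈ A, ∀ b ∈ A, a * b * a⁻¹ * b⁻¹ ∈ ((K j).subgroupOf Q).normalCore) :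
    ∃ I' ⊆ J, J.card ≤ A.index * (T + 2).factorial * I'.card ∧
      Tame (2 * Nat.card G) (T + 2).factorial ((2 * Nat.card G) ^ 2) I' (CosetT v w x K) := by
  classical
  have hG : 0 < Nat.card G := Nat.card_pos
  have : NeZero (2 * Nat.card G) := ⟨by omega⟩
  have := Fintype.ofFinite (Q ⧸ A)
  obtain ⟨i₀, hi₀⟩ := hJ
  let a : κ → Q := fun i => if h : i ∈ J then ⟨(w i₀)⁻¹ * w i, hQ i₀ hi₀ i h⟩ else 1
  have ha : ∀ i ∈ J, (a i : G) = (w i₀)⁻¹ * w i := fun i hi => by simp only [a, dif_pos hi]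
  obtain ⟨I, hs, i₁, hi₁, hc, he⟩ := coset_pigeon J ⟨i₀, hi₀⟩ (fun i => (a i : Q ⧸ A)) univ
    fun _ _ => mem_univ _
  have hy0 : ∀ i ∈ I, (a i₁)⁻¹ * a i ∈ A := fun i hi => QuotientGroup.eq.1 (he i hi).symm
  let y : κ → A := fun i => if h : i ∈ I then ⟨(a i₁)⁻¹ * a i, hy0 i h⟩ else 1
  have hy : ∀ i ∈ I, ((y i : Q) : G) = (w i₁)⁻¹ * w i := fun i hi => by
    simp only [y, dif_pos hi, Subgroup.coe_mul, Subgroup.coe_inv, ha i (hs hi), ha i₁ (hs hi₁)]
    group
  have hyy : ∀ i ∈ I, ∀ i' ∈ I, ∀ j, ((y i)⁻¹ * y i' ∈ ((K j).subgroupOf Q).subgroupOf A ↔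
      (w i)⁻¹ * w i' ∈ K j) := fun i hi i' hi' j => by
    rw [Subgroup.mem_subgroupOf, Subgroup.mem_subgroupOf]
    simp only [Subgroup.coe_mul, Subgroup.coe_inv, hy i hi, hy i' hi']
    have e : ((w i₁)⁻¹ * w i)⁻¹ * ((w i₁)⁻¹ * w i') = (w i)⁻¹ * w i' := by group
    rw [e]
  have hAG : Nat.card A ∣ Nat.card G :=
    (Subgroup.card_subgroup_dvd_card A).trans (Subgroup.card_subgroup_dvd_card Q)
  have h2 : 2 ∣ (T + 2).factorial := Nat.dvd_factorial two_pos (by omega)
  obtain ⟨I', hs', hc', ht⟩ := coset_tame (2 * Nat.card G) (hAG.mul_left 2) (T + 2).factorial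
    (Nat.factorial_pos _) (Nat.card G : ZMod (2 * Nat.card G))
    (fun h => by
      have := Nat.le_of_dvd hG ((ZMod.natCast_eq_zero_iff _ _).1 h)
      omega)
    (by
      rw [nsmul_eq_mul, ← Nat.cast_mul, ZMod.natCast_eq_zero_iff]
      exact Nat.mul_dvd_mul_right h2 _)
    I ⟨i₁, hi₁⟩ (CosetT v w x K) y (fun j => ((K j).subgroupOf Q).subgroupOf A)
    (fun j hj a b => ((K j).subgroupOf Q).normalCore_le (hA j (hs hj) a a.2 b b.2))
    (fun j hj a => by
      obtain ⟨k, hk⟩ : ((K j).subgroupOf Q).normalCore.index ∣ (T + 2).factorial :=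
        Nat.dvd_factorial (Nat.pos_of_ne_zero Subgroup.index_ne_zero_of_finite)
          ((hT j (hs hj)).trans (by omega))
      rw [hk, pow_mul]
      exact Subgroup.pow_mem _ (((K j).subgroupOf Q).normalCore_le
        (((K j).subgroupOf Q).normalCore.pow_index_mem (a : Q))) k)
    (fun i hi i' hi' j _ h h' => (hyy i hi i' hi' j).2 (coset_two h h'))
    (fun i hi j hj h h' => hd j (coset_diag h ((hyy i hi j hj j).1 h')))
  refine ⟨I', hs'.trans hs, hc.trans ?_, coset_mono ht dvd_rfl ?_⟩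
  · rw [card_univ, ← Nat.card_eq_fintype_card, ← Subgroup.index_eq_card, mul_assoc]
    exact Nat.mul_le_mul_left _ hc'
  · rw [sq]
    exact Nat.mul_le_mul_right _ ((Nat.le_of_dvd hG hAG).trans (by omega))

theorem coset (hB : StmtBFC) : StmtCoset := by
  classical
  have hB' : ∀ (T : ℕ) (δ : ℝ), ∃ B : ℕ, 0 < δ → ∀ (κ Q : Type) [Group Q] [Finite Q]
      (J : Finset κ) (N : κ → Subgroup Q), (∀ j ∈ J, (N j).Normal ∧ (N j).index ≤ T) →
      ∃ J' ⊆ J, ∃ A : Subgroup Q, (J.card : ℝ) ≤ B * (Nat.card Q : ℝ) ^ δ * J'.card ∧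
        A.index ≤ B ∧ ∀ j ∈ J', ∀ a ∈ A, ∀ b ∈ A, a * b * a⁻¹ * b⁻¹ ∈ N j := fun T δ => by
    by_cases h : 0 < δ
    · obtain ⟨B, h'⟩ := hB T δ h
      exact ⟨B, fun _ => h'⟩
    · exact ⟨0, fun k => absurd k h⟩
  choose B hBB using hB'
  refine ⟨fun η lam δ => ⌈Real.exp lam⌉₊.factorial + 2 + ⌈2 / η⌉₊ * B ⌈Real.exp lam⌉₊.factorial δ
    * (B ⌈Real.exp lam⌉₊.factorial δ * (⌈Real.exp lam⌉₊.factorial + 2).factorial), ?_⟩
  intro g hg κ G _ _ _ _ v w x K hd
  have hG : 0 < Nat.card G := Nat.card_pos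
  have hQ : ∀ Q : Subgroup G, (Nat.card Q : ℝ) ≤ ((2 * Nat.card G) ^ 2 : ℕ) := fun Q => by
    have h1 : Nat.card Q ≤ Nat.card G := Nat.le_of_dvd hG (Subgroup.card_subgroup_dvd_card Q)
    have h2 : Nat.card Q ≤ (2 * Nat.card G) ^ 2 := by nlinarith
    exact_mod_cast h2
  have hQ0 : ∀ Q : Subgroup G, (0 : ℝ) < Nat.card Q := fun Q => by exact_mod_cast Nat.card_pos
  refine ⟨hd, fun I => Real.log (Nat.card (coset_G w I)), fun I => ⟨Real.log_natCast_nonneg _,
    Real.log_le_log (hQ0 _) (hQ _)⟩, fun I I' h => Real.log_le_log (hQ0 _) ?_, ?_⟩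
  · exact_mod_cast Subgroup.card_le_of_le
      (coset_G_le w fun i hi i' hi' => coset_G_mem w (h hi) (h hi'))
  intro η lam δ hη hlam hδ I hI hdens
  have hpop := coset_pop (CosetT v w x K) I hI η hη hdens
  have hpos : (0 : ℝ) < I.card := by exact_mod_cast hI.card_pos
  have hdiv : ∀ t : ℝ, η * I.card ≤ 2 * t → (I.card : ℝ) ≤ 2 / η * t := fun t h => by
    rw [div_mul_eq_mul_div, le_div_iff₀ hη]
    linarith
  set J := I.filter fun j =>
    η * I.card ≤ 2 * ((I.filter fun i => CosetT v w x K i j).card : ℝ) with hJ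
  have hJI : J ⊆ I := filter_subset _ _
  set T := ⌈Real.exp lam⌉₊ with hT
  by_cases hc : ∃ j ∈ J, T < (K j).relIndex (coset_G w I)
  · obtain ⟨j, hj, hlt⟩ := hc
    refine Or.inl ⟨I.filter fun i => CosetT v w x K i j, filter_subset _ _,
      (hdiv _ (mem_filter.1 hj).2).trans
        (mul_le_mul_of_nonneg_right (hg η hη) (Nat.cast_nonneg _)), ?_⟩
    exact coset_gain
      (coset_G_le w fun i hi i' hi' => coset_two (mem_filter.1 hi).2 (mem_filter.1 hi').2)
      (coset_G_le w fun i hi i' hi' => coset_G_mem w (mem_filter.1 hi).1 (mem_filter.1 hi').1) hlt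
  push Not at hc
  have hN : ∀ j ∈ J, ((K j).subgroupOf (coset_G w I)).normalCore.index ≤ T.factorial :=
    fun j hj => coset_core _ (hc j hj)
  obtain ⟨J', hs, A, c1, c2, c3⟩ := hBB T.factorial δ hδ κ (coset_G w I) J
    (fun j => ((K j).subgroupOf (coset_G w I)).normalCore) fun j hj => ⟨inferInstance, hN j hj⟩
  have hne : J'.Nonempty := by
    rw [nonempty_iff_ne_empty]
    rintro rfl
    rw [card_empty, Nat.cast_zero, mul_zero] at c1
    have := mul_pos hη hpos
    linarith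
  obtain ⟨I', hs', d1, d2⟩ := coset_conv hd (coset_G w I) A J' hne
    (fun i hi i' hi' => coset_G_mem w (hJI (hs hi)) (hJI (hs hi'))) T.factorial
    (fun j hj => hN j (hs hj)) c3
  refine Or.inr ⟨I', hs'.trans (hs.trans hJI), ?_,
    coset_mono d2 (Nat.factorial_dvd_factorial (Nat.le_add_right _ _)) le_rfl⟩
  set b := B T.factorial δ
  set m := (T.factorial + 2).factorial
  have e1 : (J'.card : ℝ) ≤ b * m * I'.card := by
    exact_mod_cast d1.trans (Nat.mul_le_mul_right _ (Nat.mul_le_mul_right _ c2))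
  have e2 : (Nat.card (coset_G w I) : ℝ) ^ δ ≤ (((2 * Nat.card G) ^ 2 : ℕ) : ℝ) ^ δ :=
    Real.rpow_le_rpow (Nat.cast_nonneg _) (hQ _) hδ.le
  have e3 : 2 / η ≤ (⌈2 / η⌉₊ : ℝ) := Nat.le_ceil _
  set P := (((2 * Nat.card G) ^ 2 : ℕ) : ℝ) ^ δ
  have e4 : 0 ≤ P := by positivity
  calc (I.card : ℝ) ≤ 2 / η * J.card := hdiv _ hpop
    _ ≤ ⌈2 / η⌉₊ * (b * (Nat.card (coset_G w I) : ℝ) ^ δ * J'.card) := by gcongr
    _ ≤ ⌈2 / η⌉₊ * (b * P * (b * m * I'.card)) := by gcongr
    _ = ((⌈2 / η⌉₊ * b * (b * m) : ℕ) : ℝ) * P * I'.card := by push_cast; ring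
    _ ≤ _ := by gcongr; exact Nat.le_add_left _ _

end Pool.Agent.Work.MP_11a08a_al.Sol
end

-- merged part: Pool.Agent.Work.MP_11a08a_al.Sol.Change
section
/-!
Step 1 (over `F`): `R = span (range ρ)` is a finite dimensional subalgebra acting faithfully and simply on `V = Fin n → F`;
`J = span {ρ g * D * ρ g'}` is a nonzero two sided ideal.  `R` is semisimple (Artinian, the Jacobson radical kills the simple
module `V`), so the left ideal `J` is `R e` with `e` idempotent; `e x = e x e` for all `x ∈ R`; if `(1 - e) v ≠ 0` then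
`R (1 - e) v = V` is killed by `e`, so `J = 0`.  Hence `1 ∈ J`.  (Alternatively use the density theorem.)
Step 2: matrices `M g`, a rank factorisation `D = X * Y` with inner size `rk D`; a subring `S₀` containing all entries, `α`, `c`, with a
ring homomorphism to `L` (`⊤` in the first case; in the second case copy `exists_specialization` of `Transfer` with `L` in
place of the complex numbers); map everything as in `matrix_bound'` and `field_bound` of `Transfer`.
-/

set_option autoImplicit false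

open Finset Module
open scoped commutatorElement

namespace Pool.Agent.Work.MP_11a08a_al.Sol

theorem change_one {F G : Type} [Field F] [Group G] [Fintype G] {q n : ℕ}
    (ρ : Representation F G (Fin n → F)) (α : Fin q → F) (h : Fin q → G) (hirr : ρ.IsIrreducible)
    (hne : ∑ l, α l • ρ (h l) ≠ 0) :
    ∃ c : G → G → F, ∑ g, ∑ g', c g g' • (ρ g * (∑ l, α l • ρ (h l)) * ρ g') = 1 := by
  classical
  generalize hD : ∑ l, α l • ρ (h l) = D at hne
  let J : Submodule F (End F (Fin n → F)) :=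
    Submodule.span F (Set.range fun p : G × G => ρ p.1 * D * ρ p.2)
  have hb : ∀ a b, ρ a * D * ρ b ∈ J := fun a b => Submodule.subset_span ⟨(a, b), rfl⟩
  have hl : ∀ g, ∀ x ∈ J, ρ g * x ∈ J := by
    intro g x hx
    induction hx using Submodule.span_induction with
    | mem x hx =>
      obtain ⟨p, rfl⟩ := hx
      rw [← mul_assoc, ← mul_assoc, ← map_mul]
      exact hb _ _
    | zero => rw [mul_zero]; exact J.zero_mem
    | add x y _ _ hx hy => rw [mul_add]; exact J.add_mem hx hy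
    | smul a x _ hx => rw [mul_smul_comm]; exact J.smul_mem a hx
  have hr : ∀ g, ∀ x ∈ J, x * ρ g ∈ J := by
    intro g x hx
    induction hx using Submodule.span_induction with
    | mem x hx =>
      obtain ⟨p, rfl⟩ := hx
      rw [mul_assoc, ← map_mul]
      exact hb _ _
    | zero => rw [zero_mul]; exact J.zero_mem
    | add x y _ _ hx hy => rw [add_mul]; exact J.add_mem hx hy
    | smul a x _ hx => rw [smul_mul_assoc]; exact J.smul_mem a hx
  have hm : ∀ x ∈ J, ∀ y ∈ J, x * y ∈ J := by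
    intro x hx y hy
    induction hy using Submodule.span_induction with
    | mem y hy =>
      obtain ⟨p, rfl⟩ := hy
      dsimp only
      rw [← mul_assoc, ← mul_assoc, ← hD, mul_sum]
      refine hr _ _ (J.sum_mem fun l _ => ?_)
      rw [mul_smul_comm]
      exact J.smul_mem _ (hr _ _ (hr _ _ hx))
    | zero => rw [mul_zero]; exact J.zero_mem
    | add y z _ _ hy hz => rw [mul_add]; exact J.add_mem hy hz
    | smul a y _ hy => rw [mul_smul_comm]; exact J.smul_mem a hy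
  have h0 : ∀ u, (∀ x ∈ J, x u = 0) → u = 0 := by
    let Z : Subrepresentation ρ :=
      { toSubmodule := ⨅ x ∈ J, LinearMap.ker x
        apply_mem_toSubmodule := fun g v hv => by
          simp only [Submodule.mem_iInf, LinearMap.mem_ker] at hv ⊢
          exact fun x hx => hv _ (hr g x hx) }
    have hZ : ∀ u, u ∈ Z.toSubmodule ↔ ∀ x ∈ J, x u = 0 := fun u => by
      simp only [Z, Submodule.mem_iInf, LinearMap.mem_ker]
    rcases hirr.eq_bot_or_eq_top Z with e | e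
    · intro u hu
      have e1 : Z.toSubmodule = ⊥ := congrArg Subrepresentation.toSubmodule e
      have := (hZ u).2 hu
      rwa [e1] at this
    · have e1 : Z.toSubmodule = ⊤ := congrArg Subrepresentation.toSubmodule e
      refine absurd (LinearMap.ext fun u => ?_) hne
      simpa using (hZ u).1 (e1.ge Submodule.mem_top) _ (hb 1 1)
  have h1 : ∀ u, ∃ x ∈ J, x u = u := by
    intro u
    let Z : Subrepresentation ρ :=
      { toSubmodule := J.map (LinearMap.applyₗ u)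
        apply_mem_toSubmodule := by
          rintro g _ ⟨x, hx, rfl⟩
          exact ⟨_, hl g x hx, rfl⟩ }
    rcases hirr.eq_bot_or_eq_top Z with e | e
    · have e1 : Z.toSubmodule = ⊥ := congrArg Subrepresentation.toSubmodule e
      exact ⟨0, J.zero_mem, (h0 u fun x hx => e1.le ⟨x, hx, rfl⟩).symm⟩
    · have e1 : Z.toSubmodule = ⊤ := congrArg Subrepresentation.toSubmodule e
      exact e1.ge (Submodule.mem_top (x := u))
  have h2 : ∀ s : Finset (Fin n → F), ∃ e ∈ J, ∀ u ∈ s, e u = u := by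
    intro s
    induction s using Finset.induction_on with
    | empty => exact ⟨0, J.zero_mem, by simp⟩
    | insert v s _ ih =>
      obtain ⟨e, he, h3⟩ := ih
      obtain ⟨x, hx, h4⟩ := h1 (v - e v)
      refine ⟨e + x - x * e, J.sub_mem (J.add_mem he hx) (hm x hx e he), fun u hu => ?_⟩
      rw [LinearMap.sub_apply, LinearMap.add_apply, End.mul_apply, add_sub_assoc, ← map_sub]
      rcases mem_insert.mp hu with rfl | hu
      · rw [h4, add_sub_cancel]
      · rw [h3 u hu, sub_self, map_zero, add_zero]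
  obtain ⟨e, he, h3⟩ := h2 (univ.image (Pi.basisFun F (Fin n)))
  have h4 : e = 1 := (Pi.basisFun F (Fin n)).ext fun i => h3 _ (mem_image_of_mem _ (mem_univ i))
  obtain ⟨c, hc⟩ := (Submodule.mem_span_range_iff_exists_fun F).1 he
  exact ⟨fun g g' => c (g, g'), by rw [← h4, ← hc, Fintype.sum_prod_type]⟩

theorem change_spec0 {F L : Type} [Field F] [CharZero F] [Field L] [CharZero L] [IsAlgClosed L]
    (s : Set F) (hs : s.Finite) : ∃ (S : Subring F) (_ : S →+* L), s ⊆ S := by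
  have : Algebra.FiniteType ℚ (Algebra.adjoin ℚ s) := Algebra.FiniteType.adjoin_of_finite hs
  have key : ∀ (A : Type) [CommRing A] [Nontrivial A] [Algebra ℚ A] [Algebra.FiniteType ℚ A],
      Nonempty (A →+* L) := by
    intro A _ _ _ _
    obtain ⟨m, hm⟩ := Ideal.exists_maximal A
    let : Field (A ⧸ m) := Ideal.Quotient.field m
    have : Module.Finite ℚ (A ⧸ m) := finite_of_finite_type_of_isJacobsonRing ℚ (A ⧸ m)
    let φ : (A ⧸ m) →ₐ[ℚ] L := IsAlgClosed.lift
    exact ⟨φ.toRingHom.comp (Ideal.Quotient.mk m)⟩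
  obtain ⟨φ⟩ := key (Algebra.adjoin ℚ s)
  exact ⟨(Algebra.adjoin ℚ s).toSubring, φ, Algebra.subset_adjoin⟩

theorem change_spec {F L : Type} [Field F] [Field L]
    (hL : Nonempty (F →+* L) ∨ (CharZero F ∧ CharZero L ∧ IsAlgClosed L)) (s : Set F)
    (hs : s.Finite) : ∃ (S : Subring F) (_ : S →+* L), s ⊆ S := by
  rcases hL with ⟨⟨f⟩⟩ | ⟨_, _, _⟩
  · exact ⟨⊤, f.comp (Subring.subtype ⊤), fun _ _ => trivial⟩
  · exact change_spec0 s hs

/-- The matrix identities that are transferred. -/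
def change_P {K G : Type} [CommRing K] [Group G] [Fintype G] {q n r : ℕ} (h : Fin q → G)
    (M : G → Matrix (Fin n) (Fin n) K) (X : Matrix (Fin n) (Fin r) K)
    (Y : Matrix (Fin r) (Fin n) K) (α : Fin q → K) (c : G → G → K) : Prop :=
  M 1 = 1 ∧ (∀ a b, M (a * b) = M a * M b) ∧ ∑ i, α i • M (h i) = X * Y ∧
    ∑ g, ∑ g', c g g' • (M g * (X * Y) * M g') = 1

theorem change_map {S K G : Type} [CommRing S] [CommRing K] [Group G] [Fintype G] {q n r : ℕ}
    (h : Fin q → G) (M : G → Matrix (Fin n) (Fin n) S) (X : Matrix (Fin n) (Fin r) S)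
    (Y : Matrix (Fin r) (Fin n) S) (α : Fin q → S) (c : G → G → S) (f : S →+* K) :
    (change_P h M X Y α c → change_P h (fun g => (M g).map f) (X.map f) (Y.map f)
      (fun i => f (α i)) fun g g' => f (c g g')) ∧
    (Function.Injective f → change_P h (fun g => (M g).map f) (X.map f) (Y.map f)
      (fun i => f (α i)) (fun g g' => f (c g g')) → change_P h M X Y α c) := by
  have e0 : (1 : Matrix (Fin n) (Fin n) S).map f = 1 := Matrix.map_one _ (map_zero _) (map_one _)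
  have e1 : (∑ i, α i • M (h i)).map f = ∑ i, f (α i) • (M (h i)).map f := by
    ext i j
    simp [Matrix.sum_apply]
  have e2 : (∑ g, ∑ g', c g g' • (M g * (X * Y) * M g')).map f =
      ∑ g, ∑ g', f (c g g') • ((M g).map f * (X.map f * Y.map f) * (M g').map f) := by
    simp_rw [← Matrix.map_mul]
    ext i j
    simp only [Matrix.sum_apply, Matrix.map_apply, map_sum, Matrix.smul_apply, smul_eq_mul, map_mul]
  unfold change_P
  dsimp only
  rw [← e2, ← e1, ← e0]
  simp_rw [← Matrix.map_mul]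
  exact ⟨fun ⟨a1, a2, a3, a4⟩ => ⟨by rw [a1], fun a b => by rw [a2], by rw [a3], by rw [a4]⟩,
    fun hf ⟨a1, a2, a3, a4⟩ => ⟨Matrix.map_injective hf a1,
      fun a b => Matrix.map_injective hf (a2 a b), Matrix.map_injective hf a3,
      Matrix.map_injective hf a4⟩⟩

theorem change_mat {F L G : Type} [Field F] [Field L] [Group G] [Fintype G] {q n r : ℕ}
    (hL : Nonempty (F →+* L) ∨ (CharZero F ∧ CharZero L ∧ IsAlgClosed L)) (h : Fin q → G)
    (M : G → Matrix (Fin n) (Fin n) F) (X : Matrix (Fin n) (Fin r) F)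
    (Y : Matrix (Fin r) (Fin n) F) (α : Fin q → F) (c : G → G → F) (H : change_P h M X Y α c) :
    ∃ (M' : G → Matrix (Fin n) (Fin n) L) (X' : Matrix (Fin n) (Fin r) L)
      (Y' : Matrix (Fin r) (Fin n) L) (β : Fin q → L) (c' : G → G → L),
      change_P h M' X' Y' β c' := by
  obtain ⟨S, φ, hS⟩ := change_spec hL
    (Set.range (fun p : G × Fin n × Fin n => M p.1 p.2.1 p.2.2) ∪
      (Set.range (fun p : G × G => c p.1 p.2) ∪
      (Set.range (fun p : Fin n × Fin r => X p.1 p.2) ∪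
      (Set.range (fun p : Fin r × Fin n => Y p.1 p.2) ∪ Set.range α))))
    ((Set.finite_range _).union ((Set.finite_range _).union ((Set.finite_range _).union
      ((Set.finite_range _).union (Set.finite_range _)))))
  let M' : G → Matrix (Fin n) (Fin n) S := fun g => Matrix.of fun i j =>
    ⟨M g i j, hS (Or.inl ⟨(g, i, j), rfl⟩)⟩
  let c' : G → G → S := fun g g' => ⟨c g g', hS (Or.inr (Or.inl ⟨(g, g'), rfl⟩))⟩
  let X' : Matrix (Fin n) (Fin r) S := Matrix.of fun i j =>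
    ⟨X i j, hS (Or.inr (Or.inr (Or.inl ⟨(i, j), rfl⟩)))⟩
  let Y' : Matrix (Fin r) (Fin n) S := Matrix.of fun i j =>
    ⟨Y i j, hS (Or.inr (Or.inr (Or.inr (Or.inl ⟨(i, j), rfl⟩))))⟩
  let α' : Fin q → S := fun i => ⟨α i, hS (Or.inr (Or.inr (Or.inr (Or.inr ⟨i, rfl⟩))))⟩
  exact ⟨_, _, _, _, _, (change_map h M' X' Y' α' c' φ).1
    ((change_map h M' X' Y' α' c' S.subtype).2 S.subtype_injective H)⟩

theorem change : StmtChange := by
  intro F G _ _ _ q n ρ α h hirr hne L _ hL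
  obtain ⟨c, hc⟩ := change_one ρ α h hirr hne
  generalize hD : ∑ l, α l • ρ (h l) = D at hc
  let b := Module.finBasis F (LinearMap.range D)
  have hXY : LinearMap.toMatrix' ((LinearMap.range D).subtype ∘ₗ b.equivFun.symm.toLinearMap) *
      LinearMap.toMatrix' (b.equivFun.toLinearMap ∘ₗ D.rangeRestrict) =
      LinearMap.toMatrix' D := by
    rw [← LinearMap.toMatrix'_comp]
    congr 1
    refine LinearMap.ext fun v => ?_
    simp
  have h1 : LinearMap.toMatrix' (1 : End F (Fin n → F)) = 1 := LinearMap.toMatrix'_id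
  obtain ⟨M, X, Y, β, c', a1, a2, a3, a4⟩ := change_mat hL h (fun g => LinearMap.toMatrix' (ρ g))
    (LinearMap.toMatrix' ((LinearMap.range D).subtype ∘ₗ b.equivFun.symm.toLinearMap))
    (LinearMap.toMatrix' (b.equivFun.toLinearMap ∘ₗ D.rangeRestrict)) α c
    ⟨by simp only [map_one, h1], fun a b => by simp only [map_mul, LinearMap.toMatrix'_mul],
      by simp only [hXY, ← hD, map_sum, map_smul],
      by simp only [hXY, ← h1, ← hc, map_sum, map_smul, LinearMap.toMatrix'_mul]⟩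
  let σ : Representation L G (Fin n → L) :=
    { toFun := fun g => Matrix.toLin' (M g)
      map_one' := by rw [a1, Matrix.toLin'_one]; rfl
      map_mul' := fun a b => by rw [a2, Matrix.toLin'_mul]; rfl }
  have hσ : ∀ g, σ g = Matrix.toLin' (M g) := fun _ => rfl
  have hE : ∑ i, β i • σ (h i) = Matrix.toLin' (X * Y) := by
    simp only [← a3, map_sum, map_smul, hσ]
  refine ⟨σ, β, c', ?_, ?_⟩
  · rw [hE, End.one_eq_id, ← Matrix.toLin'_one, ← a4]
    simp only [map_sum, map_smul, hσ, End.mul_eq_comp, ← Matrix.toLin'_mul]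
  · rw [hE, Matrix.toLin'_mul]
    refine (Submodule.finrank_mono (LinearMap.range_comp_le_range _ _)).trans ?_
    exact (LinearMap.finrank_range_le _).trans (by rw [finrank_fin_fun]; rfl)

end Pool.Agent.Work.MP_11a08a_al.Sol
end
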