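import Pool.Agent.Work.MP_11a08a_al.Sol.RB

-- merged part: Pool.Agent.Work.MP_11a08a_al.Sol.Sec
section
/-!
`sec`: `Zs` is central, so `Subgroup.mem_sup_of_normal_right` or `Subgroup.mul_normal` describes the join.  The index is
nonzero since `S.subgroupOf (stab ρ W)` surjects on the coset space.  `SecZ`: given `B ≤ imS`, `A` normal in `B` containing
`Zs ⊓ B`, let `B' = {g ∈ S | g ∈ stab, resU g ∈ B ⊔ Zs}`; for `g ∈ B'` write `resU g = b z` and send `g` to the class of `b`: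
a well defined surjective homomorphism `B' →* B ⧸ A`; use its kernel and `QuotientGroup.quotientKerEquivOfSurjective`.
`cen`: `N = {γ | supp C (π γ) = ∅}` is a normal subgroup (`NmC`).  `γ ∈ N₁` maps each `L ∈ S₀` to a member of `S₀` (if the
image `L'` is outside `S₀` then `γ` centralises `L'` and `L = L'`), so `N₁` acts on the coset space of `Zs` in
`M₀ = S₀.sup id`, of order `≤ d ^ card S₀ ≤ (d + 1) ^ s` (`hJ`); the kernel centralises each `L ∈ S₀` modulo `Zs`, so exactly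
(`hJ`, second part), and lies in `N`.  `B = T * ((d + 1) ^ s)!`.
-/

set_option autoImplicit false

open Finset Module
open scoped commutatorElement

namespace Pool.Agent.Work.MP_11a08a_al.Sol

section
variable {F W : Type} [Field F] [AddCommGroup W] [Module F W]

theorem sec_comm {z : (End F W)ˣ} (hz : z ∈ Zs F W) (x : (End F W)ˣ) : x * z = z * x := by
  obtain ⟨c, -, h⟩ := hz
  exact Units.ext (by simp [h])

theorem sec_normal : (Zs F W).Normal :=
  ⟨fun z hz x => by rw [sec_comm hz x, mul_inv_cancel_right]; exact hz⟩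

end

section
variable {F G V : Type} [Field F] [Group G] [AddCommGroup V] [Module F V]

theorem sec_mem (ρ : Representation F G V) (W : Submodule F V) (S : Subgroup G)
    (u : (End F W)ˣ) : u ∈ imS ρ W S ↔ ∃ (s : stab ρ W) (z : (End F W)ˣ), s.1 ∈ S ∧
      z ∈ Zs F W ∧ u = resU ρ W s * z := by
  have := sec_normal (F := F) (W := W)
  unfold imS
  rw [Subgroup.mem_sup_of_normal_right]
  constructor
  · rintro ⟨y, ⟨s, hs, rfl⟩, z, hz, rfl⟩
    exact ⟨s, z, hs, hz, rfl⟩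
  · rintro ⟨s, z, hs, hz, rfl⟩
    exact ⟨_, ⟨s, hs, rfl⟩, z, hz, rfl⟩

theorem sec_fin [Finite G] (ρ : Representation F G V) (W : Submodule F V) (S : Subgroup G) :
    (Zs F W).relIndex (imS ρ W S) ≠ 0 := by
  have := sec_normal (F := F) (W := W)
  unfold imS
  rw [Subgroup.relIndex_sup_right]
  have : Finite ((S.subgroupOf (stab ρ W)).map (resU ρ W)) :=
    Finite.of_surjective _ ((resU ρ W).subgroupMap_surjective _)
  exact Subgroup.index_ne_zero_of_finite

theorem sec_conj (ρ : Representation F G V) (W : Submodule F V) (S : Subgroup G)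
    (g : stab ρ W) (hg : g.1 ∈ Subgroup.normalizer (S : Set G)) (u : (End F W)ˣ)
    (hu : u ∈ imS ρ W S) : resU ρ W g * u * (resU ρ W g)⁻¹ ∈ imS ρ W S := by
  rw [sec_mem] at hu ⊢
  obtain ⟨s, z, hs, hz, rfl⟩ := hu
  refine ⟨g * s * g⁻¹, z, ?_, hz, ?_⟩
  · exact (Subgroup.mem_normalizer_iff.1 hg s.1).1 hs
  · rw [map_mul, map_mul, map_inv, mul_assoc, mul_assoc, ← sec_comm hz]
    group

theorem sec_nm (ρ : Representation F G V) (W : Submodule F V) (S : Subgroup G)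
    (g : stab ρ W) (hg : g.1 ∈ Subgroup.normalizer (S : Set G)) :
    Nm (resU ρ W g) (imS ρ W S) := by
  unfold Nm
  rw [Subgroup.mem_normalizer_iff]
  intro u
  refine ⟨sec_conj ρ W S g hg u, fun h => ?_⟩
  have := sec_conj ρ W S g⁻¹ (Subgroup.inv_mem _ hg) _ h
  rw [map_inv] at this
  convert this using 1
  group

theorem sec_sc (ρ : Representation F G V) (W : Submodule F V) (g : stab ρ W) (hW : W ≠ ⊥) :
    Sc ρ W g.1 ↔ resU ρ W g ∈ Zs F W := by
  constructor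
  · rintro ⟨c, hc⟩
    have e : (resU ρ W g : End F W) = c • (1 : End F W) := by
      ext w
      rw [resU_apply, hc w w.2]
      simp
    refine ⟨c, ?_, e⟩
    rintro rfl
    have : Nontrivial W := Submodule.nontrivial_iff_ne_bot.2 hW
    rw [zero_smul] at e
    exact (resU ρ W g).ne_zero e
  · rintro ⟨c, -, hc⟩
    refine ⟨c, fun w hw => ?_⟩
    have := resU_apply ρ W g ⟨w, hw⟩
    rw [hc] at this
    simpa using this.symm

theorem sec_secZ (ρ : Representation F G V) (W : Submodule F V) (S : Subgroup G) (d : ℕ)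
    (hS : SecBd d S) : SecZ d (imS ρ W S) := by
  classical
  have := sec_normal (F := F) (W := W)
  intro B hB A hA hZA hs
  let q : (End F W)ˣ →* (End F W)ˣ ⧸ Zs F W := QuotientGroup.mk' (Zs F W)
  let f0 : B →* (q.comp B.subtype).range := (q.comp B.subtype).rangeRestrict
  have hf0 : Function.Surjective f0 := MonoidHom.rangeRestrict_surjective _
  have hker : f0.ker ≤ (QuotientGroup.mk' A).ker := by
    intro b hb
    rw [QuotientGroup.ker_mk']
    apply hZA
    rw [Subgroup.mem_subgroupOf]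
    have h1 : q b.1 = 1 := congrArg Subtype.val (MonoidHom.mem_ker.1 hb)
    exact (QuotientGroup.eq_one_iff _).1 h1
  let l : (q.comp B.subtype).range →* B ⧸ A :=
    f0.liftOfSurjective hf0 ⟨QuotientGroup.mk' A, hker⟩
  have hl : ∀ b : B, l (f0 b) = QuotientGroup.mk' A b := fun b =>
    MonoidHom.liftOfRightInverse_comp_apply _ _ _ _ b
  let B0 : Subgroup (stab ρ W) :=
    ((q.comp B.subtype).range.comap (q.comp (resU ρ W))) ⊓ S.subgroupOf (stab ρ W)
  let B' : Subgroup G := B0.map (stab ρ W).subtype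
  have hB'S : B' ≤ S := by
    rintro _ ⟨g, hg, rfl⟩
    exact hg.2
  let e : B0 ≃* B' := B0.equivMapOfInjective _ (stab ρ W).subtype_injective
  let h0 : B0 →* (q.comp B.subtype).range :=
    ((q.comp (resU ρ W)).comp B0.subtype).codRestrict _ fun g => g.2.1
  let h : B' →* B ⧸ A := (l.comp h0).comp e.symm.toMonoidHom
  have hh : Function.Surjective h := by
    intro x
    obtain ⟨b, rfl⟩ := QuotientGroup.mk'_surjective A x
    obtain ⟨s, z, hs', hz, hb⟩ := (sec_mem ρ W S b.1).1 (hB b.2)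
    have hq : q (resU ρ W s) = q b.1 := by
      have hz1 : q z = 1 := (QuotientGroup.eq_one_iff z).2 hz
      rw [hb, map_mul, hz1, mul_one]
    have hs0 : s ∈ B0 := ⟨⟨b, hq.symm⟩, hs'⟩
    refine ⟨e ⟨s, hs0⟩, ?_⟩
    have : h0 ⟨s, hs0⟩ = f0 b := Subtype.ext hq
    simp only [h, MonoidHom.comp_apply, MulEquiv.coe_toMonoidHom, MulEquiv.symm_apply_apply]
    rw [this, hl]
  let ε := QuotientGroup.quotientKerEquivOfSurjective h hh
  have : IsSimpleGroup (B' ⧸ h.ker) := ε.isSimpleGroup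
  rcases hS B' hB'S h.ker inferInstance inferInstance with hc | hc
  · left
    intro x y
    obtain ⟨x, rfl⟩ := ε.surjective x
    obtain ⟨y, rfl⟩ := ε.surjective y
    rw [← map_mul, hc, map_mul]
  · right
    rwa [← Nat.card_congr ε.toEquiv]

end

theorem sec : StmtSec := by
  intro F G V _ _ _ _ _ ρ W S
  exact ⟨sec_mem ρ W S, sec_fin ρ W S, sec_nm ρ W S, sec_sc ρ W, sec_secZ ρ W S⟩

section
variable {F W : Type} [Field F] [AddCommGroup W] [Module F W]

/-- The elements centralising every member of the family. -/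
def sec_N {Q : Type} [Group Q] (π : Q →* (End F W)ˣ) (C : Finset (Subgroup (End F W)ˣ)) :
    Subgroup Q where
  carrier := {γ | ∀ L ∈ C, ∀ y ∈ L, π γ * y = y * π γ}
  one_mem' := fun L _ y _ => by simp
  mul_mem' := fun {a b} ha hb L hL y hy => by
    rw [map_mul, mul_assoc, hb L hL y hy, ← mul_assoc, ha L hL y hy, mul_assoc]
  inv_mem' := fun {a} ha L hL y hy => by
    rw [map_inv, inv_mul_eq_iff_eq_mul, ← mul_assoc, ha L hL y hy, mul_inv_cancel_right]

theorem sec_N_normal {Q : Type} [Group Q] (π : Q →* (End F W)ˣ)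
    (C : Finset (Subgroup (End F W)ˣ)) (h : ∀ γ, NmC (π γ) C) : (sec_N π C).Normal := by
  refine ⟨fun n hn g L hL y hy => ?_⟩
  have h1 := hn _ (h g L hL).2 ((π g)⁻¹ * y * (π g)⁻¹⁻¹) ⟨y, hy, rfl⟩
  rw [map_mul, map_mul, map_inv]
  calc π g * π n * (π g)⁻¹ * y
      = π g * (π n * ((π g)⁻¹ * y * (π g)⁻¹⁻¹)) * (π g)⁻¹ := by group
    _ = y * (π g * π n * (π g)⁻¹) := by rw [h1]; group

theorem sec_sup_conj {C S₀ : Finset (Subgroup (End F W)ˣ)} (hS : S₀ ⊆ C) (t : (End F W)ˣ)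
    (ht : NmC t C) (hc : ∀ L ∈ C, L ∉ S₀ → ∀ y ∈ L, t * y = y * t) (u : (End F W)ˣ)
    (hu : u ∈ S₀.sup id) : t * u * t⁻¹ ∈ S₀.sup id := by
  have key : S₀.sup id ≤ (S₀.sup id : Subgroup (End F W)ˣ).comap (MulAut.conj t).toMonoidHom := by
    refine Finset.sup_le fun L hL y hy => ?_
    have hy' : t * y * t⁻¹ ∈ L.map (MulAut.conj t).toMonoidHom := ⟨y, hy, rfl⟩
    change t * y * t⁻¹ ∈ S₀.sup id
    by_cases hm : L.map (MulAut.conj t).toMonoidHom ∈ S₀
    · exact Finset.le_sup (f := id) hm hy'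
    · have h1 := hc _ (ht L (hS hL)).1 hm _ hy'
      have h2 : t * y * t⁻¹ = y := by
        have h3 : t * (t * y * t⁻¹) = t * y := by rw [h1, inv_mul_cancel_right]
        exact mul_left_cancel h3
      rw [h2]
      exact Finset.le_sup (f := id) hL hy
  exact key hu

end

theorem sec_card_aut (M : Type) [Group M] [Finite M] :
    Nat.card (MulAut M) ≤ (Nat.card M).factorial := by
  rw [← Nat.card_perm]
  exact Nat.card_le_card_of_injective _ MulEquiv.toEquiv_injective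

theorem cen (hJ : StmtJoin) : StmtCen := by
  intro d s T
  refine ⟨T * ((d + 1) ^ s).factorial, ?_⟩
  intro F W Q _ _ _ _ _ _ π C S₀ N₁ hC hN hS hs hT hc
  have := sec_normal (F := F) (W := W)
  obtain ⟨j1, j2, -⟩ := hJ F W d C hC
  obtain ⟨j0, j1, -⟩ := j1 S₀ hS
  refine ⟨sec_N π C, sec_N_normal π C hN, ?_, fun γ hγ => ?_⟩
  · let q : (End F W)ˣ →* (End F W)ˣ ⧸ Zs F W := QuotientGroup.mk' (Zs F W)
    let M₀ : Subgroup (End F W)ˣ := S₀.sup id
    let M : Subgroup ((End F W)ˣ ⧸ Zs F W) := M₀.map q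
    have hM : Nat.card M = (Zs F W).relIndex M₀ := by
      rw [← Subgroup.relIndex_ker, QuotientGroup.ker_mk']
    have : Finite M := Nat.finite_of_card_ne_zero (hM ▸ j0)
    have hM' : Nat.card M ≤ (d + 1) ^ s :=
      calc Nat.card M ≤ d ^ S₀.card := hM ▸ j1
        _ ≤ (d + 1) ^ S₀.card := Nat.pow_le_pow_left (Nat.le_succ d) _
        _ ≤ (d + 1) ^ s := Nat.pow_le_pow_right (Nat.succ_pos d) hs
    have hn0 : ∀ γ ∈ N₁, π γ ∈ Subgroup.normalizer (M₀ : Set (End F W)ˣ) := by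
      intro γ hγ
      rw [Subgroup.mem_normalizer_iff]
      intro u
      refine ⟨sec_sup_conj hS _ (hN γ) (hc γ hγ) u, fun h => ?_⟩
      have := sec_sup_conj hS _ (hN γ⁻¹) (hc γ⁻¹ (N₁.inv_mem hγ)) _ h
      rw [map_inv] at this
      convert this using 1
      group
    have hn : ∀ γ : N₁, ((q.comp π).comp N₁.subtype) γ ∈ Subgroup.normalizer (M : Set _) :=
      fun γ => Subgroup.le_normalizer_map q ⟨π γ.1, hn0 γ.1 γ.2, rfl⟩
    let φ : N₁ →* MulAut M :=
      M.normalizerMonoidHom.comp (((q.comp π).comp N₁.subtype).codRestrict _ hn)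
    have hk : φ.ker ≤ (sec_N π C).subgroupOf N₁ := by
      intro γ hγ L hL y hy
      by_cases hm : L ∈ S₀
      · refine j2 L hL _ (fun y hy => ?_) y hy
        have h1 : ((q.comp π).comp N₁.subtype).codRestrict _ hn γ ∈ M.normalizerMonoidHom.ker := hγ
        rw [Subgroup.normalizerMonoidHom_ker, Subgroup.mem_subgroupOf,
          Subgroup.mem_centralizer_iff] at h1
        have h2 : q y * q (π γ.1) = q (π γ.1) * q y :=
          h1 (q y) ⟨y, Finset.le_sup (f := id) hm hy, rfl⟩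
        have h3 : q ⁅π γ.1, y⁆ = 1 := by
          rw [map_commutatorElement, commutatorElement_eq_one_iff_mul_comm, h2]
        exact (QuotientGroup.eq_one_iff _).1 h3
      · exact hc γ.1 γ.2 L hL hm y hy
    have h1 : φ.ker.index ≤ ((d + 1) ^ s).factorial := by
      rw [Subgroup.index_ker]
      exact (Nat.card_le_card_of_injective _ φ.range.subtype_injective).trans
        ((sec_card_aut M).trans (Nat.factorial_le hM'))
    have h2 : (sec_N π C).relIndex N₁ ≤ ((d + 1) ^ s).factorial :=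
      (Subgroup.index_antitone hk).trans h1
    have h3 : (sec_N π C).index ≤ (sec_N π C ⊓ N₁).index := Subgroup.index_antitone inf_le_left
    rw [← Subgroup.relIndex_mul_index (inf_le_right : sec_N π C ⊓ N₁ ≤ N₁),
      Subgroup.inf_relIndex_right] at h3
    exact h3.trans ((Nat.mul_le_mul h2 hT).trans (le_of_eq (mul_comm _ _)))
  · classical
    unfold supp
    rw [Finset.eq_empty_iff_forall_notMem]
    intro L hL
    rw [Finset.mem_filter] at hL
    exact hL.2 (hγ L hL.1)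

end Pool.Agent.Work.MP_11a08a_al.Sol
end

-- merged part: Pool.Agent.Work.MP_11a08a_al.Sol.Nil0
section
/-!
`B = q * q * B₀`.  `W ≠ ⊥`, pick `l₀ ∈ P`, `w₀ ∈ W` with `v = ∑ l ∈ P, α l • ρ ((d l₀)⁻¹ * d l) w₀ ≠ 0` and a functional `ψ`
with `ψ v ≠ 0`; `β l = if l ∈ P then α l * ψ (ρ ((d l₀)⁻¹ d l) w₀) else 0`, `R` from `Ratio`.  `lam n` the scalar of `n ∈ N` on
`W` (multiplicative, `lam n ^ orderOf n = 1`, invariant under conjugation by elements of `stab ⊓ normalizer`).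
`K₀ = {n ∈ N | ∀ w ∈ W, ρ n w = w}`.  List the entries `(l, l', (d l)⁻¹ d l' * y z, K₀)` for `l l' ∈ P` and `z ∈ R` of the form
`lam (y z)`, `y z ∈ N`.  For a row `b`: `(b l₀)⁻¹ b l = (d l₀)⁻¹ d l * n l`, `ζ l = lam (n l)` (`1` outside `P`),
`∑ β l ζ l = 0`; for the pair with `ζ l' / ζ l = z`, `D = (d l)⁻¹ d l'`: `D⁻¹ (b l)⁻¹ b l' = (D⁻¹ (n l)⁻¹ D) n l'` has scalar `z`.
-/

set_option autoImplicit false

open Finset Module
open scoped commutatorElement

namespace Pool.Agent.Work.MP_11a08a_al.Sol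

theorem nil0 : StmtNil0 := by
  classical
  intro q B₀
  refine ⟨q * q * B₀, ?_⟩
  intro F G V _ _ _ _ _ _ _ ρ α m k P d W N hR hO _ _ _ hds _ hg hnv
  have hg' : ∀ n ∈ N, ∃ c : F, ∀ w ∈ W, ρ n w = c • w := hg
  choose! lam hlam using hg'
  simp only [Van, not_forall] at hnv
  obtain ⟨w₀, hw₀, hne⟩ := hnv
  obtain ⟨l₀, hl₀⟩ : P.Nonempty := by
    rw [nonempty_iff_ne_empty]
    rintro rfl
    exact hne sum_empty
  have hw0 : w₀ ≠ 0 := by
    rintro rfl
    exact hne (by simp)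
  have inj : ∀ (g : G) (v : V), ρ g v = 0 → v = 0 := fun g v h => by
    have := congrArg (ρ g⁻¹) h
    rwa [← Module.End.mul_apply, ← map_mul, inv_mul_cancel, map_one, map_zero] at this
  have shift : ∀ (b : Fin q → G) (g : G), ρ g (∑ l ∈ P, α l • ρ (b l) w₀) =
      ∑ l ∈ P, α l • ρ (g * b l) w₀ := fun b g => by
    rw [map_sum]
    exact sum_congr rfl fun l _ => by rw [map_smul, map_mul, Module.End.mul_apply]
  have hv : ∑ l ∈ P, α l • ρ ((d l₀)⁻¹ * d l) w₀ ≠ 0 := by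
    rw [← shift]
    exact fun h => hne (inj _ _ h)
  obtain ⟨ψ, hψ⟩ := Module.Projective.exists_dual_ne_zero F hv
  let β : Fin q → F := fun l => if l ∈ P then α l * ψ (ρ ((d l₀)⁻¹ * d l) w₀) else 0
  have hsum : ∀ ζ : Fin q → F, ∑ l, β l * ζ l =
      ψ (∑ l ∈ P, α l • ρ ((d l₀)⁻¹ * d l) (ζ l • w₀)) := fun ζ => by
    rw [map_sum, ← sum_subset (subset_univ P) fun l _ hl => by simp [β, hl]]
    refine sum_congr rfl fun l hl => ?_
    simp only [β, if_pos hl, map_smul, smul_eq_mul]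
    ring
  have hβ : ∑ l, β l ≠ 0 := by
    have := hsum fun _ => 1
    simp only [mul_one, one_smul] at this
    rwa [this]
  obtain ⟨R, hRc, hR1, hR2⟩ := hR β hβ
  have canc : ∀ (v : V) (a b : F), v ≠ 0 → a • v = b • v → a = b := fun v a b hv h =>
    smul_left_injective F hv h
  have hpow : ∀ n ∈ N, lam n ^ orderOf n = 1 := fun n hn => by
    have h1 : ∀ j : ℕ, ρ (n ^ j) w₀ = lam n ^ j • w₀ := fun j => by
      induction j with
      | zero => simp
      | succ j ih =>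
        rw [pow_succ, map_mul, Module.End.mul_apply, hlam n hn w₀ hw₀, map_smul, ih, smul_smul,
          pow_succ']
    refine canc w₀ _ _ hw0 ?_
    rw [← h1, pow_orderOf_eq_one, map_one, one_smul, Module.End.one_apply]
  have hlam0 : ∀ n ∈ N, lam n ≠ 0 := fun n hn h =>
    hw0 (inj n w₀ (by rw [hlam n hn w₀ hw₀, h, zero_smul]))
  let K₀ : Subgroup G :=
    { carrier := {n | ∀ w ∈ W, ρ n w = w}
      one_mem' := fun w _ => by simp
      mul_mem' := fun {a b} ha hb w hw => by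
        rw [map_mul, Module.End.mul_apply, hb w hw, ha w hw]
      inv_mem' := fun {a} ha w hw => by
        conv_lhs => rw [← ha w hw]
        rw [← Module.End.mul_apply, ← map_mul, inv_mul_cancel, map_one, Module.End.one_apply] }
  have hy : ∀ z : F, (∃ n ∈ N, lam n = z) → ∃ n, n ∈ N ∧ lam n = z := fun z h => h
  choose! y hy1 hy2 using hy
  refine ⟨((P ×ˢ P) ×ˢ R.filter fun z => ∃ n ∈ N, lam n = z).image
    fun x => (x.1.1, x.1.2, (d x.1.1)⁻¹ * d x.1.2 * y x.2, K₀), ?_, ?_, ?_⟩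
  · refine card_image_le.trans ?_
    have hP : P.card ≤ q := by simpa using card_le_univ P
    rw [card_product, card_product]
    exact Nat.mul_le_mul (Nat.mul_le_mul hP hP) ((card_filter_le _ _).trans hRc)
  · intro e he
    obtain ⟨x, hx, rfl⟩ := mem_image.1 he
    obtain ⟨hz, hz'⟩ := mem_filter.1 (mem_product.1 hx).2
    intro h
    have e : ((d x.1.1)⁻¹ * d x.1.2 * y x.2)⁻¹ * ((d x.1.1)⁻¹ * d x.1.2) = (y x.2)⁻¹ := by group
    have h' : (y x.2)⁻¹ ∈ K₀ := e ▸ h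
    have h1 : ρ (y x.2) w₀ = w₀ := (K₀.inv_mem_iff.1 h') w₀ hw₀
    rw [hlam _ (hy1 _ hz') w₀ hw₀, hy2 _ hz'] at h1
    have h2 : x.2 = 1 := canc w₀ _ _ hw0 (by rwa [one_smul])
    exact hR1 (h2 ▸ hz)
  · rintro b ⟨hb, hb'⟩
    let n : Fin q → G := fun l => ((d l₀)⁻¹ * d l)⁻¹ * ((b l₀)⁻¹ * b l)
    have hn : ∀ l ∈ P, n l ∈ N := fun l hl => hb l₀ hl₀ l hl
    let ζ : Fin q → F := fun l => if l ∈ P then lam (n l) else 1
    have h1 : ∀ l, ζ l ^ m = 1 := fun l => by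
      by_cases c : l ∈ P
      · simp only [ζ, if_pos c]
        exact hO _ (hn l c) _ (hpow _ (hn l c))
      · simp only [ζ, if_neg c, one_pow]
    have h2 : ∑ l, β l * ζ l = 0 := by
      have a := shift b (b l₀)⁻¹
      rw [hb' w₀ hw₀, map_zero] at a
      rw [hsum, ← map_zero ψ, a]
      refine congrArg ψ (sum_congr rfl fun l hl => ?_)
      simp only [ζ, if_pos hl]
      rw [← hlam _ (hn l hl) w₀ hw₀, ← Module.End.mul_apply, ← map_mul]
      simp only [n, mul_inv_cancel_left]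
    obtain ⟨l, l', hl, hl', hz⟩ := hR2 ζ h1 h2
    have c : l ∈ P := by
      by_contra c
      exact hl (if_neg c)
    have c' : l' ∈ P := by
      by_contra c'
      exact hl' (if_neg c')
    simp only [ζ, if_pos c, if_pos c'] at hz
    have hu := hb l c l' c'
    have hD : ρ ((d l)⁻¹ * d l') w₀ ∈ W := (hds l c l' c').1 w₀ hw₀
    have e : n l * ((d l)⁻¹ * d l') * (((d l)⁻¹ * d l')⁻¹ * ((b l)⁻¹ * b l')) =
        (d l)⁻¹ * d l' * n l' := by
      simp only [n]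
      group
    have h3 := congrArg (fun g => ρ g w₀) e
    simp only [map_mul (f := ρ) (n l * _), map_mul (f := ρ) (n l), map_mul (f := ρ) _ (n l'),
      Module.End.mul_apply] at h3
    rw [hlam _ hu w₀ hw₀, hlam _ (hn l' c') w₀ hw₀, map_smul, map_smul, map_smul,
      hlam _ (hn l c) _ hD, smul_smul] at h3
    have h4 := canc _ _ _ (fun h => hw0 (inj _ _ h)) h3
    have h5 : lam (((d l)⁻¹ * d l')⁻¹ * ((b l)⁻¹ * b l')) = lam (n l') / lam (n l) :=
      eq_div_of_mul_eq (hlam0 _ (hn l c)) h4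
    have h6 : ∃ u ∈ N, lam u = lam (n l') / lam (n l) := ⟨_, hu, h5⟩
    refine ⟨_, mem_image.2 ⟨((l, l'), lam (n l') / lam (n l)),
      mem_product.2 ⟨mem_product.2 ⟨c, c'⟩, mem_filter.2 ⟨hz, h6⟩⟩, rfl⟩, fun w hw => ?_⟩
    have e' : ((d l)⁻¹ * d l' * y (lam (n l') / lam (n l)))⁻¹ * ((b l)⁻¹ * b l') =
        (y (lam (n l') / lam (n l)))⁻¹ * (((d l)⁻¹ * d l')⁻¹ * ((b l)⁻¹ * b l')) := by group
    change ρ (((d l)⁻¹ * d l' * y (lam (n l') / lam (n l)))⁻¹ * ((b l)⁻¹ * b l')) w = w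
    rw [e', map_mul, Module.End.mul_apply, hlam _ hu w hw, h5]
    have a := hlam _ (hy1 _ h6) w hw
    rw [hy2 _ h6] at a
    rw [← a, ← Module.End.mul_apply, ← map_mul, inv_mul_cancel, map_one, Module.End.one_apply]

end Pool.Agent.Work.MP_11a08a_al.Sol
end

-- merged part: Pool.Agent.Work.MP_11a08a_al.Sol.NilB
section
/-!
`π = resU ρ W`, `E = imS ρ W A` is `Heis` (`hS`; commutators and centre from the hypotheses), normalised by `π g` for
`g ∈ stab` normalising `A`; `E ≤ fixE E (π n)` for `n ∈ N`, so `fixE E (π (D n)) = fixE E (π D)`.  `T₀` from `hN`,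
`B = q * q * (T₀ + 1) ^ (q * q)`.  For a row `b` and `l₀ ∈ P` the elements `r l = (b l₀)⁻¹ b l` lie in `stab`, and `MinV` holds
(`hB`, last item; extend `r` by `1` outside `P`).  If some quotient `D = (d l)⁻¹ d l'` has `sig E (π D) > T₀` there are no rows.
Otherwise `E₀ = E ⊓ ⨅ fixE E (π D)` contains `Zs` and has index `≤ (T₀ + 1) ^ (q * q)` in `E`.  For a row, each `α l • π (r l)` is a joint
eigenvector of the conjugations by `e : E₀` on `End F W` with character `χ l e` = scalar of `⁅e, π (r l)⁆`; `hDi` (first part) and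
`hB` (`MinV` item) make all `χ l` equal to `χ l₀ = 1`.  So every quotient of `b` lies in `K₀ = {g ∈ stab | π g commutes with E₀}`.
`N₀ = N ⊓ K₀`; `C.relIndex N₀ ≤ E₀.relIndex E` by `hDu` (third part, for `N₀` mapped by `π`; `Subgroup.relIndex_comap`).
For each pair `(l, l')` choose, if possible, `g ∈ K₀` with `D⁻¹ g ∈ N`, representatives `y` of the cosets of `C` in `N₀`, and list
`(l, l', g y, C)` when `(g y)⁻¹ D ∉ C`.
-/

set_option autoImplicit false

open Finset Module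
open scoped commutatorElement

namespace Pool.Agent.Work.MP_11a08a_al.Sol

section

variable {G : Type} [Group G] [Finite G]

theorem nilb_cos (N C : Subgroup G) (g : G) :
    ∃ Y : Finset G, Y.card ≤ C.relIndex N ∧ ∀ n ∈ N, ∃ y ∈ Y, y⁻¹ * (g * n) ∈ C := by
  classical
  let _ := Fintype.ofFinite (N ⧸ C.subgroupOf N)
  refine ⟨univ.image fun x : N ⧸ C.subgroupOf N => g * (x.out : N), ?_, fun n hn => ?_⟩
  · refine card_image_le.trans ?_
    rw [card_univ, ← Nat.card_eq_fintype_card]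
    exact le_rfl
  · refine ⟨_, mem_image_of_mem _ (mem_univ (QuotientGroup.mk ⟨n, hn⟩)), ?_⟩
    have := QuotientGroup.eq.1 (QuotientGroup.out_eq' (QuotientGroup.mk (⟨n, hn⟩ : N) :
      N ⧸ C.subgroupOf N))
    rw [mul_inv_rev, mul_assoc, inv_mul_cancel_left]
    exact this

theorem nilb_cov {q M : ℕ} (P : Finset (Fin q)) (d : Fin q → G) (N K C : Subgroup G)
    (h : C.relIndex (N ⊓ K) ≤ M) :
    Cov (q * q * M) d fun b => Pat P d b N ∧ Rat P b K ∧ ¬ Pat P d b C := by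
  classical
  have key : ∀ D : G, ∃ Y : Finset G, Y.card ≤ M ∧
      ∀ Q ∈ K, D⁻¹ * Q ∈ N → ∃ y ∈ Y, y⁻¹ * Q ∈ C := fun D => by
    by_cases c : ∃ g ∈ K, D⁻¹ * g ∈ N
    · obtain ⟨g, g1, g2⟩ := c
      obtain ⟨Y, y1, y2⟩ := nilb_cos (N ⊓ K) C g
      refine ⟨Y, y1.trans h, fun Q q1 q2 => ?_⟩
      have := y2 (g⁻¹ * Q) ⟨?_, K.mul_mem (K.inv_mem g1) q1⟩
      · rwa [mul_inv_cancel_left] at this
      · have := mul_mem (inv_mem g2) q2
        rwa [mul_inv_rev, inv_inv, mul_assoc, mul_inv_cancel_left] at this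
    · exact ⟨∅, Nat.zero_le _, fun Q q1 q2 => (c ⟨Q, q1, q2⟩).elim⟩
  choose Y y1 y2 using key
  refine ⟨univ.biUnion fun e : Fin q × Fin q =>
    ((Y ((d e.1)⁻¹ * d e.2)).filter fun y => y⁻¹ * ((d e.1)⁻¹ * d e.2) ∉ C).image
      fun y => (e.1, e.2, y, C), ?_, fun x hx => ?_, fun b hb => ?_⟩
  · refine (card_biUnion_le_card_mul _ _ M fun e _ =>
      card_image_le.trans ((card_filter_le _ _).trans (y1 _))).trans ?_
    rw [card_univ, Fintype.card_prod, Fintype.card_fin]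
  · obtain ⟨e, -, hx⟩ := mem_biUnion.1 hx
    obtain ⟨y, hy, rfl⟩ := mem_image.1 hx
    exact (mem_filter.1 hy).2
  · obtain ⟨b1, b2, b3⟩ := hb
    simp only [Pat, not_forall] at b3
    obtain ⟨l, hl, l', hl', b3⟩ := b3
    obtain ⟨y, hy, hy'⟩ := y2 _ _ (b2 l hl l' hl') (b1 l hl l' hl')
    refine ⟨(l, l', y, C), mem_biUnion.2 ⟨(l, l'), mem_univ _, mem_image_of_mem _
      (mem_filter.2 ⟨hy, fun c => b3 ?_⟩)⟩, hy'⟩
    have := mul_mem (inv_mem c) hy'
    rwa [mul_inv_rev, inv_inv, mul_assoc, mul_inv_cancel_left] at this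

end

section

variable {F W : Type} [Field F] [AddCommGroup W] [Module F W]

theorem nilb_cen {z : (End F W)ˣ} (hz : z ∈ Zs F W) (x : (End F W)ˣ) : z * x = x * z := by
  obtain ⟨c, -, h⟩ := hz
  exact Units.ext (by simp [h])

theorem nilb_right {z : (End F W)ˣ} (hz : z ∈ Zs F W) (x y : (End F W)ˣ) :
    ⁅x, y * z⁆ = ⁅x, y⁆ := by
  have : ⁅x, y * z⁆ = x * y * (z * x⁻¹) * z⁻¹ * y⁻¹ := by
    simp only [commutatorElement_def]
    group
  rw [this, nilb_cen hz, commutatorElement_def]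
  group

theorem nilb_left {z : (End F W)ˣ} (hz : z ∈ Zs F W) (x y : (End F W)ˣ) :
    ⁅x * z, y⁆ = ⁅x, y⁆ := by
  rw [← commutatorElement_inv, nilb_right hz, commutatorElement_inv]

theorem nilb_fix {E : Subgroup (End F W)ˣ} {n : (End F W)ˣ} (h : E ≤ fixE E n) (t : (End F W)ˣ) :
    fixE E (t * n) = fixE E t := by
  ext e
  refine and_congr_right fun he => ?_
  have h1 := (h he).2
  have : ⁅t * n, e⁆ = t * ⁅n, e⁆ * t⁻¹ * ⁅t, e⁆ := by
    simp only [commutatorElement_def]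
    group
  rw [this, ← nilb_cen h1, mul_inv_cancel_right]
  exact (Zs F W).mul_mem_cancel_left h1

theorem nilb_small {E : Subgroup (End F W)ˣ} (hE : Zs F W ≤ E) {ι : Type} [Fintype ι]
    (t : ι → (End F W)ˣ) (T : ℕ) : ∃ E₀ : Subgroup (End F W)ˣ, Zs F W ≤ E₀ ∧ E₀ ≤ E ∧
      E₀.relIndex E ≤ (T + 1) ^ Fintype.card ι ∧ ∀ i, sig E (t i) ≤ T → E₀ ≤ fixE E (t i) := by
  classical
  refine ⟨E ⊓ ⨅ i, if sig E (t i) ≤ T then fixE E (t i) else E, le_inf hE (le_iInf fun i => ?_),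
    inf_le_left, ?_, fun i hi => inf_le_right.trans ((iInf_le _ i).trans (if_pos hi).le)⟩
  · split_ifs
    · intro z hz
      refine ⟨hE hz, ?_⟩
      rw [commutatorElement_def, ← nilb_cen hz, mul_inv_cancel_right, mul_inv_cancel]
      exact one_mem _
    · exact hE
  · rw [Subgroup.inf_relIndex_left]
    refine (Subgroup.relIndex_iInf_le _).trans (prod_le_pow_card _ _ _ fun i _ => ?_)
    split_ifs with c
    · exact c.trans (Nat.le_succ T)
    · rw [Subgroup.relIndex_self]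
      exact Nat.succ_pos T

theorem nilb_row (hDi : StmtDiag) (hB : StmtBasic) {q : ℕ} {P : Finset (Fin q)} {α : Fin q → F}
    {r : Fin q → (End F W)ˣ} (hm : MinV P fun l => α l • (r l : End F W)) {l₀ : Fin q}
    (h₀ : l₀ ∈ P) (h1 : r l₀ = 1) {E : Subgroup (End F W)ˣ}
    (h : ∀ l ∈ P, ∀ e ∈ E, ⁅r l, e⁆ ∈ Zs F W) : ∀ l ∈ P, ∀ e ∈ E, e * r l = r l * e := by
  let f : E → End F (End F W) := fun e =>
    LinearMap.mulLeft F ((e.1⁻¹ : (End F W)ˣ) : End F W) ∘ₗ LinearMap.mulRight F (e.1 : End F W)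
  have hf : ∀ (e : E) (t : (End F W)ˣ), f e t = ((e.1⁻¹ * (t * e.1) : (End F W)ˣ) : End F W) :=
    fun _ _ => rfl
  have hc : ∀ l ∈ P, ∀ e : E, ∃ c : F, f e (r l) = c • (r l : End F W) := fun l hl e => by
    have h2 := h l hl e.1 e.2
    have h3 : e.1⁻¹ * (r l * e.1) = ⁅r l, e.1⁆ * r l := by
      rw [← inv_mul_cancel_left e.1 (⁅r l, e.1⁆ * r l), ← mul_assoc e.1, ← nilb_cen h2,
        commutatorElement_def]
      group
    obtain ⟨c, -, hc⟩ := h2
    exact ⟨c, by rw [hf, h3, Units.val_mul, hc, smul_mul_assoc, one_mul]⟩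
  choose! χ hχ using hc
  have h4 := hB.2.1 F (End F W) (E → F) q _ P _ χ (hDi F (End F W) E f).1 (fun l hl =>
    Submodule.smul_mem _ _ ((Submodule.mem_iInf _).2 fun e =>
      Module.End.mem_eigenspace_iff.2 (hχ l hl e))) hm
  intro l hl e he
  have h5 := hχ l₀ h₀ ⟨e, he⟩
  have h6 := hχ l hl ⟨e, he⟩
  rw [hf, h1, one_mul, inv_mul_cancel] at h5
  rw [hf, h4 l hl l₀ h₀, ← one_mul (r l : End F W), ← smul_mul_assoc, ← Units.val_one, ← h5,
    ← Units.val_mul, one_mul, Units.val_inj] at h6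
  exact (inv_mul_eq_iff_eq_mul.1 h6).symm

end

theorem nilb_comm {F G V : Type} [Field F] [Group G] [AddCommGroup V] [Module F V]
    {ρ : Representation F G V} {W : Submodule F V} (s t : stab ρ W) :
    (∀ w ∈ W, ρ (s.1 * t.1) w = ρ (t.1 * s.1) w) ↔
      resU ρ W s * resU ρ W t = resU ρ W t * resU ρ W s := by
  rw [← map_mul, ← map_mul]
  refine ⟨fun h => Units.ext (LinearMap.ext fun w => Subtype.ext (h w.1 w.2)), fun h w hw => ?_⟩
  have := resU_apply ρ W (s * t) ⟨w, hw⟩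
  rw [h, resU_apply] at this
  exact this.symm

theorem nilB (hS : StmtSec) (hN : StmtNear) (hDu : StmtDual) (hDi : StmtDiag) (hB : StmtBasic) :
    StmtNilB := by
  intro q
  obtain ⟨T, hT⟩ := hN q
  refine ⟨q * q * (T + 1) ^ (q * q), ?_⟩
  intro F G V _ _ _ _ _ _ _ ρ α P d W N A C hW hNs hAN hd1 hd2 _ hc hz hC
  classical
  have : Nontrivial W := Submodule.nontrivial_iff_ne_bot.2 hW
  obtain ⟨s1, s2, s3, s4, -⟩ := hS F G V ρ W A
  have hmem : ∀ a : stab ρ W, a.1 ∈ A → resU ρ W a ∈ imS ρ W A := fun a ha =>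
    (s1 _).2 ⟨a, 1, ha, one_mem _, (mul_one _).symm⟩
  have hfix : ∀ n : stab ρ W, n.1 ∈ N → imS ρ W A ≤ fixE (imS ρ W A) (resU ρ W n) := by
    intro n hn e he
    refine ⟨he, ?_⟩
    obtain ⟨s, z, hs, hz, rfl⟩ := (s1 e).1 he
    rw [nilb_right hz, ← map_commutatorElement]
    exact (s4 _ hW).1 (hc n.1 hn s.1 hs).2
  have hE : Heis (imS ρ W A) := by
    refine ⟨le_sup_right, s2, fun e he e' he' => ?_, fun e he h => ?_⟩
    · obtain ⟨s, z, hs, hz, rfl⟩ := (s1 e).1 he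
      rw [nilb_left hz]
      exact (hfix s (hAN hs) he').2
    · obtain ⟨s, z, hs, hz', rfl⟩ := (s1 e).1 he
      refine mul_mem ((s4 s hW).1 (hz s.1 hs fun a ha => ?_)) hz'
      refine (nilb_comm s ⟨a, hNs (hAN ha)⟩).2 (mul_right_cancel (b := z) ?_)
      rw [mul_assoc, ← nilb_cen hz', ← mul_assoc, h _ (hmem ⟨a, hNs (hAN ha)⟩ ha), mul_assoc]
  have hnorm : ∀ n ∈ N, n ∈ Subgroup.normalizer (A : Set G) := fun n hn => by
    refine Subgroup.mem_normalizer_iff.2 fun a => ⟨fun ha => (hc n hn a ha).1, fun ha => ?_⟩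
    have := (hc n⁻¹ (N.inv_mem hn) _ ha).1
    rwa [inv_inv, ← mul_assoc, ← mul_assoc, inv_mul_cancel, one_mul, inv_mul_cancel_right] at this
  obtain ⟨δ, hδ⟩ : ∃ δ : Fin q × Fin q → stab ρ W, ∀ l ∈ P, ∀ l' ∈ P,
      (δ (l, l')).1 = (d l)⁻¹ * d l' :=
    ⟨fun e => if h : e.1 ∈ P ∧ e.2 ∈ P then ⟨_, hd1 _ h.1 _ h.2⟩ else 1,
      fun l hl l' hl' => by simp only [hl, hl', and_self, dif_pos]⟩
  generalize imS ρ W A = E at s3 hmem hfix hE
  obtain ⟨E₀, e1, e2, e3, e4⟩ := nilb_small hE.le (fun e => resU ρ W (δ e)) T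
  rw [Fintype.card_prod, Fintype.card_fin] at e3
  let K : Subgroup G :=
    ((Subgroup.centralizer (E₀ : Set (End F W)ˣ)).comap (resU ρ W)).map (stab ρ W).subtype
  have hK : C.relIndex (N ⊓ K) ≤ (T + 1) ^ (q * q) := by
    obtain ⟨a1, a2⟩ := (hDu F W E hE).2.2 E₀ (((N ⊓ K).subgroupOf (stab ρ W)).map (resU ρ W)) e1 e2
      (by
        rintro _ ⟨n, hn, rfl⟩
        exact hfix n hn.1)
      (by
        rintro _ ⟨n, ⟨-, n', hn', h⟩, rfl⟩ e he
        obtain rfl : n' = n := Subtype.ext h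
        exact (Subgroup.mem_centralizer_iff.1 hn' e he).symm)
    rw [← Subgroup.relIndex_comap, ← Subgroup.inf_relIndex_right] at a1 a2
    rw [← Subgroup.relIndex_subgroupOf (inf_le_left.trans hNs)]
    refine (Subgroup.relIndex_le_of_le_left (fun n hn => ?_) a1).trans (a2.trans e3)
    refine (hC n.1).2 ⟨hn.2.1, fun a ha => (nilb_comm n ⟨a, hNs (hAN ha)⟩).2 ?_⟩
    exact (Subgroup.mem_centralizer_iff.1 hn.1 _ (hmem ⟨a, hNs (hAN ha)⟩ ha)).symm
  refine (hB.1 G q d).1 _ _ _ _ le_rfl (fun b hb => ?_) (nilb_cov P d N K C hK)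
  obtain ⟨b1, b2, b3⟩ := hb
  refine ⟨b1, fun l₀ h₀ => ?_, b3⟩
  have hq : ∀ l ∈ P, ∃ n : stab ρ W, n.1 ∈ N ∧ (δ (l₀, l) * n).1 = (b l₀)⁻¹ * b l := fun l hl =>
    ⟨⟨_, hNs (b1 l₀ h₀ l hl)⟩, b1 l₀ h₀ l hl, by
      rw [Subgroup.coe_mul, hδ l₀ h₀ l hl, mul_inv_cancel_left]⟩
  choose! n hn hr using hq
  have hm := ((hB.2.2.2 F G V ρ q α W).2.2.2.2 P b (fun l => δ (l₀, l) * n l) (b l₀) hr).2.1 b2
  have h1 : resU ρ W (δ (l₀, l₀) * n l₀) = 1 := by
    rw [← map_one (resU ρ W)]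
    exact congrArg _ (Subtype.ext ((hr l₀ h₀).trans (inv_mul_cancel _)))
  have hs := (hT F W P α _ hm).1 E hE (fun l hl => s3 _ (by
    rw [Subgroup.coe_mul, hδ l₀ h₀ l hl]
    exact mul_mem (hd2 l₀ h₀ l hl) (hnorm _ (hn l hl)))) l₀ h₀
  have hf : ∀ l ∈ P, fixE E (resU ρ W (δ (l₀, l) * n l)) = fixE E (resU ρ W (δ (l₀, l))) :=
    fun l hl => by rw [map_mul, nilb_fix (hfix _ (hn l hl))]
  intro l hl
  refine ⟨δ (l₀, l) * n l, ?_, hr l hl⟩
  refine Subgroup.mem_centralizer_iff.2 fun e he =>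
    nilb_row hDi hB hm h₀ h1 (fun l hl e he => ?_) l hl e he
  have := hs l hl
  rw [h1, inv_one, one_mul, sig, hf l hl] at this
  have := e4 (l₀, l) this he
  rw [← hf l hl] at this
  exact this.2

end Pool.Agent.Work.MP_11a08a_al.Sol
end

-- merged part: Pool.Agent.Work.MP_11a08a_al.Sol.NilS
section
/-!
`B' = 2 ^ q * (1 + B₁ + B)`, `B₁` from `hNB`.  `A = gam N c ≤ N` is normalised by `N` and by the quotients of `d` (`hB`);
`⁅n, a⁆ = ⁅a, n⁆⁻¹ ∈ gam N (c + 1)` is scalar on `W`.  `ZA = {a ∈ A | ∀ a' ∈ A, ∀ w ∈ W, ρ (a a') w = ρ (a' a) w}` is preserved by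
conjugation with `g ∈ stab W` normalising `A`.  `X χ = ⨅ z : ZA, eigenspace (ρ z) (χ z)`; by `hDi` `W ≤ ⨆ χ, W ⊓ X χ`, so
`¬ Van d W'` for some `W' = W ⊓ X χ ≠ ⊥`.  Such `g` maps `W ⊓ X χ` into `W ⊓ X (z ↦ χ (g⁻¹ z g))`; if that character is `χ` then
`g ∈ stab W'`.  For a row `b` (`Pat`, `Van` on `W`) take `P' ⊆ P` with `MinVan b W'`, `¬ Van d W'`; for `l₀ ∈ P'` the tuple
`(b l₀)⁻¹ b l` and the independent family `X` give `Rat P' b (stab W')`.  For each `P' ⊆ P` with `¬ Van P' d W'` cover the rows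
`Pat P' d b N ∧ MinVan P' b W' ∧ Rat P' b (stab W')`: if `¬ Rat P' d (stab W')` by one coset; otherwise `N' = N ⊓ stab W'`,
`A ≤ N'`, `C` as in `StmtNilB`; `a ∈ A` commuting with `A` on `W'` has commutator scalar `1`, so `a ∈ ZA` is scalar on `W'`.  Rows
with `¬ Pat C` by `hNB`, rows with `Pat C` by the hypothesis `NilC q c` for `(P', W', C)`: `gam C c ≤ A ⊓ C` is scalar on `W'`.
-/

set_option autoImplicit false

open Finset Module
open scoped commutatorElement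

namespace Pool.Agent.Work.MP_11a08a_al.Sol

section Aux

variable {F G V : Type} [Field F] [Group G] [AddCommGroup V] [Module F V]

theorem nils_mul (ρ : Representation F G V) (g h : G) (w : V) :
    ρ (g * h) w = ρ g (ρ h w) := by
  rw [map_mul]; rfl

theorem nils_inj (ρ : Representation F G V) (g : G) {w : V} (h : ρ g w = 0) : w = 0 := by
  have h1 : ρ (g⁻¹ * g) w = 0 := by rw [nils_mul, h, map_zero]
  simpa using h1

theorem nils_sc_ne (ρ : Representation F G V) (W : Submodule F V) (g : G) (h : Sc ρ W g) :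
    ∃ c : F, c ≠ 0 ∧ ∀ w ∈ W, ρ g w = c • w := by
  obtain ⟨c, hc⟩ := h
  by_cases h0 : c = 0
  · refine ⟨1, one_ne_zero, fun w hw => ?_⟩
    have h1 : w = 0 := nils_inj ρ g (by rw [hc w hw, h0, zero_smul])
    rw [h1]; simp
  · exact ⟨c, h0, hc⟩

theorem nils_sc_mono (ρ : Representation F G V) {W W' : Submodule F V} (h : W' ≤ W) {g : G}
    (hg : Sc ρ W g) : Sc ρ W' g := by
  obtain ⟨c, hc⟩ := hg
  exact ⟨c, fun w hw => hc w (h hw)⟩

/-- The elements of `N` commuting with `A` on `W`. -/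
def nilsCen (ρ : Representation F G V) (W : Submodule F V) (N A : Subgroup G)
    (hN : N ≤ stab ρ W) : Subgroup G where
  carrier := {n | n ∈ N ∧ ∀ a ∈ A, ∀ w ∈ W, ρ (n * a) w = ρ (a * n) w}
  one_mem' := ⟨N.one_mem, fun a _ w _ => by rw [one_mul, mul_one]⟩
  mul_mem' := by
    rintro x y ⟨hx, hx'⟩ ⟨hy, hy'⟩
    refine ⟨N.mul_mem hx hy, fun a ha w hw => ?_⟩
    have h1 := hy' a ha w hw
    have h2 := hx' a ha (ρ y w) ((hN hy).1 w hw)
    simp only [nils_mul] at h1 h2 ⊢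
    rw [h1, h2]
  inv_mem' := by
    rintro x ⟨hx, hx'⟩
    refine ⟨N.inv_mem hx, fun a ha w hw => ?_⟩
    have h2 := hx' a ha (ρ x⁻¹ w) ((hN hx).2 w hw)
    have h3 : ρ x (ρ x⁻¹ w) = w := by rw [← nils_mul]; simp
    have h4 : ∀ v, ρ x⁻¹ (ρ x v) = v := fun v => by rw [← nils_mul]; simp
    simp only [nils_mul] at h2 ⊢
    rw [h3] at h2
    rw [← h2, h4]

theorem nils_mem_cen (ρ : Representation F G V) (W : Submodule F V) (N A : Subgroup G)
    (hN : N ≤ stab ρ W) (n : G) : n ∈ nilsCen ρ W N A hN ↔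
      n ∈ N ∧ ∀ a ∈ A, ∀ w ∈ W, ρ (n * a) w = ρ (a * n) w := Iff.rfl

theorem nils_cen_conj (ρ : Representation F G V) (W : Submodule F V) (N A : Subgroup G)
    (hN : N ≤ stab ρ W) {g : G} (hW : g ∈ stab ρ W) (hgN : g ∈ Subgroup.normalizer (N : Set G))
    (hgA : g ∈ Subgroup.normalizer (A : Set G)) {n : G} (hn : n ∈ nilsCen ρ W N A hN) :
    g * n * g⁻¹ ∈ nilsCen ρ W N A hN := by
  refine ⟨(Subgroup.mem_normalizer_iff.1 hgN n).1 hn.1, fun a ha w hw => ?_⟩
  have h1 := hn.2 _ ((Subgroup.mem_normalizer_iff''.1 hgA a).1 ha) _ (hW.2 w hw)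
  have e1 : g * n * g⁻¹ * a = g * (n * (g⁻¹ * a * g)) * g⁻¹ := by group
  have e2 : a * (g * n * g⁻¹) = g * (g⁻¹ * a * g * n) * g⁻¹ := by group
  rw [e1, e2, nils_mul, nils_mul, h1, nils_mul ρ _ g⁻¹, nils_mul ρ g]

theorem nils_cen_norm (ρ : Representation F G V) (W : Submodule F V) (N A : Subgroup G)
    (hN : N ≤ stab ρ W) {g : G} (hW : g ∈ stab ρ W) (hgN : g ∈ Subgroup.normalizer (N : Set G))
    (hgA : g ∈ Subgroup.normalizer (A : Set G)) :
    g ∈ Subgroup.normalizer ((nilsCen ρ W N A hN : Subgroup G) : Set G) := by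
  refine Subgroup.mem_normalizer_iff.2 fun n => ⟨nils_cen_conj ρ W N A hN hW hgN hgA, fun h => ?_⟩
  have h1 := nils_cen_conj ρ W N A hN ((stab ρ W).inv_mem hW) (Subgroup.inv_mem _ hgN)
    (Subgroup.inv_mem _ hgA) h
  have e : g⁻¹ * (g * n * g⁻¹) * g⁻¹⁻¹ = n := by group
  rwa [e] at h1

/-- The joint eigenspace of a subgroup for a function on it. -/
def nilsX (ρ : Representation F G V) (Z : Subgroup G) (χ : Z → F) : Submodule F V :=
  ⨅ z : Z, End.eigenspace (ρ z.1) (χ z)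

theorem nils_mem_X (ρ : Representation F G V) (Z : Subgroup G) (χ : Z → F) (w : V) :
    w ∈ nilsX ρ Z χ ↔ ∀ z : Z, ρ z.1 w = χ z • w := by
  simp only [nilsX, Submodule.mem_iInf, End.mem_eigenspace_iff]

open Classical in
/-- The transported function. -/
noncomputable def nilsT (Z : Subgroup G) (χ : Z → F) (g : G) : Z → F :=
  fun z => if h : g⁻¹ * z.1 * g ∈ Z then χ ⟨_, h⟩ else 0

theorem nils_T_one (Z : Subgroup G) (χ : Z → F) : nilsT Z χ 1 = χ := by
  funext z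
  have h : (1 : G)⁻¹ * z.1 * 1 ∈ Z := by simp
  rw [nilsT, dif_pos h]
  congr 1
  exact Subtype.ext (by simp)

theorem nils_X_map (ρ : Representation F G V) (Z : Subgroup G) (χ : Z → F) {g : G}
    (hg : g ∈ Subgroup.normalizer (Z : Set G)) {w : V} (hw : w ∈ nilsX ρ Z χ) :
    ρ g w ∈ nilsX ρ Z (nilsT Z χ g) := by
  rw [nils_mem_X] at hw ⊢
  intro z
  have h : g⁻¹ * z.1 * g ∈ Z := (Subgroup.mem_normalizer_iff''.1 hg z.1).1 z.2
  have e : z.1 * g = g * (g⁻¹ * z.1 * g) := by group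
  rw [nilsT, dif_pos h, ← nils_mul, e, nils_mul, hw ⟨_, h⟩, map_smul]

theorem nils_T_inv (Z : Subgroup G) (χ : Z → F) {g : G}
    (hg : g ∈ Subgroup.normalizer (Z : Set G)) (h : nilsT Z χ g = χ) : nilsT Z χ g⁻¹ = χ := by
  funext z
  have h1 : g⁻¹⁻¹ * z.1 * g⁻¹ ∈ Z :=
    (Subgroup.mem_normalizer_iff''.1 (Subgroup.inv_mem _ hg) z.1).1 z.2
  rw [nilsT, dif_pos h1]
  have h2 : g⁻¹ * (g⁻¹⁻¹ * z.1 * g⁻¹) * g ∈ Z :=
    (Subgroup.mem_normalizer_iff''.1 hg _).1 h1
  have h3 := congrFun h ⟨_, h1⟩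
  rw [nilsT, dif_pos h2] at h3
  rw [← h3]
  congr 1
  exact Subtype.ext (by group)

theorem nils_stab_inf (ρ : Representation F G V) (W : Submodule F V) (Z : Subgroup G) (χ : Z → F)
    {g : G} (hW : g ∈ stab ρ W) (hg : g ∈ Subgroup.normalizer (Z : Set G))
    (h : nilsT Z χ g = χ) : g ∈ stab ρ (W ⊓ nilsX ρ Z χ) := by
  refine ⟨fun w hw => ⟨hW.1 w hw.1, ?_⟩, fun w hw => ⟨hW.2 w hw.1, ?_⟩⟩
  · have h1 := nils_X_map ρ Z χ hg hw.2
    rwa [h] at h1
  · have h1 := nils_X_map ρ Z χ (Subgroup.inv_mem _ hg) hw.2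
    rwa [nils_T_inv Z χ hg h] at h1

theorem nils_van_sup {q : ℕ} (ρ : Representation F G V) (α : Fin q → F) (P : Finset (Fin q))
    (d : Fin q → G) {ι : Type} (W : Submodule F V) (U : ι → Submodule F V) (hle : W ≤ ⨆ i, U i)
    (h : ∀ i, Van ρ α P d (U i)) : Van ρ α P d W := by
  have h1 : (⨆ i, U i) ≤ LinearMap.ker (∑ l ∈ P, α l • ρ (d l)) := by
    refine iSup_le fun i w hw => ?_
    rw [LinearMap.mem_ker, LinearMap.sum_apply]
    exact h i w hw
  intro w hw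
  have h2 := h1 (hle hw)
  rw [LinearMap.mem_ker, LinearMap.sum_apply] at h2
  exact h2

theorem nils_rat_of_pat {q : ℕ} {P : Finset (Fin q)} {d b : Fin q → G} {N K : Subgroup G}
    (hp : Pat P d b N) (hd : Rat P d K) (hN : N ≤ K) : Rat P b K := by
  intro l hl l' hl'
  have h1 := K.mul_mem (hd l hl l' hl') (hN (hp l hl l' hl'))
  rwa [mul_inv_cancel_left] at h1

/-- An element of `A` commuting with `A` on a nonzero subspace commutes with `A` on `W`. -/
theorem nils_comm_up (ρ : Representation F G V) {W W' : Submodule F V} (hle : W' ≤ W)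
    (hne : W' ≠ ⊥) {a a' : G} (ha : a ∈ stab ρ W) (ha' : a' ∈ stab ρ W) (hs : Sc ρ W ⁅a, a'⁆)
    (h : ∀ w ∈ W', ρ (a * a') w = ρ (a' * a) w) : ∀ w ∈ W, ρ (a * a') w = ρ (a' * a) w := by
  obtain ⟨c, hc⟩ := hs
  have e : a * a' = ⁅a, a'⁆ * (a' * a) := by rw [commutatorElement_def]; group
  have h1 : ∀ w ∈ W, ρ (a * a') w = c • ρ (a' * a) w := fun w hw => by
    rw [e, nils_mul, hc _ (((stab ρ W).mul_mem ha' ha).1 w hw)]
  obtain ⟨w₀, hw₀, hw0⟩ := Submodule.exists_mem_ne_zero_of_ne_bot hne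
  have h2 : ρ (a' * a) w₀ ≠ 0 := fun h0 => hw0 (nils_inj ρ _ h0)
  have h3 : c = 1 := by
    have h4 := h1 w₀ (hle hw₀)
    rw [h w₀ hw₀] at h4
    have h5 : (c - 1) • ρ (a' * a) w₀ = 0 := by rw [sub_smul, one_smul, ← h4, sub_self]
    exact sub_eq_zero.1 ((smul_eq_zero.1 h5).resolve_right h2)
  intro w hw
  rw [h1 w hw, h3, one_smul]

end Aux

theorem nilS (hDi : StmtDiag) (hB : StmtBasic) (hNB : StmtNilB) : StmtNilS := by
  classical
  intro q c B₀ B hC
  obtain ⟨B₁, hB₁⟩ := hNB q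
  refine ⟨2 ^ q * (1 + B₁ + B), ?_⟩
  intro F G V _ _ _ _ _ _ _ ρ α m k P d W N hR hO hk hSk hNW hdW hdN hγ hnv
  obtain ⟨hCov, -, hgam, hVan⟩ := hB
  obtain ⟨hmono, hunion, hor, hone, -⟩ := hCov G q d
  obtain ⟨hAN, hnorm, hgmono, -⟩ := hgam G N c
  set A : Subgroup G := gam N c with hA
  have hAW : A ≤ stab ρ W := hAN.trans hNW
  have hNA : N ≤ Subgroup.normalizer (A : Set G) := Subgroup.le_normalizer.trans hnorm
  have hcomm : ∀ n ∈ N, ∀ a ∈ A, Sc ρ W ⁅n, a⁆ := by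
    intro n hn a ha
    refine hγ _ ?_
    have h1 : ⁅a, n⁆ ∈ gam N (c + 1) := Subgroup.commutator_mem_commutator ha hn
    have h2 := (gam N (c + 1)).inv_mem h1
    rwa [commutatorElement_inv] at h2
  set Z : Subgroup G := nilsCen ρ W A A hAW with hZ
  have hZn : ∀ g, g ∈ stab ρ W → g ∈ Subgroup.normalizer (N : Set G) →
      g ∈ Subgroup.normalizer (Z : Set G) := fun g h1 h2 =>
    nils_cen_norm ρ W A A hAW h1 (hnorm h2) (hnorm h2)
  obtain ⟨hind, hspan⟩ := hDi F V Z fun z => ρ z.1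
  have hind' : iSupIndep fun χ : Z → F => nilsX ρ Z χ := hind
  have hle : W ≤ ⨆ χ : Z → F, W ⊓ nilsX ρ Z χ := by
    refine hspan inferInstance inferInstance W k hk (fun z w hw => (hAW z.2.1).1 w hw)
      (fun z z' w hw => ?_) fun z => ?_
    · have h1 := z.2.2 z'.1 z'.2.1 w hw
      rwa [nils_mul, nils_mul] at h1
    · obtain ⟨c', h1, h2⟩ := nils_sc_ne ρ W _ (hSk z.1 (hAN z.2.1))
      refine ⟨c', h1, fun w hw => ?_⟩
      rw [← h2 w hw, map_pow]
  obtain ⟨χ, hχ⟩ : ∃ χ : Z → F, ¬ Van ρ α P d (W ⊓ nilsX ρ Z χ) := by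
    by_contra h
    push Not at h
    exact hnv (nils_van_sup ρ α P d W _ hle h)
  set W' : Submodule F V := W ⊓ nilsX ρ Z χ with hW'
  have hW'W : W' ≤ W := inf_le_left
  have hW'ne : W' ≠ ⊥ := by
    intro h
    refine hχ fun w hw => ?_
    rw [h, Submodule.mem_bot] at hw
    simp [hw]
  obtain ⟨hsub, htr, hblock, -, -⟩ := hVan F G V ρ q α W'
  have hAW' : A ≤ stab ρ W' := by
    have h1 : ∀ a ∈ A, ∀ w ∈ W', ρ a w ∈ W' := by
      intro a ha w hw
      refine ⟨(hAW ha).1 w hw.1, (nils_mem_X ρ Z χ _).2 fun z => ?_⟩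
      rw [← nils_mul, z.2.2 a ha w hw.1, nils_mul, (nils_mem_X ρ Z χ w).1 hw.2 z, map_smul]
    exact fun a ha => ⟨h1 a ha, h1 a⁻¹ (A.inv_mem ha)⟩
  have hsc : ∀ a ∈ A, (∀ a' ∈ A, ∀ w ∈ W', ρ (a * a') w = ρ (a' * a) w) → Sc ρ W' a := by
    intro a ha h
    have h1 : a ∈ Z := ⟨ha, fun a' ha' =>
      nils_comm_up ρ hW'W hW'ne (hAW ha) (hAW ha') (hcomm a (hAN ha) a' ha') (h a' ha')⟩
    exact ⟨χ ⟨a, h1⟩, fun w hw => (nils_mem_X ρ Z χ w).1 hw.2 ⟨a, h1⟩⟩
  have hpiece : ∀ P' ∈ P.powerset.filter fun P' => ¬ Van ρ α P' d W',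
      Cov (1 + B₁ + B) d fun b => Pat P' d b N ∧ MinVan ρ α P' b W' ∧ Rat P' b (stab ρ W') := by
    intro P' hP'
    obtain ⟨hP1, hP2⟩ := mem_filter.1 hP'
    have hPP : P' ⊆ P := mem_powerset.1 hP1
    by_cases hr : Rat P' d (stab ρ W')
    · set N' : Subgroup G := N ⊓ stab ρ W' with hN'
      have hN'W : N' ≤ stab ρ W' := inf_le_right
      have hN'N : N' ≤ N := inf_le_left
      set C : Subgroup G := nilsCen ρ W' N' A hN'W with hCdef
      have hCN' : C ≤ N' := fun n hn => hn.1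
      have hdA : Rat P' d (Subgroup.normalizer (A : Set G)) := fun l hl l' hl' =>
        hnorm (hdN l (hPP hl) l' (hPP hl'))
      have hdN' : Rat P' d (Subgroup.normalizer (N' : Set G)) := fun l hl l' hl' =>
        Subgroup.inf_normalizer_le_normalizer_inf
          ⟨hdN l (hPP hl) l' (hPP hl'), Subgroup.le_normalizer (hr l hl l' hl')⟩
      have h1 := hB₁ F G V ρ α P' d W' N' A C hW'ne hN'W (le_inf hAN hAW') hr hdA hdN'
        (fun n hn a ha => ⟨(Subgroup.mem_normalizer_iff.1 (hNA (hN'N hn)) a).1 ha,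
          nils_sc_mono ρ hW'W (hcomm n (hN'N hn) a ha)⟩) hsc
        (fun n => nils_mem_cen ρ W' N' A hN'W n)
      have h2 := hC F G V ρ α m k P' d W' C hR (fun s hs => hO s (hN'N (hCN' hs))) hk
        (fun n hn => nils_sc_mono ρ hW'W (hSk n (hN'N (hCN' hn)))) (hCN'.trans hN'W) hr
        (fun l hl l' hl' => nils_cen_norm ρ W' N' A hN'W (hr l hl l' hl') (hdN' l hl l' hl')
          (hdA l hl l' hl'))
        (fun g hg => hsc g (hgmono C (hCN'.trans hN'N) hg) ((hgam G C c).1 hg).2) hP2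
      refine hmono _ _ _ _ (by omega) ?_ (hor _ _ _ _ h1 h2)
      rintro b ⟨hb1, hb2, hb3⟩
      by_cases hp : Pat P' d b C
      · exact Or.inr ⟨hp, hb2.1⟩
      · refine Or.inl ⟨fun l hl l' hl' => ⟨hb1 l hl l' hl', ?_⟩, hb2, hp⟩
        exact (stab ρ W').mul_mem ((stab ρ W').inv_mem (hr l hl l' hl')) (hb3 l hl l' hl')
    · exact hmono _ _ _ _ (by omega) (fun b hb => hb.2.2) (hone P' _ hr)
  have hcard : (P.powerset.filter fun P' => ¬ Van ρ α P' d W').card ≤ 2 ^ q := by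
    refine (card_filter_le _ _).trans ?_
    rw [card_powerset]
    refine Nat.pow_le_pow_right (by norm_num) ?_
    simpa using card_le_univ P
  refine hmono _ _ _ _ (Nat.mul_le_mul_right _ hcard) ?_ (hunion _ _ _ _ hpiece)
  rintro b ⟨hb1, hb2⟩
  obtain ⟨P', hPP, hmin, hnd⟩ := hsub P b d (fun w hw => hb2 w (hW'W hw)) hχ
  refine ⟨P', mem_filter.2 ⟨mem_powerset.2 hPP, hnd⟩,
    fun l hl l' hl' => hb1 l (hPP hl) l' (hPP hl'), hmin, fun l hl l' hl' => ?_⟩
  have hbW : Rat P b (stab ρ W) := nils_rat_of_pat hb1 hdW hNW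
  have hbN : Rat P b (Subgroup.normalizer (N : Set G)) :=
    nils_rat_of_pat hb1 hdN Subgroup.le_normalizer
  have hbZ : ∀ j ∈ P', (b l)⁻¹ * b j ∈ Subgroup.normalizer (Z : Set G) := fun j hj =>
    hZn _ (hbW l (hPP hl) j (hPP hj)) (hbN l (hPP hl) j (hPP hj))
  have h1 := hblock (Z → F) (fun χ => nilsX ρ Z χ) P' (fun j => (b l)⁻¹ * b j)
    (fun j => nilsT Z χ ((b l)⁻¹ * b j)) hind'
    (fun j hj w hw => nils_X_map ρ Z χ (hbZ j hj) hw.2) ((htr P' b (b l)⁻¹).2.2 hmin) l' hl' l hl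
  refine nils_stab_inf ρ W Z χ (hbW l (hPP hl) l' (hPP hl')) (hbZ l' hl') ?_
  rw [h1, inv_mul_cancel, nils_T_one]

end Pool.Agent.Work.MP_11a08a_al.Sol
end

-- merged part: Pool.Agent.Work.MP_11a08a_al.Sol.Gain
section
/-!
`H = (resU ρ W).range`, `SU = imS ρ W S`, `E, C` from `hSt` (hypotheses by `hS`; `S` normal), `π : Γ →* units` the composite of
the inclusion into `stab` and `resU`; `π γ ∈ SU`.  `T₀` from `hN`, `t = (T₀ + 1) ^ (q * q)`, `T₁ = 2 t + 2`.
`row i = {γ : Γ | ∃ l ∈ P, ∃ l' ∈ P, γ = (b i l)⁻¹ * b i l'}`; by `hB` (last item) and `hN` every `γ ∈ row i` has `sig E (π γ) ≤ T₀`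
and `card (supp C (π γ)) ≤ T₀`.  `X = E ⧸ Zs.subgroupOf E` is a finite commutative group with the action
`φ : Γ →* MulAut X` by conjugation; the points fixed by `row i` contain the image of `⨅ fixE`, of index `≤ t`.  `hGA` (with
`MulAut.toPerm`): gain (map `K` along `Γ.subtype`) or the hypothesis of `hU`, giving `N₃, E₁, E₂`.  `hGC` with
`cen L = {γ | π γ commutes with L}` and `q * q * T₀` exceptions: gain or `S₀`, then `hC` gives `N₂`.  `N = (N₂ ⊓ N₃).map Γ.subtype`.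
`hNi` for the image of `N₂ ⊓ N₃` under `π`, with `E₁, E₂` pulled back to subgroups of the units (map along `E.subtype` of the comap along
the quotient map); `k = (Zs.relIndex E) ^ 3`, nonzero in `F` by `hDu`; transport `gam` with `hB` and `Sc` with `hS`.
-/

set_option autoImplicit false

open Finset Module
open scoped commutatorElement

namespace Pool.Agent.Work.MP_11a08a_al.Sol

theorem gain_quot {U Q : Type} [Group U] [Group Q] (Z E : Subgroup U)
    (hc : ∀ z ∈ Z, ∀ u, u * z * u⁻¹ = z) (hfin : Z.relIndex E ≠ 0)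
    (hcomm : ∀ e ∈ E, ∀ e' ∈ E, ⁅e, e'⁆ ∈ Z) (π : Q →* U)
    (hπ : ∀ γ, π γ ∈ Subgroup.normalizer (E : Set U)) :
    ∃ (X : Type) (_ : CommGroup X) (_ : Finite X) (p : E →* X) (φ : Q →* MulAut X),
      Function.Surjective p ∧ (∀ e : E, p e = 1 ↔ e.1 ∈ Z) ∧
      ∀ γ (e : E), ∃ c : E, c.1 = ⁅π γ, e.1⁆ ∧ φ γ (p e) * (p e)⁻¹ = p c := by
  have hn : (Z.subgroupOf E).Normal := ⟨fun z hz u => by
    rw [Subgroup.mem_subgroupOf] at hz ⊢
    exact (congrArg (· ∈ Z) (hc _ hz u.1)).mpr hz⟩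
  let c : Q →* MulAut E := E.normalizerMonoidHom.comp (π.codRestrict _ hπ)
  have hcv : ∀ γ (e : E), (c γ e).1 = π γ * e.1 * (π γ)⁻¹ := fun _ _ => rfl
  have hm : ∀ γ, (Z.subgroupOf E).map (c γ : E →* E) = Z.subgroupOf E := fun γ => by
    ext e
    constructor
    · rintro ⟨z, hz, rfl⟩
      rw [SetLike.mem_coe, Subgroup.mem_subgroupOf] at hz
      rw [Subgroup.mem_subgroupOf]
      exact ((hcv γ z).trans (hc _ hz _)).symm ▸ hz
    · intro he
      exact ⟨e, he, Subtype.ext ((hcv γ e).trans (hc _ (Subgroup.mem_subgroupOf.1 he) _))⟩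
  let φ : Q →* MulAut (E ⧸ Z.subgroupOf E) :=
    { toFun := fun γ => QuotientGroup.congr _ _ (c γ) (hm γ)
      map_one' := by
        ext x
        obtain ⟨e, rfl⟩ := QuotientGroup.mk_surjective x
        rw [QuotientGroup.congr_mk, map_one]
        rfl
      map_mul' := fun a b => by
        ext x
        obtain ⟨e, rfl⟩ := QuotientGroup.mk_surjective x
        rw [QuotientGroup.congr_mk, map_mul]
        rfl }
  have hk : ∀ e : E, QuotientGroup.mk' (Z.subgroupOf E) e = 1 ↔ e.1 ∈ Z := fun e =>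
    (QuotientGroup.eq_one_iff e).trans Subgroup.mem_subgroupOf
  refine ⟨E ⧸ Z.subgroupOf E, { (inferInstance : Group (E ⧸ Z.subgroupOf E)) with
    mul_comm := fun x y => ?_ }, Nat.finite_of_card_ne_zero hfin, QuotientGroup.mk' _, φ,
    QuotientGroup.mk'_surjective _, hk, fun γ e => ⟨c γ e * e⁻¹, rfl, ?_⟩⟩
  · obtain ⟨a, rfl⟩ := QuotientGroup.mk'_surjective _ x
    obtain ⟨b, rfl⟩ := QuotientGroup.mk'_surjective _ y
    rw [← commutatorElement_eq_one_iff_mul_comm, ← map_commutatorElement, hk]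
    exact hcomm _ a.2 _ b.2
  · rw [map_mul, map_inv]
    rfl

theorem gain_fix {Q X ι : Type} [Group Q] [Group X] [Finite X] [Fintype ι] (φ : Q →* MulAut X)
    (γ : ι → Q) {T : ℕ}
    (h : ∀ i, (MonoidHom.eqLocus (φ (γ i) : X →* X) (MonoidHom.id X)).index ≤ T) :
    Nat.card X ≤ T ^ Fintype.card ι * Nat.card {x : X // ∀ g ∈ Set.range γ, φ g x = x} := by
  have h1 := (Subgroup.index_iInf_le _).trans (Finset.prod_le_pow_card _ _ _ fun i _ => h i)
  rw [← Subgroup.card_mul_index (⨅ i, MonoidHom.eqLocus (φ (γ i) : X →* X) (MonoidHom.id X)),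
    mul_comm]
  refine Nat.mul_le_mul h1 (Nat.card_congr (Equiv.subtypeEquivRight fun x => ?_)).le
  rw [Subgroup.mem_iInf, Set.forall_mem_range]
  rfl

theorem gain_Zs {F W : Type} [Field F] [AddCommGroup W] [Module F W] :
    ∀ z ∈ Zs F W, ∀ u : (End F W)ˣ, u * z * u⁻¹ = z := by
  rintro z ⟨c, -, h⟩ x
  have : x * z = z * x := Units.ext (by simp [h])
  rw [this, mul_inv_cancel_right]

theorem gain_idx {G : Type} [Group G] (Γ : Subgroup G) (K : Subgroup Γ) :
    (K.map Γ.subtype).relIndex Γ = K.index :=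
  congrArg Subgroup.index (Subgroup.comap_map_eq_self_of_injective Γ.subtype_injective K)

theorem gain (hS : StmtSec) (hSt : StmtStr) (hN : StmtNear) (hGA : StmtGA) (hGC : StmtGC)
    (hC : StmtCen) (hU : StmtUni) (hNi : StmtNilp) (hDu : StmtDual) (hB : StmtBasic) : StmtGain := by
  classical
  intro q d
  obtain ⟨T₀, hN⟩ := hN q
  refine ⟨2 * (T₀ + 1) ^ (q * q) + 2, fun T => ?_⟩
  obtain ⟨B₃, hU⟩ := hU T (2 * (T₀ + 1) ^ (q * q))
  obtain ⟨B₂, hC⟩ := hC d (2 * (q * q * T₀) * (T + 1)) T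
  refine ⟨B₂ * B₃, ?_⟩
  intro F G V κ _ _ _ _ _ _ _ ρ α P W S Γ I b hSn hd hW hP hΓS hΓ hI hb
  have : Nontrivial W := Submodule.nontrivial_iff_ne_bot.2 hW
  obtain ⟨s1, s2, s3, s4, s5⟩ := hS F G V ρ W S
  obtain ⟨E, C, hE⟩ := hSt F W d (resU ρ W).range (imS ρ W S) hP le_sup_right s2
    (by
      rintro _ ⟨g, rfl⟩
      exact s3 g (by rw [Subgroup.normalizer_eq_top]; trivial)) (s5 d hd)
  let π : Γ →* (End F W)ˣ := (resU ρ W).comp (Subgroup.inclusion hΓ)
  have hπH : ∀ g, π g ∈ (resU ρ W).range := fun g => ⟨_, rfl⟩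
  have hπS : ∀ g, π g ∈ imS ρ W S := fun g =>
    (s1 _).2 ⟨Subgroup.inclusion hΓ g, 1, hΓS g.2, one_mem _, (mul_one _).symm⟩
  obtain ⟨γ, hγ, hγ'⟩ : ∃ γ : κ → Fin q × Fin q → Γ,
      (∀ i ∈ I, ∀ l ∈ P, ∀ l' ∈ P, (γ i (l, l')).1 = (b i l)⁻¹ * b i l') ∧
      ∀ i ∈ I, ∀ x, sig E (π (γ i x)) ≤ T₀ + 1 ∧ (supp C (π (γ i x))).card ≤ T₀ := by
    refine ⟨fun i x => if h : (b i x.1)⁻¹ * b i x.2 ∈ Γ ∧ x.1 ∈ P ∧ x.2 ∈ P then ⟨_, h.1⟩ else 1,
      fun i hi l hl l' hl' => by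
        beta_reduce
        rw [dif_pos ⟨(hb i hi).1 l hl l' hl', hl, hl'⟩], ?_⟩
    rintro i hi ⟨l, l'⟩
    beta_reduce
    split_ifs with h
    · let r : Fin q → stab ρ W := fun m =>
        if h : (b i l)⁻¹ * b i m ∈ stab ρ W then ⟨_, h⟩ else 1
      have hr : ∀ m ∈ P, (r m).1 = (b i l)⁻¹ * b i m := fun m hm => by
        simp only [r]
        rw [dif_pos (hΓ ((hb i hi).1 l h.2.1 m hm))]
      obtain ⟨n1, n2⟩ := hN F W P α (fun m => resU ρ W (r m))
        (((hB.2.2.2 F G V ρ q α W).2.2.2.2 P (b i) r (b i l) hr).2.1 (hb i hi).2)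
      have e : (resU ρ W (r l))⁻¹ * resU ρ W (r l') = π ⟨_, h.1⟩ := by
        rw [← map_inv, ← map_mul]
        refine congrArg _ (Subtype.ext ?_)
        rw [Subgroup.coe_mul, Subgroup.coe_inv, hr l h.2.1, hr l' h.2.2, inv_mul_cancel, inv_one,
          one_mul]
        rfl
      rw [← e]
      exact ⟨(n1 E hE.heis (fun m _ => hE.nE _ (Or.inl ⟨_, rfl⟩)) l h.2.1 l' h.2.2).trans
        (Nat.le_succ _), n2 d C hE.comp (fun m _ => hE.nC _ (Or.inl ⟨_, rfl⟩)) l h.2.1 l' h.2.2⟩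
    · rw [map_one]
      constructor
      · rw [sig, (Subgroup.relIndex_eq_one (H := fixE E 1)).2 fun e he => ⟨he, by simp⟩]
        exact Nat.le_add_left _ _
      · rw [supp, Finset.filter_false_of_mem (by simp), Finset.card_empty]
        exact Nat.zero_le _
  have hgain : ∀ (K : Subgroup Γ) (I' : Finset κ), I' ⊆ I → T < K.index →
      I.card ≤ (2 * (T₀ + 1) ^ (q * q) + 2) * I'.card → (∀ i ∈ I', Set.range (γ i) ⊆ K) →
      ∃ (K : Subgroup G) (I' : Finset κ), I' ⊆ I ∧ T < K.relIndex Γ ∧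
        I.card ≤ (2 * (T₀ + 1) ^ (q * q) + 2) * I'.card ∧ ∀ i ∈ I', Rat P (b i) K :=
    fun K I' h1 h2 h3 h4 => ⟨K.map Γ.subtype, I', h1, by rwa [gain_idx], h3,
      fun i hi l hl l' hl' => ⟨γ i (l, l'), h4 i hi ⟨_, rfl⟩, hγ i (h1 hi) l hl l' hl'⟩⟩
  obtain ⟨X, _, _, p, φ, p1, p2, p3⟩ := gain_quot (Zs F W) E gain_Zs hE.heis.fin hE.heis.comm π
    fun g => hE.nE _ (Or.inl (hπH g))
  have hfix : ∀ g (e : E), φ g (p e) = p e ↔ ⁅π g, e.1⁆ ∈ Zs F W := fun g e => by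
    obtain ⟨c, c1, c2⟩ := p3 g e
    rw [← mul_inv_eq_one, c2, p2, c1]
  rcases hGA Γ X κ ((MulAut.toPerm X).comp φ) I (fun i => Set.range (γ i)) ((T₀ + 1) ^ (q * q)) T
    (fun i hi => by
      have := gain_fix φ (γ i) (T := T₀ + 1) fun x => by
        rw [← Subgroup.index_comap_of_surjective _ p1]
        refine le_of_eq_of_le (congrArg Subgroup.index ?_) (hγ' i hi x).1
        ext e
        exact (hfix _ e).trans ⟨fun h => ⟨e.2, h⟩, fun h => h.2⟩
      rwa [Fintype.card_prod, Fintype.card_fin] at this) hI with ⟨K, I', h1, h2, h3, h4⟩ | h0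
  · exact Or.inl (hgain K I' h1 h2 (h3.trans (Nat.mul_le_mul_right _ (Nat.le_add_right _ _))) h4)
  obtain ⟨N₃, E₁, E₂, n3, i3, u3⟩ := hU Γ X φ h0
  rcases hGC Γ (Subgroup (End F W)ˣ) κ C
    (fun L => (Subgroup.centralizer (L : Set (End F W)ˣ)).comap π) I (fun i => Set.range (γ i))
    (q * q * T₀) T (fun i hi => by
      refine le_trans (Finset.card_le_card (t := univ.biUnion fun x => supp C (π (γ i x)))
        fun L hL => ?_) ((Finset.card_biUnion_le_card_mul _ _ _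
          fun x _ => (hγ' i hi x).2).trans (by simp))
      obtain ⟨h1, h2⟩ := Finset.mem_filter.1 hL
      obtain ⟨_, ⟨x, rfl⟩, h3⟩ := Set.not_subset.1 h2
      exact Finset.mem_biUnion.2 ⟨x, mem_univ _, Finset.mem_filter.2
        ⟨h1, fun h => h3 fun y hy => (h y hy).symm⟩⟩) hI with
    ⟨K, I', h1, h2, h3, h4⟩ | ⟨S₀, h1, h2, h3⟩
  · exact Or.inl (hgain K I' h1 h2 (h3.trans (Nat.mul_le_mul_right _ (Nat.le_add_left _ _))) h4)
  obtain ⟨N₂, n2, i2, u2⟩ := hC F W Γ π C S₀ _ hE.comp (fun g => hE.nC _ (Or.inl (hπH g))) h1 h2 h3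
    fun g hg L hL hL' y hy => by
      have h5 := Subgroup.mem_iInf.1 (Subgroup.mem_iInf.1 hg L) (Finset.mem_sdiff.2 ⟨hL, hL'⟩)
      exact (h5 y hy).symm
  have hmem : ∀ (E' : Subgroup X) (e : E), e.1 ∈ (E'.comap p).map E.subtype ↔ p e ∈ E' :=
    fun E' e => ⟨fun ⟨x, hx, h⟩ => (Subtype.ext h : x = e) ▸ hx, fun h => ⟨e, h, rfl⟩⟩
  have hZ : ∀ E' : Subgroup X, Zs F W ≤ (E'.comap p).map E.subtype := fun E' z hz =>
    (hmem E' ⟨z, hE.heis.le hz⟩).2 (by rw [(p2 _).2 hz]; exact one_mem _)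
  obtain ⟨g1, g2⟩ := hNi F W d _ _ E ((N₂ ⊓ N₃).map π) ((E₁.comap p).map E.subtype)
    ((E₂.comap p).map E.subtype) C hE (by rintro _ ⟨g, -, rfl⟩; exact hπS g)
    (by rintro _ ⟨g, hg, rfl⟩; exact u2 g hg.1) (by
      rintro _ ⟨g, hg, rfl⟩
      obtain ⟨a1, a2, a3⟩ := u3 g hg.2
      refine ⟨fun e he => ?_, fun e he he' => ?_, fun e he he' =>
        (hfix g ⟨e, he⟩).1 (a3 _ ((hmem _ ⟨e, he⟩).1 he'))⟩
      · obtain ⟨c, c1, c2⟩ := p3 g ⟨e, he⟩
        exact c1 ▸ (hmem _ c).2 (c2 ▸ a1 _)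
      · obtain ⟨c, c1, c2⟩ := p3 g ⟨e, he⟩
        exact c1 ▸ (hmem _ c).2 (c2 ▸ a2 _ ((hmem _ ⟨e, he⟩).1 he'))) (hZ _) (hZ _)
  refine Or.inr ⟨(N₂ ⊓ N₃).map Γ.subtype, (Zs F W).relIndex E ^ 3, Subgroup.map_subtype_le _, ?_,
    ?_, ?_, ?_, ?_⟩
  · refine le_trans ?_ (Subgroup.le_normalizer_map _)
    rw [Subgroup.normalizer_eq_top, ← MonoidHom.range_eq_map, Subgroup.range_subtype]
  · rw [gain_idx]
    exact Subgroup.index_inf_le.trans (Nat.mul_le_mul i2 i3)
  · rw [Nat.cast_pow]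
    exact pow_ne_zero _ (hDu F W E hE.heis).1
  · rintro _ ⟨g, hg, rfl⟩
    refine (s4 (Subgroup.inclusion hΓ (g ^ (Zs F W).relIndex E ^ 3)) hW).2 ?_
    have := g2 _ ⟨g, hg, rfl⟩
    rwa [← map_pow] at this
  · rw [← (hB.2.2.1 Γ (N₂ ⊓ N₃) 5).2.2.2 G Γ.subtype]
    rintro _ ⟨g, hg, rfl⟩
    rw [← (hB.2.2.1 Γ (N₂ ⊓ N₃) 5).2.2.2 _ π] at g1
    exact (s4 (Subgroup.inclusion hΓ g) hW).2 (g1 ⟨g, hg, rfl⟩)

end Pool.Agent.Work.MP_11a08a_al.Sol
end

-- merged part: Pool.Agent.Work.MP_11a08a_al.Sol.Block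
section
/-!
`⊤` is a nonzero `Blk`; take `W ≠ ⊥` with `Blk` of least dimension.  Translates are `Blk` (same family of translates) of the
same dimension, so it is enough to show that a nonzero `Blk` subspace `W` of least dimension has `Prim (resU ρ W).range`.
Let `A` be commutative and normalised.  A nonzero `A`-invariant subspace of `W` of least dimension consists of common
eigenvectors, so some `U χ₀ = ⨅ a : A, eigenspace a (χ₀ a)` is nonzero; the `U χ` are independent (`hDi`) and permuted by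
the stabiliser.  `W₁ = (U χ₀).map W.subtype` is `Blk`: a translate `W₁.map (ρ g)` lies in `W.map (ρ g)`; translates inside one
`W.map (ρ g)` have the form `((U χ).map W.subtype).map (ρ g)`; a vanishing finite sum of vectors from distinct translates is
grouped by the translate of `W`, each group vanishes by `Blk W`, then each vector by the independence of the `U χ`.
Minimality gives `U χ₀ = ⊤`.
-/

set_option autoImplicit false

open Finset Module
open scoped commutatorElement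

namespace Pool.Agent.Work.MP_11a08a_al.Sol

section Aux

variable {F G V : Type} [Field F] [Group G] [AddCommGroup V] [Module F V]

theorem block_two {ι κ : Type} (X : ι → Submodule F V) (Y : κ → Submodule F V) (π : κ → ι)
    (hX : iSupIndep X) (hY : ∀ k, Y k ≤ X (π k))
    (h : ∀ k, Disjoint (Y k) (⨆ j, ⨆ _ : j ≠ k ∧ π j = π k, Y j)) : iSupIndep Y := fun k => by
  have h1 : Y k ⊔ (⨆ j, ⨆ _ : j ≠ k ∧ π j = π k, Y j) ≤ X (π k) :=
    sup_le (hY k) (iSup₂_le fun j hj => hj.2 ▸ hY j)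
  refine ((h k).disjoint_sup_right_of_disjoint_sup_left ((hX (π k)).mono_left h1)).mono_right
    (iSup₂_le fun j hj => ?_)
  by_cases e : π j = π k
  · exact le_sup_of_le_left (le_iSup₂_of_le j ⟨hj, e⟩ le_rfl)
  · exact le_sup_of_le_right (le_iSup₂_of_le (π j) e (hY j))

theorem block_inj (ρ : Representation F G V) (g : G) : Function.Injective (ρ g) := fun a b h => by
  have := congrArg (ρ g⁻¹) h
  simpa using this

theorem block_map (ρ : Representation F G V) (W : Submodule F V) (g g' : G) :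
    (W.map (ρ g)).map (ρ g') = W.map (ρ (g' * g)) := by
  rw [map_mul, Module.End.mul_eq_comp, Submodule.map_comp]

theorem block_rank {V' : Type} [AddCommGroup V'] [Module F V'] {f : V →ₗ[F] V'}
    (hf : Function.Injective f) (W : Submodule F V) : finrank F (W.map f) = finrank F W :=
  (Submodule.equivMapOfInjective f hf W).finrank_eq.symm

theorem block_tr {ρ : Representation F G V} {W : Submodule F V} (h : Blk ρ W) (g : G) :
    Blk ρ (W.map (ρ g)) := by
  let f : {x : Submodule F V // ∃ g', x = (W.map (ρ g)).map (ρ g')} →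
      {x : Submodule F V // ∃ g', x = W.map (ρ g')} := fun x =>
    ⟨x.1, x.2.elim fun g' e => ⟨g' * g, e.trans (block_map ρ W g g')⟩⟩
  have hf : Function.Injective f := fun a b e => Subtype.ext (congrArg Subtype.val e :)
  have h1 := iSupIndep.comp h hf
  exact h1

theorem block_bot {V' : Type} [AddCommGroup V'] [Module F V'] {f : V →ₗ[F] V'}
    (hf : Function.Injective f) {W : Submodule F V} (h : W.map f = ⊥) : W = ⊥ :=
  Submodule.map_injective_of_injective hf (h.trans (Submodule.map_bot f).symm)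

theorem block_top (ρ : Representation F G V) : Blk ρ ⊤ := fun k => by
  have h : ∀ x : {x : Submodule F V // ∃ g, x = (⊤ : Submodule F V).map (ρ g)}, x.1 = ⊤ :=
    fun x => x.2.elim fun g e => e.trans (eq_top_iff.2 fun v _ => ⟨ρ g⁻¹ v, trivial, by simp⟩)
  exact disjoint_bot_right.mono_right
    (iSup₂_le fun j hj => absurd (Subtype.ext ((h j).trans (h k).symm)) hj)

theorem block_stab {ρ : Representation F G V} {W : Submodule F V} {g g' : G}
    (h : W.map (ρ g') = W.map (ρ g)) : g⁻¹ * g' ∈ stab ρ W := by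
  have h1 : W.map (ρ (g⁻¹ * g')) = W := by
    rw [← block_map, h, block_map, inv_mul_cancel, map_one, Module.End.one_eq_id, Submodule.map_id]
  have h2 : W.map (ρ (g⁻¹ * g')⁻¹) = W := by
    rw [mul_inv_rev, inv_inv, ← block_map, ← h, block_map, inv_mul_cancel, map_one,
      Module.End.one_eq_id, Submodule.map_id]
  exact ⟨fun w hw => h1.le ⟨w, hw, rfl⟩, fun w hw => h2.le ⟨w, hw, rfl⟩⟩

theorem block_sub [FiniteDimensional F V] {ρ : Representation F G V} {W : Submodule F V}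
    (h : Blk ρ W) {X : Type} (U : X → Submodule F W) (hU : iSupIndep U) (χ₀ : X)
    (hs : ∀ s : stab ρ W, ∃ χ, (U χ₀).map (resU ρ W s : End F W) ≤ U χ) :
    Blk ρ ((U χ₀).map W.subtype) := by
  have h1 : ∀ x : {x : Submodule F V // ∃ g, x = ((U χ₀).map W.subtype).map (ρ g)},
      ∃ g, x.1 = ((U χ₀).map W.subtype).map (ρ g) := fun x => x.2
  choose γ hγ using h1
  refine block_two _ _ (fun x => ⟨W.map (ρ (γ x)), γ x, rfl⟩) h (fun k => ?_) fun k => ?_
  · rw [hγ k]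
    exact Submodule.map_mono (Submodule.map_subtype_le _ _)
  have hi : Function.Injective (ρ (γ k) ∘ₗ W.subtype) :=
    (block_inj ρ (γ k)).comp W.injective_subtype
  have h2 : Disjoint ((U χ₀).map (ρ (γ k) ∘ₗ W.subtype))
      ((⨆ χ, ⨆ _ : χ ≠ χ₀, U χ).map (ρ (γ k) ∘ₗ W.subtype)) := by
    rw [disjoint_iff, ← Submodule.map_inf _ hi, disjoint_iff.1 (hU χ₀), Submodule.map_bot]
  have h3 : k.1 = (U χ₀).map (ρ (γ k) ∘ₗ W.subtype) := by rw [Submodule.map_comp, ← hγ k]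
  rw [← h3] at h2
  refine h2.mono_right (iSup₂_le fun j hj => ?_)
  have h4 := block_stab (Subtype.mk.inj hj.2)
  obtain ⟨χ, hχ⟩ := hs ⟨_, h4⟩
  have h5 : j.1 ≤ (U χ).map (ρ (γ k) ∘ₗ W.subtype) := by
    rw [hγ j]
    rintro _ ⟨_, ⟨w, hw, rfl⟩, rfl⟩
    refine ⟨_, hχ ⟨w, hw, rfl⟩, ?_⟩
    rw [LinearMap.comp_apply, Submodule.subtype_apply, resU_apply, ← Module.End.mul_apply,
      ← map_mul, mul_inv_cancel_left, Submodule.subtype_apply]
  refine h5.trans (Submodule.map_mono (le_iSup₂_of_le χ ?_ le_rfl))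
  rintro rfl
  rw [← h3] at h5
  refine hj.1 (Subtype.ext (Submodule.eq_of_le_of_finrank_eq h5 ?_))
  rw [hγ j, hγ k, block_rank (block_inj ρ _), block_rank (block_inj ρ _)]

theorem block_eig [IsAlgClosed F] [FiniteDimensional F V] [Nontrivial V] {ι : Type}
    (f : ι → End F V) (hc : ∀ i j, f i * f j = f j * f i) :
    ∃ χ : ι → F, ⨅ i, (f i).eigenspace (χ i) ≠ ⊥ := by
  obtain ⟨P, ⟨h0, h1⟩, hmin⟩ :=
    (InvImage.wf (fun P : Submodule F V => finrank F P) wellFounded_lt).has_min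
      {P | P ≠ ⊥ ∧ ∀ i, ∀ v ∈ P, f i v ∈ P} ⟨⊤, top_ne_bot, fun _ _ _ => trivial⟩
  have : Nontrivial P := Submodule.nontrivial_iff_ne_bot.2 h0
  have h2 : ∀ i, ∃ c, P ≤ (f i).eigenspace c := fun i => by
    obtain ⟨c, hc'⟩ := End.exists_eigenvalue ((f i).restrict (h1 i))
    obtain ⟨v, hv⟩ := hc'.exists_hasEigenvector
    have h3 : P ⊓ (f i).eigenspace c ≠ ⊥ := fun e => by
      have h4 : (v : V) ∈ P ⊓ (f i).eigenspace c :=
        ⟨v.2, End.mem_eigenspace_iff.2 (congrArg Subtype.val hv.apply_eq_smul)⟩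
      rw [e, Submodule.mem_bot] at h4
      exact hv.2 (Subtype.ext h4)
    have h5 := hmin (P ⊓ (f i).eigenspace c) ⟨h3, fun j w hw => ⟨h1 j w hw.1, by
      have h6 := End.mem_eigenspace_iff.1 hw.2
      refine End.mem_eigenspace_iff.2 ?_
      rw [← Module.End.mul_apply, hc, Module.End.mul_apply, h6, map_smul]⟩⟩
    exact ⟨c, (Submodule.eq_of_le_of_finrank_le inf_le_left (not_lt.1 h5)).ge.trans inf_le_right⟩
  choose χ hχ using h2
  exact ⟨χ, ne_bot_of_le_ne_bot h0 (le_iInf hχ)⟩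

theorem block_prim (hDi : StmtDiag) [IsAlgClosed F] [FiniteDimensional F V]
    {ρ : Representation F G V} {W : Submodule F V} (h0 : W ≠ ⊥) (h : Blk ρ W)
    (hmin : ∀ W' : Submodule F V, W' ≠ ⊥ → Blk ρ W' → finrank F W ≤ finrank F W') :
    Prim (resU ρ W).range := fun A hc hn => by
  have : Nontrivial W := Submodule.nontrivial_iff_ne_bot.2 h0
  obtain ⟨χ₀, hχ⟩ := block_eig (fun a : A => ((a : (End F W)ˣ) : End F W)) fun a b => by
    rw [← Units.val_mul, hc a a.2 b b.2, Units.val_mul]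
  have h1 := block_sub h _ (hDi F W A fun a : A => ((a : (End F W)ˣ) : End F W)).1 χ₀ fun s => by
    have h2 : ∀ a : A, (resU ρ W s)⁻¹ * a * resU ρ W s ∈ A := fun a =>
      (Subgroup.mem_set_normalizer_iff''.1 (hn _ ⟨s, rfl⟩) a).1 a.2
    refine ⟨fun a => χ₀ ⟨_, h2 a⟩, ?_⟩
    rintro _ ⟨w, hw, rfl⟩
    refine (Submodule.mem_iInf _).2 fun a => End.mem_eigenspace_iff.2 ?_
    have h3 := End.mem_eigenspace_iff.1 ((Submodule.mem_iInf _).1 hw ⟨_, h2 a⟩)
    rw [← map_smul, ← h3, ← Module.End.mul_apply, ← Module.End.mul_apply, ← Units.val_mul,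
      ← Units.val_mul]
    simp only [mul_assoc, mul_inv_cancel_left]
  have h4 := hmin _ (fun e => hχ (block_bot W.injective_subtype e)) h1
  rw [block_rank W.injective_subtype] at h4
  have h5 := Submodule.eq_top_of_finrank_eq (le_antisymm (Submodule.finrank_le _) h4)
  intro a ha
  have h6 : (a : End F W) = χ₀ ⟨a, ha⟩ • (1 : End F W) := LinearMap.ext fun w =>
    End.mem_eigenspace_iff.1 ((Submodule.mem_iInf _).1 (h5.ge Submodule.mem_top) ⟨a, ha⟩)
  refine ⟨_, fun e => a.ne_zero ?_, h6⟩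
  rw [h6, e, zero_smul]

end Aux

theorem block (hDi : StmtDiag) : StmtBlock := by
  intro F G V _ _ _ _ _ _ _ ρ
  obtain ⟨W, ⟨h0, h1⟩, hmin⟩ :=
    (InvImage.wf (fun P : Submodule F V => finrank F P) wellFounded_lt).has_min
      {P | P ≠ ⊥ ∧ Blk ρ P} ⟨⊤, top_ne_bot, block_top ρ⟩
  refine ⟨W, h0, fun g => ⟨block_tr h1 g, block_prim hDi (fun e => h0 ?_) (block_tr h1 g)
    fun W' a b => ?_⟩⟩
  · exact block_bot (block_inj ρ g) e
  · rw [block_rank (block_inj ρ g)]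
    exact not_lt.1 (hmin W' ⟨a, b⟩)

end Pool.Agent.Work.MP_11a08a_al.Sol
end

-- merged part: Pool.Agent.Work.MP_11a08a_al.Sol.Ideal
section
/-!
Strong induction on `finrank V`.  If `V` is trivial the left side is `0`.  If there is no proper nonzero invariant subspace the sum
is nonzero (else `0 = 1`).  Otherwise take such `U`, the representations `ρ.subrepresentation U _` and `ρ.quotient U _` satisfy the same
identity, and `rk (D on U) + rk (D on V ⧸ U) ≤ rk D` (map `range D` to `V ⧸ U`: the image is the range of the quotient map, the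
kernel contains `D U`).
-/

set_option autoImplicit false

open Finset Module
open scoped commutatorElement

namespace Pool.Agent.Work.MP_11a08a_al.Sol

section

variable {F G : Type} [Field F] [Group G] [Fintype G] {V V' : Type} [AddCommGroup V] [Module F V]
  [AddCommGroup V'] [Module F V']

omit [Fintype G] in
theorem ideal_D {ρ : Representation F G V} {ρ' : Representation F G V'} {φ : V →ₗ[F] V'}
    (hφ : ∀ g v, φ (ρ g v) = ρ' g (φ v)) {q : ℕ} (α : Fin q → F) (h : Fin q → G) (v : V) :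
    φ ((∑ l, α l • ρ (h l)) v) = (∑ l, α l • ρ' (h l)) (φ v) := by
  simp only [LinearMap.sum_apply, LinearMap.smul_apply, map_sum, map_smul, hφ]

theorem ideal_S {ρ : Representation F G V} {ρ' : Representation F G V'} {φ : V →ₗ[F] V'}
    (hφ : ∀ g v, φ (ρ g v) = ρ' g (φ v)) {D : End F V} {D' : End F V'}
    (hD : ∀ v, φ (D v) = D' (φ v)) (c : G → G → F) (v : V) :
    φ ((∑ g, ∑ g', c g g' • (ρ g * D * ρ g')) v) =
      (∑ g, ∑ g', c g g' • (ρ' g * D' * ρ' g')) (φ v) := by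
  simp only [LinearMap.sum_apply, LinearMap.smul_apply, map_sum, map_smul, End.mul_apply, hφ, hD]

theorem ideal_rk [FiniteDimensional F V] (U : Submodule F V) {D : End F V} {D₁ : End F U}
    {D₂ : End F (V ⧸ U)} (h₁ : ∀ u, U.subtype (D₁ u) = D (U.subtype u))
    (h₂ : ∀ v, U.mkQ (D v) = D₂ (U.mkQ v)) : rk D₁ + rk D₂ ≤ rk D := by
  have e := LinearMap.finrank_range_add_finrank_ker (U.mkQ.domRestrict (LinearMap.range D))
  have a2 : rk D₂ ≤ finrank F (LinearMap.range (U.mkQ.domRestrict (LinearMap.range D))) := by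
    refine Submodule.finrank_mono ?_
    rintro _ ⟨x, rfl⟩
    obtain ⟨v, rfl⟩ := U.mkQ_surjective x
    exact ⟨⟨D v, v, rfl⟩, h₂ v⟩
  have a1 : rk D₁ ≤ finrank F (LinearMap.ker (U.mkQ.domRestrict (LinearMap.range D))) := by
    let j₀ : LinearMap.range D₁ →ₗ[F] LinearMap.range D :=
      (U.subtype.domRestrict (LinearMap.range D₁)).codRestrict _ (by
        rintro ⟨_, u, rfl⟩
        exact ⟨u, (h₁ u).symm⟩)
    let j : LinearMap.range D₁ →ₗ[F] LinearMap.ker (U.mkQ.domRestrict (LinearMap.range D)) :=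
      j₀.codRestrict _ fun x => (Submodule.Quotient.mk_eq_zero U).2 x.1.2
    refine LinearMap.finrank_le_finrank_of_injective (f := j) fun x y hxy => ?_
    exact Subtype.ext (Subtype.ext (congrArg (fun z => z.1.1) hxy))
  unfold rk at *
  omega

end

theorem ideal : StmtIdeal := by
  intro F G _ _ _ q α h K hirr hK
  suffices H : ∀ n : ℕ, ∀ (V : Type) [AddCommGroup V] [Module F V] [FiniteDimensional F V]
      (ρ : Representation F G V) (c : G → G → F), finrank F V = n →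
      ∑ g, ∑ g', c g g' • (ρ g * (∑ l, α l • ρ (h l)) * ρ g') = 1 →
      (finrank F V : ℝ) ≤ K * rk (∑ l, α l • ρ (h l)) from
    fun V _ _ _ ρ c hc => H _ V ρ c rfl hc
  intro n
  induction n using Nat.strong_induction_on with
  | _ n ih =>
    intro V _ _ _ ρ c hn hc
    rcases subsingleton_or_nontrivial V with hV | hV
    · rw [finrank_zero_of_subsingleton, Nat.cast_zero]
      positivity
    by_cases hU : ∀ U : Submodule F V, (∀ g, ∀ v ∈ U, ρ g v ∈ U) → U = ⊥ ∨ U = ⊤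
    · refine hirr V ρ hU fun h0 => ?_
      rw [h0] at hc
      simp at hc
    push Not at hU
    obtain ⟨U, hU, hb, ht⟩ := hU
    have hU' : ∀ g, U ≤ U.comap (ρ g) := fun g v hv => hU g v hv
    have φ₁ : ∀ g u, U.subtype (ρ.subrepresentation U hU' g u) = ρ g (U.subtype u) :=
      fun g u => rfl
    have φ₂ : ∀ g v, U.mkQ (ρ g v) = ρ.quotient U hU' g (U.mkQ v) := fun g v => rfl
    have hd := U.finrank_quotient_add_finrank
    have h1 : finrank F U < finrank F V := Submodule.finrank_lt ht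
    have h2 : finrank F U ≠ 0 := fun e => hb (Submodule.finrank_eq_zero.1 e)
    have i₁ := ih _ (hn ▸ h1) U (ρ.subrepresentation U hU') c rfl (by
      refine LinearMap.ext fun u => U.subtype_injective ?_
      rw [ideal_S φ₁ (ideal_D φ₁ α h), hc]
      rfl)
    have i₂ := ih (finrank F (V ⧸ U)) (by omega) (V ⧸ U) (ρ.quotient U hU') c rfl (by
      refine LinearMap.ext fun x => ?_
      obtain ⟨v, rfl⟩ := U.mkQ_surjective x
      rw [← ideal_S φ₂ (ideal_D φ₂ α h), hc]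
      rfl)
    have h3 := ideal_rk U (ideal_D φ₁ α h) (ideal_D φ₂ α h)
    have h4 := mul_le_mul_of_nonneg_left ((Nat.cast_le (α := ℝ)).2 h3) hK
    rw [← hd]
    push_cast at h4 ⊢
    linarith

end Pool.Agent.Work.MP_11a08a_al.Sol
end
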