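import Pool.Agent.Work.MP_11a08a_al.Sol.RB

-- merged part: Pool.Agent.Work.MP_11a08a_al.Sol.Dense
section
/-!
`dense`: `X = {x | f x ≤ T}` is symmetric and contains `1`; `f ≤ T ^ j` on `X ^ j` (`j ≥ 1`).  If
`X ^ (3 i + 1) ⊆ X ^ (3 i)` for some `i ≤ k` then `X ^ (3 i)` is closed under right multiplication by `X`, so it
contains the closure.  Otherwise pick `x i ∈ X ^ (3 i + 1)`, not in `X ^ (3 i)`, for `i ≤ k`; the sets `x i • X`
are pairwise disjoint (if `i < j` and `x i * a = x j * b` then `x j = x i * a * b⁻¹ ∈ X ^ (3 i + 3) ⊆ X ^ (3 j)`),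
so `(k + 1) card X ≤ card Q`, a contradiction.  The index bound is `card X ≤ card closure`.
`maxo`: take `x₁` with the largest orbit `O`, for `y ∈ O` choose `γ y` with `φ (γ y) x₁ = y`, `C` the
intersection of the fixed subgroups of the `φ (γ y)` (each of index `≤ m'`).  For `e ∈ C` the elements
`φ (γ y) (x₁ e) = y e` fill the orbit of `x₁ e` by maximality, so `φ γ (x₁ e) = y e` for some `y` and
`φ γ e * e⁻¹ = (φ γ x₁)⁻¹ * y`; `X` is the image of `O × O`.
-/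

set_option autoImplicit false

open Finset Module
open scoped commutatorElement

namespace Pool.Agent.Work.MP_11a08a_al.Sol

theorem dense_index {Q : Type} [Group Q] [Finite Q] (H : Subgroup Q) {k : ℕ}
    (h : Nat.card Q ≤ k * Nat.card H) : H.index ≤ k := by
  rw [← H.index_mul_card] at h
  exact Nat.le_of_mul_le_mul_right h Nat.card_pos

open scoped Pointwise in
theorem dense_stop {Q : Type} [Group Q] [Finite Q] (X : Set Q) (k : ℕ) (h1 : 1 ∈ X)
    (hi : ∀ x ∈ X, x⁻¹ ∈ X) (h : Nat.card Q ≤ k * Nat.card X) :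
    ∃ i ≤ k, X ^ (3 * i + 1) ⊆ X ^ (3 * i) := by
  by_contra hc
  have h2 : ∀ i : Fin (k + 1), ∃ x ∈ X ^ (3 * (i : ℕ) + 1), x ∉ X ^ (3 * (i : ℕ)) := fun i =>
    Set.not_subset.1 fun hs => hc ⟨i, Nat.lt_succ_iff.1 i.2, hs⟩
  choose x hx hx' using h2
  have h3 : ∀ (i j : Fin (k + 1)) (a b : X), i < j → x i * a ≠ x j * b := fun i j a b hij e => by
    apply hx' j
    have e1 : x j = x i * a * (b : Q)⁻¹ := by rw [e, mul_inv_cancel_right]
    have e2 : x j ∈ X ^ (3 * (i : ℕ) + 1 + 1 + 1) := by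
      rw [e1, pow_succ, pow_succ]
      exact Set.mul_mem_mul (Set.mul_mem_mul (hx i) a.2) (hi _ b.2)
    have e3 : (i : ℕ) < j := hij
    exact Set.pow_subset_pow_right h1 (by omega) e2
  have h4 : Function.Injective fun p : Fin (k + 1) × X => x p.1 * p.2 := by
    rintro ⟨i, a⟩ ⟨j, b⟩ e
    have e' : x i * a = x j * b := e
    rcases lt_trichotomy i j with c | rfl | c
    · exact absurd e' (h3 i j a b c)
    · rw [Subtype.ext (mul_left_cancel e')]
    · exact absurd e'.symm (h3 j i b a c)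
  have h5 := Nat.card_le_card_of_injective _ h4
  have : Nonempty X := ⟨⟨1, h1⟩⟩
  have h6 : 0 < Nat.card X := Nat.card_pos
  rw [Nat.card_prod, Nat.card_eq_fintype_card (α := Fin (k + 1)), Fintype.card_fin, add_mul] at h5
  omega

open scoped Pointwise in
theorem dense : StmtDense := by
  intro Q _ _ f T k hT h1 hm hi hc
  have hi' : ∀ x ∈ {x : Q | f x ≤ T}, x⁻¹ ∈ {x : Q | f x ≤ T} := fun x hx => (hi x).trans_le hx
  refine ⟨dense_index _ (hc.trans (Nat.mul_le_mul_left _ ?_)), fun x hx => ?_⟩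
  · exact Nat.card_le_card_of_injective
      (fun x => ⟨x.1, Subgroup.subset_closure x.2⟩) fun a b e => Subtype.ext (Subtype.mk.inj e)
  obtain ⟨i, hik, hs⟩ := dense_stop {x : Q | f x ≤ T} k h1 hi' hc
  have h2 : ∀ j : ℕ, ∀ y ∈ {x : Q | f x ≤ T} ^ j, f y ≤ T ^ (j + 1) := fun j => by
    induction j with
    | zero =>
      intro y hy
      rw [pow_zero, Set.mem_one] at hy
      rw [hy, zero_add, pow_one]
      exact h1
    | succ j ih =>
      intro y hy
      rw [pow_succ] at hy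
      obtain ⟨a, ha, b, hb, rfl⟩ := Set.mem_mul.1 hy
      rw [pow_succ]
      exact (hm a b).trans (Nat.mul_le_mul (ih a ha) hb)
  have h3 : x ∈ {x : Q | f x ≤ T} ^ (3 * i) := by
    induction hx using Subgroup.closure_induction_right with
    | one => exact Set.one_mem_pow h1
    | mul_right x _ y hy ih =>
      apply hs
      rw [pow_succ]
      exact Set.mul_mem_mul ih hy
    | mul_inv_cancel x _ y hy ih =>
      apply hs
      rw [pow_succ]
      exact Set.mul_mem_mul ih (hi' y hy)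
  exact (h2 _ x h3).trans (Nat.pow_le_pow_right hT (by omega))

theorem maxo : StmtMax := by
  classical
  intro Q E _ _ _ _ φ m m' hm hm'
  obtain ⟨x, hx⟩ := Finite.exists_max fun e : E => Nat.card (Set.range fun γ : Q => φ γ e)
  have h1 : ∀ y : Set.range fun γ : Q => φ γ x, ∃ γ : Q, φ γ x = y := fun y => y.2
  choose γ hγ using h1
  have := Fintype.ofFinite (Set.range fun γ : Q => φ γ x)
  have hf : (Set.range fun γ : Q => φ γ x).Finite := Set.toFinite _
  refine ⟨⨅ y, (φ (γ y)).toMonoidHom.eqLocus (MonoidHom.id E),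
    image₂ (fun a b => a⁻¹ * b) hf.toFinset hf.toFinset, ?_, ?_, fun e he δ => ?_⟩
  · refine (Subgroup.index_iInf_le _).trans ?_
    refine (prod_le_pow_card _ _ (m' + 1) fun y _ => ?_).trans
      (Nat.pow_le_pow_right (Nat.succ_pos _) ?_)
    · exact (dense_index _ (hm' (γ y))).trans (Nat.le_succ _)
    · rw [card_univ, ← Nat.card_eq_fintype_card]
      exact hm x
  · refine (card_image₂_le _ _ _).trans ?_
    rw [← Nat.card_eq_card_finite_toFinset hf, sq]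
    exact Nat.mul_le_mul (hm x) (hm x)
  · have h2 : ∀ y, φ (γ y) e = e := fun y => Subgroup.mem_iInf.1 he y
    let ψ : (Set.range fun γ : Q => φ γ x) → Set.range fun γ : Q => φ γ (x * e) :=
      fun y => ⟨y * e, γ y, by simp only [map_mul, hγ, h2]⟩
    have h3 : Function.Injective ψ := fun a b h =>
      Subtype.ext (mul_right_cancel (Subtype.mk.inj h))
    obtain ⟨y, hy⟩ := (h3.bijective_of_nat_card_le (hx (x * e))).2 ⟨_, δ, rfl⟩
    have h4 : (y : E) * e = φ δ (x * e) := Subtype.mk.inj hy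
    refine mem_image₂.2 ⟨φ δ x, hf.mem_toFinset.2 ⟨δ, rfl⟩, y, hf.mem_toFinset.2 y.2, ?_⟩
    rw [eq_mul_inv_iff_mul_eq, mul_assoc, h4, map_mul, inv_mul_cancel_left]

end Pool.Agent.Work.MP_11a08a_al.Sol
end

-- merged part: Pool.Agent.Work.MP_11a08a_al.Sol.BFC
section
/-!
If `J = ∅` take `A = ⊤`.  For nonempty `J₁ ⊆ J` put `NJ = ⨅ j ∈ J₁, N j` (normal) and `Q' = Q ⧸ NJ`.  Fix
`T₂ ≥ 1` with `2 T ≤ T₂ ^ δ` (real power).  STEP: let `f x` be the size of the conjugacy class of `x` in `Q'`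
(`f (x y) ≤ f x f y`, `f x⁻¹ = f x`).  Either `card Q' ≤ 2 T card {f ≤ T₂}`, or by double counting pairs
`(x, j)` with `x` in the image of `N j` (index `≤ T`) some `x` with `f x > T₂` lies in the image of `N j` for
`j ∈ J₂`, `card J₁ ≤ 2 T card J₂`; then the intersection over `J₂` has at least `T₂` times as many elements
as `NJ`.  Induct (for instance on `card Q - card NJ`, invariant `card J * card NJ ^ (-δ)` type inequality:
`card J₁ * (card NJ₁) ^ δ ≤ card J₂ * (card NJ₂) ^ δ`), so the total loss is at most `card Q ^ δ`.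
END: `dense` gives `Q₀ ≤ Q'` of index `≤ k = 2 T` with classes `≤ m = T₂ ^ (3 k + 3)`; `maxo` for the
conjugation action of `Q₀` on itself (`m' = m`) gives `C, X`.  Pigeonhole `j` by the subset
`X.filter (· ∈ image of N j)` (`2 ^ (m ^ 2)` values), fix `j₀` in the popular class and let `A` be the
preimage in `Q` of `C ⊓ image of N j₀`.  For `a b ∈ A` the element `a b a⁻¹ b⁻¹ = φ a b * b⁻¹` lies in `X`
and in `N j₀`, hence in `N j`.
-/

set_option autoImplicit false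

open Finset Module
open scoped commutatorElement

namespace Pool.Agent.Work.MP_11a08a_al.Sol

/-- The size of the conjugacy class. -/
noncomputable def bfc_f {Q : Type} [Group Q] (x : Q) : ℕ :=
  Nat.card (Set.range fun γ : Q => γ * x * γ⁻¹)

theorem bfc_f_one {Q : Type} [Group Q] : bfc_f (1 : Q) = 1 := by
  simp [bfc_f]

open Pointwise in
theorem bfc_f_mul {Q : Type} [Group Q] [Finite Q] (x y : Q) :
    bfc_f (x * y) ≤ bfc_f x * bfc_f y := by
  refine le_trans (Nat.card_mono (Set.toFinite _) ?_) Set.natCard_mul_le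
  rintro _ ⟨γ, rfl⟩
  exact ⟨_, ⟨γ, rfl⟩, _, ⟨γ, rfl⟩, by simp [mul_assoc]⟩

open Pointwise in
theorem bfc_f_inv {Q : Type} [Group Q] (x : Q) : bfc_f x⁻¹ = bfc_f x := by
  have e : (Set.range fun γ : Q => γ * x⁻¹ * γ⁻¹) = (Set.range fun γ : Q => γ * x * γ⁻¹)⁻¹ := by
    ext y
    simp only [Set.mem_inv, Set.mem_range]
    refine exists_congr fun γ => ?_
    rw [← inv_inj]
    simp [mul_assoc]
  rw [bfc_f, bfc_f, e, Set.natCard_inv]

theorem bfc_f_sub {Q : Type} [Group Q] [Finite Q] (H : Subgroup Q) (x : H) :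
    bfc_f x ≤ bfc_f (x : Q) := by
  refine Nat.card_le_card_of_injective
    (fun u : Set.range fun γ : H => γ * x * γ⁻¹ =>
      (⟨u.1.1, by
        obtain ⟨γ, h⟩ := u.2
        exact ⟨γ, congrArg Subtype.val h⟩⟩ : Set.range fun γ : Q => γ * x * γ⁻¹))
    fun u v h => Subtype.ext (Subtype.ext (Subtype.mk.inj h))

theorem bfc_orbit {Q : Type} [Group Q] (γ : Q) :
    Nat.card Q = bfc_f γ * Nat.card {e : Q // γ * e * γ⁻¹ = e} := by
  have h := Nat.card_congr (MulAction.orbitProdStabilizerEquivGroup (ConjAct Q) γ)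
  rw [Nat.card_prod] at h
  refine h.symm.trans (congrArg₂ _ rfl (Nat.card_congr (Equiv.subtypeEquivRight fun e => ?_)))
  show ConjAct.ofConjAct e * γ * (ConjAct.ofConjAct e)⁻¹ = γ ↔
    γ * ConjAct.ofConjAct e * γ⁻¹ = ConjAct.ofConjAct e
  rw [mul_inv_eq_iff_eq_mul, mul_inv_eq_iff_eq_mul, eq_comm]

theorem bfc_end (hD : StmtDense) (hM : StmtMax) (T T₂ k : ℕ) (h1 : 1 ≤ T₂) : ∃ B : ℕ, 1 ≤ B ∧
    ∀ (κ Q : Type) [Group Q] [Finite Q] (J : Finset κ) (N : κ → Subgroup Q),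
      (∀ j ∈ J, (N j).index ≤ T) → Nat.card Q ≤ k * Nat.card {x : Q // bfc_f x ≤ T₂} →
      ∃ J' ⊆ J, ∃ A : Subgroup Q, J.card ≤ B * J'.card ∧ A.index ≤ B ∧
        ∀ j ∈ J', ∀ a ∈ A, ∀ b ∈ A, a * b * a⁻¹ * b⁻¹ ∈ N j := by
  classical
  generalize hm : T₂ ^ (3 * k + 3) = m
  have hB : 1 ≤ 2 ^ (m ^ 2) + (m + 1) ^ m * k * T := Nat.one_le_two_pow.trans (Nat.le_add_right _ _)
  refine ⟨_, hB, fun κ Q _ _ J N hN hQ => ?_⟩
  obtain ⟨d1, d2⟩ := hD Q bfc_f T₂ k h1 (bfc_f_one.trans_le h1) bfc_f_mul bfc_f_inv hQ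
  rw [hm] at d2
  generalize Subgroup.closure {x : Q | bfc_f x ≤ T₂} = H at d1 d2
  have d3 : ∀ x : H, bfc_f x ≤ m := fun x => (bfc_f_sub H x).trans (d2 x x.2)
  obtain ⟨C, X, c1, c2, c3⟩ := hM H H MulAut.conj m m d3 fun γ =>
    (bfc_orbit γ).trans_le (Nat.mul_le_mul_right _ (d3 γ))
  obtain ⟨Y, -, hY⟩ := exists_max_image X.powerset
    (fun Y => (J.filter fun j => (X.filter fun x : H => (x : Q) ∈ N j) = Y).card)
    ⟨∅, empty_mem_powerset X⟩
  have e1 := card_le_mul_card_image_of_maps_to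
    (f := fun j => X.filter fun x : H => (x : Q) ∈ N j) (s := J) (t := X.powerset)
    (fun j _ => mem_powerset.mpr (filter_subset _ _)) _ hY
  rw [card_powerset, mul_comm] at e1
  have e2 := e1.trans (Nat.mul_le_mul_right _ ((Nat.pow_le_pow_right two_pos c2).trans
    (Nat.le_add_right _ ((m + 1) ^ m * k * T))))
  refine ⟨_, filter_subset (fun j => (X.filter fun x : H => (x : Q) ∈ N j) = Y) J, ?_⟩
  rcases (J.filter fun j => (X.filter fun x : H => (x : Q) ∈ N j) = Y).eq_empty_or_nonempty with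
    h0 | ⟨j₀, hj₀⟩
  · refine ⟨⊤, e2, by rwa [Subgroup.index_top], fun j hj => ?_⟩
    rw [h0] at hj
    exact absurd hj (notMem_empty j)
  obtain ⟨a1, a2⟩ := mem_filter.mp hj₀
  refine ⟨C.map H.subtype ⊓ N j₀, e2, ?_, ?_⟩
  · refine Subgroup.index_inf_le.trans (le_trans ?_ (Nat.le_add_left _ _))
    rw [Subgroup.index_map_subtype]
    exact Nat.mul_le_mul (Nat.mul_le_mul c1 d1) (hN j₀ a1)
  · rintro j hj _ ⟨⟨a, -, rfl⟩, ha⟩ _ ⟨⟨b, hb, rfl⟩, hb'⟩
    have e3 : MulAut.conj a b * b⁻¹ ∈ X.filter fun x : H => (x : Q) ∈ N j₀ :=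
      mem_filter.mpr ⟨c3 b hb a, mul_mem (mul_mem (mul_mem ha hb') (inv_mem ha)) (inv_mem hb')⟩
    rw [a2, ← (mem_filter.mp hj).2] at e3
    exact (mem_filter.mp e3).2

theorem bfc_step {κ Q : Type} [Group Q] [Finite Q] (T : ℕ) (J : Finset κ) (N : κ → Subgroup Q)
    (hN : ∀ j ∈ J, (N j).index ≤ T) (P : Q → Prop)
    (h : 2 * T * Nat.card {x : Q // P x} ≤ Nat.card Q) :
    ∃ x, ∃ J₂ : Finset κ, J.card ≤ 2 * T * J₂.card ∧ ∀ j ∈ J₂, j ∈ J ∧ ¬ P x ∧ x ∈ N j := by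
  classical
  cases nonempty_fintype Q
  refine (exists_le_of_sum_le (s := (univ : Finset Q)) (f := fun _ => J.card)
    (g := fun x => 2 * T * (J.filter fun j => ¬ P x ∧ x ∈ N j).card) univ_nonempty ?_).imp
      fun x hx => ⟨_, hx.2, fun j hj => mem_filter.mp hj⟩
  have e : ∑ x : Q, (J.filter fun j => ¬ P x ∧ x ∈ N j).card =
      ∑ j ∈ J, (univ.filter fun x : Q => ¬ P x ∧ x ∈ N j).card := by
    simp only [card_filter]
    exact sum_comm
  rw [← mul_sum, e, mul_sum, sum_const, smul_eq_mul, mul_comm, ← smul_eq_mul, ← sum_const]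
  refine sum_le_sum fun j hj => ?_
  rw [Nat.card_eq_fintype_card, Nat.card_eq_fintype_card, Fintype.card_subtype] at h
  have e1 := (N j).card_mul_index
  rw [Nat.card_eq_fintype_card, Nat.card_eq_fintype_card, Fintype.card_subtype] at e1
  have e2 : (univ.filter fun x : Q => x ∈ N j).card ≤
      (univ.filter fun x : Q => ¬ P x ∧ x ∈ N j).card + (univ.filter P).card := by
    refine le_trans (card_le_card fun x hx => ?_) (card_union_le _ _)
    simp only [mem_filter, mem_univ, true_and, mem_union] at hx ⊢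
    tauto
  have e3 := Nat.mul_le_mul e2 (hN j hj)
  rw [e1] at e3
  rw [card_univ]
  nlinarith

theorem bfc (hD : StmtDense) (hM : StmtMax) : StmtBFC := by
  classical
  intro T δ hδ
  obtain ⟨T₂, h2, h1⟩ := ((((tendsto_rpow_atTop hδ).comp
    tendsto_natCast_atTop_atTop).eventually_ge_atTop (2 * T : ℝ)).and
      (Filter.eventually_ge_atTop 1)).exists
  dsimp only [Function.comp] at h2
  obtain ⟨B, hB, hE⟩ := bfc_end hD hM T T₂ (2 * T) h1
  refine ⟨B, fun κ Q _ _ J N hN => ?_⟩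
  induction' hn : Nat.card Q using Nat.strong_induction_on with n ih generalizing Q J N
  subst hn
  rcases J.eq_empty_or_nonempty with rfl | hJ
  · exact ⟨∅, Subset.refl _, ⊤, by simp, by rwa [Subgroup.index_top], by simp⟩
  rcases le_total (Nat.card Q) (2 * T * Nat.card {x : Q // bfc_f x ≤ T₂}) with h | h
  · obtain ⟨J', s, A, a1, a2, a3⟩ := hE κ Q J N (fun j hj => (hN j hj).2) h
    refine ⟨J', s, A, ?_, a2, a3⟩
    have q1 : (1 : ℝ) ≤ (Nat.card Q : ℝ) ^ δ :=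
      Real.one_le_rpow (by exact_mod_cast Nat.card_pos) hδ.le
    calc (J.card : ℝ) ≤ B * 1 * J'.card := by rw [mul_one]; exact_mod_cast a1
      _ ≤ _ := by gcongr
  obtain ⟨x, J₂, hx, m2⟩ := bfc_step T J N (fun j hj => (hN j hj).2) (fun x => bfc_f x ≤ T₂) h
  obtain ⟨j₀, hj₀⟩ : J₂.Nonempty := by
    refine card_pos.mp (Nat.pos_of_ne_zero fun e => ?_)
    rw [e, mul_zero] at hx
    exact absurd (card_pos.mpr hJ) (by omega)
  have hK : ∀ j ∈ J₂, Subgroup.normalClosure {x} ≤ N j := fun j hj => by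
    have := (hN j (m2 j hj).1).1
    exact Subgroup.normalClosure_le_normal (Set.singleton_subset_iff.mpr (m2 j hj).2.2)
  have hx0 : x ∈ Subgroup.normalClosure {x} := Subgroup.subset_normalClosure rfl
  have hn : (Subgroup.normalClosure {x}).Normal := inferInstance
  generalize Subgroup.normalClosure {x} = K at hK hx0 hn
  have hc : T₂ < Nat.card K := by
    refine (not_le.mp (m2 j₀ hj₀).2.1).trans_le (Nat.card_mono (Set.toFinite (K : Set Q)) ?_)
    rintro _ ⟨γ, rfl⟩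
    exact hn.conj_mem x hx0 γ
  have hq := K.card_eq_card_quotient_mul_card_subgroup
  have hp : 0 < Nat.card (Q ⧸ K) := Nat.card_pos
  obtain ⟨J', s, A, a1, a2, a3⟩ := ih (Nat.card (Q ⧸ K)) (by nlinarith) (Q ⧸ K) _ inferInstance J₂
    (fun j => (N j).map (QuotientGroup.mk' K)) (fun j hj =>
      ⟨(hN j (m2 j hj).1).1.map _ (QuotientGroup.mk'_surjective K),
        (Nat.le_of_dvd (Nat.pos_of_ne_zero Subgroup.index_ne_zero_of_finite)
          ((N j).index_map_dvd (QuotientGroup.mk'_surjective K))).trans (hN j (m2 j hj).1).2⟩) rfl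
  refine ⟨J', fun j hj => (m2 j (s hj)).1, A.comap (QuotientGroup.mk' K), ?_, ?_,
    fun j hj a ha b hb => ?_⟩
  · have q1 : (T₂ : ℝ) ^ δ ≤ (Nat.card K : ℝ) ^ δ :=
      Real.rpow_le_rpow (Nat.cast_nonneg _) (by exact_mod_cast hc.le) hδ.le
    calc (J.card : ℝ) ≤ 2 * T * J₂.card := by exact_mod_cast hx
      _ ≤ (Nat.card K : ℝ) ^ δ * (B * (Nat.card (Q ⧸ K) : ℝ) ^ δ * J'.card) :=
        mul_le_mul (h2.trans q1) a1 (Nat.cast_nonneg _) (by positivity)
      _ = _ := by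
        rw [hq, Nat.cast_mul, Real.mul_rpow (Nat.cast_nonneg _) (Nat.cast_nonneg _)]
        ring
  · rwa [A.index_comap_of_surjective (QuotientGroup.mk'_surjective K)]
  · have e := a3 j hj _ ha _ hb
    rw [← Subgroup.comap_map_eq_self (f := QuotientGroup.mk' K) (H := N j)
      (by rw [QuotientGroup.ker_mk']; exact hK j (s hj)), Subgroup.mem_comap]
    simpa only [map_mul, map_inv] using e

end Pool.Agent.Work.MP_11a08a_al.Sol
end

-- merged part: Pool.Agent.Work.MP_11a08a_al.Sol.Uni1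
section
/-!
Helpers for `uni`: stabilisers, fixed subgroups, the counting step and the bounded orbit case.
-/

set_option autoImplicit false

open Finset

namespace Pool.Agent.Work.MP_11a08a_al.Sol

section

variable {Q E : Type} [Group Q] [Group E]

/-- The stabiliser of a point. -/
def uni_st (φ : Q →* MulAut E) (e : E) : Subgroup Q where
  carrier := {γ | φ γ e = e}
  one_mem' := by simp
  mul_mem' := by
    intro a b ha hb
    simp only [Set.mem_ofPred_eq] at ha hb ⊢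
    rw [map_mul, MulAut.mul_apply, hb, ha]
  inv_mem' := by
    intro a ha
    simp only [Set.mem_ofPred_eq] at ha ⊢
    conv_lhs => rw [← ha]
    rw [← MulAut.mul_apply, ← map_mul, inv_mul_cancel, map_one, MulAut.one_apply]

theorem uni_mem_st (φ : Q →* MulAut E) (e : E) (γ : Q) : γ ∈ uni_st φ e ↔ φ γ e = e := Iff.rfl

theorem uni_st_index (φ : Q →* MulAut E) (e : E) :
    (uni_st φ e).index = Nat.card (Set.range fun γ : Q => φ γ e) := by
  let : MulAction Q E := MulAction.compHom E φ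
  have h := MulAction.index_stabilizer Q e
  rw [← Nat.card_coe_set_eq] at h
  exact h

/-- The fixed subgroup of an element. -/
def uni_fx (φ : Q →* MulAut E) (γ : Q) : Subgroup E where
  carrier := {e | φ γ e = e}
  one_mem' := by simp
  mul_mem' := by
    intro a b ha hb
    simp only [Set.mem_ofPred_eq] at ha hb ⊢
    rw [map_mul, hb, ha]
  inv_mem' := by
    intro a ha
    simp only [Set.mem_ofPred_eq] at ha ⊢
    rw [map_inv, ha]

theorem uni_mem_fx (φ : Q →* MulAut E) (e : E) (γ : Q) : e ∈ uni_fx φ γ ↔ φ γ e = e := Iff.rfl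

theorem uni_inv_apply (φ : Q →* MulAut E) (γ : Q) (e : E) : φ γ⁻¹ (φ γ e) = e := by
  rw [← MulAut.mul_apply, ← map_mul, inv_mul_cancel, map_one, MulAut.one_apply]

theorem uni_apply_inv (φ : Q →* MulAut E) (γ : Q) (e : E) : φ γ (φ γ⁻¹ e) = e := by
  rw [← MulAut.mul_apply, ← map_mul, mul_inv_cancel, map_one, MulAut.one_apply]

/-- Restriction of the action to an invariant subgroup. -/
def uni_res (φ : Q →* MulAut E) (H : Subgroup E) (h : ∀ γ, ∀ e ∈ H, φ γ e ∈ H) :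
    Q →* MulAut H where
  toFun γ :=
    { toFun := fun e => ⟨φ γ e, h γ e e.2⟩
      invFun := fun e => ⟨φ γ⁻¹ e, h γ⁻¹ e e.2⟩
      left_inv := fun e => Subtype.ext (uni_inv_apply φ γ e)
      right_inv := fun e => Subtype.ext (uni_apply_inv φ γ e)
      map_mul' := fun a b => Subtype.ext (map_mul (φ γ) (a : E) b) }
  map_one' := by ext e; simp
  map_mul' := fun a b => by ext e; simp

theorem uni_res_apply (φ : Q →* MulAut E) (H : Subgroup E) (h : ∀ γ, ∀ e ∈ H, φ γ e ∈ H)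
    (γ : Q) (e : H) : ((uni_res φ H h γ e : H) : E) = φ γ e := rfl

/-- Counting fixed pairs. -/
theorem uni_count [Finite Q] [Finite E] (φ : Q →* MulAut E) (m : ℕ)
    (h : ∀ e : E, (uni_st φ e).index ≤ m) :
    Nat.card Q ≤ 2 * m * Nat.card {γ : Q // (uni_fx φ γ).index ≤ 2 * m} := by
  classical
  let := Fintype.ofFinite Q
  let := Fintype.ofFinite E
  have h1 : ∀ e : E, Nat.card Q ≤ m * (univ.filter fun γ : Q => φ γ e = e).card := by
    intro e
    have := (uni_st φ e).index_mul_card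
    have e2 : Nat.card (uni_st φ e) = (univ.filter fun γ : Q => φ γ e = e).card := by
      rw [Nat.card_eq_fintype_card, Fintype.card_subtype]
      rfl
    rw [← this, e2]
    exact Nat.mul_le_mul_right _ (h e)
  have h2 : Nat.card E * Nat.card Q ≤ m * ∑ γ : Q, (univ.filter fun e : E => φ γ e = e).card := by
    have := Finset.sum_le_sum (s := (univ : Finset E)) fun e _ => h1 e
    rw [Finset.sum_const, Finset.card_univ, smul_eq_mul, ← Finset.mul_sum,
      ← Nat.card_eq_fintype_card] at this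
    refine this.trans (le_of_eq ?_)
    congr 1
    simp only [Finset.card_filter]
    exact Finset.sum_comm
  have h3 : ∀ γ : Q, 2 * m * (univ.filter fun e : E => φ γ e = e).card ≤
      Nat.card E + 2 * m * Nat.card E * (if (uni_fx φ γ).index ≤ 2 * m then 1 else 0) := by
    intro γ
    have := (uni_fx φ γ).index_mul_card
    have e2 : Nat.card (uni_fx φ γ) = (univ.filter fun e : E => φ γ e = e).card := by
      rw [Nat.card_eq_fintype_card, Fintype.card_subtype]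
      rfl
    rw [← e2]
    split_ifs with hh
    · have : Nat.card (uni_fx φ γ) ≤ Nat.card E := Subgroup.card_le_card_group _
      have := Nat.mul_le_mul_left (2 * m) this
      omega
    · rw [← this, mul_zero, add_zero]
      exact Nat.mul_le_mul_right _ (by omega)
  have h4 := Finset.sum_le_sum (s := (univ : Finset Q)) fun γ _ => h3 γ
  rw [← Finset.mul_sum, Finset.sum_add_distrib, Finset.sum_const, Finset.card_univ, smul_eq_mul,
    ← Finset.mul_sum, ← Finset.card_filter, ← Nat.card_eq_fintype_card] at h4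
  have e3 : Nat.card {γ : Q // (uni_fx φ γ).index ≤ 2 * m} =
      (univ.filter fun γ : Q => (uni_fx φ γ).index ≤ 2 * m).card := by
    rw [Nat.card_eq_fintype_card, Fintype.card_subtype]
  rw [e3]
  have hE : 0 < Nat.card E := Nat.card_pos
  refine Nat.le_of_mul_le_mul_left (c := Nat.card E) ?_ hE
  nlinarith

/-- A subgroup of bounded index all of whose elements fix a subgroup of bounded index. -/
theorem uni_q1 (hD : StmtDense) [Finite Q] [Finite E] (φ : Q →* MulAut E) (m : ℕ) (hm : 1 ≤ m)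
    (h : ∀ e : E, (uni_st φ e).index ≤ m) :
    ∃ Q₁ : Subgroup Q, Q₁.index ≤ 2 * m ∧
      ∀ γ ∈ Q₁, (uni_fx φ γ).index ≤ (2 * m) ^ (3 * (2 * m) + 3) := by
  have h1 : uni_fx φ 1 = ⊤ := by
    ext e; simp [uni_mem_fx]
  obtain ⟨a, b⟩ := hD Q (fun γ => (uni_fx φ γ).index) (2 * m) (2 * m) (by omega)
    (by simp only [h1, Subgroup.index_top]; omega)
    (by
      intro x y
      refine le_trans (Subgroup.index_antitone (H := uni_fx φ x ⊓ uni_fx φ y) ?_)
        Subgroup.index_inf_le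
      rintro e ⟨hx, hy⟩
      have hx' : φ x e = e := hx
      have hy' : φ y e = e := hy
      rw [uni_mem_fx, map_mul, MulAut.mul_apply, hy', hx'])
    (by
      intro x
      show (uni_fx φ x⁻¹).index = (uni_fx φ x).index
      congr 1
      ext e
      simp only [uni_mem_fx]
      constructor
      · intro hh
        conv_lhs => rw [← hh]
        exact uni_apply_inv φ x e
      · intro hh
        conv_lhs => rw [← hh]
        exact uni_inv_apply φ x e)
    (uni_count φ m h)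
  exact ⟨_, a, b⟩

end

/-- The case of bounded orbits. -/
theorem uni_bdd (hD : StmtDense) (hM : StmtMax) {Q A : Type} [Group Q] [CommGroup A] [Finite Q]
    [Finite A] (φ : Q →* MulAut A) (m : ℕ) (hm : 1 ≤ m) (h : ∀ e : A, (uni_st φ e).index ≤ m) :
    ∃ (Q₁ : Subgroup Q) (C : Subgroup A) (X : Finset A), Q₁.index ≤ 2 * m ∧
      C.index ≤ ((2 * m) ^ (3 * (2 * m) + 3) + 1) ^ m ∧ X.card ≤ m ^ 2 ∧
      (∀ u ∈ X, u ^ ((2 * m) ^ (3 * (2 * m) + 3)).factorial = 1) ∧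
      ∀ e ∈ C, ∀ γ ∈ Q₁, φ γ e * e⁻¹ ∈ X := by
  classical
  obtain ⟨Q₁, i1, hf⟩ := uni_q1 hD φ m hm h
  set T₃ := (2 * m) ^ (3 * (2 * m) + 3) with hT
  obtain ⟨C, X, c1, c2, c3⟩ := hM Q₁ A (φ.comp Q₁.subtype) m T₃
    (by
      intro e
      refine le_trans ?_ (h e)
      rw [uni_st_index]
      refine Nat.card_le_card_of_injective (Set.inclusion ?_) (Set.inclusion_injective _)
      rintro _ ⟨γ, rfl⟩
      exact ⟨γ.1, rfl⟩)
    (by
      intro γ
      have := (uni_fx φ γ.1).index_mul_card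
      rw [← this]
      exact Nat.mul_le_mul (hf γ.1 γ.2) (le_of_eq rfl))
  refine ⟨Q₁, C, X.filter fun u => u ^ T₃.factorial = 1, i1, c1,
    (Finset.card_filter_le _ _).trans c2, fun u hu => (Finset.mem_filter.1 hu).2, ?_⟩
  intro e he γ hγ
  refine Finset.mem_filter.2 ⟨c3 e he ⟨γ, hγ⟩, ?_⟩
  have hd : (uni_fx φ γ).index ∣ T₃.factorial :=
    Nat.dvd_factorial (Nat.pos_of_ne_zero Subgroup.FiniteIndex.index_ne_zero) (hf γ hγ)
  obtain ⟨c, hc⟩ := hd
  have hmem : e ^ T₃.factorial ∈ uni_fx φ γ := by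
    rw [hc, pow_mul]
    exact Subgroup.pow_mem _ (Subgroup.pow_index_mem _ e) c
  rw [uni_mem_fx, map_pow] at hmem
  rw [mul_pow, hmem, inv_pow, mul_inv_cancel]

end Pool.Agent.Work.MP_11a08a_al.Sol
end

-- merged part: Pool.Agent.Work.MP_11a08a_al.Sol.Uni
section
/-!
`dense` on `E` with `f e` the orbit size: `E₀ = closure {f ≤ T}` is invariant, index `≤ k`, orbits
`≤ T₂ = (T + 1) ^ (3 k + 3)` (use `T + 1` to have `1 ≤ T`).  Count pairs `(γ, e)`, `e ∈ E₀`, `φ γ e = e`: at least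
`card Q / (2 T₂)` elements `γ` have fixed subgroup of index `≤ 2 T₂` in `E₀`.  `dense` on `Q` with
`f γ` that index (submultiplicative: `Subgroup.index_inf_le`) gives `Q₁` of bounded index with all indices
`≤ T₃`.  `maxo` for `Q₁` acting on `E₀` gives `C, X`.  Each `u = φ γ e * e⁻¹` (`e ∈ C`, `γ ∈ Q₁`) lies in the
range of the homomorphism `e ↦ φ γ e * e⁻¹` of `E₀` whose kernel has index `≤ T₃`, so `u ^ T₃! = 1`.
`E₁` = closure of the `Q`-orbits of these `u` (at most `card X * T₂` generators killed by `T₃!`, so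
`card E₁ ≤ T₃! ^ (card X * T₂)`), `Q₂ = Q₁.normalCore`, `E₂ = {e | ∀ γ ∈ Q₂, φ γ e * e⁻¹ ∈ E₁}` (a subgroup,
`Q`-invariant, contains the image of `C`, so of bounded index).  `N = Q₂ ⊓ ker (Q → Perm (E ⧸ E₂)) ⊓ ker (Q → Perm E₁)`;
a kernel of a map to `Perm Y` has index `≤ (card Y)!`.
-/

set_option autoImplicit false

open Finset Module
open scoped commutatorElement

namespace Pool.Agent.Work.MP_11a08a_al.Sol

theorem uni_ker_index {Q Y : Type} [Group Q] [Finite Y] (ρ : Q →* Equiv.Perm Y) :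
    ρ.ker.index ≤ (Nat.card Y).factorial := by
  rw [Subgroup.index_ker, ← Nat.card_perm]
  exact Subgroup.card_le_card_group _

theorem uni_core_index {Q : Type} [Group Q] [Finite Q] (H : Subgroup Q) :
    H.normalCore.index ≤ H.index.factorial := by
  rw [Subgroup.normalCore_eq_ker]
  exact uni_ker_index _

/-- The action on the quotient by an invariant subgroup. -/
def uni_quo {Q E : Type} [Group Q] [CommGroup E] (φ : Q →* MulAut E) (H : Subgroup E)
    (h : ∀ γ, ∀ e ∈ H, φ γ e ∈ H) : Q →* Function.End (E ⧸ H) where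
  toFun γ := fun x => QuotientGroup.map H H (φ γ).toMonoidHom (fun e he => h γ e he) x
  map_one' := by
    funext x
    induction x using QuotientGroup.induction_on with
    | H e => simp [Function.End.one_def]
  map_mul' a b := by
    funext x
    induction x using QuotientGroup.induction_on with
    | H e => simp [Function.End.mul_def]

theorem uni_quo_ker {Q E : Type} [Group Q] [CommGroup E] [Finite E] (φ : Q →* MulAut E)
    (H : Subgroup E) (h : ∀ γ, ∀ e ∈ H, φ γ e ∈ H) :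
    ∃ K : Subgroup Q, K.index ≤ H.index.factorial ∧ ∀ γ ∈ K, ∀ e, φ γ e * e⁻¹ ∈ H := by
  refine ⟨(uni_quo φ H h).toHomPerm.ker, uni_ker_index _, ?_⟩
  intro γ hγ e
  have h1 : (uni_quo φ H h).toHomPerm γ (e : E ⧸ H) = e := by
    rw [MonoidHom.mem_ker.1 hγ]; rfl
  have h2 : ((φ γ e : E) : E ⧸ H) = e := h1
  have h3 := QuotientGroup.eq.1 h2.symm
  rwa [mul_comm] at h3

/-- The final step: a subgroup moving a subgroup of bounded index into its own fixed points. -/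
theorem uni_fin {Q E : Type} [Group Q] [Finite Q] [CommGroup E] [Finite E] (φ : Q →* MulAut E)
    (N₀ : Subgroup Q) (C : Subgroup E)
    (h : ∀ e ∈ C, ∀ γ ∈ N₀, ∀ δ ∈ N₀, φ δ (φ γ e * e⁻¹) = φ γ e * e⁻¹) :
    ∃ (N : Subgroup Q) (E₁ E₂ : Subgroup E), N.Normal ∧
      N.index ≤ (C.index.factorial * N₀.index).factorial ∧
      ∀ γ ∈ N, (∀ e, φ γ e * e⁻¹ ∈ E₂) ∧ (∀ e ∈ E₂, φ γ e * e⁻¹ ∈ E₁) ∧ ∀ e ∈ E₁, φ γ e = e := by
  let E₁ : Subgroup E := ⨅ δ ∈ N₀, uni_fx φ δ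
  have m1 : ∀ e, e ∈ E₁ ↔ ∀ δ ∈ N₀, φ δ e = e := by
    intro e
    simp only [E₁, Subgroup.mem_iInf, uni_mem_fx]
  let E₂ : Subgroup E :=
    { carrier := {e | ∀ γ ∈ N₀, φ γ e * e⁻¹ ∈ E₁}
      one_mem' := by
        intro γ _
        simp
      mul_mem' := by
        intro a b ha hb γ hγ
        have : φ γ (a * b) * (a * b)⁻¹ = (φ γ a * a⁻¹) * (φ γ b * b⁻¹) := by
          rw [map_mul, mul_inv, mul_mul_mul_comm]
        rw [this]
        exact E₁.mul_mem (ha γ hγ) (hb γ hγ)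
      inv_mem' := by
        intro a ha γ hγ
        have : φ γ a⁻¹ * a⁻¹⁻¹ = (φ γ a * a⁻¹)⁻¹ := by
          rw [map_inv, mul_inv]
        rw [this]
        exact E₁.inv_mem (ha γ hγ) }
  have m2 : ∀ e, e ∈ E₂ ↔ ∀ γ ∈ N₀, φ γ e * e⁻¹ ∈ E₁ := fun e => Iff.rfl
  have h12 : E₁ ≤ E₂ := by
    intro e he γ hγ
    rw [(m1 e).1 he γ hγ, mul_inv_cancel]
    exact E₁.one_mem
  have hC : C ≤ E₂ := fun e he γ hγ => (m1 _).2 (h e he γ hγ)
  obtain ⟨K, k1, k2⟩ := uni_quo_ker (φ.comp N₀.subtype) E₂ (by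
    intro γ e he
    have := E₂.mul_mem (h12 ((m2 e).1 he γ.1 γ.2)) he
    rwa [inv_mul_cancel_right] at this)
  refine ⟨(K.map N₀.subtype).normalCore, E₁, E₂, inferInstance, ?_, ?_⟩
  · refine (uni_core_index _).trans (Nat.factorial_le ?_)
    rw [Subgroup.index_map_subtype]
    exact Nat.mul_le_mul_right _ (k1.trans (Nat.factorial_le (Subgroup.index_antitone hC)))
  · intro γ hγ
    obtain ⟨δ, hδ, rfl⟩ := Subgroup.normalCore_le _ hγ
    exact ⟨k2 δ hδ, fun e he => (m2 e).1 he δ.1 δ.2, fun e he => (m1 e).1 he δ.1 δ.2⟩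

theorem uni (hD : StmtDense) (hM : StmtMax) : StmtUni := by
  classical
  intro T k
  set m := (T + 1) ^ (3 * k + 3) with hm
  have hm1 : 1 ≤ m := Nat.one_le_pow _ _ (Nat.succ_pos T)
  refine ⟨((((2 * m) ^ (3 * (2 * m) + 3) + 1) ^ m * k).factorial *
    (2 * m * m ^ (m ^ 2))).factorial, ?_⟩
  intro Q E _ _ _ _ φ hcard
  obtain ⟨a, b⟩ := hD E (fun e => (uni_st φ e).index) (T + 1) k (by omega)
    (by
      have : uni_st φ (1 : E) = ⊤ := by ext γ; simp [uni_mem_st]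
      simp only [this, Subgroup.index_top]; omega)
    (by
      intro x y
      refine le_trans (Subgroup.index_antitone (H := uni_st φ x ⊓ uni_st φ y) ?_)
        Subgroup.index_inf_le
      rintro γ ⟨hx, hy⟩
      have hx' : φ γ x = x := hx
      have hy' : φ γ y = y := hy
      rw [uni_mem_st, map_mul, hy', hx'])
    (by
      intro x
      show (uni_st φ x⁻¹).index = (uni_st φ x).index
      congr 1
      ext γ
      simp only [uni_mem_st, map_inv, inv_inj])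
    (by
      refine hcard.trans (Nat.mul_le_mul_left _ ?_)
      refine Nat.card_le_card_of_injective
        (fun e => ⟨e.1, by rw [uni_st_index]; exact e.2.trans (Nat.le_succ T)⟩) ?_
      intro x y hxy
      exact Subtype.ext (Subtype.mk.inj hxy))
  set E₀ := Subgroup.closure {x : E | (uni_st φ x).index ≤ T + 1} with hE₀
  have horb : ∀ (γ : Q) (e : E), (uni_st φ (φ γ e)).index = (uni_st φ e).index := by
    intro γ e
    rw [uni_st_index, uni_st_index]
    congr 2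
    ext x
    constructor
    · rintro ⟨δ, rfl⟩
      exact ⟨δ * γ, by simp⟩
    · rintro ⟨δ, rfl⟩
      exact ⟨δ * γ⁻¹, by simp only [map_mul, MulAut.mul_apply, uni_inv_apply]⟩
  have hinv : ∀ γ, ∀ e ∈ E₀, φ γ e ∈ E₀ := by
    intro γ e he
    induction he using Subgroup.closure_induction with
    | mem x hx => exact Subgroup.subset_closure (by
        show (uni_st φ (φ γ x)).index ≤ T + 1
        rw [horb]; exact hx)
    | one => simp
    | mul x y _ _ hx hy => rw [map_mul]; exact E₀.mul_mem hx hy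
    | inv x _ hx => rw [map_inv]; exact E₀.inv_mem hx
  have hst : ∀ e : E₀, uni_st (uni_res φ E₀ hinv) e = uni_st φ (e : E) := by
    intro e
    ext γ
    simp only [uni_mem_st, Subtype.ext_iff, uni_res_apply]
  have hb : ∀ e : E₀, (uni_st (uni_res φ E₀ hinv) e).index ≤ m := by
    intro e
    rw [hst]
    exact b e e.2
  obtain ⟨Q₁, C, X, q1, c1, x1, -, hx⟩ := uni_bdd hD hM (uni_res φ E₀ hinv) m hm1 hb
  obtain ⟨N, E₁, E₂, n1, n2, n3⟩ := uni_fin φ
    (Q₁ ⊓ ⨅ u : X, uni_st (uni_res φ E₀ hinv) u.1) (C.map E₀.subtype) (by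
      rintro _ ⟨e, he, rfl⟩ γ hγ δ hδ
      have h1 := Subgroup.mem_iInf.1 hδ.2 ⟨_, hx e he γ hγ.1⟩
      exact congrArg Subtype.val h1)
  refine ⟨N, E₁, E₂, n1, n2.trans (Nat.factorial_le (Nat.mul_le_mul (Nat.factorial_le ?_) ?_)), n3⟩
  · rw [Subgroup.index_map_subtype]
    exact Nat.mul_le_mul c1 a
  · refine Subgroup.index_inf_le.trans (Nat.mul_le_mul q1 ?_)
    refine (Subgroup.index_iInf_le _).trans ?_
    refine (Finset.prod_le_pow_card _ _ m fun u _ => hb u.1).trans ?_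
    rw [Finset.card_univ, Fintype.card_coe]
    exact Nat.pow_le_pow_right hm1 x1

end Pool.Agent.Work.MP_11a08a_al.Sol
end

-- merged part: Pool.Agent.Work.MP_11a08a_al.Sol.Str1
section
/-!
Group theory for `Str`: subgroups between a central subgroup `Z` and a subgroup `S` that is finite
modulo `Z`.
-/

set_option autoImplicit false

open scoped commutatorElement

namespace Pool.Agent.Work.MP_11a08a_al.Sol

open Subgroup

section

variable {G : Type} [Group G]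

/-- Conjugate of a subgroup. -/
def str_cj (t : G) (M : Subgroup G) : Subgroup G := M.map (MulAut.conj t).toMonoidHom

theorem str_mem_cj {t x : G} {M : Subgroup G} : x ∈ str_cj t M ↔ t⁻¹ * x * t ∈ M := by
  constructor
  · rintro ⟨y, hy, rfl⟩
    simpa [mul_assoc] using hy
  · intro h
    exact ⟨_, h, by simp [mul_assoc]⟩

theorem str_cj_mono {t : G} {M N : Subgroup G} (h : M ≤ N) : str_cj t M ≤ str_cj t N :=
  fun _ hx => str_mem_cj.2 (h (str_mem_cj.1 hx))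

theorem str_cj_inv (t : G) (M : Subgroup G) : str_cj t⁻¹ (str_cj t M) = M := by
  ext x; simp [str_mem_cj, mul_assoc]

theorem str_cj_inv' (t : G) (M : Subgroup G) : str_cj t (str_cj t⁻¹ M) = M := by
  ext x; simp [str_mem_cj, mul_assoc]

theorem str_cj_eq {t : G} {M : Subgroup G} (h : t ∈ normalizer (M : Set G)) : str_cj t M = M := by
  ext x
  rw [str_mem_cj]
  exact (mem_normalizer_iff''.1 h x).symm

theorem str_cj_comm (t : G) (M N : Subgroup G) : str_cj t ⁅M, N⁆ = ⁅str_cj t M, str_cj t N⁆ :=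
  map_commutator M N _

theorem str_nm_sSup {D : Subgroup G} {𝒮 : Set (Subgroup G)}
    (h : ∀ t ∈ D, ∀ T ∈ 𝒮, str_cj t T ∈ 𝒮) : D ≤ normalizer ((sSup 𝒮 : Subgroup G) : Set G) := by
  rw [le_normalizer_iff]
  intro t ht k hk
  have h1 : sSup 𝒮 ≤ str_cj t⁻¹ (sSup 𝒮) := by
    refine sSup_le fun T hT => ?_
    have h2 : str_cj t T ≤ sSup 𝒮 := le_sSup (h t ht T hT)
    have h3 := str_cj_mono (t := t⁻¹) h2
    rwa [str_cj_inv] at h3
  simpa using str_mem_cj.1 (h1 hk)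

theorem str_nm_cen {D M : Subgroup G} (h : D ≤ normalizer (M : Set G)) :
    D ≤ normalizer ((centralizer (M : Set G) : Subgroup G) : Set G) := by
  rw [le_normalizer_iff]
  intro t ht k hk
  rw [mem_centralizer_iff] at hk ⊢
  intro m hm
  have h1 : t⁻¹ * m * t ∈ M := (mem_normalizer_iff''.1 (h ht) m).1 hm
  have h2 := hk _ h1
  calc m * (t * k * t⁻¹) = t * (t⁻¹ * m * t * k) * t⁻¹ := by group
    _ = t * (k * (t⁻¹ * m * t)) * t⁻¹ := by rw [h2]
    _ = t * k * t⁻¹ * m := by group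

theorem str_nm_inf {D M N : Subgroup G} (h : D ≤ normalizer (M : Set G))
    (h' : D ≤ normalizer (N : Set G)) : D ≤ normalizer ((M ⊓ N : Subgroup G) : Set G) :=
  (le_inf h h').trans inf_normalizer_le_normalizer_inf

theorem str_nm_sup {D M N : Subgroup G} (h : D ≤ normalizer (M : Set G))
    (h' : D ≤ normalizer (N : Set G)) : D ≤ normalizer ((M ⊔ N : Subgroup G) : Set G) :=
  (le_inf h h').trans (normalizer_inf_normalizer_le_normalizer_sup M N)

theorem str_nm_Z {Z : Subgroup G} (hZ : ∀ z ∈ Z, ∀ x, x * z = z * x) (D : Subgroup G) :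
    D ≤ normalizer (Z : Set G) := by
  rw [le_normalizer_iff]
  intro t _ k hk
  rw [hZ k hk t, mul_inv_cancel_right]
  exact hk

theorem str_normal {Z : Subgroup G} (hZ : ∀ z ∈ Z, ∀ x, x * z = z * x) : Z.Normal :=
  ⟨fun z hz x => by rw [hZ z hz x, mul_inv_cancel_right]; exact hz⟩

/-- Elements commuting with `B` modulo a normal subgroup. -/
def str_cz (Z : Subgroup G) [hn : Z.Normal] (B : Subgroup G) : Subgroup G where
  carrier := {x | ∀ y ∈ B, ⁅x, y⁆ ∈ Z}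
  one_mem' := fun y _ => by simp
  mul_mem' := by
    intro a b ha hb y hy
    have e : ⁅a * b, y⁆ = (a * ⁅b, y⁆ * a⁻¹) * ⁅a, y⁆ := by
      simp only [commutatorElement_def]; group
    rw [e]
    exact Z.mul_mem (hn.conj_mem _ (hb y hy) a) (ha y hy)
  inv_mem' := by
    intro a ha y hy
    have e : ⁅a⁻¹, y⁆ = a⁻¹ * ⁅a, y⁆⁻¹ * a⁻¹⁻¹ := by
      simp only [commutatorElement_def]; group
    rw [e]
    exact hn.conj_mem _ (Z.inv_mem (ha y hy)) a⁻¹

theorem str_cz_iff {Z : Subgroup G} [Z.Normal] {A B : Subgroup G} :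
    ⁅A, B⁆ ≤ Z ↔ A ≤ str_cz Z B := commutator_le

theorem str_comm_sSup {Z : Subgroup G} [Z.Normal] {𝒮 : Set (Subgroup G)}
    (h : ∀ A ∈ 𝒮, ∀ B ∈ 𝒮, ⁅A, B⁆ ≤ Z) : ⁅sSup 𝒮, sSup 𝒮⁆ ≤ Z := by
  have h1 : ∀ B ∈ 𝒮, ⁅sSup 𝒮, B⁆ ≤ Z := fun B hB =>
    str_cz_iff.2 (sSup_le fun A hA => str_cz_iff.1 (h A hA B hB))
  refine str_cz_iff.2 (sSup_le fun A hA => str_cz_iff.1 ?_)
  rw [commutator_comm]
  exact h1 A hA

theorem str_comm_sup {Z : Subgroup G} [Z.Normal] {A B : Subgroup G} (hA : ⁅A, A⁆ ≤ Z)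
    (hB : ⁅B, B⁆ ≤ Z) (hAB : ⁅A, B⁆ ≤ Z) : ⁅A ⊔ B, A ⊔ B⁆ ≤ Z := by
  rw [← sSup_pair]
  refine str_comm_sSup ?_
  rintro X (rfl | rfl) Y (rfl | rfl)
  · exact hA
  · exact hAB
  · rw [commutator_comm]; exact hAB
  · exact hB

theorem str_finite {Z S : Subgroup G} (hf : Z.relIndex S ≠ 0) :
    {M : Subgroup G | Z ≤ M ∧ M ≤ S}.Finite := by
  have : Finite (S ⧸ Z.subgroupOf S) := index_ne_zero_iff_finite.1 hf
  refine Set.Finite.of_injOn (t := Set.univ)
    (f := fun M : Subgroup G =>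
      ((fun s : S => (QuotientGroup.mk s : S ⧸ Z.subgroupOf S)) '' {s : S | s.1 ∈ M}))
    (fun _ _ => Set.mem_univ _) ?_ Set.finite_univ
  have key : ∀ M M' : Subgroup G, M ≤ S → Z ≤ M' →
      ((fun s : S => (QuotientGroup.mk s : S ⧸ Z.subgroupOf S)) '' {s : S | s.1 ∈ M}) =
      ((fun s : S => (QuotientGroup.mk s : S ⧸ Z.subgroupOf S)) '' {s : S | s.1 ∈ M'}) →
      M ≤ M' := by
    intro M M' hM hM' h x hx
    have h1 : (QuotientGroup.mk (⟨x, hM hx⟩ : S) : S ⧸ Z.subgroupOf S) ∈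
        ((fun s : S => (QuotientGroup.mk s : S ⧸ Z.subgroupOf S)) '' {s : S | s.1 ∈ M'}) := by
      rw [← h]; exact ⟨⟨x, hM hx⟩, hx, rfl⟩
    obtain ⟨s, hs, he⟩ := h1
    have h2 : s⁻¹ * (⟨x, hM hx⟩ : S) ∈ Z.subgroupOf S := QuotientGroup.eq.1 he
    have h3 : (s : G)⁻¹ * x ∈ M' := hM' (mem_subgroupOf.1 h2)
    simpa using M'.mul_mem hs h3
  intro M hM M' hM' h
  exact le_antisymm (key M M' hM.2 hM'.1 h) (key M' M hM'.2 hM.1 h.symm)

/-- Two different minimal invariant subgroups commute modulo `Z`. -/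
theorem str_min_comm {Z R X T T' : Subgroup G} (hR : X ≤ R)
    (hT : Minimal (fun T : Subgroup G => Z ≤ T ∧ T ≤ X ∧ R ≤ normalizer (T : Set G) ∧ T ≠ Z) T)
    (hT' : Minimal (fun T : Subgroup G => Z ≤ T ∧ T ≤ X ∧ R ≤ normalizer (T : Set G) ∧ T ≠ Z) T')
    (hne : T ≠ T') : ⁅T, T'⁆ ≤ Z := by
  have h1 : ⁅T, T'⁆ ≤ T ⊓ T' :=
    le_inf (le_normalizer_iff_commutator_le_left.1 ((hT'.1.2.1.trans hR).trans hT.1.2.2.1))
      (le_normalizer_iff_commutator_le_right.1 ((hT.1.2.1.trans hR).trans hT'.1.2.2.1))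
  by_cases h2 : T ⊓ T' = Z
  · exact h2 ▸ h1
  · exfalso
    have h3 : Z ≤ T ⊓ T' ∧ T ⊓ T' ≤ X ∧ R ≤ normalizer ((T ⊓ T' : Subgroup G) : Set G) ∧
        T ⊓ T' ≠ Z :=
      ⟨le_inf hT.1.1 hT'.1.1, inf_le_left.trans hT.1.2.1, str_nm_inf hT.1.2.2.1 hT'.1.2.2.1, h2⟩
    exact hne (le_antisymm ((hT.2 h3 inf_le_left).trans inf_le_right)
      ((hT'.2 h3 inf_le_right).trans inf_le_left))

/-- Conjugation by an element normalising `M` permutes the minimal `M`-invariant subgroups. -/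
theorem str_min_cj {Z M T : Subgroup G} (hZ : ∀ z ∈ Z, ∀ x, x * z = z * x) {t : G}
    (ht : t ∈ normalizer (M : Set G))
    (hT : Minimal (fun T : Subgroup G => Z ≤ T ∧ T ≤ M ∧ M ≤ normalizer (T : Set G) ∧ T ≠ Z) T) :
    Minimal (fun T : Subgroup G => Z ≤ T ∧ T ≤ M ∧ M ≤ normalizer (T : Set G) ∧ T ≠ Z)
      (str_cj t T) := by
  have key : ∀ (t : G) (T : Subgroup G), t ∈ normalizer (M : Set G) →
      (Z ≤ T ∧ T ≤ M ∧ M ≤ normalizer (T : Set G) ∧ T ≠ Z) →
      (Z ≤ str_cj t T ∧ str_cj t T ≤ M ∧ M ≤ normalizer (str_cj t T : Set G) ∧ str_cj t T ≠ Z) := by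
    rintro t T ht ⟨h1, h2, h3, h4⟩
    have hZt : ∀ s : G, str_cj s Z = Z := fun s => str_cj_eq (str_nm_Z hZ ⊤ (mem_top s))
    refine ⟨?_, ?_, ?_, ?_⟩
    · rw [← hZt t]; exact str_cj_mono h1
    · rw [← str_cj_eq ht]; exact str_cj_mono h2
    · rw [le_normalizer_iff]
      intro m hm k hk
      rw [str_mem_cj] at hk ⊢
      have h5 : t⁻¹ * m * t ∈ M := (mem_normalizer_iff''.1 ht m).1 hm
      have h6 := (mem_normalizer_iff.1 (h3 h5) _).1 hk
      have e : t⁻¹ * (m * k * m⁻¹) * t = t⁻¹ * m * t * (t⁻¹ * k * t) * (t⁻¹ * m * t)⁻¹ := by group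
      rw [e]; exact h6
    · intro h
      apply h4
      rw [← str_cj_inv t T, h, hZt]
  refine ⟨key t T ht hT.1, fun T' hT' hle => ?_⟩
  have h1 := key t⁻¹ T' (inv_mem ht) hT'
  have h2 : str_cj t⁻¹ T' ≤ T := by
    have := str_cj_mono (t := t⁻¹) hle
    rwa [str_cj_inv] at this
  have h3 := str_cj_mono (t := t) (hT.2 h1 h2)
  rwa [str_cj_inv'] at h3

/-- The structure of a minimal `D`-invariant subgroup all of whose invariant subgroups that are
commutative modulo `Z` lie in `Z`. -/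
theorem str_atom {Z D K M : Subgroup G} (hZ : ∀ z ∈ Z, ∀ x, x * z = z * x)
    (hf : Z.relIndex K ≠ 0)
    (hab : ∀ N : Subgroup G, Z ≤ N → N ≤ K → D ≤ normalizer (N : Set G) → ⁅N, N⁆ ≤ Z → N ≤ Z)
    (hM : Minimal (fun T : Subgroup G => Z ≤ T ∧ T ≤ K ∧ D ≤ normalizer (T : Set G) ∧ T ≠ Z) M) :
    (∃ T, Minimal
      (fun T : Subgroup G => Z ≤ T ∧ T ≤ M ∧ M ≤ normalizer (T : Set G) ∧ T ≠ Z) T) ∧
    ∀ T, Minimal (fun T : Subgroup G => Z ≤ T ∧ T ≤ M ∧ M ≤ normalizer (T : Set G) ∧ T ≠ Z) T →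
      ¬ ⁅T, T⁆ ≤ Z ∧
      ∀ N : Subgroup G, Z ≤ N → N ≤ T → T ≤ normalizer (N : Set G) → N = Z ∨ N = T := by
  have := str_normal hZ
  obtain ⟨⟨hZM, hMK, hDM, hMZ⟩, hmin⟩ := hM
  set P : Subgroup G → Prop :=
    fun T : Subgroup G => Z ≤ T ∧ T ≤ M ∧ M ≤ normalizer (T : Set G) ∧ T ≠ Z with hP
  have hfin : {T | P T}.Finite :=
    (str_finite hf).subset fun T hT => ⟨hT.1, hT.2.1.trans hMK⟩
  obtain ⟨T₀, hT₀⟩ : ∃ T, Minimal P T :=
    hfin.exists_minimal ⟨M, hZM, le_rfl, le_normalizer, hMZ⟩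
  refine ⟨⟨T₀, hT₀⟩, fun T hT => ⟨fun hc => ?_, fun N hZN hNT hTN => ?_⟩⟩
  · have h1 : T ≤ sSup {T | Minimal P T ∧ ⁅T, T⁆ ≤ Z} := le_sSup ⟨hT, hc⟩
    have h2 : sSup {T | Minimal P T ∧ ⁅T, T⁆ ≤ Z} ≤ Z := by
      refine hab _ (hT.1.1.trans h1) (sSup_le fun A hA => hA.1.1.2.1.trans hMK) ?_ ?_
      · refine str_nm_sSup fun t ht A hA => ⟨str_min_cj hZ (hDM ht) hA.1, ?_⟩
        rw [← str_cj_comm, ← str_cj_eq (str_nm_Z hZ ⊤ (mem_top t))]
        exact str_cj_mono hA.2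
      · refine str_comm_sSup fun A hA B hB => ?_
        by_cases hAB : A = B
        · rw [← hAB]; exact hA.2
        · exact str_min_comm le_rfl hA.1 hB.1 hAB
    exact hT.1.2.2.2 (le_antisymm (h1.trans h2) hT.1.1)
  · have h1 : T ≤ sSup {T | Minimal P T} := le_sSup hT
    have h2 : M ≤ sSup {T | Minimal P T} := by
      refine hmin ⟨hT.1.1.trans h1, sSup_le fun A hA => hA.1.2.1.trans hMK,
        str_nm_sSup fun t ht A hA => str_min_cj hZ (hDM ht) hA, fun h => ?_⟩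
        (sSup_le fun A hA => hA.1.2.1)
      exact hT.1.2.2.2 (le_antisymm (h ▸ h1) hT.1.1)
    have h3 : M ≤ normalizer (N : Set G) := by
      refine h2.trans (sSup_le fun A hA => ?_)
      by_cases hAT : A = T
      · rw [hAT]; exact hTN
      · rw [le_normalizer_iff_commutator_le_right]
        exact ((commutator_mono le_rfl hNT).trans (str_min_comm le_rfl hA hT hAT)).trans hZN
    by_cases hNZ : N = Z
    · exact Or.inl hNZ
    · exact Or.inr (le_antisymm hNT (hT.2 ⟨hZN, hNT.trans hT.1.2.1, h3, hNZ⟩ hNT))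

/-- The abstract structure theorem. -/
theorem str_abs {Z H S : Subgroup G} (hZ : ∀ z ∈ Z, ∀ x, x * z = z * x) (hZS : Z ≤ S)
    (hf : Z.relIndex S ≠ 0) (hH : H ≤ normalizer (S : Set G))
    (hP : ∀ A : Subgroup G, (∀ a ∈ A, ∀ b ∈ A, a * b = b * a) → H ≤ normalizer (A : Set G) →
      A ≤ Z) :
    ∃ (E : Subgroup G) (𝒯 : Set (Subgroup G)), 𝒯.Finite ∧ Z ≤ E ∧ E ≤ S ∧
      H ⊔ S ≤ normalizer (E : Set G) ∧ ⁅E, E⁆ ≤ Z ∧ E ⊓ centralizer (E : Set G) ≤ Z ∧
      (∀ T ∈ 𝒯, Z ≤ T ∧ T ≤ S ∧ T ≤ centralizer (E : Set G) ∧ ¬ ⁅T, T⁆ ≤ Z ∧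
        ∀ N : Subgroup G, Z ≤ N → N ≤ T → T ≤ normalizer (N : Set G) → N = Z ∨ N = T) ∧
      (∀ T ∈ 𝒯, ∀ T' ∈ 𝒯, T ≠ T' → ⁅T, T'⁆ ≤ Z) ∧
      (∀ t ∈ H ⊔ S, ∀ T ∈ 𝒯, str_cj t T ∈ 𝒯) ∧
      ∀ M : Subgroup G, Z ≤ M → M ≤ S ⊓ centralizer (E : Set G) →
        H ⊔ S ≤ normalizer (M : Set G) → M ≠ Z → ∃ T ∈ 𝒯, T ≤ M := by
  have := str_normal hZ
  set D := H ⊔ S with hD
  have hDS : D ≤ normalizer (S : Set G) := sup_le hH le_normalizer
  have hfin := str_finite hf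
  have hZZ : ∀ X : Subgroup G, ⁅Z, X⁆ ≤ Z := fun X => commutator_le_left Z X
  obtain ⟨E, ⟨hZE, hES, hDE, hEE⟩, hmax⟩ : ∃ E, Maximal (fun M : Subgroup G =>
      Z ≤ M ∧ M ≤ S ∧ D ≤ normalizer (M : Set G) ∧ ⁅M, M⁆ ≤ Z) E :=
    Set.Finite.exists_maximal (s := {M : Subgroup G |
      Z ≤ M ∧ M ≤ S ∧ D ≤ normalizer (M : Set G) ∧ ⁅M, M⁆ ≤ Z})
      (hfin.subset fun M hM => ⟨hM.1, hM.2.1⟩) ⟨Z, le_rfl, hZS, str_nm_Z hZ D, hZZ Z⟩
  have hnd : E ⊓ centralizer (E : Set G) ≤ Z := by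
    refine hP _ (fun a ha b hb => ?_) (le_sup_left.trans (str_nm_inf hDE (str_nm_cen hDE)))
    exact mem_centralizer_iff.1 hb.2 a ha.1
  set K := S ⊓ centralizer (E : Set G) with hK
  have hKS : K ≤ S := inf_le_left
  have hKD : K ≤ D := hKS.trans le_sup_right
  have hfK : Z.relIndex K ≠ 0 := fun h => hf (relIndex_eq_zero_of_le_right hKS h)
  have hab : ∀ N : Subgroup G, Z ≤ N → N ≤ K → D ≤ normalizer (N : Set G) → ⁅N, N⁆ ≤ Z →
      N ≤ Z := by
    intro N _ hNK hDN hNN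
    have h1 : ⁅E, N⁆ ≤ Z := by
      rw [commutator_comm, commutator_eq_bot_iff_le_centralizer.2 (hNK.trans inf_le_right)]
      exact bot_le
    have h2 : E ⊔ N ≤ E := hmax ⟨hZE.trans le_sup_left, sup_le hES (hNK.trans hKS),
      str_nm_sup hDE hDN, str_comm_sup hEE hNN h1⟩ le_sup_left
    exact (le_inf (le_sup_right.trans h2) (hNK.trans inf_le_right)).trans hnd
  refine ⟨E, {T | ∃ M, Minimal (fun T : Subgroup G =>
      Z ≤ T ∧ T ≤ K ∧ D ≤ normalizer (T : Set G) ∧ T ≠ Z) M ∧ Minimal (fun T : Subgroup G =>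
      Z ≤ T ∧ T ≤ M ∧ M ≤ normalizer (T : Set G) ∧ T ≠ Z) T}, ?_, hZE, hES, hDE, hEE, hnd,
      ?_, ?_, ?_, ?_⟩
  · refine hfin.subset ?_
    rintro T ⟨M, hM, hT⟩
    exact ⟨hT.1.1, (hT.1.2.1.trans hM.1.2.1).trans hKS⟩
  · rintro T ⟨M, hM, hT⟩
    have h1 := (str_atom hZ hfK hab hM).2 T hT
    have h2 : T ≤ K := hT.1.2.1.trans hM.1.2.1
    exact ⟨hT.1.1, h2.trans hKS, h2.trans inf_le_right, h1.1, h1.2⟩
  · rintro T ⟨M, hM, hT⟩ T' ⟨M', hM', hT'⟩ hne
    by_cases hMM : M = M'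
    · subst hMM
      exact str_min_comm le_rfl hT hT' hne
    · exact (commutator_mono hT.1.2.1 hT'.1.2.1).trans (str_min_comm hKD hM hM' hMM)
  · rintro t ht T ⟨M, hM, hT⟩
    exact ⟨M, hM, str_min_cj hZ (hM.1.2.2.1 ht) hT⟩
  · intro M hZM hMK hDM hne
    obtain ⟨M', hle, hM'⟩ := Set.Finite.exists_le_minimal (s := {T : Subgroup G |
      Z ≤ T ∧ T ≤ K ∧ D ≤ normalizer (T : Set G) ∧ T ≠ Z})
      (hfin.subset fun M hM => ⟨hM.1, hM.2.1.trans hKS⟩) (a := M) ⟨hZM, hMK, hDM, hne⟩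
    obtain ⟨T, hT⟩ := (str_atom hZ hfK hab hM').1
    exact ⟨T, ⟨M', hM', hT⟩, hT.1.2.1.trans hle⟩

/-- A group that is simple and noncommutative modulo the centre is generated by its commutator
subgroup, which is perfect, and the centre. -/
theorem str_perf {Z T : Subgroup G} (hZ : ∀ z ∈ Z, ∀ x, x * z = z * x) (hZT : Z ≤ T)
    (hn : ¬ ⁅T, T⁆ ≤ Z)
    (hs : ∀ N : Subgroup G, Z ≤ N → N ≤ T → T ≤ normalizer (N : Set G) → N = Z ∨ N = T) :
    ⁅T, T⁆ ⊔ Z = T ∧ ⁅⁅T, T⁆, ⁅T, T⁆⁆ = ⁅T, T⁆ := by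
  have := str_normal hZ
  have h1 : ⁅T, T⁆ ⊔ Z = T := by
    rcases hs (⁅T, T⁆ ⊔ Z) le_sup_right (sup_le (commutator_le_self T) hZT)
      (str_nm_sup (normalizer_commutator_ge_left T T) (str_nm_Z hZ T)) with h | h
    · exact absurd (h ▸ le_sup_left) hn
    · exact h
  refine ⟨h1, le_antisymm (commutator_le_self _) ?_⟩
  rw [commutator_le]
  intro x hx y hy
  rw [← h1, mem_sup_of_normal_right] at hx hy
  obtain ⟨a, ha, z, hz, rfl⟩ := hx
  obtain ⟨b, hb, w, hw, rfl⟩ := hy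
  have e : ⁅a * z, b * w⁆ = ⁅a, b⁆ := by
    have e1 : z * (b * w) = b * w * z := (hZ z hz _).symm
    have e2 : w * a⁻¹ = a⁻¹ * w := (hZ w hw _).symm
    simp only [commutatorElement_def]
    calc a * z * (b * w) * (a * z)⁻¹ * (b * w)⁻¹
        = a * (z * (b * w)) * z⁻¹ * a⁻¹ * w⁻¹ * b⁻¹ := by group
      _ = a * b * (w * a⁻¹) * w⁻¹ * b⁻¹ := by rw [e1]; group
      _ = a * b * a⁻¹ * b⁻¹ := by rw [e2]; group
  rw [e]
  exact commutator_mem_commutator ha hb

/-- Commutation modulo the centre gives commutation with the commutator subgroup. -/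
theorem str_cm {Z T T' : Subgroup G} (hZ : ∀ z ∈ Z, ∀ x, x * z = z * x) (h : ⁅T, T'⁆ ≤ Z) :
    ∀ x ∈ T, ∀ y ∈ ⁅T', T'⁆, x * y = y * x := by
  have h0 : ∀ A B : Subgroup G, A ≤ Z → ⁅A, B⁆ = ⊥ := fun A B hA =>
    commutator_eq_bot_iff_le_centralizer.2 fun z hz =>
      mem_centralizer_iff.2 fun b _ => hZ z (hA hz) b
  have h1 : ⁅⁅T', T'⁆, T⁆ = ⊥ :=
    commutator_commutator_eq_bot_of_rotate (h0 _ _ (by rw [commutator_comm]; exact h)) (h0 _ _ h)
  intro x hx y hy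
  exact mem_centralizer_iff.1 (commutator_eq_bot_iff_le_centralizer.1 h1 hy) x hx

/-- Simplicity of the quotient. -/
theorem str_simple {Z T : Subgroup G} [Z.Normal] (hZT : Z ≤ T) (hn : ¬ ⁅T, T⁆ ≤ Z)
    (hs : ∀ N : Subgroup G, Z ≤ N → N ≤ T → T ≤ normalizer (N : Set G) → N = Z ∨ N = T) :
    IsSimpleGroup (T ⧸ Z.subgroupOf T) ∧ ¬ ∀ x y : T ⧸ Z.subgroupOf T, x * y = y * x := by
  have hnc : ¬ ∀ x y : T ⧸ Z.subgroupOf T, x * y = y * x := by
    intro h
    apply hn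
    rw [commutator_le]
    intro x hx y hy
    have h1 : (QuotientGroup.mk ⁅(⟨x, hx⟩ : T), (⟨y, hy⟩ : T)⁆ : T ⧸ Z.subgroupOf T) = 1 := by
      have := h (QuotientGroup.mk (⟨x, hx⟩ : T)) (QuotientGroup.mk (⟨y, hy⟩ : T))
      simp only [commutatorElement_def, QuotientGroup.mk_mul, QuotientGroup.mk_inv]
      rw [this]; group
    exact mem_subgroupOf.1 ((QuotientGroup.eq_one_iff _).1 h1)
  refine ⟨?_, hnc⟩
  have : Nontrivial (T ⧸ Z.subgroupOf T) := by
    by_contra h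
    rw [not_nontrivial_iff_subsingleton] at h
    exact hnc fun x y => Subsingleton.elim _ _
  refine ⟨fun N hN => ?_⟩
  have hmem : ∀ x : T, (x : G) ∈ (N.comap (QuotientGroup.mk' (Z.subgroupOf T))).map T.subtype ↔
      (QuotientGroup.mk x : T ⧸ Z.subgroupOf T) ∈ N := by
    intro x
    constructor
    · rintro ⟨y, hy, he⟩
      have : y = x := Subtype.ext he
      rw [← this]; exact hy
    · intro h
      exact ⟨x, h, rfl⟩
  have hA : Z ≤ (N.comap (QuotientGroup.mk' (Z.subgroupOf T))).map T.subtype := by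
    intro z hz
    refine (hmem ⟨z, hZT hz⟩).2 ?_
    rw [(QuotientGroup.eq_one_iff _).2 (mem_subgroupOf.2 hz)]
    exact N.one_mem
  have hB : T ≤ normalizer
      (((N.comap (QuotientGroup.mk' (Z.subgroupOf T))).map T.subtype : Subgroup G) : Set G) := by
    rw [le_normalizer_iff]
    rintro t ht _ ⟨y, hy, rfl⟩
    refine (hmem (⟨t, ht⟩ * y * ⟨t, ht⟩⁻¹)).2 ?_
    simp only [QuotientGroup.mk_mul, QuotientGroup.mk_inv]
    exact hN.conj_mem _ hy _
  rcases hs _ hA (map_subtype_le _) hB with h | h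
  · left
    rw [eq_bot_iff]
    intro q hq
    obtain ⟨x, rfl⟩ := QuotientGroup.mk_surjective q
    have h1 := (hmem x).2 hq
    rw [h] at h1
    exact mem_bot.2 ((QuotientGroup.eq_one_iff _).2 (mem_subgroupOf.2 h1))
  · right
    rw [eq_top_iff]
    intro q _
    obtain ⟨x, rfl⟩ := QuotientGroup.mk_surjective q
    exact (hmem x).1 (by rw [h]; exact x.2)

end

end Pool.Agent.Work.MP_11a08a_al.Sol
end

-- merged part: Pool.Agent.Work.MP_11a08a_al.Sol.Str
section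
/-!
Write `Z = Zs F W` (central).  Call a subgroup `M` good if `Z ≤ M ≤ S` and `Nm t M` whenever `t ∈ H ∨ t ∈ S`.  There
are finitely many subgroups between `Z` and `S` (they inject into the subgroups of the finite group
`S ⧸ Z.subgroupOf S`), so nonempty families have minimal and maximal members (`Set.Finite.exists_maximal...`).
`E`: maximal good with `⁅E, E⁆ ≤ Z`; `nd` by `Prim` applied to `E ⊓ centralizer E`.  `K = S ⊓ centralizer E` is good.
Atoms: minimal good `M ≤ K` with `M ≠ Z`.  An atom has `¬ ⁅M, M⁆ ≤ Z` (else `E ⊔ M` contradicts maximality or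
`M ≤ E ⊓ centralizer E ≤ Z`).  `𝒯 M`: minimal `T` with `Z < T ≤ M` normalised by `M`.  Distinct `T, T'` (same or
different atoms) have `⁅T, T'⁆ ≤ Z` (`⁅T, T'⁆ ≤ T ⊓ T' = Z`, or `≤ M ⊓ M' = Z`).  Conjugation by `t ∈ H ∨ t ∈ S` permutes
atoms and the `𝒯`.  The join of `𝒯 M` is good, so it is `M`; the join of `Z` and those `T ∈ 𝒯 M` with `⁅T, T⁆ ≤ Z` is good
and commutative modulo `Z`, so it is `Z`: no such `T`.  `T ⧸ Z` is simple (a subgroup `Z ≤ N ≤ T` normalised by `T` is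
normalised by the other `T'`, so by `M`), noncommutative, so of order `≤ d` by `SecZ`.  `C = {⁅T, T⁆}`;
`⁅T, T⁆ ⊔ Z = T` by minimality, so `⁅L, L⁆ = ⁅T, T⁆ = L`.  `cm`: `y ↦ ⁅x, y⁆` is a homomorphism from a perfect group to `Z`.
`mu`: `hS` with `M₁ = S₀.sup id`, `M₂ = (C \ S₀).sup id`.  `self`: by `hDu` (second part, `χ e` the scalar of `⁅s, e⁆`)
`k = e₁⁻¹ s ∈ K` commutes with all `L`; `K₁ = {k ∈ K | commutes with all L ∈ C}` is good; if `K₁ ≠ Z` it contains an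
atom `M`, whose elements commute with all `T = L ⊔ Z`, so with `M`: a contradiction.
-/

set_option autoImplicit false

open Finset Module
open scoped commutatorElement

namespace Pool.Agent.Work.MP_11a08a_al.Sol

theorem str_Zc {F W : Type} [Field F] [AddCommGroup W] [Module F W] :
    ∀ z ∈ Zs F W, ∀ x : (End F W)ˣ, x * z = z * x := by
  rintro z ⟨c, -, h⟩ x
  exact Units.ext (by simp [h])

theorem str_cen_sup {G : Type} [Group G] (C : Finset (Subgroup G)) (x : G)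
    (h : ∀ L ∈ C, ∀ y ∈ L, x * y = y * x) : ∀ y ∈ C.sup id, x * y = y * x := by
  have h1 : C.sup id ≤ Subgroup.centralizer {x} :=
    Finset.sup_le fun L hL y hy => Subgroup.mem_centralizer_iff.2 fun g hg => by
      rw [Set.mem_singleton_iff.1 hg]; exact h L hL y hy
  intro y hy
  exact Subgroup.mem_centralizer_iff.1 (h1 hy) x rfl

theorem str_char {F W : Type} [Field F] [AddCommGroup W] [Module F W] [Nontrivial W]
    (hDu : StmtDual) {E : Subgroup (End F W)ˣ} (hE : Heis E) {s : (End F W)ˣ}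
    (hs : E ≤ fixE E s) : ∃ e₁ ∈ E, ∀ e ∈ E, e * (e₁⁻¹ * s) = e₁⁻¹ * s * e := by
  classical
  have h1 : ∀ e : (End F W)ˣ, ∃ c : F, e ∈ E →
      ((⁅s, e⁆ : (End F W)ˣ) : End F W) = c • (1 : End F W) := by
    intro e
    by_cases he : e ∈ E
    · obtain ⟨c, -, hc⟩ := (hs he).2
      exact ⟨c, fun _ => hc⟩
    · exact ⟨1, fun h => absurd h he⟩
  choose χ hχ using h1
  have hinj : ∀ c c' : F, c • (1 : End F W) = c' • (1 : End F W) → c = c' := fun c c' h =>
    smul_left_injective F (one_ne_zero (α := End F W)) h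
  obtain ⟨e₁, he₁, h2⟩ := (hDu F W E hE).2.1 χ (fun e he e' he' => by
      apply hinj
      have e1 : ⁅s, e * e'⁆ = ⁅s, e⁆ * (e * ⁅s, e'⁆ * e⁻¹) := by
        simp only [commutatorElement_def]; group
      rw [str_Zc _ (hs he').2 e, mul_inv_cancel_right] at e1
      rw [← hχ _ (E.mul_mem he he'), e1, Units.val_mul, hχ e he, hχ e' he', smul_mul_smul_comm,
        one_mul])
    (fun z hz => by
      apply hinj
      rw [← hχ z (hE.le hz), commutatorElement_eq_one_iff_mul_comm.2 (str_Zc z hz s), one_smul,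
        Units.val_one])
  refine ⟨e₁, he₁, fun e he => ?_⟩
  have h3 : ⁅e₁, e⁆ = ⁅s, e⁆ := Units.ext ((h2 e he).trans (hχ e he).symm)
  simp only [commutatorElement_def] at h3
  have h4 : e₁ * e * e₁⁻¹ = s * e * s⁻¹ := mul_right_cancel h3
  calc e * (e₁⁻¹ * s) = e₁⁻¹ * (e₁ * e * e₁⁻¹) * s := by group
    _ = e₁⁻¹ * (s * e * s⁻¹) * s := by rw [h4]
    _ = e₁⁻¹ * s * e := by group

theorem str (hDu : StmtDual) (hS : StmtSimple) : StmtStr := by
  classical
  intro F W _ _ _ _ _ _ d H S hP hZS hf hH hsec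
  have hZ := str_Zc (F := F) (W := W)
  have hZn := str_normal hZ
  obtain ⟨E, 𝒯, hfin, hZE, hES, hDE, hEE, hnd, hT, hTT, hcj, hex⟩ :=
    str_abs (H := H) hZ hZS hf (fun h hh => hH h hh) (fun A hA hn => hP A hA fun h hh => hn hh)
  have hD : ∀ t, t ∈ H ∨ t ∈ S → t ∈ H ⊔ S := fun t ht =>
    ht.elim (fun h => Subgroup.mem_sup_left h) fun h => Subgroup.mem_sup_right h
  obtain ⟨C, hC⟩ : ∃ C : Finset (Subgroup (End F W)ˣ), ∀ L, L ∈ C ↔ ∃ T ∈ 𝒯, ⁅T, T⁆ = L :=
    ⟨(hfin.image fun T => ⁅T, T⁆).toFinset, fun L => by simp⟩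
  have hheis : Heis E :=
    ⟨hZE, fun h => hf (Subgroup.relIndex_eq_zero_of_le_right hES h),
      Subgroup.commutator_le.1 hEE,
      fun e he hc => hnd ⟨he, Subgroup.mem_centralizer_iff.2 fun e' he' => (hc e' he').symm⟩⟩
  have hCcj : ∀ t ∈ H ⊔ S, ∀ L ∈ C, str_cj t L ∈ C := by
    intro t ht L hL
    obtain ⟨T, hT', rfl⟩ := (hC L).1 hL
    exact (hC _).2 ⟨_, hcj t ht T hT', (str_cj_comm t T T).symm⟩
  have hCn : H ⊔ S ≤ Subgroup.normalizer ((C.sup id : Subgroup (End F W)ˣ) : Set (End F W)ˣ) := by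
    rw [Finset.sup_id_eq_sSup]
    exact str_nm_sSup hCcj
  have hcm : ∀ L ∈ C, ∀ L' ∈ C, L ≠ L' → ∀ x ∈ L, ∀ y ∈ L', x * y = y * x := by
    intro L hL L' hL' hne x hx y hy
    obtain ⟨T, hT1, rfl⟩ := (hC L).1 hL
    obtain ⟨T', hT2, rfl⟩ := (hC L').1 hL'
    exact str_cm hZ (hTT T hT1 T' hT2 fun h => hne (by rw [h])) x
      (Subgroup.commutator_le_self T hx) y hy
  have hec : ∀ e ∈ E, ∀ L ∈ C, ∀ y ∈ L, e * y = y * e := by
    intro e he L hL y hy
    obtain ⟨T, hT1, rfl⟩ := (hC L).1 hL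
    exact Subgroup.mem_centralizer_iff.1 ((hT T hT1).2.2.1 (Subgroup.commutator_le_self T hy)) e he
  refine ⟨E, C, hheis, ⟨?_, ?_, ?_, hcm, ?_⟩, hES, ?_, fun t ht => hDE (hD t ht), ?_, hec, ?_⟩
  · intro L hL
    obtain ⟨T, hT1, rfl⟩ := (hC L).1 hL
    obtain ⟨h1, -, -, h4, h5⟩ := hT T hT1
    exact (str_perf hZ h1 h4 h5).2
  · intro L hL
    obtain ⟨T, hT1, rfl⟩ := (hC L).1 hL
    exact (hT T hT1).2.2.2.1
  · intro L hL
    obtain ⟨T, hT1, rfl⟩ := (hC L).1 hL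
    obtain ⟨h1, h2, -, h4, h5⟩ := hT T hT1
    have h6 : (Zs F W).relIndex T ≠ 0 := fun h => hf (Subgroup.relIndex_eq_zero_of_le_right h2 h)
    have h7 : ⁅T, T⁆ ≤ T := Subgroup.commutator_le_self T
    obtain ⟨h8, h9⟩ := str_simple h1 h4 h5
    refine ⟨fun h => h6 (Subgroup.relIndex_eq_zero_of_le_right h7 h),
      (Subgroup.relIndex_le_of_le_right h7 h6).trans ?_⟩
    exact (hsec T h2 ((Zs F W).subgroupOf T) inferInstance le_rfl h8).resolve_left h9
  · intro S₀ hS₀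
    refine hS F W H (S₀.sup id) ((C \ S₀).sup id) hP (fun h hh => ?_) ?_
    · rw [← Finset.sup_union, Finset.union_sdiff_of_subset hS₀]
      exact hCn (Subgroup.mem_sup_left hh)
    · intro x hx y hy
      refine (str_cen_sup S₀ y (fun L hL x hx => ?_) x hx).symm
      refine (str_cen_sup (C \ S₀) x (fun L' hL' y hy => ?_) y hy).symm
      rw [Finset.mem_sdiff] at hL'
      exact hcm L (hS₀ hL) L' hL'.1 (fun h => hL'.2 (h ▸ hL)) x hx y hy
  · intro L hL
    obtain ⟨T, hT1, rfl⟩ := (hC L).1 hL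
    exact (Subgroup.commutator_le_self T).trans (hT T hT1).2.1
  · intro t ht L hL
    exact ⟨hCcj t (hD t ht) L hL, hCcj t⁻¹ (inv_mem (hD t ht)) L hL⟩
  · intro s hs hfix hsupp
    obtain ⟨e₁, he₁, hk⟩ := str_char hDu hheis hfix
    have hsL : ∀ L ∈ C, ∀ y ∈ L, s * y = y * s := by
      intro L hL
      by_contra h
      have : L ∈ supp C s := Finset.mem_filter.2 ⟨hL, h⟩
      rw [hsupp] at this
      exact absurd this (Finset.notMem_empty L)
    have hkL : ∀ L ∈ C, ∀ y ∈ L, e₁⁻¹ * s * y = y * (e₁⁻¹ * s) := by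
      intro L hL y hy
      rw [mul_assoc, hsL L hL y hy, ← mul_assoc, hec _ (E.inv_mem he₁) L hL y hy, mul_assoc]
    set K₁ : Subgroup (End F W)ˣ := (S ⊓ Subgroup.centralizer (E : Set (End F W)ˣ)) ⊓
      Subgroup.centralizer ((C.sup id : Subgroup (End F W)ˣ) : Set (End F W)ˣ) with hK₁
    have hkK : e₁⁻¹ * s ∈ K₁ :=
      ⟨⟨S.mul_mem (S.inv_mem (hES he₁)) hs, Subgroup.mem_centralizer_iff.2 hk⟩,
        Subgroup.mem_centralizer_iff.2 fun y hy => (str_cen_sup C _ hkL y hy).symm⟩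
    have hKZ : K₁ = Zs F W := by
      by_contra hne
      have hZc : ∀ X : Set (End F W)ˣ, Zs F W ≤ Subgroup.centralizer X := fun X z hz =>
        Subgroup.mem_centralizer_iff.2 fun x _ => hZ z hz x
      obtain ⟨T, hT1, hTK⟩ := hex K₁ (le_inf (le_inf hZS (hZc _)) (hZc _)) inf_le_left
        (str_nm_inf (str_nm_inf (sup_le (fun h hh => hH h hh) Subgroup.le_normalizer)
          (str_nm_cen hDE)) (str_nm_cen hCn)) hne
      obtain ⟨h1, -, -, h4, h5⟩ := hT T hT1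
      obtain ⟨-, h7⟩ := str_perf hZ h1 h4 h5
      have h8 : ⁅T, T⁆ ≤ C.sup id := Finset.le_sup (f := id) ((hC _).2 ⟨T, hT1, rfl⟩)
      have h9 : ⁅⁅T, T⁆, ⁅T, T⁆⁆ = ⊥ :=
        Subgroup.commutator_eq_bot_iff_le_centralizer.2
          ((((Subgroup.commutator_le_self T).trans hTK).trans inf_le_right).trans
            (Subgroup.centralizer_le h8))
      apply h4
      rw [← h7, h9]
      exact bot_le
    rw [hKZ] at hkK
    simpa using E.mul_mem he₁ (hZE hkK)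

end Pool.Agent.Work.MP_11a08a_al.Sol
end

-- merged part: Pool.Agent.Work.MP_11a08a_al.Sol.Next
section
/-!
`Z = Zs F W` is central, so normal.  For `s ∈ S` part (iv) of `hM` gives `s = A * x`.  Uniqueness modulo `Z`: if
`A x = A₁ x₁` then `B = A₁⁻¹ A ∈ spn M`, `B x = x₁` commutes with `M`, so `B` is scalar by part (v).  `x` commutes with
`spn M`, so `(A x)(A' x') = (A A')(x x')`.  Define `S' = {x | Cm M x ∧ ∃ s ∈ S, ∃ A, A ∈ spn M ∧ A⁻¹ ∈ spn M ∧ s = A * x}`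
(a subgroup containing `Z`, normalised by `H` since conjugation by `h` preserves `S`, `spn M`, `Cm M`), and the
homomorphism `f : S →* S' ⧸ Z.subgroupOf S'`, `s ↦ [x s]`, onto, with kernel containing `Z` and `M`.
`Z.relIndex S = Z.relIndex (ker) * card range` with first factor `≥ 2`.  `SecZ`: for `B' ≤ S'`, `A'` normal in `B'`
containing `Z ⊓ B'`, let `B ≤ S` be the set of `s` with `x s ∈ B' ⊔ Z`; build a surjection `B →* B' ⧸ A'` killing
`Z`, let `A` be its kernel and transport along `QuotientGroup.quotientKerEquivOfSurjective`.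
-/

set_option autoImplicit false

open Finset Module
open scoped commutatorElement

namespace Pool.Agent.Work.MP_11a08a_al.Sol

/-- The section property for an arbitrary group. -/
def next_Sec {G : Type} [Group G] (d : ℕ) (Z S : Subgroup G) : Prop :=
  ∀ B : Subgroup G, B ≤ S → ∀ A : Subgroup B, ∀ _ : A.Normal,
    Z.subgroupOf B ≤ A → IsSimpleGroup (B ⧸ A) →
    (∀ x y : B ⧸ A, x * y = y * x) ∨ Nat.card (B ⧸ A) ≤ d

theorem next_sec1 {G Q : Type} [Group G] [Group Q] {d : ℕ} {Z S B : Subgroup G}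
    (h : next_Sec d Z S) (hB : B ≤ S) (φ : B →* Q) (hφ : Function.Surjective φ)
    (hZ : Z.subgroupOf B ≤ φ.ker) [IsSimpleGroup Q] :
    (∀ x y : Q, x * y = y * x) ∨ Nat.card Q ≤ d := by
  let e := QuotientGroup.quotientKerEquivOfSurjective φ hφ
  refine (h B hB φ.ker inferInstance hZ e.isSimpleGroup).imp (fun a x y => ?_) fun a => ?_
  · exact e.symm.injective (by rw [map_mul, map_mul, a])
  · rwa [← Nat.card_congr e.toEquiv]

theorem next_sec2 {G : Type} [Group G] {d : ℕ} {Z S : Subgroup G} [Z.Normal]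
    (h : next_Sec d Z S) (f : S →* G ⧸ Z) (hf : Z.subgroupOf S ≤ f.ker) :
    next_Sec d Z (f.range.comap (QuotientGroup.mk' Z)) := by
  intro B hB A _ hA _
  let K := B.map (QuotientGroup.mk' Z)
  have hK : K ≤ f.range := Subgroup.map_le_iff_le_comap.2 hB
  have h1 : ((QuotientGroup.mk' Z).subgroupMap B).ker ≤ (QuotientGroup.mk' A).ker := by
    intro b hb
    rw [QuotientGroup.ker_mk']
    exact hA ((QuotientGroup.eq_one_iff (N := Z) (b : G)).1 (congrArg Subtype.val hb))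
  let ψ : K →* B ⧸ A := ((QuotientGroup.mk' Z).subgroupMap B).liftOfSurjective
    (MonoidHom.subgroupMap_surjective _ _) ⟨_, h1⟩
  have hψ : Function.Surjective ψ := fun q => by
    obtain ⟨b, rfl⟩ := QuotientGroup.mk'_surjective A q
    exact ⟨_, MonoidHom.liftOfRightInverse_comp_apply _ _ _ _ b⟩
  have h2 : Function.Surjective (f.subgroupComap K) := fun k => by
    obtain ⟨s, hs⟩ := hK k.2
    exact ⟨⟨s, by rw [Subgroup.mem_comap, hs]; exact k.2⟩, Subtype.ext hs⟩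
  let e := (K.comap f).equivMapOfInjective S.subtype S.subtype_injective
  refine next_sec1 h (Subgroup.map_subtype_le (K.comap f))
    (ψ.comp ((f.subgroupComap K).comp e.symm.toMonoidHom))
    (hψ.comp (h2.comp e.symm.surjective)) fun b hb => ?_
  obtain ⟨c, rfl⟩ := e.surjective b
  have h3 : f.subgroupComap K c = 1 := Subtype.ext (hf hb)
  simp [h3]

theorem next_grp {G : Type} [Group G] {d : ℕ} {Z S M U C : Subgroup G}
    (hZ : Z ≤ Subgroup.center G) (hfin : Z.relIndex S ≠ 0) (hsec : next_Sec d Z S)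
    (hUC : ∀ a ∈ U, ∀ x ∈ C, a * x = x * a) (hi : ∀ a ∈ U, a ∈ C → a ∈ Z) (hZU : Z ≤ U)
    (hZC : Z ≤ C) (hS : ∀ s ∈ S, ∃ a ∈ U, ∃ x ∈ C, s = a * x) (hMS : M ≤ S) (hMU : M ≤ U)
    (hMZ : ¬ M ≤ Z) :
    ∃ S' : Subgroup G, Z ≤ S' ∧ Z.relIndex S' ≠ 0 ∧ Z.relIndex S' < Z.relIndex S ∧
      next_Sec d Z S' ∧ ∀ x, x ∈ S' ↔ x ∈ C ∧ ∃ a ∈ U, a * x ∈ S := by
  have : Z.Normal := ⟨fun z hz g => by
    rwa [Subgroup.mem_center_iff.1 (hZ hz) g, mul_inv_cancel_right]⟩
  have uq : ∀ a ∈ U, ∀ x ∈ C, ∀ a' ∈ U, ∀ x' ∈ C, a * x = a' * x' → (x : G ⧸ Z) = x' := by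
    intro a ha x hx a' ha' x' hx' e
    have e' : x' * x⁻¹ = a'⁻¹ * a := by
      rw [mul_inv_eq_iff_eq_mul, mul_assoc, e, inv_mul_cancel_left]
    have h1 := hi _ (U.mul_mem (U.inv_mem ha') ha) (e' ▸ C.mul_mem hx' (C.inv_mem hx))
    rw [← e', ← div_eq_mul_inv] at h1
    exact (QuotientGroup.eq_iff_div_mem.2 h1).symm
  choose! A hA X hX hAX using hS
  let f : S →* G ⧸ Z := MonoidHom.mk' (fun s => (X s : G ⧸ Z)) fun s t => by
    rw [← QuotientGroup.mk_mul]
    refine uq _ (hA _ (s * t).2) _ (hX _ (s * t).2) _ (U.mul_mem (hA _ s.2) (hA _ t.2)) _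
      (C.mul_mem (hX _ s.2) (hX _ t.2)) ?_
    rw [← hAX _ (s * t).2, mul_assoc, ← mul_assoc (A t), hUC _ (hA _ t.2) _ (hX _ s.2),
      mul_assoc, ← mul_assoc, ← hAX _ s.2, ← hAX _ t.2]
    rfl
  have hf : ∀ (s : S), ∀ a ∈ U, ∀ x ∈ C, s = a * x → f s = x := fun s a ha x hx e =>
    uq _ (hA _ s.2) _ (hX _ s.2) _ ha _ hx ((hAX _ s.2).symm.trans e)
  have hk : U.subgroupOf S ≤ f.ker := fun s hs => hf s s hs 1 C.one_mem (mul_one _).symm
  have hk' : Z.subgroupOf S ≤ f.ker := fun s hs => hk (hZU hs)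
  have h1 : Z.relIndex (f.range.comap (QuotientGroup.mk' Z)) = f.ker.index := by
    have h := Subgroup.relIndex_ker (f.range.comap (QuotientGroup.mk' Z)) (QuotientGroup.mk' Z)
    rwa [QuotientGroup.ker_mk', Subgroup.map_comap_eq_self_of_surjective
      (QuotientGroup.mk'_surjective Z), ← Subgroup.index_ker] at h
  have h2 : (Z.subgroupOf S).relIndex f.ker * f.ker.index = Z.relIndex S :=
    Subgroup.relIndex_mul_index hk'
  have h3 : (Z.subgroupOf S).relIndex f.ker ≠ 1 := fun h => hMZ fun m hm =>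
    Subgroup.relIndex_eq_one.1 h (hk (x := ⟨m, hMS hm⟩) (hMU hm))
  rw [← h2] at hfin
  have h4 := left_ne_zero_of_mul hfin
  have h5 := right_ne_zero_of_mul hfin
  refine ⟨f.range.comap (QuotientGroup.mk' Z), fun z hz => ?_, h1 ▸ h5, ?_,
    next_sec2 hsec f hk', fun x => ⟨?_, ?_⟩⟩
  · exact ⟨1, (map_one f).trans ((QuotientGroup.eq_one_iff z).2 hz).symm⟩
  · rw [h1, ← h2]
    exact lt_mul_left (Nat.pos_of_ne_zero h5) (by omega)
  · rintro ⟨s, hs⟩
    have h6 : (X s)⁻¹ * x ∈ Z := QuotientGroup.eq.1 hs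
    refine ⟨?_, A s * ((X s)⁻¹ * x)⁻¹, U.mul_mem (hA _ s.2) (U.inv_mem (hZU h6)), ?_⟩
    · simpa using C.mul_mem (hX _ s.2) (hZC h6)
    · rw [mul_assoc, ← Subgroup.mem_center_iff.1 (hZ (Z.inv_mem h6)) x, mul_inv_rev, inv_inv,
        mul_inv_cancel_left, ← hAX _ s.2]
      exact s.2
  · rintro ⟨hx, a, ha, h⟩
    exact ⟨⟨_, h⟩, hf _ a ha x hx rfl⟩

section

variable {F W : Type} [Field F] [AddCommGroup W] [Module F W]

theorem next_mem {M : Subgroup (End F W)ˣ} {u : (End F W)ˣ} (h : u ∈ M) :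
    (u : End F W) ∈ spn M := Submodule.subset_span ⟨u, h, rfl⟩

theorem next_mul {M : Subgroup (End F W)ˣ} {a b : End F W} (ha : a ∈ spn M) (hb : b ∈ spn M) :
    a * b ∈ spn M := by
  have := Submodule.mul_mem_mul ha hb
  rw [spn, Submodule.span_mul_span] at this
  refine Submodule.span_le.2 ?_ this
  rintro _ ⟨_, ⟨g, hg, rfl⟩, _, ⟨k, hk, rfl⟩, rfl⟩
  exact next_mem (M.mul_mem hg hk)

/-- The units of the span. -/
def next_U (M : Subgroup (End F W)ˣ) : Subgroup (End F W)ˣ where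
  carrier := {a | (a : End F W) ∈ spn M ∧ ((a⁻¹ : (End F W)ˣ) : End F W) ∈ spn M}
  one_mem' := ⟨next_mem M.one_mem, next_mem (M.inv_mem M.one_mem)⟩
  mul_mem' := fun ha hb => ⟨next_mul ha.1 hb.1, by
    rw [mul_inv_rev]
    exact next_mul hb.2 ha.2⟩
  inv_mem' := fun ha => ⟨ha.2, ha.1⟩

theorem next_cm {M : Subgroup (End F W)ˣ} {x : (End F W)ˣ} :
    x ∈ Subgroup.centralizer (M : Set (End F W)ˣ) ↔ Cm M (x : End F W) :=
  ⟨fun h u hu => congrArg Units.val (h u hu), fun h u hu => Units.ext (h u hu)⟩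

theorem next_comm {M : Subgroup (End F W)ˣ} {a x : End F W} (ha : a ∈ spn M) (hx : Cm M x) :
    a * x = x * a := by
  induction ha using Submodule.span_induction with
  | mem z hz =>
    obtain ⟨u, hu, rfl⟩ := hz
    exact hx u hu
  | zero => simp
  | add a b _ _ ha hb => rw [add_mul, mul_add, ha, hb]
  | smul c a _ ha => rw [smul_mul_assoc, mul_smul_comm, ha]

theorem next_conj {M : Subgroup (End F W)ˣ} {h : (End F W)ˣ} (hh : Nm h M) {a : End F W}
    (ha : a ∈ spn M) : (h : End F W) * a * (h⁻¹ : (End F W)ˣ) ∈ spn M := by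
  induction ha using Submodule.span_induction with
  | mem z hz =>
    obtain ⟨u, hu, rfl⟩ := hz
    exact next_mem ((Subgroup.mem_normalizer_iff.1 hh u).1 hu)
  | zero => simp
  | add a b _ _ ha hb =>
    rw [mul_add, add_mul]
    exact add_mem ha hb
  | smul c a _ ha =>
    rw [mul_smul_comm, smul_mul_assoc]
    exact Submodule.smul_mem _ c ha

theorem next_stab {S M : Subgroup (End F W)ˣ} {h x : (End F W)ˣ} (hS : Nm h S) (hM : Nm h M)
    (hx : x ∈ Subgroup.centralizer (M : Set (End F W)ˣ) ∧ ∃ a ∈ next_U M, a * x ∈ S) :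
    h * x * h⁻¹ ∈ Subgroup.centralizer (M : Set (End F W)ˣ) ∧
      ∃ a ∈ next_U M, a * (h * x * h⁻¹) ∈ S := by
  obtain ⟨hx, a, ha, has⟩ := hx
  refine ⟨fun u hu => ?_, h * a * h⁻¹, ⟨next_conj hM ha.1, ?_⟩, ?_⟩
  · have := hx _ ((Subgroup.mem_normalizer_iff''.1 hM u).1 hu)
    calc u * (h * x * h⁻¹) = h * (h⁻¹ * u * h * x) * h⁻¹ := by group
      _ = _ := by
        rw [this]
        group
  · rw [conj_inv]
    exact next_conj hM ha.2
  · rw [conj_mul]
    exact (Subgroup.mem_normalizer_iff.1 hS _).1 has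

end

theorem next (hM : StmtMU) : StmtNext := by
  intro F W _ _ _ _ _ d H S M hZS hfin hH hsec hMS hMZ hSM hMU
  obtain ⟨-, -, -, h4, h5⟩ := hM F W M hMU
  have hZ : Zs F W ≤ Subgroup.center _ := by
    rintro z ⟨c, -, h⟩
    exact Subgroup.mem_center_iff.2 fun x => Units.ext (by simp [h])
  have hz : ∀ z ∈ Zs F W, (z : End F W) ∈ spn M := by
    rintro z ⟨c, -, h⟩
    rw [h]
    exact Submodule.smul_mem _ c (next_mem M.one_mem)
  have hS : ∀ s ∈ S, ∃ a ∈ next_U M, ∃ x ∈ Subgroup.centralizer (M : Set (End F W)ˣ),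
      s = a * x := fun s hs => by
    obtain ⟨A, a1, a2, a3⟩ := h4 s (hSM s hs)
    exact ⟨A, ⟨a1, a2⟩, A⁻¹ * s, next_cm.2 a3, (mul_inv_cancel_left _ _).symm⟩
  obtain ⟨S', s1, s2, s3, s4, s5⟩ := next_grp (U := next_U M)
    (C := Subgroup.centralizer (M : Set (End F W)ˣ)) hZ hfin hsec
    (fun a ha x hx => Units.ext (next_comm ha.1 (next_cm.1 hx)))
    (fun a ha hc => by
      obtain ⟨c, e⟩ := h5 a ha.1 1 one_ne_zero (fun u _ => by simp)
        (by simpa using next_cm.1 hc)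
      exact ⟨c, fun h0 => a.ne_zero (by rw [e, h0, zero_smul]), e⟩)
    (fun z h => ⟨hz z h, hz _ (Subgroup.inv_mem _ h)⟩)
    (hZ.trans (Subgroup.center_le_centralizer _)) hS hMS
    (fun u hu => ⟨next_mem hu, next_mem (M.inv_mem hu)⟩) hMZ
  refine ⟨S', s1, s2, s3, fun h hh => Subgroup.mem_normalizer_iff.2 fun x => ⟨fun hx => ?_,
    fun hx => ?_⟩, s4, fun s hs => ?_⟩
  · exact (s5 _).2 (next_stab (hH h hh).1 (hH h hh).2 ((s5 _).1 hx))
  · have := (s5 _).2 (next_stab (hH _ (H.inv_mem hh)).1 (hH _ (H.inv_mem hh)).2 ((s5 _).1 hx))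
    simpa [mul_assoc] using this
  · obtain ⟨a, ha, x, hx, rfl⟩ := hS s hs
    exact ⟨a, x, ha.1, ha.2, (s5 _).2 ⟨hx, a, ha, hs⟩, next_cm.1 hx, rfl⟩

end Pool.Agent.Work.MP_11a08a_al.Sol
end

-- merged part: Pool.Agent.Work.MP_11a08a_al.Sol.Nilp
section
/-!
`Z = Zs F W` central; `E` is commutative modulo `Z` and normalised by `S` (`nE`).  Chain `ch 0 = Z`, `ch 1 = E ⊓ E₂ ⊓ E₁`,
`ch 2 = E ⊓ E₂`, `ch i = E` for `i ≥ 3`; for `n ∈ N`, `e ∈ ch (i + 1)`: `⁅n, e⁆ ∈ ch i`; each `ch i` is normalised by `N`.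
`P k = {γ ∈ N | ∀ i, ∀ e ∈ ch (i + k), ⁅γ, e⁆ ∈ ch i}` is a subgroup, `P 1 = N`, `⁅P a, P b⁆ ≤ P (a + b)` for `a, b ≥ 1`
(work modulo `ch i`, for instance with the Hall-Witt identity or in the commutative group `E ⧸ Z` with `γ = 1 + u`), and
`γ ∈ P k → γ ^ m ∈ P (k + 1)` for `m = Z.relIndex E` (`⁅γ ^ m, e⁆ ≡ ⁅γ, e⁆ ^ m` modulo one step lower, `x ^ m ∈ Z` on `E`).
Elements of `P 3` satisfy `E ≤ fixE E γ`, so lie in `E` by `self`.  `gam N 2 ≤ P 3`, then `gam N (2 + j) ≤ ch (3 - j)`.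
`n ^ (m ^ 2) ∈ P 3 ≤ E`.
-/

set_option autoImplicit false

open Finset Module
open scoped commutatorElement

namespace Pool.Agent.Work.MP_11a08a_al.Sol

/-- The elements of `N` that lower the chain by `k` steps. -/
def nilp_P {G : Type} [Group G] (N : Subgroup G) (ch : ℕ → Subgroup G)
    (hn : ∀ n ∈ N, ∀ i, ∀ e ∈ ch i, n * e * n⁻¹ ∈ ch i) (k : ℕ) : Subgroup G where
  carrier := {g | g ∈ N ∧ ∀ i, ∀ e ∈ ch (i + k), ⁅g, e⁆ ∈ ch i}
  one_mem' := ⟨N.one_mem, fun i e _ => by simp⟩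
  mul_mem' := by
    rintro a b ⟨ha, h⟩ ⟨hb, h'⟩
    refine ⟨N.mul_mem ha hb, fun i e he => ?_⟩
    have q : ⁅a * b, e⁆ = (a * ⁅b, e⁆ * a⁻¹) * ⁅a, e⁆ := by
      simp only [commutatorElement_def]; group
    rw [q]
    exact (ch i).mul_mem (hn a ha i _ (h' i e he)) (h i e he)
  inv_mem' := by
    rintro a ⟨ha, h⟩
    refine ⟨N.inv_mem ha, fun i e he => ?_⟩
    have q : ⁅a⁻¹, e⁆ = a⁻¹ * ⁅a, e⁆⁻¹ * a⁻¹⁻¹ := by
      simp only [commutatorElement_def]; group
    rw [q]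
    exact hn _ (N.inv_mem ha) i _ ((ch i).inv_mem (h i e he))

theorem nilp_abs {G : Type} [Group G] (Z E N : Subgroup G) (ch : ℕ → Subgroup G) (m : ℕ)
    (h0 : ch 0 = Z) (h3 : ch 3 = E) (hZ : ∀ i, Z ≤ ch i) (hE : ∀ i, ch i ≤ E)
    (hm : ∀ i, ch i ≤ ch (i + 1)) (hc : ∀ e ∈ E, ∀ e' ∈ E, ⁅e, e'⁆ ∈ Z)
    (hl : ∀ n ∈ N, ∀ i, ∀ e ∈ ch (i + 1), ⁅n, e⁆ ∈ ch i) (hp : ∀ e ∈ E, e ^ m ∈ Z)
    (hs : ∀ n ∈ N, (∀ e ∈ E, ⁅n, e⁆ ∈ Z) → n ∈ E) :
    gam N 5 ≤ Z ∧ ∀ n ∈ N, n ^ m ^ 3 ∈ Z := by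
  have hn : ∀ n ∈ N, ∀ i, ∀ e ∈ ch i, n * e * n⁻¹ ∈ ch i := by
    intro n hn i e he
    have q : n * e * n⁻¹ = ⁅n, e⁆ * e := by
      simp only [commutatorElement_def]; group
    rw [q]
    exact (ch i).mul_mem (hl n hn i e (hm i he)) he
  have P1 : N ≤ nilp_P N ch hn 1 := fun n h => ⟨h, hl n h⟩
  have Pc : ∀ k, ⁅nilp_P N ch hn k, N⁆ ≤ nilp_P N ch hn (k + 1) := by
    intro k
    rw [Subgroup.commutator_le]
    rintro a ⟨ha, h⟩ b hb
    refine ⟨?_, fun i e he => ?_⟩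
    · rw [commutatorElement_def]
      exact N.mul_mem (N.mul_mem (N.mul_mem ha hb) (N.inv_mem ha)) (N.inv_mem hb)
    · obtain ⟨e', he', hq⟩ : ∃ e' ∈ ch (i + (k + 1)), e' = (b * a)⁻¹ * e * (b * a)⁻¹⁻¹ :=
        ⟨_, hn _ (N.inv_mem (N.mul_mem hb ha)) _ e he, rfl⟩
      have q : ⁅⁅a, b⁆, e⁆ = ⁅a, ⁅b, e'⁆⁆ * ⁅⁅b, e'⁆, ⁅a, e'⁆⁆ * ⁅b, ⁅a, e'⁆⁆⁻¹ := by
        rw [hq]; simp only [commutatorElement_def]; group
      have x1 : ⁅b, e'⁆ ∈ ch (i + k) := hl b hb (i + k) e' he'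
      have x2 : ⁅a, e'⁆ ∈ ch (i + 1) := h (i + 1) e' (by
        rwa [show i + 1 + k = i + (k + 1) by omega])
      rw [q]
      exact (ch i).mul_mem ((ch i).mul_mem (h i _ x1) (hZ i (hc _ (hE _ x1) _ (hE _ x2))))
        ((ch i).inv_mem (hl b hb i _ x2))
  have Pp : ∀ k, ∀ a ∈ nilp_P N ch hn k, a ^ m ∈ nilp_P N ch hn (k + 1) := by
    intro k a ha
    refine ⟨N.pow_mem ha.1 m, fun i e he => ?_⟩
    have he' : e ∈ ch (i + 1 + k) := by rwa [show i + 1 + k = i + (k + 1) by omega]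
    have key : ∀ j : ℕ, ∃ w ∈ ch i, ⁅a ^ j, e⁆ = w * ⁅a, e⁆ ^ j := by
      intro j
      induction j with
      | zero => exact ⟨1, (ch i).one_mem, by simp⟩
      | succ j ih =>
        obtain ⟨w, hw, hq⟩ := ih
        have hy : ⁅a ^ j, e⁆ ∈ ch (i + 1) := ((nilp_P N ch hn k).pow_mem ha j).2 (i + 1) e he'
        refine ⟨⁅a, ⁅a ^ j, e⁆⁆ * w, (ch i).mul_mem (hl a ha.1 i _ hy) hw, ?_⟩
        have q : ∀ b : G, ⁅a * b, e⁆ = ⁅a, ⁅b, e⁆⁆ * ⁅b, e⁆ * ⁅a, e⁆ := by
          intro b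
          simp only [commutatorElement_def]; group
        rw [pow_succ' a j, q, pow_succ ⁅a, e⁆ j, mul_assoc _ w, ← mul_assoc w, ← hq, mul_assoc]
    obtain ⟨w, hw, hq⟩ := key m
    rw [hq]
    exact (ch i).mul_mem hw (hZ i (hp _ (hE _ (ha.2 (i + 1) e he'))))
  have P3 : nilp_P N ch hn 3 ≤ E := by
    rintro a ⟨ha, h⟩
    refine hs a ha fun e he => ?_
    rw [← h0]
    exact h 0 e (by rwa [zero_add, h3])
  have Cc : ∀ i, ⁅ch (i + 1), N⁆ ≤ ch i := by
    intro i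
    rw [Subgroup.commutator_le]
    intro e he n h
    rw [← commutatorElement_inv]
    exact (ch i).inv_mem (hl n h i e he)
  have g1 : gam N 1 ≤ nilp_P N ch hn 2 := (Subgroup.commutator_mono P1 le_rfl).trans (Pc 1)
  have g2 : gam N 2 ≤ ch 3 := by
    rw [h3]
    exact ((Subgroup.commutator_mono g1 le_rfl).trans (Pc 2)).trans P3
  have g3 : gam N 3 ≤ ch 2 := (Subgroup.commutator_mono g2 le_rfl).trans (Cc 2)
  have g4 : gam N 4 ≤ ch 1 := (Subgroup.commutator_mono g3 le_rfl).trans (Cc 1)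
  have g5 : gam N 5 ≤ ch 0 := (Subgroup.commutator_mono g4 le_rfl).trans (Cc 0)
  refine ⟨h0 ▸ g5, fun n h => ?_⟩
  have := hp _ (P3 (Pp 2 _ (Pp 1 _ (P1 h))))
  rwa [← pow_mul, ← pow_mul, show m * (m * m) = m ^ 3 by ring] at this

/-- The chain of subgroups between `Z` and `E`. -/
def nilp_ch {G : Type} [Group G] (Z E E₁ E₂ : Subgroup G) : ℕ → Subgroup G
  | 0 => Z
  | 1 => E ⊓ E₂ ⊓ E₁
  | 2 => E ⊓ E₂
  | _ + 3 => E

theorem nilp : StmtNilp := by
  intro F W _ _ _ d H S E N E₁ E₂ C hS hN hC hU h1 h2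
  have hz : ∀ z ∈ Zs F W, ∀ x : (End F W)ˣ, x * z * x⁻¹ = z := by
    rintro z ⟨c, -, h⟩ x
    have : x * z = z * x := Units.ext (by simp [h])
    rw [this, mul_inv_cancel_right]
  have : (Zs F W).Normal := ⟨fun z h x => by rw [hz z h x]; exact h⟩
  have hE : ∀ n ∈ N, ∀ e ∈ E, ⁅n, e⁆ ∈ E := by
    intro n hn e he
    have h := hS.nE n (Or.inr (hN hn))
    rw [commutatorElement_def]
    exact E.mul_mem ((Subgroup.mem_normalizer_iff.1 h e).1 he) (E.inv_mem he)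
  refine nilp_abs (Zs F W) E N (nilp_ch (Zs F W) E E₁ E₂) _ rfl rfl ?_ ?_ ?_ hS.heis.comm ?_
    (fun e he => Subgroup.pow_relIndex_mem _ he) ?_
  · rintro (_ | _ | _ | i)
    · exact le_rfl
    · exact le_inf (le_inf hS.heis.le h2) h1
    · exact le_inf hS.heis.le h2
    · exact hS.heis.le
  · rintro (_ | _ | _ | i)
    · exact hS.heis.le
    · exact inf_le_left.trans inf_le_left
    · exact inf_le_left
    · exact le_rfl
  · rintro (_ | _ | _ | i)
    · exact le_inf (le_inf hS.heis.le h2) h1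
    · exact inf_le_left
    · exact inf_le_left
    · exact le_rfl
  · rintro n hn (_ | _ | _ | i) e he
    · exact (hU n hn).2.2 e he.1.1 he.2
    · exact ⟨⟨hE n hn e he.1, (hU n hn).1 e he.1⟩, (hU n hn).2.1 e he.1 he.2⟩
    · exact ⟨hE n hn e he, (hU n hn).1 e he⟩
    · exact hE n hn e he
  · intro n hn h
    exact hS.self n (hN hn) (fun e he => ⟨he, h e he⟩) (hC n hn)

end Pool.Agent.Work.MP_11a08a_al.Sol
end
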