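import Pool.Agent.Work.MP_11a08a_al.Sol.RB

-- merged part: Pool.Agent.Work.MP_11a08a_al.Sol.Dual
section
/-!
Elements of `Zs` are central; for `n` with `⁅n, e⁆ ∈ Zs` (all `e ∈ E`) let `ω n e : F` be the scalar (unique as `W`
is nontrivial); it is multiplicative in `e` and in `n` (`⁅n, e e'⁆ = ⁅n, e⁆ e ⁅n, e'⁆ e⁻¹`,
`⁅n n', e⁆ = n ⁅n', e⁆ n⁻¹ ⁅n, e⁆`).  For a finite group `Q` the number of homomorphisms `Q →* F` is at most
`card Q` (`linearIndependent_monoidHom`, `finrank (Q → F)`).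
(1) If `p = ringChar F` is prime and divides the index, Cauchy in `E ⧸ Zs.subgroupOf E` gives `e ∉ Zs`,
`e ^ p ∈ Zs`; `(ω e e') ^ p = 1` gives `ω e e' = 1` (Frobenius), so `e ∈ Zs` by `nd`.
(2) `e₁ ↦ ω e₁ ·` is an injective map from `E ⧸ Zs` to the homomorphisms `E ⧸ Zs →* F`, so it is bijective.
(3) `n ↦ ω n ·` is a homomorphism from `N` to the finite group of homomorphisms `E ⧸ E₀ →* Fˣ` (or use a
map to `E ⧸ E₀ →* F` that is constant exactly on cosets) with kernel the centraliser.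
-/

set_option autoImplicit false

open Finset Module
open scoped commutatorElement

namespace Pool.Agent.Work.MP_11a08a_al.Sol

section

variable {F W : Type} [Field F] [AddCommGroup W] [Module F W]

theorem dual_cent {z : (End F W)ˣ} (hz : z ∈ Zs F W) (x : (End F W)ˣ) : x * z = z * x := by
  obtain ⟨c, -, h⟩ := hz
  exact Units.ext (by simp [h])

theorem dual_conj {z : (End F W)ˣ} (hz : z ∈ Zs F W) (x : (End F W)ˣ) : x * z * x⁻¹ = z := by
  rw [dual_cent hz, mul_inv_cancel_right]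

open Classical in
/-- The scalar of a scalar unit. -/
noncomputable def dual_sc (u : (End F W)ˣ) : F := if h : u ∈ Zs F W then h.choose else 1

theorem dual_sc_spec {u : (End F W)ˣ} (hu : u ∈ Zs F W) :
    (u : End F W) = dual_sc u • (1 : End F W) := by
  rw [dual_sc, dif_pos hu]
  exact hu.choose_spec.2

theorem dual_sc_eq [Nontrivial W] {u : (End F W)ˣ} (hu : u ∈ Zs F W) {c : F}
    (h : (u : End F W) = c • (1 : End F W)) : dual_sc u = c :=
  smul_left_injective F (one_ne_zero (α := End F W)) ((dual_sc_spec hu).symm.trans h)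

theorem dual_sc_mul [Nontrivial W] {u v : (End F W)ˣ} (hu : u ∈ Zs F W) (hv : v ∈ Zs F W) :
    dual_sc (u * v) = dual_sc u * dual_sc v := by
  refine dual_sc_eq ((Zs F W).mul_mem hu hv) ?_
  rw [Units.val_mul, ← one_mul (1 : End F W), ← smul_mul_smul_comm, ← dual_sc_spec hu,
    ← dual_sc_spec hv]

theorem dual_sc_one [Nontrivial W] : dual_sc (1 : (End F W)ˣ) = 1 :=
  dual_sc_eq (Zs F W).one_mem (by simp)

theorem dual_sc_inj {u v : (End F W)ˣ} (hu : u ∈ Zs F W) (hv : v ∈ Zs F W)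
    (h : dual_sc u = dual_sc v) : u = v :=
  Units.ext (by rw [dual_sc_spec hu, dual_sc_spec hv, h])

/-- The character attached to an element with scalar commutators. -/
noncomputable def dual_om [Nontrivial W] (E : Subgroup (End F W)ˣ) (n : (End F W)ˣ)
    (hn : ∀ e ∈ E, ⁅n, e⁆ ∈ Zs F W) : E →* F where
  toFun e := dual_sc ⁅n, (e : (End F W)ˣ)⁆
  map_one' := by simp [dual_sc_one]
  map_mul' a b := by
    have e : ⁅n, ((a * b : E) : (End F W)ˣ)⁆ =
        ⁅n, (a : (End F W)ˣ)⁆ * (a * ⁅n, (b : (End F W)ˣ)⁆ * (a : (End F W)ˣ)⁻¹) := by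
      simp only [commutatorElement_def, Subgroup.coe_mul]
      group
    rw [e, dual_conj (hn b b.2), dual_sc_mul (hn a a.2) (hn b b.2)]

theorem dual_om_inj [Nontrivial W] {E : Subgroup (End F W)ˣ} {n n' : (End F W)ˣ}
    (hn : ∀ e ∈ E, ⁅n, e⁆ ∈ Zs F W) (hn' : ∀ e ∈ E, ⁅n', e⁆ ∈ Zs F W)
    (h : dual_om E n hn = dual_om E n' hn') :
    n⁻¹ * n' ∈ Subgroup.centralizer (E : Set (End F W)ˣ) := by
  intro e he
  have h1 : ⁅n, e⁆ = ⁅n', e⁆ :=
    dual_sc_inj (hn e he) (hn' e he) (DFunLike.congr_fun h ⟨e, he⟩)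
  have h2 : n * e * n⁻¹ = n' * e * n'⁻¹ := by
    rw [commutatorElement_def, commutatorElement_def] at h1
    exact mul_right_cancel h1
  calc e * (n⁻¹ * n') = n⁻¹ * (n * e * n⁻¹) * n' := by group
    _ = n⁻¹ * n' * e := by rw [h2]; group

theorem dual_om_one [Nontrivial W] {E : Subgroup (End F W)ˣ} {n : (End F W)ˣ}
    (hn : ∀ e ∈ E, ⁅n, e⁆ ∈ Zs F W) (e : E) (h : n * e = e * n) : dual_om E n hn e = 1 := by
  change dual_sc ⁅n, (e : (End F W)ˣ)⁆ = 1
  rw [commutatorElement_eq_one_iff_mul_comm.2 h, dual_sc_one]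

theorem dual_normal {E E₀ : Subgroup (End F W)ˣ} (hE : Heis E) (h0 : Zs F W ≤ E₀) :
    (E₀.subgroupOf E).Normal := by
  refine ⟨fun a ha g => ?_⟩
  rw [Subgroup.mem_subgroupOf] at ha ⊢
  have e : ((g * a * g⁻¹ : E) : (End F W)ˣ) = ⁅(g : (End F W)ˣ), (a : (End F W)ˣ)⁆ * a := by
    simp [commutatorElement_def]
  rw [e]
  exact E₀.mul_mem (h0 (hE.comm _ g.2 _ a.2)) ha

end

theorem dual_hom_card (Q F : Type) [Group Q] [Finite Q] [Field F] :
    Finite (Q →* F) ∧ Nat.card (Q →* F) ≤ Nat.card Q := by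
  have hl := linearIndependent_monoidHom Q F
  have hf : Finite (Q →* F) := hl.finite
  refine ⟨hf, ?_⟩
  have := Fintype.ofFinite Q
  have := Fintype.ofFinite (Q →* F)
  have h := hl.fintype_card_le_finrank
  rw [Module.finrank_fintype_fun_eq_card] at h
  rwa [Nat.card_eq_fintype_card, Nat.card_eq_fintype_card]

theorem dual_X_card {G F : Type} [Group G] [Field F] (K : Subgroup G) [K.Normal]
    (hK : K.index ≠ 0) : Finite {χ : G →* F // ∀ e ∈ K, χ e = 1} ∧
      Nat.card {χ : G →* F // ∀ e ∈ K, χ e = 1} ≤ K.index := by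
  have : K.FiniteIndex := ⟨hK⟩
  obtain ⟨h1, h2⟩ := dual_hom_card (G ⧸ K) F
  have hi : Function.Injective fun χ : {χ : G →* F // ∀ e ∈ K, χ e = 1} =>
      QuotientGroup.lift K χ.1 χ.2 := by
    intro a b h
    refine Subtype.ext (MonoidHom.ext fun g => ?_)
    exact DFunLike.congr_fun h (g : G ⧸ K)
  exact ⟨Finite.of_injective _ hi, (Nat.card_le_card_of_injective _ hi).trans h2⟩

theorem dual : StmtDual := by
  intro F W _ _ _ _ E hE
  have hZ := dual_normal hE le_rfl
  refine ⟨fun h => ?_, fun χ hχ h1 => ?_, fun E₀ N h0 hle hN hc => ?_⟩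
  · have hp := (ringChar.spec F _).1 h
    have hp0 : ringChar F ≠ 0 := fun e => hE.fin (by rwa [e, zero_dvd_iff] at hp)
    have : Fact (ringChar F).Prime := ⟨(CharP.char_is_prime_or_zero F _).resolve_right hp0⟩
    have : ((Zs F W).subgroupOf E).FiniteIndex := ⟨hE.fin⟩
    obtain ⟨x, hx⟩ := exists_prime_orderOf_dvd_card' (G := E ⧸ (Zs F W).subgroupOf E)
      (ringChar F) hp
    obtain ⟨e, rfl⟩ := QuotientGroup.mk_surjective x
    have h2 : e ^ ringChar F ∈ (Zs F W).subgroupOf E := by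
      rw [← QuotientGroup.eq_one_iff, QuotientGroup.mk_pow, ← hx, pow_orderOf_eq_one]
    have h3 : (e : (End F W)ˣ) ∈ Zs F W := by
      refine hE.nd e e.2 fun e' he' => ?_
      have h4 := dual_om_one (hE.comm e' he') (e ^ ringChar F) (dual_cent h2 e')
      rw [map_pow] at h4
      have h5 : (dual_om E e' (hE.comm e' he') e - 1) ^ ringChar F = 0 := by
        rw [sub_pow_char, h4, one_pow, sub_self]
      have h6 : dual_sc ⁅e', (e : (End F W)ˣ)⁆ = dual_sc (1 : (End F W)ˣ) := by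
        rw [dual_sc_one]
        exact sub_eq_zero.1 (pow_eq_zero_iff hp0 |>.1 h5)
      exact (commutatorElement_eq_one_iff_mul_comm.1
        (dual_sc_inj (hE.comm e' he' e e.2) (Zs F W).one_mem h6)).symm
    have h7 : (e : E ⧸ (Zs F W).subgroupOf E) = 1 := (QuotientGroup.eq_one_iff e).2 h3
    rw [h7, orderOf_one] at hx
    exact CharP.ringChar_ne_one hx.symm
  · obtain ⟨f1, f2⟩ := dual_X_card (F := F) ((Zs F W).subgroupOf E) hE.fin
    have hi : Function.Injective fun q : E ⧸ (Zs F W).subgroupOf E =>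
        (⟨dual_om E q.out (hE.comm _ q.out.2), fun e he => dual_om_one _ e (dual_cent he _)⟩ :
          {χ : E →* F // ∀ e ∈ (Zs F W).subgroupOf E, χ e = 1}) := by
      intro a b h
      have h2 := dual_om_inj (hE.comm _ a.out.2) (hE.comm _ b.out.2) (congrArg Subtype.val h)
      rw [← a.out_eq', ← b.out_eq', QuotientGroup.eq]
      exact hE.nd _ (a.out⁻¹ * b.out).2 fun e' he' => (h2 e' he').symm
    obtain ⟨q, hq⟩ := (hi.bijective_of_nat_card_le f2).2
      ⟨⟨⟨fun e => χ e, h1 1 (Zs F W).one_mem⟩, fun a b => hχ a a.2 b b.2⟩, fun e he => h1 e he⟩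
    refine ⟨q.out, q.out.2, fun e he => ?_⟩
    have h3 : dual_sc ⁅(q.out : (End F W)ˣ), e⁆ = χ e :=
      DFunLike.congr_fun (congrArg Subtype.val hq) ⟨e, he⟩
    rw [← h3]
    exact dual_sc_spec (hE.comm _ q.out.2 e he)
  · have := dual_normal hE h0
    have hfin : E₀.relIndex E ≠ 0 := fun e =>
      hE.fin (zero_dvd_iff.1 (e ▸ Subgroup.relIndex_dvd_of_le_left E h0))
    obtain ⟨f1, f2⟩ := dual_X_card (F := F) (E₀.subgroupOf E) hfin
    have hi : Function.Injective
        fun q : N ⧸ (Subgroup.centralizer (E : Set (End F W)ˣ)).subgroupOf N =>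
          (⟨dual_om E q.out fun e he => (hN _ q.out.2 he).2,
            fun e he => dual_om_one _ e (hc _ q.out.2 e he)⟩ :
              {χ : E →* F // ∀ e ∈ E₀.subgroupOf E, χ e = 1}) := by
      intro a b h
      have h2 := dual_om_inj (fun e he => (hN _ a.out.2 he).2) (fun e he => (hN _ b.out.2 he).2)
        (congrArg Subtype.val h)
      rw [← a.out_eq', ← b.out_eq', QuotientGroup.eq]
      exact h2
    have := Finite.of_injective _ hi
    exact ⟨Subgroup.index_ne_zero_of_finite, (Nat.card_le_card_of_injective _ hi).trans f2⟩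

end Pool.Agent.Work.MP_11a08a_al.Sol
end

-- merged part: Pool.Agent.Work.MP_11a08a_al.Sol.MU
section
/-!
`spn M` is closed under products and contains `1`; `Cm M x` gives `B * x = x * B` for `B ∈ spn M`; `Bim M U` gives
closure under both multiplications by `spn M`; an `M`-invariant subspace is `spn M`-invariant.
(i) `θ Y = ∑ a, e a 0 * Y * e 0 a`; check on the generators `e c d`.
(ii) some `e b b * Y * e c c ≠ 0` (sum over `b c` is `Y`); `X = ∑ a, e a b * Y * e c a` has
`e b b * X * e b c = e b b * Y * e c c`, commutes with all `e u v`; `rk X ≤ (n + 1) rk Y` and the `e a a` are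
independent nonzero elements of `spn M`.
(iii) `e 0 c * z * e d 0 = z c d • e 0 0` kills `U`, and `e 0 0` does not kill `U`.
(iv) (ii) for `Y = t`, `U = (spn M).map (right multiplication by t)`: `X = B * t`; `ker B` is `M`-invariant as
`B (t u t⁻¹) = u B`; by (iii) `B` is injective, so a unit; left multiplication by `B` is injective on the finite
dimensional `spn M`, so the inverse lies in `spn M`; `A = B⁻¹`.
(v) `B x = θ (B x) = c • x`, so `B - c` kills `range x`; use (iii).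
-/

set_option autoImplicit false

open Finset Module
open scoped commutatorElement

namespace Pool.Agent.Work.MP_11a08a_al.Sol

section Aux

variable {F W : Type} [Field F] [AddCommGroup W] [Module F W] {M : Subgroup (End F W)ˣ}

theorem mu_mem {u : (End F W)ˣ} (hu : u ∈ M) : (u : End F W) ∈ spn M :=
  Submodule.subset_span ⟨u, hu, rfl⟩

theorem mu_le {U : Submodule F (End F W)} (h : ∀ u ∈ M, (u : End F W) ∈ U) : spn M ≤ U :=
  Submodule.span_le.2 (by
    rintro _ ⟨u, hu, rfl⟩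
    exact h u hu)

theorem mu_bimL {U : Submodule F (End F W)} (h : ∀ u ∈ M, ∀ Y ∈ U, (u : End F W) * Y ∈ U)
    {B Y : End F W} (hB : B ∈ spn M) (hY : Y ∈ U) : B * Y ∈ U :=
  mu_le (U := U.comap (LinearMap.mulRight F Y)) (fun u hu => h u hu Y hY) hB

theorem mu_bimR {U : Submodule F (End F W)} (h : ∀ u ∈ M, ∀ Y ∈ U, Y * (u : End F W) ∈ U)
    {B Y : End F W} (hB : B ∈ spn M) (hY : Y ∈ U) : Y * B ∈ U :=
  mu_le (U := U.comap (LinearMap.mulLeft F Y)) (fun u hu => h u hu Y hY) hB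

theorem mu_mul {A B : End F W} (hA : A ∈ spn M) (hB : B ∈ spn M) : A * B ∈ spn M :=
  mu_bimL (fun _ hu _ hY => mu_bimR (U := spn M) (M := M)
    (fun v hv _ hZ => mu_le (U := (spn M).comap (LinearMap.mulRight F (v : End F W)))
      (fun _ hw => mu_mem (M.mul_mem hw hv)) hZ) hY (mu_mem hu)) hA hB

theorem mu_cm {x B : End F W} (hx : Cm M x) (hB : B ∈ spn M) : B * x = x * B :=
  mu_le (U := LinearMap.eqLocus (LinearMap.mulRight F x) (LinearMap.mulLeft F x)) hx hB

theorem mu_inv {U : Submodule F W} (h : ∀ u ∈ M, ∀ w ∈ U, (u : End F W) w ∈ U) {B : End F W}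
    (hB : B ∈ spn M) {w : W} (hw : w ∈ U) : B w ∈ U :=
  mu_le (U := U.comap (LinearMap.applyₗ w)) (fun u hu => h u hu w hw) hB

theorem mu_rk_sum [FiniteDimensional F W] {ι : Type} (s : Finset ι) (f : ι → End F W) {r : ℕ}
    (h : ∀ i, rk (f i) ≤ r) : rk (∑ i ∈ s, f i) ≤ s.card * r := by
  classical
  induction s using Finset.induction_on with
  | empty => exact le_of_eq ((congrArg (fun U : Submodule F W => finrank F U)
      LinearMap.range_zero).trans (by simp))
  | insert a s ha ih =>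
    rw [sum_insert ha, card_insert_of_notMem ha, add_mul, one_mul, add_comm _ r]
    refine le_trans ?_ (add_le_add (h a) ih)
    refine le_trans (Submodule.finrank_mono ?_) (Submodule.finrank_add_le_finrank_add_finrank _ _)
    rintro _ ⟨w, rfl⟩
    exact Submodule.add_mem_sup ⟨w, rfl⟩ ⟨w, rfl⟩

theorem mu_rk_mul [FiniteDimensional F W] (A Y B : End F W) : rk (A * Y * B) ≤ rk Y := by
  refine le_trans (Submodule.finrank_mono (LinearMap.range_comp_le_range B (A * Y))) ?_
  rw [End.mul_eq_comp, LinearMap.range_comp]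
  exact Submodule.finrank_map_le _ _

/-- a system of matrix units that spans the span of `M` -/
structure mu_Sys (M : Subgroup (End F W)ˣ) {n : ℕ} (e : Fin (n + 1) → Fin (n + 1) → End F W) :
    Prop where
  mem : ∀ a b, e a b ∈ spn M
  mul : ∀ a b c d, e a b * e c d = if b = c then e a d else 0
  sum : ∑ a, e a a = 1
  le : spn M ≤ Submodule.span F (Set.range fun p : Fin (n + 1) × Fin (n + 1) => e p.1 p.2)

variable {n : ℕ} {e : Fin (n + 1) → Fin (n + 1) → End F W}

theorem mu_Sys.same (h : mu_Sys M e) (a b c : Fin (n + 1)) : e a b * e b c = e a c := by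
  rw [h.mul, if_pos rfl]

theorem mu_Sys.le' (h : mu_Sys M e) {U : Submodule F (End F W)} (hU : ∀ a b, e a b ∈ U) :
    spn M ≤ U :=
  h.le.trans (Submodule.span_le.2 (by
    rintro _ ⟨p, rfl⟩
    exact hU p.1 p.2))

theorem mu_Sys.cm (h : mu_Sys M e) {X : End F W} (hX : ∀ a b, e a b * X = X * e a b) : Cm M X :=
  fun _ hu => h.le' (U := LinearMap.eqLocus (LinearMap.mulRight F X) (LinearMap.mulLeft F X)) hX
    (mu_mem hu)

theorem mu_Sys.ne [Nontrivial W] (h : mu_Sys M e) (a : Fin (n + 1)) : e a a ≠ 0 := fun c => by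
  have h1 : ∀ b, e b b = 0 := fun b => by
    rw [← h.same b a b, ← h.same b a a, c, mul_zero, zero_mul]
  have h2 := h.sum
  simp only [h1, sum_const_zero] at h2
  exact zero_ne_one h2

theorem mu_Sys.dim [FiniteDimensional F W] [Nontrivial W] (h : mu_Sys M e) :
    n + 1 ≤ finrank F (spn M) := by
  have h1 : LinearIndependent F fun a => (⟨e a a, h.mem a a⟩ : spn M) := by
    refine Fintype.linearIndependent_iff.2 fun c hc b => ?_
    have h2 : ∑ a, c a • e a a = 0 := by simpa using congrArg Subtype.val hc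
    have h3 : e b b * ∑ a, c a • e a a = c b • e b b := by
      rw [mul_sum, sum_eq_single b (fun a _ hab => by rw [mul_smul_comm, h.mul, if_neg hab.symm,
        smul_zero]) (by simp), mul_smul_comm, h.same]
    rw [h2, mul_zero] at h3
    exact (smul_eq_zero.1 h3.symm).resolve_right (h.ne b)
  simpa using h1.fintype_card_le_finrank

theorem mu_Sys.one (h : mu_Sys M e) : ∃ θ : End F W →ₗ[F] End F W, (∀ X, Cm M X → θ X = X) ∧
    ∀ B ∈ spn M, ∃ c : F, ∀ x, Cm M x → θ (B * x) = c • x := by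
  have h0 : ∀ B x : End F W, Cm M x →
      (∑ a, LinearMap.mulLeftRight F (e a 0, e 0 a)) (B * x) = (∑ a, e a 0 * B * e 0 a) * x :=
    fun B x hx => by
      rw [LinearMap.sum_apply, sum_mul]
      refine sum_congr rfl fun a _ => ?_
      rw [LinearMap.mulLeftRight_apply, mul_assoc _ _ x, mu_cm hx (h.mem 0 a)]
      simp only [mul_assoc]
  refine ⟨∑ a, LinearMap.mulLeftRight F (e a 0, e 0 a), fun X hX => ?_, fun B hB => ?_⟩
  · have h1 := h0 1 X hX
    simp only [one_mul, mul_one, h.same, h.sum] at h1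
    exact h1
  · have h1 := h.le hB
    clear hB
    induction h1 using Submodule.span_induction with
    | mem B hB =>
      obtain ⟨⟨c, d⟩, rfl⟩ := hB
      refine ⟨if 0 = c ∧ d = 0 then 1 else 0, fun x hx => ?_⟩
      rw [h0 _ x hx]
      by_cases h1 : 0 = c
      · by_cases h2 : d = 0
        · subst h1 h2
          simp only [h.same, h.sum, and_self, if_true, one_mul, one_smul]
        · subst h1
          simp [h.same, h.mul, h2]
      · simp [h.mul, h1]
    | zero => exact ⟨0, fun x _ => by simp⟩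
    | add A B _ _ hA hB =>
      obtain ⟨a, ha⟩ := hA
      obtain ⟨b, hb⟩ := hB
      exact ⟨a + b, fun x hx => by rw [add_mul, map_add, ha x hx, hb x hx, add_smul]⟩
    | smul r A _ hA =>
      obtain ⟨a, ha⟩ := hA
      exact ⟨r * a, fun x hx => by rw [smul_mul_assoc, map_smul, ha x hx, mul_smul]⟩

theorem mu_Sys.two [FiniteDimensional F W] [Nontrivial W] (h : mu_Sys M e) (Y : End F W)
    (hY : Y ≠ 0) : ∃ X : End F W, X ≠ 0 ∧ Cm M X ∧ rk X ≤ finrank F (spn M) * rk Y ∧
      (∀ U : Submodule F (End F W), Bim M U → Y ∈ U → X ∈ U) ∧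
      ∀ a : End F W, Cm M a → a * Y = Y * a → a * X = X * a := by
  obtain ⟨b, c, hbc⟩ : ∃ b c, e b b * Y * e c c ≠ 0 := by
    by_contra h0
    push Not at h0
    refine hY ?_
    rw [← one_mul Y, ← mul_one (1 * Y), ← h.sum, sum_mul, sum_mul]
    refine sum_eq_zero fun b _ => ?_
    rw [mul_sum]
    exact sum_eq_zero fun c _ => h0 b c
  have hL : ∀ u v, e u v * ∑ a, e a b * Y * e c a = e u b * Y * e c v := fun u v => by
    rw [mul_sum, sum_eq_single v (fun a _ hav => by
      rw [← mul_assoc, ← mul_assoc, h.mul, if_neg hav.symm, zero_mul, zero_mul]) (by simp),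
      ← mul_assoc, ← mul_assoc, h.same]
  have hR : ∀ u v, (∑ a, e a b * Y * e c a) * e u v = e u b * Y * e c v := fun u v => by
    rw [sum_mul, sum_eq_single u (fun a _ hau => by
      rw [mul_assoc, h.mul, if_neg hau, mul_zero]) (by simp), mul_assoc, h.same]
  refine ⟨∑ a, e a b * Y * e c a, fun h0 => hbc ?_, h.cm fun u v => by rw [hL, hR], ?_,
    fun U hU hYU => U.sum_mem fun a _ => ?_, fun a ha haY => ?_⟩
  · rw [← hL b c, h0, mul_zero]
  · refine (mu_rk_sum _ _ fun a => mu_rk_mul _ Y _).trans (Nat.mul_le_mul_right _ ?_)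
    simpa using h.dim
  · exact mu_bimR (fun u hu Z hZ => (hU u hu Z hZ).2) (h.mem _ _)
      (mu_bimL (fun u hu Z hZ => (hU u hu Z hZ).1) (h.mem _ _) hYU)
  · rw [mul_sum, sum_mul]
    refine sum_congr rfl fun i _ => ?_
    rw [mul_assoc _ _ a, mu_cm ha (h.mem c i), ← mul_assoc, ← mul_assoc, ← mul_assoc,
      ← mu_cm ha (h.mem i b), mul_assoc _ a Y, haY, mul_assoc _ Y a]

theorem mu_Sys.three (h : mu_Sys M e) (U : Submodule F W) (hU : U ≠ ⊥)
    (hi : ∀ u ∈ M, ∀ w ∈ U, (u : End F W) w ∈ U) (z : End F W) (hz : z ∈ spn M)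
    (h0 : ∀ w ∈ U, z w = 0) : z = 0 := by
  obtain ⟨c, rfl⟩ := (Submodule.mem_span_range_iff_exists_fun F).1 (h.le hz)
  obtain ⟨w, hw, hw0⟩ : ∃ w ∈ U, e 0 0 w ≠ 0 := by
    by_contra h1
    push Not at h1
    refine hU ((Submodule.eq_bot_iff _).2 fun w hw => ?_)
    rw [← End.one_apply (R := F) w, ← h.sum, LinearMap.sum_apply]
    refine sum_eq_zero fun a _ => ?_
    rw [← h.same a 0 a, ← h.same a 0 0, End.mul_apply, End.mul_apply,
      h1 _ (mu_inv hi (h.mem 0 a) hw), map_zero]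
  have h1 : ∀ p, c p = 0 := fun p => by
    have h2 : e 0 p.1 * (∑ q, c q • e q.1 q.2) * e p.2 0 = c p • e 0 0 := by
      rw [mul_sum, sum_mul, sum_eq_single p (fun q _ hq => ?_) (by simp), mul_smul_comm,
        smul_mul_assoc, h.same, h.same]
      rw [mul_smul_comm, smul_mul_assoc, h.mul]
      split_ifs with h3
      · rw [h.mul, if_neg fun h4 => hq (Prod.ext h3.symm h4), smul_zero]
      · rw [zero_mul, smul_zero]
    have h3 := LinearMap.congr_fun h2 w
    rw [End.mul_apply, End.mul_apply, h0 _ (mu_inv hi (h.mem _ _) hw), map_zero,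
      LinearMap.smul_apply] at h3
    exact (smul_eq_zero.1 h3.symm).resolve_right hw0
  simp [h1]

theorem mu_Sys.four [FiniteDimensional F W] [Nontrivial W] (h : mu_Sys M e) (t : (End F W)ˣ)
    (ht : Nm t M) : ∃ A : (End F W)ˣ, (A : End F W) ∈ spn M ∧
      ((A⁻¹ : (End F W)ˣ) : End F W) ∈ spn M ∧ Cm M ((A⁻¹ * t : (End F W)ˣ) : End F W) := by
  obtain ⟨X, x0, x1, -, x2, -⟩ := h.two t t.ne_zero
  have h1 : (1 : End F W) ∈ spn M := mu_mem M.one_mem
  obtain ⟨B, hB, rfl⟩ := x2 ((spn M).map (LinearMap.mulRight F (t : End F W))) (by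
    rintro u hu _ ⟨B, hB, rfl⟩
    refine ⟨⟨u * B, mu_mul (mu_mem hu) hB, mul_assoc _ _ _⟩,
      B * ((t * u * t⁻¹ : (End F W)ˣ) : End F W),
      mu_mul hB (mu_mem ((Subgroup.mem_normalizer_iff.1 ht u).1 hu)), ?_⟩
    simp only [LinearMap.mulRight_apply, Units.val_mul, mul_assoc, Units.inv_mul, mul_one])
    ⟨1, h1, one_mul _⟩
  rw [LinearMap.mulRight_apply] at x0 x1
  have h2 : LinearMap.ker B = ⊥ := by
    by_contra h3
    refine x0 ?_
    rw [h.three _ h3 (fun u hu w hw => ?_) B hB fun w hw => hw, zero_mul]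
    have h4 := x1 _ ((Subgroup.mem_normalizer_iff''.1 ht u).1 hu)
    have h5 : B * (u : End F W) = ((t⁻¹ * u * t : (End F W)ˣ) : End F W) * B := by
      refine (Units.mul_left_inj t).1 ?_
      rw [mul_assoc _ B, h4]
      simp only [Units.val_mul, mul_assoc, Units.mul_inv_cancel_left]
    rw [LinearMap.mem_ker, ← End.mul_apply, h5, End.mul_apply, LinearMap.mem_ker.1 hw, map_zero]
  obtain ⟨Bu, rfl⟩ := (LinearMap.isUnit_iff_ker_eq_bot B).2 h2
  let L : spn M →ₗ[F] spn M := (LinearMap.mulLeft F (Bu : End F W)).restrict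
    fun Z hZ => mu_mul hB hZ
  have h3 : Function.Injective L := fun Z Z' hZ =>
    Subtype.ext ((Units.mul_right_inj Bu).1 (congrArg Subtype.val hZ))
  obtain ⟨C, hC⟩ := LinearMap.injective_iff_surjective.1 h3 ⟨1, h1⟩
  have h4 : ((Bu⁻¹ : (End F W)ˣ) : End F W) = C :=
    Units.inv_eq_of_mul_eq_one_right (congrArg Subtype.val hC)
  refine ⟨Bu⁻¹, h4 ▸ C.2, ?_, ?_⟩ <;> rw [inv_inv]
  · exact hB
  · exact x1

theorem mu_Sys.five (h : mu_Sys M e) (B : End F W) (hB : B ∈ spn M) (x : End F W) (x0 : x ≠ 0)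
    (hx : Cm M x) (hBx : Cm M (B * x)) : ∃ c : F, B = c • (1 : End F W) := by
  obtain ⟨θ, h1, h2⟩ := h.one
  obtain ⟨c, hc⟩ := h2 B hB
  have h3 := hc x hx
  rw [h1 _ hBx] at h3
  refine ⟨c, sub_eq_zero.1 (h.three (LinearMap.range x)
    (fun h4 => x0 (LinearMap.range_eq_bot.1 h4)) ?_ _
    (sub_mem hB ((spn M).smul_mem c (mu_mem M.one_mem))) ?_)⟩
  · rintro u hu _ ⟨w, rfl⟩
    exact ⟨(u : End F W) w, (LinearMap.congr_fun (hx u hu) w).symm⟩
  · rintro _ ⟨w, rfl⟩
    rw [← End.mul_apply, sub_mul, h3, smul_mul_assoc, one_mul, sub_self, LinearMap.zero_apply]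

end Aux

theorem mu : StmtMU := by
  rintro F W _ _ _ _ _ M ⟨n, e, h1, h2, h3, h4⟩
  have h : mu_Sys M e := ⟨h1, h2, h3, h4⟩
  exact ⟨h.one, h.two, h.three, h.four, h.five⟩

end Pool.Agent.Work.MP_11a08a_al.Sol
end

-- merged part: Pool.Agent.Work.MP_11a08a_al.Sol.Simple
section
/-!
For a subgroup `M` view `spn M` as a subalgebra `ℬ M` of `End F W` (finite dimensional).  Put `M = M₁ ⊔ M₂`; `spn M`
is spanned by the products `x y`, `x ∈ M₁`, `y ∈ M₂`; conjugation by `h ∈ H` preserves `spn M`.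
(a) No nonzero subspace `I ≤ spn M`, closed under both multiplications by `spn M`, is nilpotent: let `J` be the sum of
all such `I` with `I * I = 0` or use the Jacobson radical `J` of `ℬ M` (nilpotent, contains nilpotent ideals, invariant
under the conjugations).  If `J ≠ 0` take `k ≥ 1` with `J ^ k ≠ 0 = J ^ (k + 1)`; the units `1 + j`, `j ∈ J ^ k`, form a
commutative group normalised by `H`, so each `j` is a nilpotent scalar, `j = 0`.
(b) An element `x` of `spn M` commuting with `M` is scalar: the units of `End F W` lying in `spn M` with inverse in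
`spn M` and commuting with `M` form a commutative group normalised by `H`; `x - c` is such a unit for `c` not an
eigenvalue (the field is infinite).
(c) `ℬ M₁` is semisimple: its radical `J₁` is nilpotent and the span of `J₁ * M₂` is a nilpotent two sided subspace of
`spn M`; `IsArtinianRing.isSemisimpleRing_iff_jacobson`.  Its centre is scalar by (b).
`IsSemisimpleRing.exists_algEquiv_pi_matrix_of_isAlgClosed` gives a product of matrix algebras; central idempotents are
scalar, so there is exactly one factor; pull back `Matrix.single a b 1`.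
-/

set_option autoImplicit false

open Finset Module
open scoped commutatorElement

namespace Pool.Agent.Work.MP_11a08a_al.Sol

section ring

variable {R : Type} [Ring R] [IsArtinianRing R]

theorem simple_jac {x : R} : x ∈ Ring.jacobson R ↔ ∀ y, IsNilpotent (y * x) := by
  constructor
  · intro hx y
    obtain ⟨n, hn⟩ : IsNilpotent (Ring.jacobson R) := IsSemiprimaryRing.isNilpotent
    refine ⟨n, ?_⟩
    have := Ideal.pow_mem_pow ((Ring.jacobson R).mul_mem_left y hx) n
    rwa [hn] at this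
  · intro h
    rw [← Ideal.jacobson_bot, Ideal.mem_jacobson_iff]
    intro y
    obtain ⟨z, hz⟩ := (h y).isUnit_add_one.exists_left_inv
    exact ⟨z, by rw [Ideal.mem_bot, mul_assoc, ← hz, mul_add, mul_one, sub_self]⟩

theorem simple_bot (h : ∀ x ∈ Ring.jacobson R, (∀ y ∈ Ring.jacobson R, x * y = 0) → x = 0) :
    Ring.jacobson R = ⊥ := by
  obtain ⟨n, hn⟩ : IsNilpotent (Ring.jacobson R) := IsSemiprimaryRing.isNilpotent
  have key : ∀ k, Ring.jacobson R ^ (k + 1) = ⊥ → Ring.jacobson R = ⊥ := by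
    intro k
    induction k with
    | zero => exact fun e => by rwa [zero_add, Submodule.pow_one] at e
    | succ k ih =>
      refine fun e => ih (eq_bot_iff.2 fun x hx => h x (Ideal.pow_le_self k.succ_ne_zero hx)
        fun y hy => ?_)
      have := Ideal.mul_mem_mul hx hy
      rwa [← Submodule.pow_succ, e] at this
  refine key n ?_
  rw [Submodule.pow_succ, hn]
  exact Submodule.bot_mul _

end ring

variable {F W : Type} [Field F] [AddCommGroup W] [Module F W] {H M : Subgroup (End F W)ˣ}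

theorem simple_mem {u : (End F W)ˣ} (hu : u ∈ M) : (u : End F W) ∈ spn M :=
  Submodule.subset_span ⟨u, hu, rfl⟩

theorem simple_ind {p : End F W → Prop} (h1 : ∀ u ∈ M, p (u : End F W)) (h0 : p 0)
    (ha : ∀ x y, p x → p y → p (x + y)) (hs : ∀ (c : F) x, p x → p (c • x)) {x : End F W}
    (hx : x ∈ spn M) : p x :=
  Submodule.span_induction (p := fun x _ => p x) (by rintro _ ⟨u, hu, rfl⟩; exact h1 u hu) h0
    (fun x y _ _ => ha x y) (fun c x _ => hs c x) hx

theorem simple_mul {x y : End F W} (hx : x ∈ spn M) (hy : y ∈ spn M) : x * y ∈ spn M := by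
  refine simple_ind (p := fun x => x * y ∈ spn M) (fun u hu => ?_) (by simp)
    (fun a b ha hb => by rw [add_mul]; exact add_mem ha hb)
    (fun c a ha => by rw [smul_mul_assoc]; exact Submodule.smul_mem _ c ha) hx
  exact simple_ind (p := fun y => (u : End F W) * y ∈ spn M)
    (fun v hv => simple_mem (M.mul_mem hu hv)) (by simp)
    (fun a b ha hb => by rw [mul_add]; exact add_mem ha hb)
    (fun c a ha => by rw [mul_smul_comm]; exact Submodule.smul_mem _ c ha) hy

variable (M) in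
/-- the span as a subalgebra -/
def simple_alg : Subalgebra F (End F W) :=
  (spn M).toSubalgebra (simple_mem M.one_mem) fun _ _ => simple_mul

theorem simple_cm {Y x : End F W} (hY : Cm M Y) (hx : x ∈ spn M) : x * Y = Y * x :=
  simple_ind (p := fun x => x * Y = Y * x) hY (by simp)
    (fun a b ha hb => by rw [add_mul, mul_add, ha, hb])
    (fun c a ha => by rw [smul_mul_assoc, mul_smul_comm, ha]) hx

theorem simple_conj {h : (End F W)ˣ} (hh : Nm h M) {x : End F W} (hx : x ∈ spn M) :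
    h * x * (h⁻¹ : (End F W)ˣ) ∈ spn M :=
  simple_ind (p := fun x : End F W => h * x * (h⁻¹ : (End F W)ˣ) ∈ spn M)
    (fun u hu => simple_mem ((Subgroup.mem_normalizer_iff.1 hh u).1 hu)) (by simp)
    (fun a b ha hb => by rw [mul_add, add_mul]; exact add_mem ha hb)
    (fun c a ha => by rw [mul_smul_comm, smul_mul_assoc]; exact Submodule.smul_mem _ c ha) hx

theorem simple_nm {U : Subgroup (End F W)ˣ} (hU : ∀ h ∈ H, ∀ u ∈ U, h * u * h⁻¹ ∈ U) :
    ∀ h ∈ H, Nm h U := fun h hh => Subgroup.mem_normalizer_iff.2 fun u => ⟨hU h hh u, fun hu => by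
  simpa [mul_assoc] using hU _ (H.inv_mem hh) _ hu⟩

/-- an invariant additive group of endomorphisms with vanishing products is zero -/
theorem simple_sq (hH : Prim H) {K : End F W → Prop} (h0 : K 0)
    (ha : ∀ x y, K x → K y → K (x + y)) (hn : ∀ x, K x → K (-x))
    (hm : ∀ x y, K x → K y → x * y = 0)
    (hc : ∀ h ∈ H, ∀ x, K x → K (h * x * (h⁻¹ : (End F W)ˣ))) {x : End F W} (hx : K x) :
    x = 0 := by
  let U : Subgroup (End F W)ˣ :=
    { carrier := {u | K (u - 1)}
      one_mem' := by simpa using h0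
      mul_mem' := fun {a b} h1 h2 => by
        have e : ((a * b : (End F W)ˣ) : End F W) - 1 = (a - 1) + (b - 1) := by
          rw [Units.val_mul]
          linear_combination (norm := noncomm_ring) hm _ _ h1 h2
        exact Set.mem_ofPred_eq ▸ e ▸ ha _ _ h1 h2
      inv_mem' := fun {a} h1 => by
        have e : ((a⁻¹ : (End F W)ˣ) : End F W) = -(a - 1) + 1 :=
          Units.inv_eq_of_mul_eq_one_right (by
            linear_combination (norm := noncomm_ring) -hm _ _ h1 h1)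
        rw [Set.mem_ofPred_eq, e, add_sub_cancel_right]
        exact hn _ h1 }
  have hU := hH U (fun a h1 b h2 => Units.ext (by
      rw [Units.val_mul, Units.val_mul]
      linear_combination (norm := noncomm_ring) hm _ _ h1 h2 - hm _ _ h2 h1))
    (simple_nm fun h hh u hu => by
      have := hc h hh _ hu
      rw [mul_sub, sub_mul, mul_one, Units.mul_inv] at this
      exact this)
  have hxx := hm x x hx hx
  let u : (End F W)ˣ := ⟨x + 1, -x + 1,
    by linear_combination (norm := noncomm_ring) -hxx,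
    by linear_combination (norm := noncomm_ring) -hxx⟩
  obtain ⟨c, -, hc⟩ := hU (x := u) (show K (x + 1 - 1) by rwa [add_sub_cancel_right])
  have e : x = (c - 1) • (1 : End F W) := by
    rw [sub_smul, one_smul, ← hc]
    exact (add_sub_cancel_right x 1).symm
  rw [e, smul_mul_smul_comm, mul_one, smul_eq_zero, mul_self_eq_zero] at hxx
  rw [e]
  exact smul_eq_zero.2 hxx

variable [FiniteDimensional F W]

theorem simple_rad {x : simple_alg M} :
    x ∈ Ring.jacobson (simple_alg M) ↔ ∀ y ∈ spn M, IsNilpotent (y * (x : End F W)) := by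
  have := IsArtinianRing.of_finite F (simple_alg M)
  rw [simple_jac]
  exact ⟨fun h y hy => (h ⟨y, hy⟩).map (simple_alg M).val, fun h y =>
    (IsNilpotent.map_iff (f := (simple_alg M).val) Subtype.val_injective).1 (h y y.2)⟩

/-- the span of a normalised group has no absolute zero divisors -/
theorem simple_sp (hH : Prim H) (hM : ∀ h ∈ H, Nm h M) {x : End F W} (hx : x ∈ spn M)
    (h : ∀ y ∈ spn M, x * y * x = 0) : x = 0 := by
  have := IsArtinianRing.of_finite F (simple_alg M)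
  let J : End F W → Prop := fun x => ∃ hx : x ∈ simple_alg M, ⟨x, hx⟩ ∈ Ring.jacobson (simple_alg M)
  have hJ : ∀ h ∈ H, ∀ x, J x → J (h * x * (h⁻¹ : (End F W)ˣ)) := fun h hh x ⟨h1, h2⟩ => by
    refine ⟨simple_conj (hM h hh) h1, simple_rad.2 fun y hy => ?_⟩
    obtain ⟨n, hn⟩ := simple_rad.1 h2 _ (simple_conj (hM _ (H.inv_mem hh)) hy)
    refine ⟨n, ?_⟩
    have e := h.conj_pow (((h⁻¹ : (End F W)ˣ) : End F W) * y * (h⁻¹⁻¹ : (End F W)ˣ) * x) n
    rw [hn, mul_zero, zero_mul] at e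
    simpa [mul_assoc] using e
  have hb : Ring.jacobson (simple_alg M) = ⊥ := simple_bot fun z hz h1 => Subtype.ext <|
    simple_sq hH (K := fun x => J x ∧ ∀ y, J y → x * y = 0)
      ⟨⟨zero_mem _, zero_mem _⟩, fun y _ => zero_mul y⟩
      (fun a b ⟨⟨a1, a2⟩, a3⟩ ⟨⟨b1, b2⟩, b3⟩ => ⟨⟨add_mem a1 b1, add_mem a2 b2⟩, fun y hy => by
        rw [add_mul, a3 y hy, b3 y hy, add_zero]⟩)
      (fun a ⟨⟨a1, a2⟩, a3⟩ => ⟨⟨neg_mem a1, neg_mem a2⟩, fun y hy => by
        rw [neg_mul, a3 y hy, neg_zero]⟩)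
      (fun a b ha hb => ha.2 b hb.1)
      (fun h hh a ha => ⟨hJ h hh a ha.1, fun y hy => by
        have e := ha.2 _ (hJ _ (H.inv_mem hh) y hy)
        have e2 := congrArg (fun t => (h : End F W) * t * (h⁻¹ : (End F W)ˣ)) e
        simpa [mul_assoc] using e2⟩)
      ⟨⟨z.2, hz⟩, fun y ⟨y1, y2⟩ => congrArg Subtype.val (h1 _ y2)⟩
  have h2 : (⟨x, hx⟩ : simple_alg M) ∈ Ring.jacobson (simple_alg M) :=
    simple_rad.2 fun y hy => ⟨2, by
      rw [sq, mul_assoc, ← mul_assoc x, h y hy, mul_zero]⟩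
  rw [hb] at h2
  exact congrArg Subtype.val (Ideal.mem_bot.1 h2)

/-- central elements of the span of a normalised group are scalars -/
theorem simple_cen [Infinite F] (hH : Prim H) (hM : ∀ h ∈ H, Nm h M) {x : End F W}
    (hx : x ∈ spn M) (h : Cm M x) : ∃ c : F, x = c • (1 : End F W) := by
  have hC : ∀ h ∈ H, ∀ Y, Cm M Y → Cm M (h * Y * (h⁻¹ : (End F W)ˣ)) := fun h hh Y hY u hu => by
    have e := hY _ ((Subgroup.mem_normalizer_iff''.1 (hM h hh) u).1 hu)
    have e2 := congrArg (fun t => (h : End F W) * t * (h⁻¹ : (End F W)ˣ)) e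
    simpa [mul_assoc] using e2
  let U : Subgroup (End F W)ˣ :=
    { carrier := {u | Cm M u ∧ ∀ Y, Cm M Y → Commute (u : End F W) Y}
      one_mem' := ⟨fun u _ => Commute.one_right _, fun Y _ => Commute.one_left Y⟩
      mul_mem' := fun {a b} h1 h2 => ⟨fun u hu => Commute.mul_right (h1.1 u hu) (h2.1 u hu),
        fun Y hY => (h1.2 Y hY).mul_left (h2.2 Y hY)⟩
      inv_mem' := fun {a} h1 => ⟨fun u hu => Commute.units_inv_right (h1.1 u hu),
        fun Y hY => (h1.2 Y hY).units_inv_left⟩ }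
  have hU := hH U (fun a h1 b h2 => Units.ext (h1.2 _ h2.1))
    (simple_nm fun h hh u hu => ⟨hC h hh _ hu.1, fun Y hY => by
      have e := (hu.2 _ (hC _ (H.inv_mem hh) Y hY)).eq
      have e2 := congrArg (fun t => (h : End F W) * t * (h⁻¹ : (End F W)ˣ)) e
      simpa [mul_assoc, Commute, SemiconjBy] using e2⟩)
  obtain ⟨c, hc⟩ := (End.finite_spectrum x).exists_notMem
  obtain ⟨u, hu⟩ := spectrum.notMem_iff.1 hc
  obtain ⟨d, -, hd⟩ := hU (x := u) ⟨fun v hv => by
      rw [hu]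
      exact Commute.sub_right (Algebra.commutes c _).symm (h v hv), fun Y hY => by
      rw [hu]
      exact Commute.sub_left (Algebra.commutes c _) (simple_cm hY hx)⟩
  exact ⟨c - d, by rw [sub_smul, ← hd, hu, Algebra.algebraMap_eq_smul_one, sub_sub_cancel]⟩

omit [FiniteDimensional F W] in
theorem simple_mu {n : ℕ} [NeZero n] (e : Matrix (Fin n) (Fin n) F ≃ₐ[F] simple_alg M) :
    MU M := by
  obtain ⟨m, rfl⟩ := Nat.exists_eq_succ_of_ne_zero (NeZero.ne n)
  let f := (simple_alg M).val.comp (e : Matrix (Fin (m + 1)) (Fin (m + 1)) F →ₐ[F] simple_alg M)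
  refine ⟨m, fun a b => f (Matrix.single a b 1), fun a b => (e _).2, fun a b c d => ?_, ?_,
    fun x hx => ?_⟩
  · rw [← map_mul]
    split_ifs with h
    · rw [h, Matrix.single_mul_single_same, mul_one]
    · rw [Matrix.single_mul_single_of_ne _ _ _ _ h, map_zero]
  · rw [← map_sum, Matrix.sum_single_one, map_one]
  · obtain ⟨z, hz⟩ := e.surjective ⟨x, hx⟩
    have : x = f z := (congrArg Subtype.val hz).symm
    rw [this, Matrix.matrix_eq_sum_single z, map_sum]
    refine sum_mem fun a _ => ?_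
    rw [map_sum]
    refine sum_mem fun b _ => ?_
    rw [← mul_one (z a b), ← smul_eq_mul, ← Matrix.smul_single, map_smul]
    exact Submodule.smul_mem _ _ (Submodule.subset_span ⟨(a, b), rfl⟩)

theorem simple : StmtSimple := by
  intro F W _ _ _ _ _ _ H M₁ M₂ hH hM hc
  have := IsArtinianRing.of_finite F (simple_alg M₁)
  have h1 : ∀ u ∈ M₁ ⊔ M₂, ∃ a ∈ M₁, ∃ b ∈ M₂, a * b = u := fun u hu => by
    rwa [← SetLike.mem_coe, Subgroup.coe_mul_of_left_le_normalizer_right _ _ fun a ha =>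
      Subgroup.centralizer_le_normalizer _ fun b hb => (hc a ha b hb).symm] at hu
  have h2 : spn M₁ ≤ spn (M₁ ⊔ M₂) :=
    Submodule.span_mono (Set.image_mono (SetLike.coe_subset_coe.2 le_sup_left))
  have h3 : ∀ x ∈ spn M₁, ∀ b ∈ M₂, x * (b : End F W) = b * x := fun x hx b hb =>
    simple_cm (fun a ha => congrArg Units.val (hc a ha b hb)) hx
  have : IsSemisimpleRing (simple_alg M₁) := by
    refine IsArtinianRing.isSemisimpleRing_iff_jacobson.2 (simple_bot fun x hx h => Subtype.ext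
      (simple_sp hH hM (h2 x.2) fun y hy => ?_))
    refine simple_ind (p := fun y : End F W => x * y * x = 0) (fun u hu => ?_) (by simp)
      (fun a b ha hb => by rw [mul_add, add_mul, ha, hb, add_zero])
      (fun c a ha => by rw [mul_smul_comm, smul_mul_assoc, ha, smul_zero]) hy
    obtain ⟨a, ha, b, hb, rfl⟩ := h1 u hu
    have e : (x : End F W) * (a * x) = 0 :=
      congrArg Subtype.val (h _ (Ideal.mul_mem_left _ ⟨a, simple_mem ha⟩ hx))
    rw [Units.val_mul, mul_assoc, mul_assoc, ← h3 _ x.2 b hb, ← mul_assoc (a : End F W),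
      ← mul_assoc, e, zero_mul]
  obtain ⟨n, d, hd, ⟨e⟩⟩ :=
    IsSemisimpleRing.exists_algEquiv_pi_matrix_of_isAlgClosed F (simple_alg M₁)
  obtain ⟨i⟩ : Nonempty (Fin n) := by
    by_contra hn
    rw [not_nonempty_iff] at hn
    exact one_ne_zero (e.injective (Subsingleton.elim _ _))
  have h4 : ∀ z, Commute z (Pi.single i 1 : Π i, Matrix (Fin (d i)) (Fin (d i)) F) := fun z =>
    funext fun j => by
      by_cases hj : j = i
      · subst hj
        simp
      · simp [Pi.single_eq_of_ne hj]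
  obtain ⟨c, hc'⟩ := simple_cen hH hM (h2 (e.symm (Pi.single i 1)).2) fun u hu => by
    obtain ⟨a, ha, b, hb, rfl⟩ := h1 u hu
    have e1 := congrArg Subtype.val ((h4 (e ⟨a, simple_mem ha⟩)).map e.symm).eq
    rw [e.symm_apply_apply] at e1
    exact Commute.mul_left e1 (h3 _ (e.symm _).2 b hb).symm
  have h5 : (Pi.single i 1 : Π i, Matrix (Fin (d i)) (Fin (d i)) F) = c • 1 := by
    have : e.symm (Pi.single i 1) = c • 1 := Subtype.ext hc'
    rw [← e.apply_symm_apply (Pi.single i 1), this, map_smul, map_one]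
  have h6 : c = 1 := by
    have := congrFun (congrFun (congrFun h5 i) 0) 0
    simpa using this.symm
  rw [h6, one_smul] at h5
  refine simple_mu (n := d i) ((AlgEquiv.ofBijective
    (Pi.evalAlgHom F (fun i => Matrix (Fin (d i)) (Fin (d i)) F) i)
    ⟨(injective_iff_map_eq_zero _).2 fun z hz => ?_, Function.surjective_eval i⟩).symm.trans e.symm)
  rw [← mul_one z, ← h5, ← Pi.single_mul_right, show z i = 0 from hz, zero_mul, Pi.single_zero]

end Pool.Agent.Work.MP_11a08a_al.Sol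
end

-- merged part: Pool.Agent.Work.MP_11a08a_al.Sol.Rank
section
/-!
Prove for all `n` the statement for `card P ≤ n` (constant `K n ≥ 1`), by induction on `n`, and inside by strong induction on
`Zs.relIndex S`.  `rk` is unchanged by multiplication with units.  Take `E, C` from `hSt`.  If `E ≤ Zs` and `C = ∅` then
`S ≤ Zs` by `self`, the sum is a nonzero scalar.  Otherwise `M = E` (`MU` by `hSi` with `M₂ = ⊥`) or `M = C.sup id` (`mu`,
`hJ`), and `S'` from `hN`; `s l = A l * x l`.  Let `Y` be the sum.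
Case 1: for every `l ∈ P`, `Cm M ((s l)⁻¹ * Y)`.  Fix `l₀`; `X l = (A l)⁻¹ * Y = x l * ((s l)⁻¹ Y)` is nonzero and commutes with
`M`; `((A l₀)⁻¹ A l) * X l = X l₀`, so `(A l₀)⁻¹ A l = c l • 1` by part (v) of `hM`; `Y = A l₀ * ∑ (α l c l) • x l`; inner
induction hypothesis for `S'`.
Case 2: some `l₀` and `y ∈ M` (for `M = C.sup id` some `y ∈ L ∈ C`, since the `y` with `tw (s l₀) y Y = Y` form a subgroup)
have `Y' = tw (s l₀) y Y - Y ≠ 0`; `Y' = ∑ l ∈ P.erase l₀, α l • (tw (s l₀) y (s l) - s l)`, the terms are `Wt 2` (both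
`s l` and `d * s l`, `d ∈ E`, are `Eig E (s l)`) or `Loc 2` (`hJ`).  `U = span {u * s l | u ∈ M, l ∈ P.erase l₀}` is `Bim M`.
Get `r` and `X' ≠ 0` with `Cm M X'`, `X' ∈ span {u * (s r)⁻¹ * s l}`, `rk X' ≤ K₁ rk Y`: for `E` by `hP1`, then
`(s r)⁻¹ X` is an eigenvector of conjugation with a character `χ` of `E` trivial on `Zs`, and `hDu` gives `e₁` with
`e₁ * (s r)⁻¹ X` or `e₁⁻¹ * (s r)⁻¹ X` commuting with `E`; for `C` by `hL`, then `(s r)⁻¹ X` commutes with all `L ∉ S₀`,
`card S₀ ≤ 2 + 2 q`, apply part (ii) of `hM` to `S₀.sup id` (`finrank ≤ d ^ card S₀ ≤ (d + 1) ^ (2 + 2 q)`).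
Write `(s r)⁻¹ * s l = A' l * x' l` by `hN`; `θ` of part (i) sends the span into the span of the `x' l`, and fixes `X'`; so
`X' = ∑ l ∈ P.erase l₀, c l • x' l`; outer induction hypothesis for `S'`.
-/

set_option autoImplicit false

open Finset Module
open scoped commutatorElement

namespace Pool.Agent.Work.MP_11a08a_al.Sol

section aux

variable {F W : Type} [Field F] [AddCommGroup W] [Module F W] {M : Subgroup (End F W)ˣ}

/-- The units that commute with an endomorphism. -/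
def rank_cen (Z : End F W) : Subgroup (End F W)ˣ where
  carrier := {u | Commute (u : End F W) Z}
  one_mem' := Commute.one_left Z
  mul_mem' := fun ha hb => Commute.mul_left ha hb
  inv_mem' := fun ha => Commute.units_inv_left ha

theorem rank_cm_sup {C : Finset (Subgroup (End F W)ˣ)} {Z : End F W}
    (h : ∀ L ∈ C, ∀ y ∈ L, (y : End F W) * Z = Z * y) : Cm (C.sup id) Z :=
  fun _ hu => (Finset.sup_le_iff (a := rank_cen Z)).2 h hu

theorem rank_nm {t u : (End F W)ˣ} (h : Nm t M) (hu : u ∈ M) : t * u * t⁻¹ ∈ M :=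
  (Subgroup.mem_normalizer_iff.1 h u).1 hu

theorem rank_nm' {t u : (End F W)ˣ} (h : Nm t M) (hu : u ∈ M) : t⁻¹ * u * t ∈ M :=
  (Subgroup.mem_normalizer_iff''.1 h u).1 hu

theorem rank_zs {z : (End F W)ˣ} (hz : z ∈ Zs F W) (Y : End F W) : (z : End F W) * Y = Y * z := by
  obtain ⟨c, -, h⟩ := hz
  simp [h]

theorem rank_spn_mul {a b : End F W} (ha : a ∈ spn M) (hb : b ∈ spn M) : a * b ∈ spn M := by
  induction ha using Submodule.span_induction with
  | mem x hx =>
    obtain ⟨u, hu, rfl⟩ := hx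
    induction hb using Submodule.span_induction with
    | mem y hy =>
      obtain ⟨v, hv, rfl⟩ := hy
      exact Submodule.subset_span ⟨u * v, M.mul_mem hu hv, rfl⟩
    | zero => simp
    | add y z _ _ h1 h2 => rw [mul_add]; exact add_mem h1 h2
    | smul c y _ h1 => rw [mul_smul_comm]; exact Submodule.smul_mem _ c h1
  | zero => simp
  | add y z _ _ h1 h2 => rw [add_mul]; exact add_mem h1 h2
  | smul c y _ h1 => rw [smul_mul_assoc]; exact Submodule.smul_mem _ c h1

theorem rank_ne (u : (End F W)ˣ) {Y : End F W} (h : Y ≠ 0) : (u : End F W) * Y ≠ 0 :=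
  fun h0 => h (by simpa using h0)

theorem rank_tw_smul (s e : (End F W)ˣ) (c : F) (Y : End F W) : tw s e (c • Y) = c • tw s e Y := by
  simp [tw]

theorem rank_tw_sum {ι : Type} (s e : (End F W)ˣ) (P : Finset ι) (Y : ι → End F W) :
    tw s e (∑ l ∈ P, Y l) = ∑ l ∈ P, tw s e (Y l) := by
  simp only [tw, Finset.mul_sum, Finset.sum_mul]

theorem rank_tw_unit (s e t : (End F W)ˣ) :
    tw s e (t : End F W) = ((s * e * s⁻¹ * (t * e⁻¹ * t⁻¹) * t : (End F W)ˣ) : End F W) := by
  rw [tw, ← Units.val_mul, ← Units.val_mul]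
  congr 1
  group

theorem rank_tw_self (s e : (End F W)ˣ) : tw s e (s : End F W) = s := by
  rw [rank_tw_unit]
  congr 1
  group

theorem rank_tw_eq {s e : (End F W)ˣ} {X : End F W} {c : F} (h : tw s e X = c • X) :
    (e : End F W) * (↑s⁻¹ * X) = c • (↑s⁻¹ * X * e) := by
  rw [← smul_mul_assoc, ← mul_smul_comm, ← h, tw]
  simp [mul_assoc]

theorem rank_tw_fix {s e : (End F W)ˣ} {X : End F W}
    (h : (e : End F W) * (↑s⁻¹ * X) = ↑s⁻¹ * X * e) : tw s e X = X := by
  rw [tw, Units.val_mul, Units.val_mul, mul_assoc (s : End F W), mul_assoc (s : End F W),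
    mul_assoc (e : End F W), h]
  simp [mul_assoc]

theorem rank_eig {E : Subgroup (End F W)ˣ} (hE : Heis E) {s d : (End F W)ˣ} (hs : Nm s E)
    (hd : d ∈ E) (a : F) : Eig E s (a • ((d * s : (End F W)ˣ) : End F W)) := by
  intro e he
  obtain ⟨c, -, h⟩ := hE.comm _ (rank_nm hs he) d hd
  refine ⟨c, ?_⟩
  have e1 : s * e * s⁻¹ * (d * s) * e⁻¹ = ⁅s * e * s⁻¹, d⁆ * (d * s) := by
    rw [commutatorElement_def]
    group
  rw [rank_tw_smul, tw, ← Units.val_mul, ← Units.val_mul, e1, Units.val_mul, h, smul_mul_assoc,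
    one_mul, smul_comm]

variable {ι : Type} {Q : Finset ι} {t : ι → (End F W)ˣ}

/-- The span of the cosets of `M` with representatives `t l`. -/
def rank_U (M : Subgroup (End F W)ˣ) (Q : Finset ι) (t : ι → (End F W)ˣ) : Submodule F (End F W) :=
  Submodule.span F {Z | ∃ u ∈ M, ∃ l ∈ Q, Z = ((u * t l : (End F W)ˣ) : End F W)}

theorem rank_U_mem {u : (End F W)ˣ} (hu : u ∈ M) {l : ι} (hl : l ∈ Q) :
    ((u * t l : (End F W)ˣ) : End F W) ∈ rank_U M Q t :=
  Submodule.subset_span ⟨u, hu, l, hl, rfl⟩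

theorem rank_U_map {V : Submodule F (End F W)} (φ : End F W →ₗ[F] End F W)
    (h : ∀ u ∈ M, ∀ l ∈ Q, φ ((u * t l : (End F W)ˣ) : End F W) ∈ V) {X : End F W}
    (hX : X ∈ rank_U M Q t) : φ X ∈ V := by
  refine (Submodule.span_le (p := V.comap φ)).2 ?_ hX
  rintro _ ⟨u, hu, l, hl, rfl⟩
  exact h u hu l hl

theorem rank_bim (h : ∀ l ∈ Q, Nm (t l) M) : Bim M (rank_U M Q t) := by
  intro v hv Y hY
  refine ⟨rank_U_map (LinearMap.mulLeft F (v : End F W)) (fun u hu l hl => ?_) hY,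
    rank_U_map (LinearMap.mulRight F (v : End F W)) (fun u hu l hl => ?_) hY⟩
  · rw [LinearMap.mulLeft_apply, ← Units.val_mul, ← mul_assoc]
    exact rank_U_mem (M.mul_mem hv hu) hl
  · rw [LinearMap.mulRight_apply, ← Units.val_mul,
      show u * t l * v = u * (t l * v * (t l)⁻¹) * t l by group]
    exact rank_U_mem (M.mul_mem hu (rank_nm (h l hl) hv)) hl

theorem rank_shift {a : (End F W)ˣ} (ha : Nm a M) {X : End F W} (hX : X ∈ rank_U M Q t) :
    ↑a⁻¹ * X ∈ rank_U M Q fun l => a⁻¹ * t l := by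
  refine rank_U_map (LinearMap.mulLeft F (↑a⁻¹ : End F W)) (fun u hu l hl => ?_) hX
  rw [LinearMap.mulLeft_apply, ← Units.val_mul,
    show a⁻¹ * (u * t l) = a⁻¹ * u * a * (a⁻¹ * t l) by group]
  exact rank_U_mem (t := fun l => a⁻¹ * t l) (rank_nm' ha hu) hl

theorem rank_theta {θ : End F W →ₗ[F] End F W} (h1 : ∀ X, Cm M X → θ X = X)
    (h2 : ∀ B ∈ spn M, ∃ c : F, ∀ x, Cm M x → θ (B * x) = c • x) {A x : ι → (End F W)ˣ}
    (h : ∀ l ∈ Q, (A l : End F W) ∈ spn M ∧ Cm M (x l : End F W) ∧ t l = A l * x l)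
    {X : End F W} (hX : X ∈ rank_U M Q t) (hc : Cm M X) :
    ∃ c : ι → F, ∑ l ∈ Q, c l • (x l : End F W) = X := by
  rw [← Submodule.mem_span_image_finset_iff_exists_fun', ← h1 X hc]
  refine rank_U_map θ (fun u hu l hl => ?_) hX
  obtain ⟨a1, a2, a3⟩ := h l hl
  obtain ⟨c, hc⟩ := h2 _ (rank_spn_mul (Submodule.subset_span ⟨u, hu, rfl⟩) a1)
  rw [a3, ← mul_assoc, Units.val_mul, Units.val_mul, hc _ a2]
  exact Submodule.smul_mem _ c (Submodule.subset_span ⟨l, hl, rfl⟩)

theorem rank_diff [DecidableEq ι] {P : Finset ι} {l₀ : ι} (h : l₀ ∈ P) (α : ι → F)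
    (y : (End F W)ˣ) :
    ∑ l ∈ P.erase l₀, (tw (t l₀) y (α l • (t l : End F W)) - α l • (t l : End F W)) =
      tw (t l₀) y (∑ l ∈ P, α l • (t l : End F W)) - ∑ l ∈ P, α l • (t l : End F W) := by
  rw [rank_tw_sum, ← Finset.sum_sub_distrib, ← Finset.add_sum_erase P _ h, rank_tw_smul,
    rank_tw_self, sub_self, zero_add]

theorem rank_diff_mem {a y : (End F W)ˣ} (ha : Nm a M) (hy : y ∈ M) (h : ∀ l ∈ Q, Nm (t l) M)
    (α : ι → F) :
    ∑ l ∈ Q, (tw a y (α l • (t l : End F W)) - α l • (t l : End F W)) ∈ rank_U M Q t := by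
  refine Submodule.sum_mem _ fun l hl => Submodule.sub_mem _ ?_ (Submodule.smul_mem _ _ ?_)
  · rw [rank_tw_smul, rank_tw_unit]
    exact Submodule.smul_mem _ _
      (rank_U_mem (M.mul_mem (rank_nm ha hy) (rank_nm (h l hl) (M.inv_mem hy))) hl)
  · simpa using rank_U_mem (t := t) M.one_mem hl

variable [FiniteDimensional F W]

theorem rank_left (a Y : End F W) : rk (a * Y) ≤ rk Y := by
  rw [rk, Module.End.mul_eq_comp, LinearMap.range_comp]
  exact Submodule.finrank_map_le _ _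

theorem rank_right (Y a : End F W) : rk (Y * a) ≤ rk Y :=
  Submodule.finrank_mono (LinearMap.range_comp_le_range a Y)

theorem rank_tw_sub (s e : (End F W)ˣ) (Y : End F W) : rk (tw s e Y - Y) ≤ 2 * rk Y := by
  have h1 : LinearMap.range (tw s e Y - Y) ≤ LinearMap.range (tw s e Y) ⊔ LinearMap.range Y := by
    rintro _ ⟨w, rfl⟩
    exact Submodule.sub_mem _ (Submodule.mem_sup_left ⟨w, rfl⟩) (Submodule.mem_sup_right ⟨w, rfl⟩)
  have h2 := (Submodule.finrank_mono h1).trans (Submodule.finrank_add_le_finrank_add_finrank _ _)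
  have h3 : rk (tw s e Y) ≤ rk Y := (rank_right _ _).trans (rank_left _ _)
  unfold rk at *
  omega

omit [FiniteDimensional F W] in
theorem rank_scalar {c : F} (hc : c ≠ 0) : finrank F W ≤ rk (c • (1 : End F W)) := by
  have h : LinearMap.range (c • (1 : End F W)) = ⊤ :=
    LinearMap.range_eq_top.2 fun w => ⟨c⁻¹ • w, by simp [smul_smul, inv_mul_cancel₀ hc]⟩
  rw [rk, h, finrank_top]

end aux

/-- The outcome of the reduction step. -/
def rank_Red {F W : Type} [Field F] [AddCommGroup W] [Module F W] {q : ℕ} (K : ℕ)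
    (M : Subgroup (End F W)ˣ) (P : Finset (Fin q)) (α : Fin q → F) (s : Fin q → (End F W)ˣ) : Prop :=
  ∀ l₀ ∈ P, ¬ Cm M (↑(s l₀)⁻¹ * ∑ l ∈ P, α l • (s l : End F W)) → ∃ r ∈ P, ∃ X : End F W,
    X ≠ 0 ∧ Cm M X ∧ rk X ≤ K * rk (∑ l ∈ P, α l • (s l : End F W)) ∧
      X ∈ rank_U M (P.erase l₀) fun l => (s r)⁻¹ * s l

theorem rank_heis (hP1 : StmtPet1) (hDu : StmtDual) (q : ℕ) : ∃ K : ℕ,
    ∀ (F W : Type) [Field F] [AddCommGroup W] [Module F W] [FiniteDimensional F W] [Nontrivial W]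
      (E : Subgroup (End F W)ˣ), Heis E → ∀ (P : Finset (Fin q)) (α : Fin q → F)
      (s : Fin q → (End F W)ˣ), (∀ l ∈ P, Nm (s l) E) → rank_Red K E P α s := by
  obtain ⟨K, hK⟩ := hP1 q 2
  refine ⟨K * 2, fun F W _ _ _ _ _ E hE P α s hs l₀ hl₀ hn => ?_⟩
  obtain ⟨y, hy, hne⟩ : ∃ y ∈ E, tw (s l₀) y (∑ l ∈ P, α l • (s l : End F W)) -
      ∑ l ∈ P, α l • (s l : End F W) ≠ 0 := by
    by_contra hc
    push Not at hc
    refine hn fun y hy => ?_
    have := rank_tw_eq (c := 1) ((sub_eq_zero.1 (hc y hy)).trans (one_smul F _).symm)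
    rwa [one_smul] at this
  have hs' : ∀ l ∈ P.erase l₀, Nm (s l) E := fun l hl => hs l (mem_of_mem_erase hl)
  obtain ⟨X, hX, ⟨r, hr, he⟩, hrk, hU⟩ := hK F W E hE (P.erase l₀) s
    (fun l => tw (s l₀) y (α l • (s l : End F W)) - α l • (s l : End F W))
    (fun l hl => ⟨hs' l hl, ![_, _], Fin.forall_fin_two.2
      ⟨rank_eig hE (hs' l hl) (E.mul_mem (rank_nm (hs l₀ hl₀) hy)
        (rank_nm (hs' l hl) (E.inv_mem hy))) (α l), rank_eig hE (hs' l hl) E.one_mem (-α l)⟩, by
          rw [rank_tw_smul, rank_tw_unit, Fin.sum_univ_two]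
          simp [sub_eq_add_neg]⟩)
    (by rwa [rank_diff hl₀])
  have h1 := rank_shift (hs' r hr) (hU _ (rank_bim hs') (rank_diff_mem (hs l₀ hl₀) hy hs' α))
  have h2 : rk (↑(s r)⁻¹ * X : End F W) ≤ K * 2 * rk (∑ l ∈ P, α l • (s l : End F W)) := by
    rw [rank_diff hl₀] at hrk
    rw [mul_assoc]
    exact (rank_left _ _).trans (hrk.trans (Nat.mul_le_mul_left _ (rank_tw_sub _ _ _)))
  have h3 : ∀ e ∈ E, ∃ c : F, (e : End F W) * (↑(s r)⁻¹ * X) = c • (↑(s r)⁻¹ * X * e) :=
    fun e h => (he e h).imp fun _ => rank_tw_eq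
  have h4 := rank_ne (s r)⁻¹ hX
  generalize (↑(s r)⁻¹ * X : End F W) = Z at h1 h2 h3 h4
  choose! χ hχ using h3
  have h5 : ∀ e : (End F W)ˣ, Z * e ≠ 0 := fun e h0 => h4 (by simpa using h0)
  obtain ⟨e₁, h6, h7⟩ := (hDu F W E hE).2.1 χ
    (fun e h e' h' => smul_left_injective F (h5 (e * e')) (by
      simp only
      rw [← hχ _ (E.mul_mem h h'), Units.val_mul, mul_assoc, hχ _ h', mul_smul_comm, ← mul_assoc,
        hχ _ h, smul_mul_assoc, smul_smul, mul_comm, mul_assoc]))
    fun z hz => smul_left_injective F (h5 z) (by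
      simp only
      rw [← hχ _ (hE.le hz), one_smul, rank_zs hz])
  refine ⟨r, mem_of_mem_erase hr, e₁ * Z, rank_ne e₁ h4, fun e h => ?_, (rank_left _ _).trans h2,
    (rank_bim (fun l hl => ?_) e₁ h6 Z h1).1⟩
  · have h8 : χ e ≠ 0 := fun h0 => rank_ne e h4 (by rw [hχ e h, h0, zero_smul])
    have h9 : (e₁ : End F W) * e = χ e • ((e : End F W) * e₁) := by
      rw [← Units.val_mul, ← Units.val_mul, show e₁ * e = ⁅e₁, e⁆ * (e * e₁) by
        rw [commutatorElement_def]; group, Units.val_mul, h7 e h, smul_mul_assoc, one_mul]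
    refine smul_right_injective _ h8 ?_
    simp only
    rw [← mul_assoc, ← smul_mul_assoc, ← h9, mul_assoc, hχ e h, mul_smul_comm, mul_assoc]
  · exact Subgroup.mul_mem _ (Subgroup.inv_mem _ (hs' r hr)) (hs' l hl)

theorem rank_comp (hM : StmtMU) (hJ : StmtJoin) (hL : StmtLoc) (q d : ℕ) : ∃ K : ℕ,
    ∀ (F W : Type) [Field F] [AddCommGroup W] [Module F W] [FiniteDimensional F W] [Nontrivial W]
      (C : Finset (Subgroup (End F W)ˣ)), Comp d C → ∀ (P : Finset (Fin q)) (α : Fin q → F)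
      (s : Fin q → (End F W)ˣ), (∀ l ∈ P, NmC (s l) C) → rank_Red K (C.sup id) P α s := by
  refine ⟨(d + 1) ^ (2 + 2 * q) * (2 ^ q * 2),
    fun F W _ _ _ _ _ C hC P α s hs l₀ hl₀ hn => ?_⟩
  obtain ⟨j1, -, j3, -, j5⟩ := hJ F W d C hC
  obtain ⟨L, hLC, y, hy, hne⟩ : ∃ L ∈ C, ∃ y ∈ L, tw (s l₀) y (∑ l ∈ P, α l • (s l : End F W)) -
      ∑ l ∈ P, α l • (s l : End F W) ≠ 0 := by
    by_contra hc
    push Not at hc
    refine hn (rank_cm_sup fun L hL y hy => ?_)
    have := rank_tw_eq (c := 1) ((sub_eq_zero.1 (hc L hL y hy)).trans (one_smul F _).symm)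
    rwa [one_smul] at this
  have hs' : ∀ l ∈ P.erase l₀, Nm (s l) (C.sup id) := fun l hl =>
    j3 _ (hs l (mem_of_mem_erase hl))
  obtain ⟨X, hX, ⟨r, hr, S₀, hS₀, hc, he⟩, hrk, hU⟩ := (hL q 2 d F W C hC (P.erase l₀) s
    (fun l => tw (s l₀) y (α l • (s l : End F W)) - α l • (s l : End F W))
    fun l hl => ⟨hs l (mem_of_mem_erase hl), j5 0 _ _ _ (hs l₀ hl₀) (hs l (mem_of_mem_erase hl))
      ⟨∅, empty_subset _, le_rfl, fun _ _ _ y _ => by rw [rank_tw_smul, rank_tw_self]⟩
      L hLC y hy⟩).1 (by rwa [rank_diff hl₀])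
  have h1 := rank_shift (hs' r hr) (hU _ (rank_bim hs')
    (rank_diff_mem (j3 _ (hs l₀ hl₀)) (Finset.le_sup (f := id) hLC hy) hs' α))
  have h2 : rk (↑(s r)⁻¹ * X : End F W) ≤ 2 ^ q * 2 * rk (∑ l ∈ P, α l • (s l : End F W)) := by
    rw [rank_diff hl₀] at hrk
    rw [mul_assoc]
    exact (rank_left _ _).trans (hrk.trans (Nat.mul_le_mul_left _ (rank_tw_sub _ _ _)))
  obtain ⟨X', a1, a2, a3, a4, a5⟩ := (hM F W _ (hC.mu S₀ hS₀)).2.1 _ (rank_ne (s r)⁻¹ hX)
  have h3 : finrank F (spn (S₀.sup id)) ≤ (d + 1) ^ (2 + 2 * q) :=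
    (j1 S₀ hS₀).2.2.trans ((Nat.pow_le_pow_left d.le_succ _).trans
      (Nat.pow_le_pow_right d.succ_pos hc))
  refine ⟨r, mem_of_mem_erase hr, X', a1, rank_cm_sup fun L' hL' z hz => ?_, ?_,
    a4 _ (fun u hu => rank_bim (fun l hl => ?_) u (Finset.sup_mono (f := id) hS₀ hu)) h1⟩
  · by_cases h4 : L' ∈ S₀
    · exact a2 z (Finset.le_sup (f := id) h4 hz)
    · refine a5 _ (rank_cm_sup fun L'' h5 x hx => ?_) ?_
      · exact congrArg Units.val (hC.cm L'' (hS₀ h5) L' hL' (fun h => h4 (h ▸ h5)) x hx z hz)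
      · have := rank_tw_eq (c := 1) ((he L' hL' h4 z hz).trans (one_smul F _).symm)
        rwa [one_smul] at this
  · rw [mul_assoc]
    exact a3.trans (Nat.mul_le_mul h3 h2)
  · exact Subgroup.mul_mem _ (Subgroup.inv_mem _ (hs' r hr)) (hs' l hl)

/-- The rank bound for sums with at most `n` terms. -/
def rank_N (q d n K : ℕ) : Prop :=
  ∀ (F W : Type) [Field F] [IsAlgClosed F] [AddCommGroup W] [Module F W]
    [FiniteDimensional F W] [Nontrivial W] (H S : Subgroup (End F W)ˣ), Prim H → Zs F W ≤ S →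
    (Zs F W).relIndex S ≠ 0 → (∀ h ∈ H, Nm h S) → SecZ d S →
    ∀ (P : Finset (Fin q)) (α : Fin q → F) (s : Fin q → (End F W)ˣ), P.card ≤ n →
    (∀ l ∈ P, s l ∈ S) → ∑ l ∈ P, α l • (s l : End F W) ≠ 0 →
    finrank F W ≤ K * rk (∑ l ∈ P, α l • (s l : End F W))

theorem rank_step (hSt : StmtStr) (hSi : StmtSimple) (hM : StmtMU) (hN : StmtNext)
    (hP1 : StmtPet1) (hDu : StmtDual) (hJ : StmtJoin) (hL : StmtLoc) {q d n K : ℕ}
    (ih : rank_N q d n K) : ∃ K', rank_N q d (n + 1) K' := by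
  obtain ⟨K₁, h₁⟩ := rank_heis hP1 hDu q
  obtain ⟨K₂, h₂⟩ := rank_comp hM hJ hL q d
  refine ⟨K * (K₁ + K₂) + 1, fun F W _ _ _ _ _ _ H S hH hZ hfin hHS hsec P α s hP => ?_⟩
  induction hm : (Zs F W).relIndex S using Nat.strong_induction_on generalizing S α s with
  | _ m ihm =>
  intro hs hY
  obtain ⟨E, C, st⟩ := hSt F W d H S hH hZ hfin hHS hsec
  have key : ∀ (M : Subgroup (End F W)ˣ) (K₀ : ℕ), K₀ ≤ K₁ + K₂ →
      (∀ t, t ∈ H ∨ t ∈ S → Nm t M) → M ≤ S → ¬ M ≤ Zs F W → MU M → rank_Red K₀ M P α s →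
      finrank F W ≤ (K * (K₁ + K₂) + 1) * rk (∑ l ∈ P, α l • (s l : End F W)) := by
    intro M K₀ hK₀ m1 m2 m3 m4 m5
    obtain ⟨S', s1, s2, s3, s4, s5, s6⟩ := hN F W d H S M hZ hfin
      (fun h hh => ⟨hHS h hh, m1 h (Or.inl hh)⟩) hsec m2 m3 (fun t ht => m1 t (Or.inr ht)) m4
    choose! A x a1 a2 a3 a4 a5 using s6
    obtain ⟨⟨θ, t1, t2⟩, -, -, -, t5⟩ := hM F W M m4
    by_cases hc : ∀ l ∈ P, Cm M (↑(s l)⁻¹ * ∑ l ∈ P, α l • (s l : End F W))
    · obtain ⟨l₀, hl₀⟩ := Finset.nonempty_of_sum_ne_zero hY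
      have b1 : ∀ l ∈ P, Cm M (↑(A (s l))⁻¹ * ∑ l ∈ P, α l • (s l : End F W)) := fun l hl u hu => by
        have e : (A (s l))⁻¹ = x (s l) * (s l)⁻¹ := by
          rw [eq_mul_inv_iff_mul_eq, inv_mul_eq_iff_eq_mul]
          exact a5 _ (hs l hl)
        rw [e, Units.val_mul, mul_assoc]
        exact Commute.mul_right (a4 _ (hs l hl) u hu) (hc l hl u hu)
      have b2 : ∀ l ∈ P, ∃ c : F, (↑(A (s l₀))⁻¹ * A (s l) : End F W) = c • 1 := fun l hl =>
        t5 _ (rank_spn_mul (a2 _ (hs l₀ hl₀)) (a1 _ (hs l hl))) _ (rank_ne _ hY) (b1 l hl)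
          (by rw [mul_assoc, Units.mul_inv_cancel_left]; exact b1 l₀ hl₀)
      choose! c b2 using b2
      have b3 : ∑ l ∈ P, (α l * c l) • (x (s l) : End F W) =
          ↑(A (s l₀))⁻¹ * ∑ l ∈ P, α l • (s l : End F W) := by
        rw [Finset.mul_sum]
        refine Finset.sum_congr rfl fun l hl => ?_
        conv_rhs => rw [a5 _ (hs l hl)]
        rw [mul_smul_comm, Units.val_mul, ← mul_assoc, b2 l hl, smul_mul_assoc, one_mul, smul_smul]
      have b4 := ihm _ (hm ▸ s3) S' s1 s2 s4 s5 (fun l => α l * c l) (fun l => x (s l)) rfl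
        (fun l hl => a3 _ (hs l hl)) (by rw [b3]; exact rank_ne _ hY)
      rw [b3] at b4
      exact b4.trans (Nat.mul_le_mul_left _ (rank_left _ _))
    · push Not at hc
      obtain ⟨l₀, hl₀, hc⟩ := hc
      obtain ⟨r, hr, X, x1, x2, x3, x4⟩ := m5 l₀ hl₀ hc
      have b1 : ∀ l ∈ P.erase l₀, (s r)⁻¹ * s l ∈ S := fun l hl =>
        S.mul_mem (S.inv_mem (hs r hr)) (hs l (mem_of_mem_erase hl))
      obtain ⟨c, b2⟩ := rank_theta t1 t2 (A := fun l => A ((s r)⁻¹ * s l))
        (x := fun l => x ((s r)⁻¹ * s l))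
        (fun l hl => ⟨a1 _ (b1 l hl), a4 _ (b1 l hl), a5 _ (b1 l hl)⟩) x4 x2
      have b3 := ih F W H S' hH s1 s2 s4 s5 (P.erase l₀) c (fun l => x ((s r)⁻¹ * s l))
        (by rw [card_erase_of_mem hl₀]; omega) (fun l hl => a3 _ (b1 l hl)) (by rwa [b2])
      rw [b2] at b3
      refine b3.trans ((Nat.mul_le_mul_left K (x3.trans (Nat.mul_le_mul_right _ hK₀))).trans ?_)
      rw [← mul_assoc]
      exact Nat.mul_le_mul_right _ (Nat.le_succ _)
  by_cases hE : E ≤ Zs F W
  · rcases C.eq_empty_or_nonempty with hC | ⟨L, hC⟩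
    · have b1 : ∀ l ∈ P, ∃ c : F, (s l : End F W) = c • 1 := fun l hl => by
        obtain ⟨c, -, h⟩ := hE (st.self _ (hs l hl) (fun e he => ⟨he, by
          rw [commutatorElement_eq_one_iff_mul_comm.2 (Units.ext (rank_zs (hE he) _).symm)]
          exact one_mem _⟩) (by simp [supp, hC]))
        exact ⟨c, h⟩
      choose! c b1 using b1
      have b2 : ∑ l ∈ P, α l • (s l : End F W) = (∑ l ∈ P, α l * c l) • 1 := by
        rw [Finset.sum_smul]
        exact Finset.sum_congr rfl fun l hl => by rw [b1 l hl, smul_smul]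
      rw [b2] at hY ⊢
      exact (rank_scalar (left_ne_zero_of_smul hY)).trans (Nat.le_mul_of_pos_left _ (Nat.succ_pos _))
    · exact key _ K₂ (Nat.le_add_left _ _) (fun t ht => (hJ F W d C st.comp).2.2.1 t (st.nC t ht))
        (Finset.sup_le st.cS) (fun h => st.comp.ns L hC ((Finset.le_sup (f := id) hC).trans h))
        (st.comp.mu C Subset.rfl) (h₂ F W C st.comp P α s fun l hl => st.nC _ (Or.inr (hs l hl)))
  · refine key E K₁ (Nat.le_add_right _ _) st.nE st.eS hE
      (hSi F W H E ⊥ hH (fun h hh => ?_) fun x _ y hy => ?_)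
      (h₁ F W E st.heis P α s fun l hl => st.nE _ (Or.inr (hs l hl)))
    · rw [sup_bot_eq]
      exact st.nE h (Or.inl hh)
    · rw [Subgroup.mem_bot.1 hy, mul_one, one_mul]

theorem rank (hSt : StmtStr) (hSi : StmtSimple) (hM : StmtMU) (hN : StmtNext) (hP1 : StmtPet1)
    (hDu : StmtDual) (hJ : StmtJoin) (hL : StmtLoc) : StmtRank := by
  intro q d
  have h : ∀ n, ∃ K, rank_N q d n K := fun n => by
    induction n with
    | zero =>
      refine ⟨0, fun F W _ _ _ _ _ _ H S _ _ _ _ _ P α s hP _ hY => absurd ?_ hY⟩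
      rw [card_eq_zero.1 (Nat.le_zero.1 hP), sum_empty]
    | succ n ih =>
      obtain ⟨K, hK⟩ := ih
      exact rank_step hSt hSi hM hN hP1 hDu hJ hL hK
  obtain ⟨K, hK⟩ := h q
  exact ⟨K, fun F W _ _ _ _ _ _ H S h1 h2 h3 h4 h5 P α s =>
    hK F W H S h1 h2 h3 h4 h5 P α s (by simpa using card_le_univ P)⟩

end Pool.Agent.Work.MP_11a08a_al.Sol
end
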