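import Pool.Agent.Work.MP_11a08a_al.Sol.RB
import Pool.Agent.Work.MP_11a08a_al.Sol.Change
import Pool.Agent.Work.MP_11a08a_al.Local
import Pool.Agent.Work.MP_11a08a_al.Sol.Nilp
import Pool.Agent.Work.MP_11a08a_al.Sol.Rank
import Pool.Agent.Work.MP_11a08a_al.Sol.Ideal

-- merged part: Pool.Agent.Work.MP_11a08a_al.Sol.Join
section
/-!
General facts: `finrank (spn M) ≤ Zs.relIndex M` when the index is nonzero (span of coset representatives);
elements of `Zs` are central.  (1) Induction on `S`: for elementwise commuting `L, M'` every element of `L ⊔ M'` is a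
product, so `(x, y) ↦ x y` induces a surjection from the product of the two coset spaces.
(2) `{y ∈ L | t y = y t}` is a subgroup containing all `⁅y, y'⁆` because `y ↦ ⁅t, y⁆` is a homomorphism from `L` to the
commutative group `Zs`; use `perf` and `Subgroup.commutator_le`.
(3) `Finset.sup` induction or `Subgroup.map_iSup`.  (4) `Subgroup.map_map`; for `L ∉ supp`, `r = s⁻¹ t` commutes with
`y` and `tw s y t = s y r y⁻¹ = t`.  (5) add `L` and `L' = L.map (conj (t⁻¹ * s))` to the exceptional set: `y₁` in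
another member commutes with `y` and with `t⁻¹ s y s⁻¹ t ∈ L'`, so `tw t y₁ (tw s y Y) = tw s y (tw t y₁ Y)`.
-/

set_option autoImplicit false

open Finset Module
open scoped commutatorElement

namespace Pool.Agent.Work.MP_11a08a_al.Sol

section General

variable {G : Type} [Group G]

theorem join_idx (Z : Subgroup G) [Z.Normal] {L M : Subgroup G}
    (h : ∀ x ∈ L, ∀ y ∈ M, x * y = y * x) (hL : Z.relIndex L ≠ 0) (hM : Z.relIndex M ≠ 0) :
    Z.relIndex (L ⊔ M) ≠ 0 ∧ Z.relIndex (L ⊔ M) ≤ Z.relIndex L * Z.relIndex M := by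
  have e : ∀ K : Subgroup G, Z.relIndex K = Nat.card (K.map (QuotientGroup.mk' Z)) := fun K => by
    rw [← Subgroup.relIndex_ker, QuotientGroup.ker_mk']
  simp only [e, Subgroup.map_sup] at hL hM ⊢
  have h1 := Subgroup.coe_mul_of_left_le_normalizer_right (L.map (QuotientGroup.mk' Z))
    (M.map (QuotientGroup.mk' Z)) (Subgroup.le_normalizer_iff.2 (by
      rintro _ ⟨x, hx, rfl⟩ _ ⟨y, hy, rfl⟩
      exact ⟨y, hy, by rw [← map_mul, h x hx y hy, map_mul, mul_inv_cancel_right]⟩))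
  have h2 : Nat.card ↥(L.map (QuotientGroup.mk' Z) ⊔ M.map (QuotientGroup.mk' Z)) = _ :=
    congrArg (fun s : Set (G ⧸ Z) => Nat.card s) h1
  refine ⟨Nat.card_ne_zero.2 ⟨inferInstance, ?_⟩, h2.trans_le Set.natCard_mul_le⟩
  have h3 := Set.Finite.mul (Set.finite_coe_iff.1 (Nat.finite_of_card_ne_zero hL))
    (Set.finite_coe_iff.1 (Nat.finite_of_card_ne_zero hM))
  rw [← h1] at h3
  exact h3

theorem join_comm {z z' : G} (hz : ∀ x, z * x = x * z) (hz' : ∀ x, z' * x = x * z') (a b : G) :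
    ⁅z * a, z' * b⁆ = ⁅a, b⁆ := by
  have e : ⁅z * a, z' * b⁆ = z * (a * z' * b * a⁻¹) * z⁻¹ * b⁻¹ * z'⁻¹ := by
    simp only [commutatorElement_def, mul_inv_rev, mul_assoc]
  have e' : z' * a * b * a⁻¹ * b⁻¹ = z' * ⁅a, b⁆ := by
    simp only [commutatorElement_def, mul_assoc]
  rw [e, hz, mul_inv_cancel_right, ← hz', e', hz', mul_inv_cancel_right]

theorem join_map (a b : G) (L : Subgroup G) : L.map (MulAut.conj (a * b)).toMonoidHom =
    (L.map (MulAut.conj b).toMonoidHom).map (MulAut.conj a).toMonoidHom := by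
  rw [Subgroup.map_map]
  congr 1
  ext x
  simp [mul_assoc]

theorem join_sup {C : Finset (Subgroup G)} {t : G}
    (h : ∀ L ∈ C, L.map (MulAut.conj t).toMonoidHom ∈ C) {x : G} (hx : x ∈ C.sup id) :
    t * x * t⁻¹ ∈ C.sup id :=
  (Finset.sup_le fun L hL => Subgroup.map_le_iff_le_comap.1 (Finset.le_sup (f := id) (h L hL)) :
    C.sup id ≤ (C.sup id).comap (MulAut.conj t).toMonoidHom) hx

end General

variable {F W : Type} [Field F] [AddCommGroup W] [Module F W]

theorem join_cen {z : (End F W)ˣ} (hz : z ∈ Zs F W) (x : (End F W)ˣ) : z * x = x * z := by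
  obtain ⟨c, -, h⟩ := hz
  exact Units.ext (by simp [h])

theorem join_normal : (Zs F W).Normal :=
  ⟨fun z hz x => by rwa [← join_cen hz, mul_inv_cancel_right]⟩

theorem join_rank {M : Subgroup (End F W)ˣ} (h : (Zs F W).relIndex M ≠ 0) :
    finrank F (spn M) ≤ (Zs F W).relIndex M := by
  have : Finite (M ⧸ (Zs F W).subgroupOf M) := Nat.finite_of_card_ne_zero h
  have := Fintype.ofFinite (M ⧸ (Zs F W).subgroupOf M)
  let f : M ⧸ (Zs F W).subgroupOf M → End F W := fun q => ((q.out : M) : (End F W)ˣ)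
  have h1 : spn M ≤ Submodule.span F (Set.range f) := by
    refine Submodule.span_le.2 ?_
    rintro _ ⟨u, hu, rfl⟩
    obtain ⟨⟨z, hz⟩, e⟩ := QuotientGroup.mk_out_eq_mul ((Zs F W).subgroupOf M) ⟨u, hu⟩
    obtain ⟨c, hc, hz⟩ := Subgroup.mem_subgroupOf.1 hz
    have e' : (u : End F W) = c⁻¹ • f (QuotientGroup.mk ⟨u, hu⟩) := by
      simp [f, e, hz, hc]
    exact (congrArg (· ∈ Submodule.span F (Set.range f)) e').mpr
      (Submodule.smul_mem _ _ (Submodule.subset_span ⟨_, rfl⟩))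
  have := FiniteDimensional.span_of_finite F (Set.finite_range f)
  exact (Submodule.finrank_mono h1).trans ((finrank_range_le_card f).trans_eq
    Nat.card_eq_fintype_card.symm)

theorem join_size {d : ℕ} {C : Finset (Subgroup (End F W)ˣ)} (hC : Comp d C)
    (S : Finset (Subgroup (End F W)ˣ)) (hS : S ⊆ C) :
    (Zs F W).relIndex (S.sup id) ≠ 0 ∧ (Zs F W).relIndex (S.sup id) ≤ d ^ S.card := by
  have := join_normal (F := F) (W := W)
  induction S using Finset.cons_induction with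
  | empty => simp
  | cons L S hL ih =>
    obtain ⟨h1, h2⟩ := Finset.cons_subset.1 hS
    have h3 := join_idx (Zs F W) (L := L) (M := S.sup id) (fun x hx y hy =>
      ((Finset.sup_le fun L' hL' y hy => Subgroup.mem_centralizer_singleton_iff.2
        (hC.cm L h1 L' (h2 hL') (fun e => hL (e ▸ hL')) x hx y hy).symm :
          S.sup id ≤ Subgroup.centralizer {x}) hy x rfl)) (hC.fin L h1).1 (ih h2).1
    rw [Finset.sup_cons, Finset.card_cons, pow_succ']
    exact ⟨h3.1, h3.2.trans (Nat.mul_le_mul (hC.fin L h1).2 (ih h2).2)⟩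

theorem join_tw {s t y y₁ : (End F W)ˣ} (h : y₁ * y = y * y₁)
    (h' : y₁ * (t⁻¹ * s * y * (t⁻¹ * s)⁻¹) = t⁻¹ * s * y * (t⁻¹ * s)⁻¹ * y₁) (Y : End F W) :
    tw t y₁ (tw s y Y - Y) = tw s y (tw t y₁ Y) - tw t y₁ Y := by
  have e1 : t * y₁ * t⁻¹ * (s * y * s⁻¹) = s * y * s⁻¹ * (t * y₁ * t⁻¹) :=
    calc _ = t * (y₁ * (t⁻¹ * s * y * (t⁻¹ * s)⁻¹)) * t⁻¹ := by group
      _ = _ := by rw [h']; group
  have e2 : y⁻¹ * y₁⁻¹ = y₁⁻¹ * y⁻¹ := by rw [← mul_inv_rev, h, mul_inv_rev]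
  unfold tw
  generalize t * y₁ * t⁻¹ = a at e1
  generalize s * y * s⁻¹ = b at e1
  rw [mul_sub, sub_mul, ← mul_assoc, ← mul_assoc, ← mul_assoc, ← mul_assoc, ← Units.val_mul, e1,
    mul_assoc _ (y⁻¹ : (End F W)ˣ).1, ← Units.val_mul, e2, Units.val_mul, Units.val_mul,
    ← mul_assoc]

theorem join : StmtJoin := by
  classical
  intro F W _ _ _ _ d C hC
  refine ⟨fun S hS => ?_, fun L hL t ht y hy => ?_, fun t ht => ?_, fun s t hs ht => ⟨?_, ?_⟩,
    fun m s t Y hs ht ⟨S, hS, hm, hY⟩ L hL y hy => ?_⟩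
  · obtain ⟨h1, h2⟩ := join_size hC S hS
    exact ⟨h1, h2, (join_rank h1).trans h2⟩
  · have h1 : ⁅L, L⁆ ≤ Subgroup.centralizer {t} := Subgroup.commutator_le.2 fun a ha b hb => by
      have e : ∀ x, t * x * t⁻¹ = ⁅t, x⁆ * x := fun x => by
        rw [commutatorElement_def, inv_mul_cancel_right]
      rw [Subgroup.mem_centralizer_singleton_iff, eq_comm, ← mul_inv_eq_iff_eq_mul,
        conjugate_commutatorElement, e, e, join_comm (join_cen (ht a ha)) (join_cen (ht b hb))]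
    rw [hC.perf L hL] at h1
    exact h1 hy t rfl
  · refine Subgroup.mem_normalizer_iff.2 fun x =>
      ⟨join_sup fun L hL => (ht L hL).1, fun hx => ?_⟩
    simpa [mul_assoc] using join_sup (fun L hL => (ht L hL).2) hx
  · intro L hL
    rw [mul_inv_rev, inv_inv, join_map, join_map]
    exact ⟨(hs _ (ht L hL).1).2, (ht _ (hs L hL).1).2⟩
  · refine ⟨_, Finset.filter_subset _ _, le_rfl, fun L hL h y hy => ?_⟩
    have h1 : s⁻¹ * t * y = y * (s⁻¹ * t) := by
      by_contra h1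
      exact h (Finset.mem_filter.2 ⟨hL, fun h2 => h1 (h2 y hy)⟩)
    rw [tw, ← Units.val_mul, ← Units.val_mul, mul_assoc (s * y), mul_assoc s, ← h1]
    congr 1
    group
  · have hL' : L.map (MulAut.conj (t⁻¹ * s)).toMonoidHom ∈ C := by
      rw [join_map]
      exact (ht _ (hs L hL).1).2
    refine ⟨insert L (insert _ S), Finset.insert_subset hL (Finset.insert_subset hL' hS),
      (Finset.card_insert_le _ _).trans (Nat.succ_le_succ ((Finset.card_insert_le _ _).trans
        (Nat.succ_le_succ hm))), fun L₁ h1 h2 y₁ hy₁ => ?_⟩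
    simp only [Finset.mem_insert, not_or] at h2
    rw [join_tw (hC.cm L₁ h1 L hL h2.1 y₁ hy₁ y hy)
      (hC.cm L₁ h1 _ hL' h2.2.1 y₁ hy₁ _ ⟨y, hy, rfl⟩), hY L₁ h1 h2.2.2 y₁ hy₁]

end Pool.Agent.Work.MP_11a08a_al.Sol
end

-- merged part: Pool.Agent.Work.MP_11a08a_al.Sol.W2
section
/-!
`T₁` from `hG`, `g η = 2 (T₁ + 1) / η`, `β` from `hC`, `B₅` with `NilC q 5 B₀ B₅` from `h0, hS`.  `Γ I` = closure of the
`(a i l)⁻¹ * a i l'`, `i ∈ I`, `l l' ∈ P`; `ψ I = log (card (Γ I))`.  Given `η lam δ`: `T = ⌈exp lam⌉₊`, `B` from `hG`,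
`B' = 1 + q * q * B + B₅`, `β' η lam δ = ⌈2 / η⌉₊ + q * q * B' + 1`.  `J = {j ∈ I | η card I ≤ 2 card {i ∈ I | Z i j}}`.  For
`j ∈ J` apply `hG` to `Γ I ⊓ stab (x j)` and the rows `{i ∈ I | Z i j}` (`Rat` by `hB`, `x j ≠ ⊥`).  If some `j` gives the
first alternative: `Γ I' ≤ K ⊓ (Γ I ⊓ stab)`, so `card (Γ I') * T ≤ card (Γ I)`.  Otherwise each `j ∈ J` has
`Cov B' (a j) (fun b => Rat P b (Γ I ⊓ stab (x j)) ∧ Van P b (x j))`: if `¬ Rat P (a j) (stab (x j))` by one coset, else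
`Pat P (a j) b (Γ I ⊓ stab)` holds, the rows with `¬ Pat N` by `hB`, the rows with `Pat N` by `NilC`.  Turn the lists into
coset tests indexed by `Fin b`: enumerate triples `(l, l', u)`, `u < B'` (`MV.exists_enum`; `q = 0` is impossible as `Z` is then
empty) and the list of column `j` by `e j : Fin B' → _`; `v j := j ∈ J ∧ e j u ∈ L j ∧ (e j u).1 = l ∧ (e j u).2.1 = l'`,
`w i = (a i l)⁻¹ * a i l'`.  `I' = J`, `1 ≤ N ^ δ`.
-/

set_option autoImplicit false

open Finset Module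
open scoped commutatorElement

namespace Pool.Agent.Work.MP_11a08a_al.Sol

/-- Many columns of a dense relation are popular. -/
theorem w2_count {κ : Type} (Z : κ → κ → Prop) (I : Finset κ) (η : ℝ) (hη : 0 < η)
    (hI : I.Nonempty) (h : η * (I.card : ℝ) ^ 2 ≤ dens Z I) :
    ∃ J ⊆ I, η * (I.card : ℝ) ≤ 2 * J.card ∧
      ∀ j ∈ J, ∃ R ⊆ I, η * (I.card : ℝ) ≤ 2 * R.card ∧ ∀ i ∈ R, Z i j := by
  classical
  have e : (dens Z I : ℝ) = ∑ j ∈ I, ((I.filter fun i => Z i j).card : ℝ) := by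
    unfold dens
    rw [card_filter, sum_product_right, Nat.cast_sum]
    refine sum_congr rfl fun j _ => ?_
    rw [card_filter]
  let good : κ → Prop := fun j => η * (I.card : ℝ) ≤ 2 * ((I.filter fun i => Z i j).card : ℝ)
  have hpos : (0 : ℝ) < I.card := by exact_mod_cast hI.card_pos
  refine ⟨I.filter good, filter_subset _ _, ?_, fun j hj =>
    ⟨I.filter fun i => Z i j, filter_subset _ _, (mem_filter.1 hj).2, fun i hi =>
      (mem_filter.1 hi).2⟩⟩
  have h1 : ∑ j ∈ I, ((I.filter fun i => Z i j).card : ℝ) ≤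
      ∑ j ∈ I, ((if good j then (I.card : ℝ) else 0) + η * I.card / 2) := by
    refine sum_le_sum fun j _ => ?_
    by_cases hg : good j
    · rw [if_pos hg]
      have h2 : ((I.filter fun i => Z i j).card : ℝ) ≤ I.card := by
        exact_mod_cast card_filter_le _ _
      have h3 : 0 ≤ η * I.card / 2 := by positivity
      linarith
    · rw [if_neg hg]
      have h2 := not_le.1 hg
      linarith
  rw [sum_add_distrib, ← sum_filter, sum_const, sum_const, nsmul_eq_mul, nsmul_eq_mul] at h1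
  refine le_of_mul_le_mul_right ?_ hpos
  nlinarith

/-- Lists of cosets attached to the columns become coset tests. -/
theorem w2_conv {κ G : Type} [Group G] {q B b : ℕ} (hq : Nonempty (Fin q)) (hB : 1 ≤ B)
    (hb : q * q * B ≤ b) (a : κ → Fin q → G) (J : Finset κ) (R : κ → (Fin q → G) → Prop)
    (hCov : ∀ j ∈ J, Cov B (a j) (R j)) :
    ∃ (v : Fin b → κ → Prop) (w x : Fin b → κ → G) (K : Fin b → κ → Subgroup G),
      (∀ s i, ¬ CosetT (v s) (w s) (x s) (K s) i i) ∧
      ∀ i, ∀ j ∈ J, R j (a i) → ∃ s, CosetT (v s) (w s) (x s) (K s) i j := by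
  classical
  have hne : Nonempty (Fin B) := ⟨⟨0, hB⟩⟩
  choose! L h1 h2 h3 using hCov
  have h4 : ∀ j ∈ J, ∃ e : Fin B → Fin q × Fin q × G × Subgroup G, ∀ y ∈ L j, ∃ u, e u = y :=
    fun j hj => MV.exists_enum _ _ (h1 j hj)
  choose! e he using h4
  obtain ⟨τ, hτ⟩ := MV.exists_enum (univ : Finset (Fin q × Fin q × Fin B)) b (by
    rw [card_univ, Fintype.card_prod, Fintype.card_prod, Fintype.card_fin, Fintype.card_fin,
      ← mul_assoc]
    exact hb)
  refine ⟨fun s j => j ∈ J ∧ e j (τ s).2.2 ∈ L j ∧ (e j (τ s).2.2).1 = (τ s).1 ∧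
      (e j (τ s).2.2).2.1 = (τ s).2.1,
    fun s i => (a i (τ s).1)⁻¹ * a i (τ s).2.1, fun s j => (e j (τ s).2.2).2.2.1,
    fun s j => (e j (τ s).2.2).2.2.2, ?_, ?_⟩
  · rintro s i ⟨⟨hi, hL, e1, e2⟩, hK⟩
    have h5 := h2 i hi _ hL
    rw [e1, e2] at h5
    exact h5 hK
  · intro i j hj hR
    obtain ⟨y, hy, hK⟩ := h3 j hj _ hR
    obtain ⟨u, hu⟩ := he j hj y hy
    obtain ⟨s, hs⟩ := hτ (y.1, y.2.1, u) (mem_univ _)
    refine ⟨s, ?_, ?_⟩
    · simp only [hs, hu]
      exact ⟨hj, hy, trivial, trivial⟩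
    · simp only [hs, hu]
      exact hK

/-- A subgroup contained in a subgroup of large index is small. -/
theorem w2_drop {G : Type} [Group G] [Finite G] {A K H Γ : Subgroup G} (h1 : A ≤ K) (h2 : A ≤ H)
    (h3 : H ≤ Γ) {lam : ℝ} (h4 : ⌈Real.exp lam⌉₊ < K.relIndex H) :
    Real.log (Nat.card A) + lam ≤ Real.log (Nat.card Γ) := by
  have e1 : Nat.card A * A.relIndex H = Nat.card H := by
    rw [← Subgroup.relIndex_bot_left, ← Subgroup.relIndex_bot_left]
    exact Subgroup.relIndex_mul_relIndex _ _ _ bot_le h2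
  have e2 : K.relIndex H ≤ A.relIndex H :=
    Subgroup.relIndex_le_of_le_left h1 Subgroup.index_ne_zero_of_finite
  have e3 : Nat.card H ≤ Nat.card Γ := Subgroup.card_le_of_le h3
  have e4 : Real.exp lam ≤ (A.relIndex H : ℝ) :=
    (Nat.le_ceil _).trans (by exact_mod_cast (h4.le.trans e2))
  have e5 : (0 : ℝ) < Nat.card A := by exact_mod_cast Nat.card_pos
  have e6 : (Nat.card A : ℝ) * Real.exp lam ≤ Nat.card Γ := by
    refine (mul_le_mul_of_nonneg_left e4 e5.le).trans ?_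
    exact_mod_cast e1.le.trans e3
  have e7 := Real.log_le_log (mul_pos e5 (Real.exp_pos lam)) e6
  rwa [Real.log_mul e5.ne' (Real.exp_pos lam).ne', Real.log_exp] at e7

/-- The group generated by the quotients of the rows in `I`. -/
def w2_gam {κ G : Type} [Group G] {q : ℕ} (P : Finset (Fin q)) (a : κ → Fin q → G)
    (I : Finset κ) : Subgroup G :=
  Subgroup.closure {g | ∃ i ∈ I, ∃ l ∈ P, ∃ l' ∈ P, g = (a i l)⁻¹ * a i l'}

theorem w2_gam_le {κ G : Type} [Group G] {q : ℕ} {P : Finset (Fin q)} {a : κ → Fin q → G}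
    {I : Finset κ} {K : Subgroup G} : w2_gam P a I ≤ K ↔ ∀ i ∈ I, Rat P (a i) K := by
  unfold w2_gam
  rw [Subgroup.closure_le]
  constructor
  · intro h i hi l hl l' hl'
    exact h ⟨i, hi, l, hl, l', hl', rfl⟩
  · rintro h g ⟨i, hi, l, hl, l', hl', rfl⟩
    exact h i hi l hl l' hl'

theorem w2_nil (h0 : StmtNil0) (hS : StmtNilS) (q B₀ c : ℕ) : ∃ B, NilC q c B₀ B := by
  induction c with
  | zero => exact h0 q B₀
  | succ c ih =>
    obtain ⟨B, h⟩ := ih
    exact hS q c B₀ B h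

theorem w2 (hG : StmtGain) (h0 : StmtNil0) (hS : StmtNilS) (hB : StmtBasic) (hC : StmtCoset) :
    StmtW2 := by
  intro q d B₀
  obtain ⟨T₁, hG'⟩ := hG q d
  choose Bf hBf using hG'
  obtain ⟨β, hβ⟩ := hC
  obtain ⟨B₅, h5⟩ := w2_nil h0 hS q B₀ 5
  refine ⟨fun η => 2 * ((T₁ : ℝ) + 1) / η, β,
    fun η lam _ => ⌈2 / η⌉₊ + q * q * (1 + (q * q * Bf ⌈Real.exp lam⌉₊ + B₅)) + 1, ?_⟩
  intro F G V κ _ _ _ _ _ _ _ _ _ ρ α m P S a x hR hO hN hSec ha hx
  have hT₁ : (0 : ℝ) ≤ T₁ := Nat.cast_nonneg _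
  have hg : ∀ η : ℝ, 0 < η → 2 / η ≤ 2 * ((T₁ : ℝ) + 1) / η := fun η hη =>
    div_le_div_of_nonneg_right (by linarith) hη.le
  have hcard : 1 ≤ Nat.card G := Nat.card_pos
  have hNN : Nat.card G ≤ (2 * Nat.card G) ^ 2 := by nlinarith
  have hΓS : ∀ I : Finset κ, w2_gam P a I ≤ S := fun I =>
    w2_gam_le.2 fun i _ l _ l' _ => S.mul_mem (S.inv_mem (ha i l)) (ha i l')
  have hstab : ∀ i j, MinVan ρ α P (a i) (x j) → Rat P (a i) (stab ρ (x j)) := fun i j h =>
    (hB.2.2.2 F G V ρ q α (x j)).2.2.2.1 P (a i) (hx j).1 h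
  refine ⟨fun i h => h.1 h.2.1, fun I => Real.log (Nat.card (w2_gam P a I)), fun I => ⟨?_, ?_⟩,
    fun I I' hI => ?_, fun η lam δ hη _ hδ I hI hd => ?_⟩
  · exact Real.log_natCast_nonneg _
  · refine Real.log_le_log (by exact_mod_cast Nat.card_pos) ?_
    exact_mod_cast (Subgroup.card_le_card_group _).trans hNN
  · refine Real.log_le_log (by exact_mod_cast Nat.card_pos) ?_
    exact_mod_cast Subgroup.card_le_of_le
      (w2_gam_le.2 fun i hi => w2_gam_le.1 le_rfl i (hI hi))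
  obtain ⟨J, hJI, hJ, hrow⟩ := w2_count _ I η hη hI hd
  have hpos : (0 : ℝ) < I.card := by exact_mod_cast hI.card_pos
  have hηI : 0 < η * (I.card : ℝ) := mul_pos hη hpos
  have hRat : ∀ i ∈ I, ∀ j, MinVan ρ α P (a i) (x j) →
      Rat P (a i) (w2_gam P a I ⊓ stab ρ (x j)) := fun i hi j h l hl l' hl' =>
    ⟨w2_gam_le.1 le_rfl i hi l hl l' hl', hstab i j h l hl l' hl'⟩
  have hnv : ∀ j ∈ J, ¬ Van ρ α P (a j) (x j) := by
    intro j hj
    obtain ⟨R, -, hR1, hR2⟩ := hrow j hj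
    have hRne : R.Nonempty := by
      rw [← card_pos]
      have h1 : (0 : ℝ) < R.card := by linarith
      exact_mod_cast h1
    obtain ⟨i, hi⟩ := hRne
    exact (hR2 i hi).1
  by_cases hA : ∃ I' ⊆ I, (I.card : ℝ) ≤ 2 * ((T₁ : ℝ) + 1) / η * I'.card ∧
      Real.log (Nat.card (w2_gam P a I')) + lam ≤ Real.log (Nat.card (w2_gam P a I))
  · exact Or.inl hA
  right
  have hcov : ∀ j ∈ J, Cov (1 + (q * q * Bf ⌈Real.exp lam⌉₊ + B₅)) (a j)
      fun b => Rat P b (w2_gam P a I ⊓ stab ρ (x j)) ∧ Van ρ α P b (x j) := by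
    intro j hj
    obtain ⟨c1, -, c3, c4, c5⟩ := hB.1 G q (a j)
    by_cases hj1 : Rat P (a j) (stab ρ (x j))
    swap
    · exact c1 _ _ _ _ (Nat.le_add_right _ _) (fun b hb l hl l' hl' => (hb.1 l hl l' hl').2)
        (c4 P _ hj1)
    obtain ⟨R, hRI, hR1, hR2⟩ := hrow j hj
    have hRne : R.Nonempty := by
      rw [← card_pos]
      have h1 : (0 : ℝ) < R.card := by linarith
      exact_mod_cast h1
    have hbot : x j ≠ ⊥ := by
      intro h
      refine hnv j hj fun w hw => ?_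
      rw [h, Submodule.mem_bot] at hw
      simp [hw]
    have hjH : Rat P (a j) (w2_gam P a I ⊓ stab ρ (x j)) := fun l hl l' hl' =>
      ⟨w2_gam_le.1 le_rfl j (hJI hj) l hl l' hl', hj1 l hl l' hl'⟩
    rcases hBf ⌈Real.exp lam⌉₊ F G V κ ρ α P (x j) S (w2_gam P a I ⊓ stab ρ (x j)) R a hN hSec hbot
      (hx j).2 (inf_le_left.trans (hΓS I)) inf_le_right hRne
      (fun i hi => ⟨hRat i (hRI hi) j (hR2 i hi).2, (hR2 i hi).2⟩) with
      ⟨K, I', k1, k2, k3, k4⟩ | ⟨N, k, n1, n2, n3, n4, n5, n6⟩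
    · refine absurd ⟨I', k1.trans hRI, ?_, ?_⟩ hA
      · have k5 : (R.card : ℝ) ≤ T₁ * I'.card := by exact_mod_cast k3
        have k6 : (0 : ℝ) ≤ I'.card := Nat.cast_nonneg _
        rw [div_mul_eq_mul_div, le_div_iff₀ hη]
        nlinarith
      · exact w2_drop (w2_gam_le.2 k4)
          (w2_gam_le.2 fun i hi => hRat i (hRI (k1 hi)) j (hR2 i (k1 hi)).2) inf_le_left k2
    · have d1 := c5 P (w2_gam P a I ⊓ stab ρ (x j)) N _ Subgroup.index_ne_zero_of_finite n3
      have d2 := h5 F G V ρ α m k P (a j) (x j) N hR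
        (fun s hs => hO s (hΓS I (n1 hs).1)) n4 n5 (n1.trans inf_le_right) hj1
        (fun l hl l' hl' => n2 (hjH l hl l' hl')) n6 (hnv j hj)
      refine c1 _ _ _ _ (Nat.le_add_left _ _) (fun b hb => ?_) (c3 _ _ _ _ d1 d2)
      by_cases hp : Pat P (a j) b N
      · exact Or.inr ⟨hp, hb.2⟩
      · exact Or.inl ⟨fun l hl l' hl' => Subgroup.mul_mem _ (Subgroup.inv_mem _ (hjH l hl l' hl'))
          (hb.1 l hl l' hl'), hp⟩
  have hJpos : (0 : ℝ) < J.card := by linarith
  have hq : Nonempty (Fin q) := by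
    have hJne : J.Nonempty := by
      rw [← card_pos]
      exact_mod_cast hJpos
    obtain ⟨j, hj⟩ := hJne
    by_contra hq
    refine hnv j hj fun w _ => ?_
    exact sum_eq_zero fun l _ => absurd ⟨l⟩ hq
  obtain ⟨v, w, y, K, t1, t2⟩ := w2_conv
    (b := ⌈2 / η⌉₊ + q * q * (1 + (q * q * Bf ⌈Real.exp lam⌉₊ + B₅)) + 1) hq
    (Nat.le_add_right _ _) ((Nat.le_add_left _ _).trans (Nat.le_succ _)) a J _ hcov
  refine ⟨J, hJI, ?_, fun s => CosetT (v s) (w s) (y s) (K s),
    fun s => hβ _ hg κ G (v s) (w s) (y s) (K s) (t1 s),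
    fun i hi j hj hZ => t2 i j hj ⟨hRat i (hJI hi) j hZ.2, hZ.2.1⟩⟩
  have u1 : (1 : ℝ) ≤ (((2 * Nat.card G) ^ 2 : ℕ) : ℝ) ^ δ :=
    Real.one_le_rpow (by exact_mod_cast hcard.trans hNN) hδ.le
  have u2 : 2 / η ≤
      ((⌈2 / η⌉₊ + q * q * (1 + (q * q * Bf ⌈Real.exp lam⌉₊ + B₅)) + 1 : ℕ) : ℝ) :=
    (Nat.le_ceil _).trans (by exact_mod_cast (Nat.le_add_right _ _).trans (Nat.le_succ _))
  have u3 : (I.card : ℝ) ≤ 2 / η * J.card := by
    rw [div_mul_eq_mul_div, le_div_iff₀ hη]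
    linarith
  refine u3.trans (mul_le_mul_of_nonneg_right (u2.trans ?_) hJpos.le)
  exact le_mul_of_one_le_right (Nat.cast_nonneg _) u1

end Pool.Agent.Work.MP_11a08a_al.Sol
end

-- merged part: Pool.Agent.Work.MP_11a08a_al.Sol.Core
section
/-!
`D = ∑ α l • ρ (h l) ≠ 0`, so `V` is nontrivial; `W₀` from `hBl`; the join of its translates is invariant and nonzero, so `⊤`; some
translate `W` has `¬ Van univ h W`, and all translates of `W` are `Blk`, `Prim`.  `φ g = W.map (ρ g)`, `X = univ.image φ`,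
`finrank V ≤ card X * finrank W`.  `Sg = {g | ¬ Van univ h (φ g)}` contains `1`, `Y = Sg.image φ`.  `MV.pack` gives `κ` with
`card G ≤ card κ * (2 card Sg)`, `MV.fib` gives `card X ≤ 2 card κ card Y`.  On the subtype of `κ`: `a i l = i * h l * i⁻¹ ∈ S`,
`x j = φ j`; `Van univ (a i) (x j) ↔ Van univ h (φ (i⁻¹ * j))`.  Tests indexed by `P : Finset (Fin q)` from `hW`, cover by `hB`, `hA` at
`δ / 2` gives `card κ ≤ c (4 card G ^ 2) ^ (δ / 2)`.  `hRB` with `r = finrank W`, `K` from `hR`: for `y ∈ Y`, `P` with `Rat`,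
`¬ Van`, `l₀ ∈ P`, `r l = (h l₀)⁻¹ h l ∈ stab y` (`1` outside `P`), `hR` for `imS ρ y S` (`hS`), and the rank of
`∑ α l • resU (r l)` equals that of the restricted sum (compose with the injective maps `y.subtype`, `ρ (h l₀)`).
-/

set_option autoImplicit false

open Finset Module
open scoped commutatorElement

namespace Pool.Agent.Work.MP_11a08a_al.Sol

section Aux

variable {F G V : Type} [Field F] [Group G] [AddCommGroup V] [Module F V]
  (ρ : Representation F G V)

theorem core_map (W : Submodule F V) (a b : G) :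
    (W.map (ρ b)).map (ρ a) = W.map (ρ (a * b)) := by
  rw [map_mul, Module.End.mul_eq_comp, Submodule.map_comp]

theorem core_one (W : Submodule F V) : W.map (ρ 1) = W := by
  rw [map_one, Module.End.one_eq_id, Submodule.map_id]

theorem core_top (hV : ∀ U : Submodule F V, (∀ g, ∀ v ∈ U, ρ g v ∈ U) → U = ⊥ ∨ U = ⊤)
    {W : Submodule F V} (hW : W ≠ ⊥) : ⨆ g, W.map (ρ g) = ⊤ := by
  refine (hV _ fun g v hv => ?_).resolve_left fun h => hW ?_
  · have h1 : (⨆ g', W.map (ρ g')).map (ρ g) ≤ ⨆ g', W.map (ρ g') := by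
      rw [Submodule.map_iSup]
      refine iSup_le fun g' => ?_
      rw [core_map]
      exact le_iSup (fun g' => W.map (ρ g')) _
    exact h1 (Submodule.mem_map_of_mem hv)
  · rw [eq_bot_iff, ← h, ← core_one ρ W, core_one ρ W]
    exact (core_one ρ W).ge.trans (le_iSup (fun g' => W.map (ρ g')) 1)

theorem core_ker {q : ℕ} (α : Fin q → F) (P : Finset (Fin q)) (h : Fin q → G)
    (W : Submodule F V) : Van ρ α P h W ↔ W ≤ LinearMap.ker (∑ l ∈ P, α l • ρ (h l)) := by
  simp only [Van, SetLike.le_def, LinearMap.mem_ker, LinearMap.sum_apply, LinearMap.smul_apply]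

theorem core_van {q : ℕ} (α : Fin q → F) (P : Finset (Fin q)) (h : Fin q → G)
    (W : Submodule F V) (i j : G) : Van ρ α P (fun l => i * h l * i⁻¹) (W.map (ρ j)) ↔
      Van ρ α P h (W.map (ρ (i⁻¹ * j))) := by
  simp only [Van, Submodule.mem_map, forall_exists_index, and_imp, forall_apply_eq_imp_iff₂]
  refine forall₂_congr fun w _ => ?_
  have e : ∑ l ∈ P, α l • ρ (i * h l * i⁻¹) (ρ j w) =
      ρ i (∑ l ∈ P, α l • ρ (h l) (ρ (i⁻¹ * j) w)) := by
    simp only [map_sum, map_smul, map_mul, Module.End.mul_apply]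
  rw [e]
  refine ⟨fun h0 => ?_, fun h0 => by rw [h0, map_zero]⟩
  have h1 := congrArg (ρ i⁻¹) h0
  rwa [map_zero, ← Module.End.mul_apply, ← map_mul, inv_mul_cancel, map_one,
    Module.End.one_apply] at h1

theorem core_sup [FiniteDimensional F V] (X : Finset (Submodule F V)) (r : ℕ)
    (h : ∀ x ∈ X, finrank F x ≤ r) : finrank F ↥(X.sup id) ≤ X.card * r := by
  classical
  induction X using Finset.induction_on with
  | empty => simp
  | insert x X hx ih =>
    rw [sup_insert, card_insert_of_notMem hx, add_mul, one_mul, add_comm]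
    exact (Submodule.finrank_add_le_finrank_add_finrank _ _).trans
      (add_le_add (h x (mem_insert_self _ _)) (ih fun y hy => h y (mem_insert_of_mem hy)))

theorem core_rk [FiniteDimensional F V] {q : ℕ} (α : Fin q → F) (P : Finset (Fin q))
    (h : Fin q → G) (y : Submodule F V) (r : Fin q → stab ρ y) (g : G)
    (hr : ∀ l ∈ P, (r l).1 = g⁻¹ * h l) : rk (∑ l ∈ P, α l • (resU ρ y (r l) : End F y)) ≤
      rk ((∑ l ∈ P, α l • ρ (h l)).domRestrict y) := by
  have e : y.subtype ∘ₗ (∑ l ∈ P, α l • (resU ρ y (r l) : End F y)) =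
      ρ g⁻¹ ∘ₗ (∑ l ∈ P, α l • ρ (h l)).domRestrict y := by
    ext w
    simp only [LinearMap.comp_apply, LinearMap.sum_apply, LinearMap.smul_apply, map_sum, map_smul,
      Submodule.subtype_apply, LinearMap.domRestrict_apply, resU_apply]
    refine sum_congr rfl fun l hl => ?_
    rw [hr l hl, map_mul, Module.End.mul_apply]
  unfold rk
  rw [← Submodule.finrank_map_subtype_eq y, ← LinearMap.range_comp, e, LinearMap.range_comp]
  exact Submodule.finrank_map_le _ _

end Aux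

theorem core_cnt {G β : Type} [Group G] [Fintype G] [DecidableEq β] (φ : G → β)
    (hφ : ∀ c a b, φ a = φ b → φ (c * a) = φ (c * b)) (p : β → Prop) [DecidablePred p] (k : ℕ)
    (h : Fintype.card G ≤ k * (2 * (univ.filter fun g => p (φ g)).card)) :
    (univ.image φ).card ≤ 2 * k * ((univ.filter fun g => p (φ g)).image φ).card := by
  have h1 := MV.fib φ hφ _ Subset.rfl
  have h2 := MV.fib φ hφ ((univ.filter fun g => p (φ g)).image φ)
    (image_subset_image (filter_subset _ _))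
  have e1 : (univ.filter fun g => φ g ∈ univ.image φ) = univ :=
    filter_true_of_mem fun g hg => mem_image_of_mem _ hg
  have e2 : (univ.filter fun g => φ g ∈ (univ.filter fun g => p (φ g)).image φ) =
      univ.filter fun g => p (φ g) := by
    refine filter_congr fun g hg => ⟨fun h => ?_, fun h => mem_image_of_mem _ (mem_filter.2 ⟨hg, h⟩)⟩
    obtain ⟨g', h3, h4⟩ := mem_image.1 h
    exact h4 ▸ (mem_filter.1 h3).2
  rw [e1, card_univ] at h1
  rw [e2] at h2
  rw [h1, h2] at h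
  refine Nat.le_of_mul_le_mul_right (h.trans_eq (by ring))
    (card_pos.2 ⟨1, mem_filter.2 ⟨mem_univ _, rfl⟩⟩)

theorem core (hA : StmtAbs) (hW : StmtW2) (hBl : StmtBlock) (hRB : StmtRB) (hR : StmtRank)
    (hS : StmtSec) (hB : StmtBasic) : StmtCore := by
  intro q d B₀ δ hδ
  obtain ⟨g, β, β', hW'⟩ := hW q d B₀
  obtain ⟨c, c0, hc⟩ := hA g β β' (Fintype.card (Finset (Fin q))) (δ / 2) (by positivity)
  obtain ⟨K, hK⟩ := hR q d
  refine ⟨2 * c * 2 ^ δ * (2 * q + 1) * (K + 1), by positivity, ?_⟩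
  intro F G V _ _ _ _ _ _ _ ρ α h m S hV hRat hOrd hN hSec hh hD
  classical
  have := Fintype.ofFinite G
  have : Nontrivial V := by
    by_contra hn
    rw [not_nontrivial_iff_subsingleton] at hn
    exact hD (LinearMap.ext fun v => Subsingleton.elim _ _)
  obtain ⟨W₀, hW₀, hb₀⟩ := hBl F G V ρ
  obtain ⟨g₀, hg₀⟩ : ∃ g₀, ¬ Van ρ α univ h (W₀.map (ρ g₀)) := by
    by_contra hn
    push Not at hn
    refine hD (LinearMap.ker_eq_top.1 (top_le_iff.1 ?_))
    rw [← core_top ρ hV hW₀]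
    exact iSup_le fun g => (core_ker ρ α univ h _).1 (hn g)
  obtain ⟨W, hWv, hb⟩ : ∃ W : Submodule F V, ¬ Van ρ α univ h W ∧
      ∀ g, Blk ρ (W.map (ρ g)) ∧ Prim (resU ρ (W.map (ρ g))).range := by
    refine ⟨_, hg₀, fun g => ?_⟩
    rw [core_map]
    exact hb₀ _
  have hne : ∀ (P : Finset (Fin q)) (y : Submodule F V), ¬ Van ρ α P h y → y ≠ ⊥ := by
    rintro P y hy rfl
    exact hy ((core_ker ρ α P h _).2 bot_le)
  have h1 : finrank F V ≤ (univ.image fun g => W.map (ρ g)).card * finrank F W := by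
    rw [← finrank_top F V, ← core_top ρ hV (hne _ _ hWv), ← sup_univ_eq_iSup,
      ← Function.id_comp (fun g => W.map (ρ g)), ← sup_image]
    refine core_sup _ _ fun x hx => ?_
    obtain ⟨g, -, rfl⟩ := mem_image.1 hx
    exact Submodule.finrank_map_le _ _
  obtain ⟨κ, hκ1, hκ2⟩ := MV.pack (univ.filter fun g => ¬ Van ρ α univ h (W.map (ρ g)))
    (mem_filter.2 ⟨mem_univ _, by rwa [core_one]⟩)
  have h2 := core_cnt (fun g => W.map (ρ g)) (fun c a b e => by
    rw [← core_map, ← core_map, e]) (fun y => ¬ Van ρ α univ h y) _ hκ2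
  have hG : 0 < Nat.card G := Nat.card_pos
  have : NeZero (2 * Nat.card G) := ⟨by omega⟩
  have h3 := hc κ (2 * Nat.card G) ((2 * Nat.card G) ^ 2) (Finset (Fin q))
    (fun P i j => ¬ Van ρ α P (fun l => j.1 * h l * j.1⁻¹) (W.map (ρ j.1)) ∧
      MinVan ρ α P (fun l => i.1 * h l * i.1⁻¹) (W.map (ρ j.1)))
    (Nat.one_le_pow _ _ (by omega)) le_rfl
    (fun P => hW' F G V κ ρ α m P S (fun i l => i.1 * h l * i.1⁻¹) (fun j => W.map (ρ j.1)) hRat
      hOrd hN hSec (fun i l => hN.conj_mem _ (hh l) _) fun j => hb _) fun i j hij => by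
      have k1 : Van ρ α univ (fun l => i.1 * h l * i.1⁻¹) (W.map (ρ j.1)) := by
        rw [core_van]
        by_contra k
        exact hκ1 _ i.2 _ j.2 (fun e => hij (Subtype.ext e)) (mem_filter.2 ⟨mem_univ _, k⟩)
      have k2 : ¬ Van ρ α univ (fun l => j.1 * h l * j.1⁻¹) (W.map (ρ j.1)) := by
        rwa [core_van, inv_mul_cancel, core_one]
      obtain ⟨P, -, k3, k4⟩ := (hB.2.2.2 F G V ρ q α _).1 _ _ _ k1 k2
      exact ⟨P, k4, k3⟩
  have h4 := hRB F G V ρ q K (finrank F W) α h W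
    ((univ.filter fun g => ¬ Van ρ α univ h (W.map (ρ g))).image fun g => W.map (ρ g))
    (core_one ρ W ▸ (hb 1).1) fun y hy => by
      obtain ⟨g, hg, rfl⟩ := mem_image.1 hy
      refine ⟨⟨g, rfl⟩, (mem_filter.1 hg).2, fun P hP hv => ?_⟩
      have k0 : finrank F W ≤ finrank F (W.map (ρ g)) := by
        conv_lhs => rw [← core_one ρ W, ← inv_mul_cancel g, ← core_map]
        exact Submodule.finrank_map_le _ _
      have hp := (hb g).2
      generalize W.map (ρ g) = y at hP hv k0 hp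
      have : Nontrivial y := Submodule.nontrivial_iff_ne_bot.2 (hne P y hv)
      obtain ⟨l₀, hl₀⟩ : P.Nonempty := by
        refine nonempty_iff_ne_empty.2 ?_
        rintro rfl
        exact hv fun w _ => sum_empty
      obtain ⟨r, hr⟩ : ∃ r : Fin q → stab ρ y, ∀ l ∈ P, (r l).1 = (h l₀)⁻¹ * h l :=
        ⟨fun l => if hl : l ∈ P then ⟨_, hP l₀ hl₀ l hl⟩ else 1, fun l hl => by
          simp only [dif_pos hl]⟩
      obtain ⟨s1, s2, s3, -, s5⟩ := hS F G V ρ y S
      refine k0.trans ((hK F y _ (imS ρ y S) hp le_sup_right s2 ?_ (s5 d hSec) P α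
        (fun l => resU ρ y (r l)) (fun l hl => ?_) fun e => ?_).trans
        (Nat.mul_le_mul_left _ (core_rk ρ α P h y r _ hr)))
      · rintro _ ⟨u, rfl⟩
        refine s3 u ?_
        rw [Subgroup.normalizer_eq_top]
        exact Subgroup.mem_top _
      · refine (s1 _).2 ⟨r l, 1, ?_, one_mem _, (mul_one _).symm⟩
        rw [hr l hl]
        exact mul_mem (inv_mem (hh l₀)) (hh l)
      · exact hv (((hB.2.2.2 F G V ρ q α y).2.2.2.2 P h r _ hr).1.2 e)
  have h5 : finrank F V ≤ 2 * κ.card * ((2 * q + 1) * (K + 1) * rk (∑ l, α l • ρ (h l))) := by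
    refine h1.trans ((Nat.mul_le_mul_right _ h2).trans ?_)
    rw [mul_assoc]
    refine Nat.mul_le_mul_left _ (h4.trans (Nat.mul_le_mul_right _ (Nat.mul_le_mul_left _ ?_)))
    omega
  have h6 : (((2 * Nat.card G) ^ 2 : ℕ) : ℝ) ^ (δ / 2) = 2 ^ δ * (Nat.card G : ℝ) ^ δ := by
    rw [← Real.mul_rpow (by norm_num) (by positivity), Nat.cast_pow, ← Real.rpow_natCast,
      ← Real.rpow_mul (by positivity)]
    congr 1
    · push_cast
      rfl
    · push_cast
      ring
  rw [h6, Fintype.card_coe] at h3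
  calc (finrank F V : ℝ)
      ≤ 2 * κ.card * ((2 * q + 1) * (K + 1) * rk (∑ l, α l • ρ (h l))) := by exact_mod_cast h5
    _ ≤ 2 * (c * (2 ^ δ * (Nat.card G : ℝ) ^ δ)) *
        ((2 * q + 1) * (K + 1) * rk (∑ l, α l • ρ (h l))) := by gcongr
    _ = _ := by ring

end Pool.Agent.Work.MP_11a08a_al.Sol
end

-- merged part: Pool.Agent.Work.MP_11a08a_al.Sol.Fin
section
/-!
`ratio`: complex case with `B = ratioBound q`, `R.erase 1` for `R` from `vanish q m hm β`, `y l = if β l = 0 then 0 else ζ l`: if no pair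
works, each class `{l | y l = z}` has vanishing subsum, so `∑ β = 0`.  Bounded case: `(Polynomial.nthRootsFinset m 1).erase 1`; if no pair works all
`ζ l` with `β l ≠ 0` agree.
`final`: `q = 0` is trivial.  Replace `h l` by `(h 0)⁻¹ * h l ∈ S` (same rank).  `δ = ε ^ 2 / 2`, `c` the maximum of the constants of `hC`
for `B₀ = B` and `B₀ = e`.  If `ringChar F = 0` use `L = ℂ`, `m = card G`; otherwise `p = ringChar F` is prime,
`L = AlgebraicClosure F`, `m = e` (`z ^ orderOf s = 1` gives `(z ^ e) ^ p ^ k = 1`, so `z ^ e = 1` by `sub_pow_char_pow`).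
`hCh`, then `hI` with `K = c * card G ^ δ`.  Numerics as in `numeric2` of `MV/Rep`: `card G ^ δ ≤ n ^ (ε / 2)`, `c ≤ n ^ (ε / 2)`.
-/

set_option autoImplicit false

open Finset Module
open scoped commutatorElement

namespace Pool.Agent.Work.MP_11a08a_al.Sol

theorem ratio : StmtRatio := by
  classical
  refine fun q => ⟨⟨ratioBound q, fun m hm β hβ => ?_⟩, fun F _ m hm β hβ => ?_⟩
  · obtain ⟨R, h1, h2⟩ := vanish q m hm β
    refine ⟨R.erase 1, card_erase_le.trans h1, notMem_erase _ _, fun ζ hζ h0 => ?_⟩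
    by_contra hc
    push Not at hc
    have hz : ∀ l, ζ l ≠ 0 := fun l c => by
      have := hζ l
      rw [c, zero_pow hm.ne'] at this
      exact zero_ne_one this
    obtain ⟨y, hy⟩ : ∃ y : Fin q → ℂ, ∀ l, y l = if β l = 0 then 0 else ζ l := ⟨_, fun _ => rfl⟩
    have y1 : ∀ l, β l ≠ 0 → y l = ζ l := fun l c => by rw [hy, if_neg c]
    have y2 : ∀ l, y l ≠ 0 → β l ≠ 0 := fun l c c' => c (by rw [hy, if_pos c'])
    have h3 := h2 y (fun l => by
      by_cases c : β l = 0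
      · exact Or.inl (by rw [hy, if_pos c])
      · exact Or.inr (by rw [y1 l c, hζ])) (by
      rw [← h0]
      refine sum_congr rfl fun l _ => ?_
      by_cases c : β l = 0
      · rw [c, zero_mul, zero_mul]
      · rw [y1 l c])
    refine hβ ?_
    rw [← sum_fiberwise_of_maps_to (s := univ) (g := y) (t := univ.image y)
      fun l hl => mem_image_of_mem y hl]
    refine sum_eq_zero fun z _ => ?_
    by_cases c : z = 0
    · refine sum_eq_zero fun l hl => ?_
      by_contra c'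
      exact hz l (by rw [← y1 l c', (mem_filter.1 hl).2, c])
    · have h4 := h3 (fun l => y l = z) fun i j hi hj a b hR =>
        hc j i (y2 j b) (y2 i a) (by
          rw [← y1 i (y2 i a), ← y1 j (y2 j b)]
          exact mem_erase.2 ⟨fun c' => hj ((div_eq_one_iff_eq b).1 c' ▸ hi), hR⟩)
      rw [sum_congr rfl fun l hl => by rw [(mem_filter.1 hl).2], ← sum_mul] at h4
      exact (mul_eq_zero.1 h4).resolve_right c
  · refine ⟨(Polynomial.nthRootsFinset m (1 : F)).erase 1, card_erase_le.trans ?_,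
      notMem_erase _ _, fun ζ hζ h0 => ?_⟩
    · rw [Polynomial.nthRootsFinset]
      exact (Multiset.toFinset_card_le _).trans (Polynomial.card_nthRoots _ _)
    by_contra hc
    push Not at hc
    have hz : ∀ l, ζ l ≠ 0 := fun l c => by
      have := hζ l
      rw [c, zero_pow hm.ne'] at this
      exact zero_ne_one this
    obtain ⟨l₀, -, hl₀⟩ := exists_ne_zero_of_sum_ne_zero hβ
    have h1 : ∑ l, β l * ζ l = (∑ l, β l) * ζ l₀ := by
      rw [sum_mul]
      refine sum_congr rfl fun l _ => ?_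
      by_cases c : β l = 0
      · rw [c, zero_mul, zero_mul]
      · have h2 : ζ l / ζ l₀ = 1 := by
          by_contra c'
          refine hc l₀ l hl₀ c (mem_erase.2 ⟨c', (Polynomial.mem_nthRootsFinset hm _).2 ?_⟩)
          rw [div_pow, hζ, hζ, div_one]
        rw [(div_eq_one_iff_eq (hz l₀)).1 h2]
    rw [h1] at h0
    exact mul_ne_zero hβ (hz l₀) h0

theorem fin_num (ε : ℝ) (hε : 0 < ε) (c : ℝ) (hc : 0 < c) : ∃ N : ℕ, ∀ n > N, ∀ g r : ℕ,
    (g : ℝ) ^ ε ≤ n → (n : ℝ) ≤ c * (g : ℝ) ^ (ε ^ 2 / 2) * r → (n : ℝ) ^ (1 - ε) ≤ r := by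
  refine ⟨⌈c ^ (2 / ε)⌉₊, fun n hn g r hgn hr => ?_⟩
  have hn0 : (0 : ℝ) < n := by exact_mod_cast (lt_of_le_of_lt (Nat.zero_le _) hn)
  have h1 : c ≤ (n : ℝ) ^ (ε / 2) := by
    have e : c = (c ^ (2 / ε)) ^ (ε / 2) := by
      rw [← Real.rpow_mul hc.le, show 2 / ε * (ε / 2) = 1 by field_simp, Real.rpow_one]
    rw [e]
    refine Real.rpow_le_rpow (by positivity) ?_ (by positivity)
    exact (Nat.le_ceil _).trans (by exact_mod_cast hn.le)
  have h2 : (g : ℝ) ^ (ε ^ 2 / 2) ≤ (n : ℝ) ^ (ε / 2) := by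
    rw [show ε ^ 2 / 2 = ε * (ε / 2) by ring, Real.rpow_mul (Nat.cast_nonneg g)]
    exact Real.rpow_le_rpow (by positivity) hgn (by positivity)
  have h3 : (n : ℝ) ≤ (n : ℝ) ^ ε * r := by
    calc (n : ℝ) ≤ c * (g : ℝ) ^ (ε ^ 2 / 2) * r := hr
      _ ≤ (n : ℝ) ^ (ε / 2) * (n : ℝ) ^ (ε / 2) * r := by gcongr
      _ = _ := by rw [← Real.rpow_add hn0, add_halves]
  rw [Real.rpow_sub hn0, Real.rpow_one, div_le_iff₀ (by positivity), mul_comm]
  exact h3

theorem fin_step (hI : StmtIdeal) (hCh : StmtChange) {F G : Type} [Field F] [Group G] [Fintype G]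
    {q n : ℕ} (ρ : Representation F G (Fin n → F)) (α : Fin q → F) (h : Fin q → G)
    (hirr : ρ.IsIrreducible) (hne : ∑ l, α l • ρ (h l) ≠ 0) (L : Type) [Field L]
    (hL : Nonempty (F →+* L) ∨ (CharZero F ∧ CharZero L ∧ IsAlgClosed L)) {K : ℝ} (hK : 0 ≤ K)
    (H : ∀ (β : Fin q → L) (V : Type) [AddCommGroup V] [Module L V] [FiniteDimensional L V]
      (σ : Representation L G V),
      (∀ U : Submodule L V, (∀ g, ∀ v ∈ U, σ g v ∈ U) → U = ⊥ ∨ U = ⊤) →
      ∑ l, β l • σ (h l) ≠ 0 → (finrank L V : ℝ) ≤ K * rk (∑ l, β l • σ (h l))) :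
    (n : ℝ) ≤ K * rk (∑ l, α l • ρ (h l)) := by
  obtain ⟨σ, β, c, h1, h2⟩ := hCh F G q n ρ α h hirr hne L hL
  have h3 := hI L G q β h K (H β) hK _ σ c h1
  rw [finrank_fin_fun] at h3
  exact h3.trans (mul_le_mul_of_nonneg_left (Nat.cast_le.2 h2) hK)

theorem final (hC : StmtCore) (hI : StmtIdeal) (hCh : StmtChange) (hR : StmtRatio) : StmtFinal := by
  intro ε hε q d e he
  rcases Nat.eq_zero_or_pos q with rfl | hq
  · exact ⟨0, fun n _ F _ G _ _ S _ _ _ ρ _ _ h α _ hne => absurd (by simp) hne⟩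
  obtain ⟨⟨B, hB⟩, hE⟩ := hR q
  obtain ⟨c₁, p1, H1⟩ := hC q d B (ε ^ 2 / 2) (by positivity)
  obtain ⟨c₂, p2, H2⟩ := hC q d e (ε ^ 2 / 2) (by positivity)
  obtain ⟨N, hN⟩ := fin_num ε hε (max c₁ c₂) (lt_max_of_lt_left p1)
  refine ⟨N, fun n hn F _ G _ _ S hS hd hch ρ hirr hg h α hh hne => ?_⟩
  have := Fintype.ofFinite G
  let h' : Fin q → G := fun l => (h ⟨0, hq⟩)⁻¹ * h l
  have hh' : ∀ l, h' l ∈ S := fun l => hh ⟨0, hq⟩ l
  have e1 : ∑ l, α l • ρ (h l) = ρ (h ⟨0, hq⟩) ∘ₗ ∑ l, α l • ρ (h' l) := by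
    rw [← Module.End.mul_eq_comp, mul_sum]
    refine sum_congr rfl fun l _ => ?_
    rw [mul_smul_comm, ← map_mul, mul_inv_cancel_left]
  have hinj : Function.Injective (ρ (h ⟨0, hq⟩)) := by
    intro v w hvw
    have := congrArg (ρ (h ⟨0, hq⟩)⁻¹) hvw
    rwa [← Module.End.mul_apply, ← Module.End.mul_apply, ← map_mul, inv_mul_cancel,
      map_one] at this
  have hne' : ∑ l, α l • ρ (h' l) ≠ 0 := fun h0 => hne (by rw [e1, h0, LinearMap.comp_zero])
  rw [e1, LinearMap.range_comp, ← (Submodule.equivMapOfInjective _ hinj _).finrank_eq]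
  refine hN n hn (Nat.card G) _ hg ?_
  have hp : CharP F (ringChar F) := ringChar.charP F
  by_cases h0 : ringChar F = 0
  · rw [h0] at hp
    have hz : CharZero F := CharP.charP_to_charZero F
    refine (fin_step hI hCh ρ α h' hirr hne' ℂ (Or.inr ⟨hz, inferInstance, inferInstance⟩)
      (by positivity) fun β V _ _ _ σ a b => H1 ℂ G V σ β h' (Nat.card G) S a (hB _ Nat.card_pos)
        (fun s _ z hz => ?_) hS hd hh' b).trans ?_
    · obtain ⟨k, hk⟩ := orderOf_dvd_natCard s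
      rw [hk, pow_mul, hz, one_pow]
    · unfold rk
      gcongr
      exact le_max_left _ _
  · have hpr : Fact (ringChar F).Prime := ⟨(CharP.char_is_prime_or_zero F _).resolve_right h0⟩
    have hs := hch.resolve_left fun _ => h0 ringChar.eq_zero
    have hL : CharP (AlgebraicClosure F) (ringChar F) :=
      charP_of_injective_algebraMap (algebraMap F (AlgebraicClosure F)).injective _
    refine (fin_step hI hCh ρ α h' hirr hne' (AlgebraicClosure F) (Or.inl ⟨algebraMap _ _⟩)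
      (by positivity) fun β V _ _ _ σ a b => H2 _ G V σ β h' e S a (hE _ e he)
        (fun s hsS z hz => ?_) hS hd hh' b).trans ?_
    · obtain ⟨k, hk⟩ := hs s hsS
      obtain ⟨j, hj⟩ := orderOf_dvd_of_pow_eq_one hk
      have h1 : (z ^ e - 1) ^ ringChar F ^ k = 0 := by
        rw [sub_pow_char_pow, ← pow_mul, hj, pow_mul, hz, one_pow, one_pow, sub_self]
      exact sub_eq_zero.1 (pow_eq_zero_iff (pow_ne_zero _ h0) |>.1 h1)
    · unfold rk
      gcongr
      exact le_max_right _ _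

end Pool.Agent.Work.MP_11a08a_al.Sol
end

-- merged part: Pool.Agent.Work.MP_11a08a_al.Sol.Main
section
/-!
Assembly.
-/

set_option autoImplicit false

namespace Pool.Agent.Work.MP_11a08a_al.Sol

theorem main : StmtFinal :=
  have hW := wt diag dual
  have hL := loc join mu
  have hSt := str dual simple
  have hN := near agg hW (pet2 hW) join hL
  final (core abs
    (w2 (gain sec hSt hN ga gc (cen join) (uni dense maxo) nilp dual basic) nil0
      (nilS diag basic (nilB sec hN dual diag basic)) basic (coset (bfc dense maxo)))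
    (block diag) rb (rank hSt simple mu (next mu) pet1 dual join hL) sec basic) ideal change ratio

end Pool.Agent.Work.MP_11a08a_al.Sol
end
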